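import Pool.Agent.P.MP_e7d440_ag.Iface

/-! Regular local rings are domains and regular parameters form regular sequences. -/

namespace Pool.Agent.P.MP_e7d440_ag

open IsLocalRing

namespace RegA

variable {R : Type} [CommRing R] [IsLocalRing R]

lemma exch (𝔞 : Ideal R) (l : List R) (hl : Ideal.ofList l ≤ maximalIdeal R) (x : R)
    (hx : x ∈ 𝔞 ⊔ Ideal.ofList l) (hx' : x ∉ 𝔞 ⊔ maximalIdeal R ^ 2) :
    ∃ l' : List R, l'.length + 1 = l.length ∧
      𝔞 ⊔ Ideal.span {x} ⊔ Ideal.ofList l' = 𝔞 ⊔ Ideal.ofList l := by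
  induction l generalizing x with
  | nil =>
    rw [Ideal.ofList_nil, sup_bot_eq] at hx
    exact (hx' (Ideal.mem_sup_left hx)).elim
  | cons a t ih =>
    rw [Ideal.ofList_cons] at hl hx ⊢
    rw [sup_left_comm] at hx
    obtain ⟨_, hc, y, hy, rfl⟩ := Submodule.mem_sup.1 hx
    obtain ⟨c, rfl⟩ := Ideal.mem_span_singleton'.1 hc
    have ha : a ∈ maximalIdeal R := hl (Ideal.mem_sup_left (Ideal.mem_span_singleton_self a))
    by_cases hu : IsUnit c
    · refine ⟨t, rfl, le_antisymm (sup_le (sup_le le_sup_left ?_) (le_sup_of_le_right le_sup_right))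
        (sup_le (le_sup_of_le_left le_sup_left) (sup_le ?_ le_sup_right))⟩
      · rw [Ideal.span_singleton_le_iff_mem, sup_left_comm]
        exact hx
      · rw [Ideal.span_singleton_le_iff_mem, ← Ideal.unit_mul_mem_iff_mem _ hu, sup_right_comm]
        have h1 := Ideal.sub_mem (𝔞 ⊔ Ideal.ofList t ⊔ Ideal.span {c * a + y})
          (Ideal.mem_sup_right (Ideal.mem_span_singleton_self _)) (Ideal.mem_sup_left hy)
        rwa [add_sub_cancel_right] at h1
    · have h2 : c * a ∈ maximalIdeal R ^ 2 := by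
        rw [pow_two]
        exact Ideal.mul_mem_mul hu ha
      obtain ⟨t', h3, h4⟩ := ih (le_sup_right.trans hl) y hy
        fun h => hx' (Ideal.add_mem _ (Ideal.mem_sup_right h2) h)
      refine ⟨a :: t', by simp [h3], ?_⟩
      have h5 : Ideal.span {c * a + y} ⊔ Ideal.span {a} = Ideal.span {y} ⊔ Ideal.span {a} := by
        refine le_antisymm (sup_le ?_ le_sup_right) (sup_le ?_ le_sup_right)
        · rw [Ideal.span_singleton_le_iff_mem]
          exact Ideal.add_mem _ (Ideal.mem_sup_right hc)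
            (Ideal.mem_sup_left (Ideal.mem_span_singleton_self _))
        · rw [Ideal.span_singleton_le_iff_mem]
          have h1 := Ideal.sub_mem (Ideal.span {c * a + y} ⊔ Ideal.span {a})
            (Ideal.mem_sup_left (Ideal.mem_span_singleton_self _)) (Ideal.mem_sup_right hc)
          rwa [add_sub_cancel_left] at h1
      rw [Ideal.ofList_cons, sup_left_comm 𝔞, ← h4, sup_assoc 𝔞, ← sup_assoc (Ideal.span _), h5]
      ac_rfl

lemma dim_nonpos {𝔞 : Ideal R} (h : ∀ q : Ideal R, q.IsPrime → 𝔞 ≤ q → q = maximalIdeal R) :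
    ringKrullDim (R ⧸ 𝔞) ≤ 0 := by
  rw [ringKrullDim_quotient]
  have : Subsingleton (PrimeSpectrum.zeroLocus (R := R) (𝔞 : Set R)) :=
    ⟨fun p q => Subtype.ext (PrimeSpectrum.ext
      ((h _ p.1.isPrime p.2).trans (h _ q.1.isPrime q.2).symm))⟩
  exact Order.krullDim_nonpos_of_subsingleton

variable [IsNoetherianRing R]

lemma dim_le_succ (𝔞 : Ideal R) {x : R} (hx : x ∈ maximalIdeal R) :
    ringKrullDim (R ⧸ 𝔞) ≤ ringKrullDim (R ⧸ (𝔞 ⊔ Ideal.span {x})) + 1 := by
  have h1 := ringKrullDim_le_ringKrullDim_quotient_add_encard (R := R ⧸ 𝔞)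
    {Ideal.Quotient.mk 𝔞 x} (by
      rintro _ rfl
      refine Ring.map_jacobson_le (Ideal.Quotient.mk 𝔞) ⟨x, ?_, rfl⟩
      rwa [ringJacobson_eq_maximalIdeal R])
  rw [Set.encard_singleton, ← Set.image_singleton, ← Ideal.map_span,
    ringKrullDim_eq_of_ringEquiv (DoubleQuot.quotQuotEquivQuotSup 𝔞 (Ideal.span {x}))] at h1
  exact h1

lemma dim_succ {𝔞 : Ideal R} {x : R} (hx : x ∈ maximalIdeal R) {n : ℕ}
    (h : ((n + 1 : ℕ) : WithBot ℕ∞) ≤ ringKrullDim (R ⧸ 𝔞)) :
    (n : WithBot ℕ∞) ≤ ringKrullDim (R ⧸ (𝔞 ⊔ Ideal.span {x})) := by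
  have h1 := h.trans (dim_le_succ 𝔞 hx)
  generalize ringKrullDim (R ⧸ (𝔞 ⊔ Ideal.span {x})) = d at h1
  induction d with
  | bot => simp at h1
  | coe d =>
    induction d with
    | top => exact le_top
    | coe d =>
      have h2 : n + 1 ≤ d + 1 := by exact_mod_cast h1
      exact_mod_cast Nat.le_of_succ_le_succ h2

lemma dim_le_length (𝔞 : Ideal R) (l : List R) (h : 𝔞 ⊔ Ideal.ofList l = maximalIdeal R) :
    ringKrullDim (R ⧸ 𝔞) ≤ l.length := by
  induction l generalizing 𝔞 with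
  | nil =>
    rw [Ideal.ofList_nil, sup_bot_eq] at h
    exact dim_nonpos fun q hq hle => ((maximalIdeal.isMaximal R).eq_of_le hq.ne_top (h ▸ hle)).symm
  | cons x l ih =>
    rw [Ideal.ofList_cons, ← sup_assoc] at h
    have hx : x ∈ maximalIdeal R :=
      h ▸ Ideal.mem_sup_left (Ideal.mem_sup_right (Ideal.mem_span_singleton_self x))
    refine (dim_le_succ 𝔞 hx).trans ?_
    rw [List.length_cons, Nat.cast_succ]
    gcongr
    exact ih _ h

lemma isPrime_of (n : ℕ) (𝔞 : Ideal R) (l : List R) (hl : l.length = n)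
    (h : 𝔞 ⊔ Ideal.ofList l = maximalIdeal R) (hd : (n : WithBot ℕ∞) ≤ ringKrullDim (R ⧸ 𝔞)) :
    𝔞.IsPrime := by
  classical
  induction n generalizing 𝔞 l with
  | zero =>
    rw [List.length_eq_zero_iff.1 hl, Ideal.ofList_nil, sup_bot_eq] at h
    rw [h]
    infer_instance
  | succ n ih =>
    have hne : ¬ ∀ q : Ideal R, q.IsPrime → 𝔞 ≤ q → q = maximalIdeal R := fun h0 => by
      have h1 : n + 1 ≤ 0 := by exact_mod_cast hd.trans (dim_nonpos h0)
      omega
    have hfin := Ideal.finite_minimalPrimes_of_isNoetherianRing R 𝔞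
    obtain ⟨x, hx, hx'⟩ : ∃ x ∈ maximalIdeal R,
        ∀ p ∈ insert (𝔞 ⊔ maximalIdeal R ^ 2) hfin.toFinset, x ∉ p := by
      by_contra h0
      push Not at h0
      obtain ⟨p, hp, hle⟩ := (Ideal.subset_union_prime
        (s := insert (𝔞 ⊔ maximalIdeal R ^ 2) hfin.toFinset) (f := id) (I := maximalIdeal R)
        (𝔞 ⊔ maximalIdeal R ^ 2) (𝔞 ⊔ maximalIdeal R ^ 2) (fun p hp h1 _ =>
          (hfin.mem_toFinset.1 ((Finset.mem_insert.1 hp).resolve_left h1)).1.1)).1
        (fun x hx => by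
          obtain ⟨p, hp, hxp⟩ := h0 x hx
          exact Set.mem_biUnion hp hxp)
      refine hne fun q hq hle' => le_antisymm (le_maximalIdeal hq.ne_top) ?_
      rcases Finset.mem_insert.1 hp with rfl | hp
      · refine le_trans (Submodule.le_of_le_smul_of_le_jacobson_bot (IsNoetherian.noetherian _)
          (maximalIdeal_le_jacobson ⊥) ?_) hle'
        rwa [smul_eq_mul, ← pow_two]
      · have hp' := hfin.mem_toFinset.1 hp
        exact le_trans hle (hp'.2 ⟨hq, hle'⟩ ((le_maximalIdeal hq.ne_top).trans hle))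
    obtain ⟨l', h1, h2⟩ := exch 𝔞 l (le_sup_right.trans h.le) x (h ▸ hx)
      (hx' _ (Finset.mem_insert_self _ _))
    have hpr := ih (𝔞 ⊔ Ideal.span {x}) l' (by omega) (h2.trans h) (dim_succ hx hd)
    obtain ⟨p, hp, hle⟩ := Ideal.exists_minimalPrimes_le (I := 𝔞) (J := 𝔞 ⊔ Ideal.span {x})
      le_sup_left
    have hxp : x ∉ p := hx' p (Finset.mem_insert_of_mem (hfin.mem_toFinset.2 hp))
    have h3 : p ≤ 𝔞 := by
      refine Submodule.le_of_le_smul_of_le_jacobson_bot (IsNoetherian.noetherian _)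
        (maximalIdeal_le_jacobson ⊥) fun y hy => ?_
      obtain ⟨a, ha, _, hb, rfl⟩ := Submodule.mem_sup.1 (hle hy)
      obtain ⟨z, rfl⟩ := Ideal.mem_span_singleton'.1 hb
      have h4 : z * x ∈ p := (Ideal.add_mem_iff_right p (hp.1.2 ha)).1 hy
      refine Ideal.add_mem _ (Ideal.mem_sup_left ha) (Ideal.mem_sup_right ?_)
      rw [mul_comm]
      exact Ideal.mul_mem_mul hx ((hp.1.1.mem_or_mem h4).resolve_right hxp)
    rw [le_antisymm hp.1.2 h3]
    exact hp.1.1

lemma regSeq_of (𝔞 : Ideal R) (l : List R) (h : 𝔞 ⊔ Ideal.ofList l = maximalIdeal R)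
    (hd : (l.length : WithBot ℕ∞) ≤ ringKrullDim (R ⧸ 𝔞)) :
    RegSeq 𝔞 l ∧ ∀ k, (𝔞 ⊔ Ideal.ofList (l.take k)).IsPrime := by
  have hp := isPrime_of _ 𝔞 l rfl h hd
  induction l generalizing 𝔞 with
  | nil => exact ⟨trivial, fun k => by simpa using hp⟩
  | cons x l ih =>
    rw [Ideal.ofList_cons, ← sup_assoc] at h
    have hx : x ∈ maximalIdeal R :=
      h ▸ Ideal.mem_sup_left (Ideal.mem_sup_right (Ideal.mem_span_singleton_self x))
    have hd' := dim_succ hx hd
    obtain ⟨h1, h2⟩ := ih _ h hd' (isPrime_of _ _ l rfl h hd')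
    have hxa : x ∉ 𝔞 := fun hxa => by
      rw [sup_eq_left.2 ((Ideal.span_singleton_le_iff_mem _).2 hxa)] at h
      have h3 : l.length + 1 ≤ l.length := by exact_mod_cast hd.trans (dim_le_length 𝔞 l h)
      omega
    refine ⟨⟨fun g hg => (hp.mem_or_mem hg).resolve_left hxa, h1⟩, fun k => ?_⟩
    cases k with
    | zero => simpa using hp
    | succ k =>
      rw [List.take_succ_cons, Ideal.ofList_cons, ← sup_assoc]
      exact h2 k

end RegA

theorem reg : S_reg := by
  intro R _ _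
  have hb : ringKrullDim (R ⧸ (⊥ : Ideal R)) = ringKrullDim R :=
    ringKrullDim_eq_of_ringEquiv (RingEquiv.quotientBot R)
  refine ⟨?_, fun l hl hd => ?_⟩
  · obtain ⟨s, hs, hs'⟩ := Submodule.FG.exists_span_finset_card_eq_spanFinrank
      (IsNoetherian.noetherian (maximalIdeal R))
    have h1 : (⊥ : Ideal R).IsPrime := RegA.isPrime_of _ ⊥ s.toList rfl
      (by rw [bot_sup_eq, ← hs', Ideal.ofList]; simp)
      (by rw [hb, Finset.length_toList, hs, IsRegularLocalRing.spanFinrank_maximalIdeal])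
    exact IsDomain.of_bot_isPrime R
  · simpa only [bot_sup_eq] using RegA.regSeq_of ⊥ l (by rwa [bot_sup_eq]) (by rw [hb, hd])

end Pool.Agent.P.MP_e7d440_ag
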