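import Pool.Agent.P.MP_e7d440_ag.Iface

/-! The lift of a section to the canonical module of the Rees algebra. -/

namespace Pool.Agent.P.MP_e7d440_ag

namespace AtwoA

theorem covers {Q : Type} [CommRing Q] {J 𝔓 : Ideal Q} [J.IsPrime] [𝔓.IsPrime] {c : ℕ}
    (hJ : J.height = c) (hP : 𝔓.height = c + 1) (hle : J ≤ 𝔓) : Covers J 𝔓 := by
  refine ⟨lt_of_le_of_ne hle fun h => ?_, fun 𝔔 hQ h1 h2 => ?_⟩
  · rw [h, hP] at hJ
    have : c + 1 = c := by exact_mod_cast hJ
    omega
  · by_contra hn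
    push Not at hn
    have a1 := Ideal.height_add_one_le_of_lt_of_isPrime (lt_of_le_of_ne h1 hn.1.symm)
    have a2 := Ideal.height_add_one_le_of_lt_of_isPrime (lt_of_le_of_ne h2 hn.2)
    rw [hJ] at a1
    rw [hP] at a2
    have a3 : (c : ℕ∞) + 1 + 1 ≤ c + 1 := (add_le_add_left a1 1).trans a2
    have : c + 1 + 1 ≤ c + 1 := by exact_mod_cast a3
    omega

variable {O Q L σ κ : Type} [CommRing O] [CommRing Q] [Field L] [Algebra O Q] [Algebra O L]
  [Fintype σ] [Fintype κ] [DecidableEq σ] [DecidableEq κ]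

theorem wr_X {ι : Type} [Fintype ι] [DecidableEq ι] (j : Jet O Q L ι κ) :
    wr j.D (fun b => j.φ (j.X (Sum.inl b))) = 1 := by
  unfold wr
  rw [← Matrix.det_one (n := ι) (R := L)]
  congr 1
  ext b a
  rw [Matrix.of_apply, j.DX, Matrix.one_apply]
  simp only [eq_comm]

theorem wr_elim (j : Jet O Q L (σ ⊕ Unit) κ) (t : Q) :
    wr j.D (fun b => j.φ (Sum.elim (fun s => j.X (Sum.inl (Sum.inl s))) (fun _ => t) b)) =
      j.D (Sum.inr ()) (j.φ t) := by
  unfold wr
  have : (Matrix.of fun b a => j.D a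
      (j.φ (Sum.elim (fun s => j.X (Sum.inl (Sum.inl s))) (fun _ => t) b))) =
      Matrix.fromBlocks 1 0 (Matrix.of fun _ a => j.D (Sum.inl a) (j.φ t))
        (Matrix.of fun _ _ : Unit => j.D (Sum.inr ()) (j.φ t)) := by
    ext (b | b) (a | a)
    · simp [j.DX, Matrix.one_apply, eq_comm]
    · simp [j.DX]
    · simp
    · simp
  rw [this, Matrix.det_fromBlocks_zero₁₂, Matrix.det_one, one_mul, Matrix.det_unique]
  rfl

end AtwoA

theorem atwo (hL : S_link) (hC : S_cm) : S_a2 := by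
  intro O Q L σ κ β _ _ _ _ _ _ _ _ _ _ _ j z π 𝔟 h hint hfrac hz hCI hht hgen hjac hπ hh h𝔟
    Θ γ r₁ r₂ N hγ hΘ hN a ha
  have := IsRegularLocalRing.of_isRegularRing_of_isLocalRing (R := Q)
  have hτ : j.φ (j.X (Sum.inl (Sum.inr ()))) ≠ 0 := by
    intro h0
    have := j.DX (Sum.inr ()) (Sum.inr ())
    rw [h0, map_zero, if_pos rfl] at this
    exact zero_ne_one this
  have hJ : j.J.IsPrime := RingHom.ker_isPrime _
  obtain ⟨w, hw, e⟩ := hC.s2 j.ρ hCI hht (Ideal.span_le.2 (Set.range_subset_iff.2 hz)) hgen hfrac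
    (j.φ a * Θ / j.φ (j.X (Sum.inl (Sum.inr ()))) * j.jac z) (by
      intro 𝔓 hP hle hP1
      obtain ⟨μ, -, m1, -, m3, m4, m5, -⟩ := hL O Q L (σ ⊕ Unit) κ j z hint hfrac hz hCI hht hgen
        hjac 𝔓 hP (AtwoA.covers hht hP1 hle)
      refine m1 _ ?_
      by_cases hp : algebraMap O Q π ∈ 𝔓
      · have h1 := ((loc_map j.ρ hP a).mul hP (loc_map j.ρ hP r₁)).mul hP
          (m4 π hp (hπ 𝔓 hP hp) γ hγ)
        convert h1 using 1
        rw [hΘ]
        change _ = j.φ a * j.φ r₁ * _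
        field_simp
      · have hpN : algebraMap O Q π ^ N ∉ 𝔓 := fun hm => hp (hP.mem_of_pow_mem N hm)
        have e1 : j.φ (algebraMap O Q π ^ N) = algebraMap O L π ^ N := by
          rw [map_pow, AlgHom.commutes]
        have n1 : j.φ (algebraMap O Q π ^ N) ≠ 0 := fun h0 => hpN (hle h0)
        have hΘ' : loc j.ρ 𝔓 Θ := by
          convert (loc_map j.ρ hP r₂).mul hP (loc_inv j.ρ hle hpN) using 1
          change Θ = j.φ r₂ * (j.φ (algebraMap O Q π ^ N))⁻¹
          rw [← hN, ← e1]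
          field_simp
        suffices hs : loc j.ρ 𝔓 (j.φ a / j.φ (j.X (Sum.inl (Sum.inr ()))) * μ) by
          convert hΘ'.mul hP hs using 1
          ring
        by_cases hX : j.X (Sum.inl (Sum.inr ())) ∈ 𝔓
        · by_cases hb : 𝔟 ≤ 𝔓
          · have h1 := m5 (fun b => j.X (Sum.inl b)) (Sum.inr ()) a (hb ha) hτ
            rwa [AtwoA.wr_X, mul_one] at h1
          · obtain ⟨i, hi⟩ : ∃ i, h i ∉ 𝔓 := by
              by_contra hn
              push Not at hn
              exact hb (h𝔟 𝔓 hP hle hn)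
            have n2 : j.φ (h i) ≠ 0 := fun h0 => hi (hle h0)
            have h1 := m3 (Sum.elim (fun s => j.X (Sum.inl (Sum.inl s))) fun _ => h i)
            rw [AtwoA.wr_elim, eq_div_of_mul_eq hτ (hh i)] at h1
            convert ((loc_map j.ρ hP a).mul hP (loc_inv j.ρ hle hi)).mul hP h1 using 1
            change _ = j.φ a * (j.φ (h i))⁻¹ * _
            field_simp
        · have h1 := m3 fun b => j.X (Sum.inl b)
          rw [AtwoA.wr_X, one_mul] at h1
          convert ((loc_map j.ρ hP a).mul hP (loc_inv j.ρ hle hX)).mul hP h1 using 1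
          rw [div_eq_mul_inv]
          rfl)
  refine ⟨w, hw, ?_⟩
  change j.φ w = _ at e
  rw [e]
  field_simp

end Pool.Agent.P.MP_e7d440_ag
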