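import Pool.Agent.P.MP_e7d440_ag.Iface

/-! Associated primes and regular sequences in a Noetherian ring. -/

namespace Pool.Agent.P.MP_e7d440_ag

namespace BasicA

variable {Q : Type} [CommRing Q] {𝔞 𝔓 : Ideal Q}

theorem mem_colon_mk (g r : Q) :
    r ∈ (⊥ : Submodule Q (Q ⧸ 𝔞)).colon {Ideal.Quotient.mk 𝔞 g} ↔ r * g ∈ 𝔞 := by
  rw [Submodule.mem_colon_singleton, Submodule.mem_bot, ← Ideal.Quotient.eq_zero_iff_mem]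
  rfl

theorem ass_iff [IsNoetherianRing Q] : Ass 𝔞 𝔓 ↔ IsAssociatedPrime 𝔓 (Q ⧸ 𝔞) := by
  rw [isAssociatedPrime_iff]
  refine and_congr_right fun _ => ⟨fun ⟨g, hg⟩ => ⟨Ideal.Quotient.mk 𝔞 g, ?_⟩, fun ⟨x, hx⟩ => ?_⟩
  · ext r
    rw [hg, mem_colon_mk]
  · obtain ⟨g, rfl⟩ := Ideal.Quotient.mk_surjective x
    exact ⟨g, fun r => by rw [hx, mem_colon_mk]⟩

theorem assFin [IsNoetherianRing Q] (𝔞 : Ideal Q) : {𝔓 | Ass 𝔞 𝔓}.Finite :=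
  (associatedPrimes.finite Q (Q ⧸ 𝔞)).subset fun _ h => ass_iff.mp h

theorem assLe (h : Ass 𝔞 𝔓) : 𝔞 ≤ 𝔓 := by
  obtain ⟨_, g, hg⟩ := h
  exact fun r hr => (hg r).mpr (𝔞.mul_mem_right g hr)

theorem assMem [IsNoetherianRing Q] {g : Q} (hg : g ∉ 𝔞) :
    ∃ 𝔓, Ass 𝔞 𝔓 ∧ ∀ s, s * g ∈ 𝔞 → s ∈ 𝔓 := by
  obtain ⟨P, h1, h2⟩ := exists_le_isAssociatedPrime_of_isNoetherianRing Q (Ideal.Quotient.mk 𝔞 g)
    (mt Ideal.Quotient.eq_zero_iff_mem.mp hg)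
  exact ⟨P, ass_iff.mpr h1, fun s hs => h2 ((mem_colon_mk g s).mpr hs)⟩

theorem nzdIff [IsNoetherianRing Q] {r : Q} : NZD 𝔞 r ↔ ∀ 𝔓, Ass 𝔞 𝔓 → r ∉ 𝔓 := by
  refine ⟨fun h P ⟨hP, g, hg⟩ hr => hP.ne_top ((Ideal.eq_top_iff_one _).mpr ((hg 1).mpr ?_)),
    fun h g hg => by_contra fun hn => ?_⟩
  · rw [one_mul]
    exact h g ((hg r).mp hr)
  · obtain ⟨P, h1, h2⟩ := assMem hn
    exact h P h1 (h2 r hg)

theorem avoid {s : Set (Ideal Q)} (hs : s.Finite) (hp : ∀ P ∈ s, P.IsPrime) {𝔟 : Ideal Q}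
    (h : ∀ P ∈ s, ¬ 𝔟 ≤ P) : ∃ b ∈ 𝔟, ∀ P ∈ s, b ∉ P := by
  by_contra! hn
  obtain ⟨P, h1, h2⟩ := (Ideal.subset_union_prime_finite hs (f := id) ⊥ ⊥
    (fun P hP _ _ => hp P hP) (I := 𝔟)).mp fun b hb => by
      obtain ⟨P, h1, h2⟩ := hn b hb
      exact Set.mem_biUnion h1 h2
  exact h P h1 h2

theorem davis [IsNoetherianRing Q] (𝔞 𝔟 : Ideal Q) (g : Q)
    (h : ∀ 𝔓, Ass 𝔞 𝔓 → g ∈ 𝔓 → ¬ 𝔟 ≤ 𝔓) : ∃ b ∈ 𝔟, NZD 𝔞 (g + b) := by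
  have hf : {P | Maximal (Ass 𝔞) P ∧ g ∉ P}.Finite := (assFin 𝔞).subset fun _ hP => hP.1.1
  obtain ⟨b, hb, hb'⟩ := avoid (s := {P | Ass 𝔞 P ∧ g ∈ P}) ((assFin 𝔞).subset fun _ hP => hP.1)
    (fun _ hP => hP.1.1) (𝔟 := 𝔟 ⊓ hf.toFinset.inf id) fun P hP hle => by
      rcases hP.1.1.inf_le.mp hle with h1 | h1
      · exact h P hP.1 hP.2 h1
      · obtain ⟨P', h2, h3⟩ := hP.1.1.inf_le'.mp h1
        rw [Set.Finite.mem_toFinset] at h2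
        exact h2.2 (h2.1.2 hP.1 h3 hP.2)
  refine ⟨b, hb.1, nzdIff.mpr fun P hP hm => ?_⟩
  obtain ⟨P', h1, h2⟩ := (assFin 𝔞).exists_le_maximal hP
  by_cases hg : g ∈ P'
  · exact hb' P' ⟨h2.1, hg⟩ ((P'.add_mem_iff_right hg).mp (h1 hm))
  · exact hg ((P'.add_mem_iff_left (Finset.inf_le (f := id)
      (hf.mem_toFinset.mpr ⟨h2, hg⟩) hb.2)).mp (h1 hm))

theorem avoid2 [IsNoetherianRing Q] (𝔞 𝔞' 𝔟 : Ideal Q) (h : ∀ 𝔓, Ass 𝔞 𝔓 → ¬ 𝔟 ≤ 𝔓)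
    (h' : ∀ 𝔓, Ass 𝔞' 𝔓 → ¬ 𝔟 ≤ 𝔓) : ∃ b ∈ 𝔟, NZD 𝔞 b ∧ NZD 𝔞' b := by
  obtain ⟨b, hb, hb'⟩ := avoid ((assFin 𝔞).union (assFin 𝔞'))
    (fun _ hP => hP.elim (·.1) (·.1)) (𝔟 := 𝔟) fun P hP => hP.elim (h P) (h' P)
  exact ⟨b, hb, nzdIff.mpr fun P hP => hb' P (Or.inl hP), nzdIff.mpr fun P hP => hb' P (Or.inr hP)⟩

theorem minAss [IsNoetherianRing Q] (h : 𝔓 ∈ 𝔞.minimalPrimes) : Ass 𝔞 𝔓 :=
  ass_iff.mpr (Module.associatedPrimes.minimalPrimes_annihilator_subset_associatedPrimes Q (Q ⧸ 𝔞)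
    (by rwa [Ideal.annihilator_quotient]))

theorem regAppend (𝔞 : Ideal Q) (l l' : List Q) :
    RegSeq 𝔞 (l ++ l') ↔ RegSeq 𝔞 l ∧ RegSeq (𝔞 ⊔ Ideal.ofList l) l' := by
  induction l generalizing 𝔞 with
  | nil => simp [RegSeq]
  | cons r l ih => simp only [List.cons_append, RegSeq, ih, Ideal.ofList_cons, sup_assoc, and_assoc]

theorem ciAppend {c : ℕ} {l : List Q} (h : CI 𝔞 c) (hl : RegSeq 𝔞 l) :
    CI (𝔞 ⊔ Ideal.ofList l) (c + l.length) := by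
  obtain ⟨l₀, rfl, h1, rfl⟩ := h
  exact ⟨l₀ ++ l, List.length_append, (regAppend _ _ _).mpr ⟨h1, by rwa [bot_sup_eq]⟩,
    Ideal.ofList_append _ _⟩

theorem ciSucc {c : ℕ} {r : Q} (h : CI 𝔞 c) (hr : NZD 𝔞 r) :
    CI (𝔞 ⊔ Ideal.span {r}) (c + 1) :=
  Ideal.ofList_singleton r ▸ ciAppend (l := [r]) h ⟨hr, trivial⟩

theorem ht_aux [IsNoetherianRing Q] (l : List Q) (k : ℕ)
    (h : ∀ P : Ideal Q, P.IsPrime → 𝔞 ≤ P → (k : ℕ∞) ≤ P.height) (hl : RegSeq 𝔞 l)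
    (hP : 𝔓.IsPrime) (hle : 𝔞 ⊔ Ideal.ofList l ≤ 𝔓) : ((k + l.length : ℕ) : ℕ∞) ≤ 𝔓.height := by
  induction l generalizing 𝔞 k with
  | nil => exact h _ hP (le_sup_left.trans hle)
  | cons r l ih =>
    rw [List.length_cons, add_comm l.length, ← add_assoc]
    refine ih (k + 1) (fun P hP' h1 => ?_) hl.2 (by rwa [sup_assoc, ← Ideal.ofList_cons])
    obtain ⟨P', h2, h3⟩ := Ideal.exists_minimalPrimes_le (le_sup_left.trans h1)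
    have := h2.1.1
    refine le_trans ?_ (Ideal.height_add_one_le_of_lt_of_isPrime (h3.lt_of_ne fun e =>
      nzdIff.mp hl.1 P' (minAss h2) (e ▸ h1 (Ideal.mem_sup_right (Ideal.mem_span_singleton_self r)))))
    rw [Nat.cast_succ]
    exact add_le_add_left (h P' this h2.1.2) _

theorem ciHt [IsNoetherianRing Q] {c : ℕ} (h : CI 𝔞 c) (hP : 𝔓.IsPrime) (hle : 𝔞 ≤ 𝔓) :
    (c : ℕ∞) ≤ 𝔓.height := by
  obtain ⟨l, rfl, h1, rfl⟩ := h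
  simpa using ht_aux l 0 (fun _ _ _ => by simp) h1 hP (by rwa [bot_sup_eq])

section
variable {R : Type} [CommRing R] [Algebra Q R] (M : Submonoid Q) [IsLocalization M R]
include M

theorem nzdLoc {r : Q} (h : NZD 𝔞 r) : NZD (𝔞.map (algebraMap Q R)) (algebraMap Q R r) := by
  intro g hg
  obtain ⟨⟨g, s⟩, rfl⟩ := IsLocalization.mk'_surjective M g
  rw [IsLocalization.mul_mk'_eq_mk'_of_mul] at hg
  rw [IsLocalization.mk'_mem_map_algebraMap_iff] at hg ⊢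
  obtain ⟨t, ht, h1⟩ := hg
  exact ⟨t, ht, h _ (by rwa [mul_left_comm])⟩

theorem regLoc {l : List Q} (h : RegSeq 𝔞 l) :
    RegSeq (𝔞.map (algebraMap Q R)) (l.map (algebraMap Q R)) := by
  induction l generalizing 𝔞 with
  | nil => trivial
  | cons r l ih =>
    have := ih h.2
    rw [Ideal.map_sup, Ideal.map_span, Set.image_singleton] at this
    exact ⟨nzdLoc M h.1, this⟩

theorem ciLoc {c : ℕ} (h : CI 𝔞 c) : CI (𝔞.map (algebraMap Q R)) c := by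
  obtain ⟨l, rfl, h1, rfl⟩ := h
  exact ⟨l.map (algebraMap Q R), List.length_map _, Ideal.map_bot (f := algebraMap Q R) ▸ regLoc M h1,
    (Ideal.map_ofList _ _).symm⟩

end

theorem ofFn {d : ℕ} (y : Fin d → Q) : Ideal.ofList (List.ofFn y) = sp y :=
  congrArg Ideal.span (Set.ext fun _ => List.mem_ofFn)

end BasicA

open BasicA in
theorem basic : S_basic :=
  ⟨assFin, assLe, assMem, nzdIff, davis, avoid2, minAss, regAppend, ciAppend, ciSucc, ciHt,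
    fun M _ _ _ => ciLoc M, ofFn⟩

end Pool.Agent.P.MP_e7d440_ag
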