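import Pool.Agent.P.MP_e7d440_ag.Iface

/-! Unmixedness in regular local rings and its consequences. -/

namespace Pool.Agent.P.MP_e7d440_ag

open IsLocalRing

namespace CmA

theorem dim_quot {R : Type} [CommRing R] (P : PrimeSpectrum R) :
    ringKrullDim (R ⧸ P.asIdeal) = (Order.coheight P : ℕ∞) := by
  rw [ringKrullDim_quotient, Order.coheight_eq_krullDim_Ici]
  refine Order.krullDim_eq_of_orderIso (OrderIso.setCongr _ _ ?_)
  ext Q
  simp only [PrimeSpectrum.mem_zeroLocus, SetLike.coe_subset_coe, Set.mem_Ici]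
  rfl

theorem ht_add {R : Type} [CommRing R] (P : PrimeSpectrum R) :
    ((P.asIdeal.height + Order.coheight P : ℕ∞) : WithBot ℕ∞) ≤ ringKrullDim R := by
  have : Nonempty (PrimeSpectrum R) := ⟨P⟩
  rw [ringKrullDim, Order.krullDim_eq_iSup_height_add_coheight_of_nonempty, WithBot.coe_le_coe,
    PrimeSpectrum.height_eq_orderHeight]
  exact le_iSup (fun a : PrimeSpectrum R => Order.height a + Order.coheight a) P

theorem dim_le {R : Type} [CommRing R] [IsLocalRing R] [IsNoetherianRing R] {P : Ideal R}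
    (hP : P.IsPrime) {n : ℕ} (x : Fin n → R) (hx : ∀ i, x i ∈ maximalIdeal R)
    (h : ∀ Q : Ideal R, Q.IsPrime → P ≤ Q → (∀ i, x i ∈ Q) → Q = maximalIdeal R) :
    ringKrullDim (R ⧸ P) ≤ n := by
  classical
  have : IsLocalRing (R ⧸ P) :=
    IsLocalRing.of_surjective' (Ideal.Quotient.mk P) Ideal.Quotient.mk_surjective
  have hloc : IsLocalHom (Ideal.Quotient.mk P) :=
    IsLocalHom.of_surjective _ Ideal.Quotient.mk_surjective
  let s : Finset (R ⧸ P) := Finset.univ.image fun i => Ideal.Quotient.mk P (x i)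
  have hm : maximalIdeal (R ⧸ P) ∈ (Ideal.span (s : Set (R ⧸ P))).minimalPrimes := by
    refine ⟨⟨inferInstance, Ideal.span_le.2 fun a ha => ?_⟩, fun Q hQ _ a ha => ?_⟩
    · obtain ⟨i, -, rfl⟩ := Finset.mem_image.1 ha
      exact map_nonunit (Ideal.Quotient.mk P) _ (hx i)
    · have := hQ.1
      have h1 := h (Q.comap (Ideal.Quotient.mk P)) inferInstance
        (fun r hr => by
          rw [Ideal.mem_comap, Ideal.Quotient.eq_zero_iff_mem.2 hr]
          exact Q.zero_mem)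
        (fun i => hQ.2 (Ideal.subset_span (Finset.mem_image.2 ⟨i, Finset.mem_univ _, rfl⟩)))
      obtain ⟨r, rfl⟩ := Ideal.Quotient.mk_surjective a
      rw [← Ideal.mem_comap, h1]
      exact fun hu => ha (hu.map _)
  have h2 := Ideal.height_le_card_of_mem_minimalPrimes_span_finset hm
  have h3 : s.card ≤ n := Finset.card_image_le.trans (by simp)
  rw [← maximalIdeal_height_eq_ringKrullDim]
  have h4 : (maximalIdeal (R ⧸ P)).height ≤ (n : ℕ∞) := h2.trans (by exact_mod_cast h3)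
  exact_mod_cast h4

theorem ext (hD : S_dep) {R : Type} [CommRing R] [IsLocalRing R] [IsNoetherianRing R] (e : ℕ)
    (l : List R) : ∀ (I : Ideal R) (p : List R), (∀ t ∈ p, t ∈ maximalIdeal R) → RegSeq I p →
      (∀ t ∈ l, t ∈ maximalIdeal R) → RegSeq I l → p.length = e + l.length →
      ∃ p' : List R, p'.length = e ∧ (∀ t ∈ p', t ∈ maximalIdeal R) ∧
        RegSeq (I ⊔ Ideal.ofList l) p' := by
  induction l with
  | nil =>
    intro I p hp h _ _ hl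
    exact ⟨p, by simpa using hl, hp, by simpa using h⟩
  | cons r l ih =>
    intro I p hp h hl h' hlen
    obtain ⟨p1, a1, a2, a3⟩ := hD.drop (e := e + l.length) hp h hlen (hl r (by simp)) h'.1
    obtain ⟨p', b1, b2, b3⟩ := ih _ p1 a2 a3 (fun t ht => hl t (by simp [ht])) h'.2 a1
    exact ⟨p', b1, b2, by rwa [Ideal.ofList_cons, ← sup_assoc]⟩

theorem exists_par (hR : S_reg) (R : Type) [CommRing R] [IsRegularLocalRing R] :
    ∃ p : List R, (∀ t ∈ p, t ∈ maximalIdeal R) ∧ RegSeq ⊥ p ∧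
      (p.length : WithBot ℕ∞) = ringKrullDim R := by
  obtain ⟨s, h1, h2⟩ := Submodule.FG.exists_span_finset_card_eq_spanFinrank
    (IsNoetherian.noetherian (maximalIdeal R))
  have h3 : Ideal.ofList s.toList = maximalIdeal R := by
    rw [← h2, Ideal.ofList]
    congr 1
    ext a
    simp
  have h4 : (s.toList.length : WithBot ℕ∞) = ringKrullDim R := by
    rw [Finset.length_toList, h1]
    exact IsRegularLocalRing.spanFinrank_maximalIdeal
  exact ⟨s.toList, fun t ht => h3 ▸ Ideal.subset_span ht, ((hR R).2 _ h3 h4).1, h4⟩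

section

variable (hB : S_basic) (hR : S_reg) (hD : S_dep)
include hB hR hD

theorem unmix {R : Type} [CommRing R] [IsRegularLocalRing R] {𝔞 𝔓 : Ideal R} {c : ℕ}
    (h : CI 𝔞 c) (hA : Ass 𝔞 𝔓) :
    𝔓.height = c ∧ (c : WithBot ℕ∞) + ringKrullDim (R ⧸ 𝔓) = ringKrullDim R := by
  obtain ⟨p, hp1, hp2, hp3⟩ := exists_par hR R
  have hle := hB.assLe hA
  have h1 := hB.ciHt h hA.1 hle
  have h2 := ht_add (⟨𝔓, hA.1⟩ : PrimeSpectrum R)
  have h3 := dim_quot (⟨𝔓, hA.1⟩ : PrimeSpectrum R)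
  simp only at h2 h3
  rw [← hp3] at h2
  have h2' : 𝔓.height + Order.coheight (⟨𝔓, hA.1⟩ : PrimeSpectrum R) ≤ (p.length : ℕ∞) := by
    exact_mod_cast h2
  have h4 : c ≤ p.length := by
    have : (c : ℕ∞) ≤ p.length := h1.trans (le_self_add.trans h2')
    exact_mod_cast this
  obtain ⟨e, he⟩ := Nat.exists_eq_add_of_le' h4
  obtain ⟨l, rfl, hl2, rfl⟩ := h
  obtain ⟨p', b1, b2, b3⟩ := ext hD e l ⊥ p hp1 hp2
    (fun t ht => le_maximalIdeal hA.1.ne_top (hle (Ideal.subset_span ht))) hl2 he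
  rw [bot_sup_eq] at b3
  have h5 := hD.leDim b2 b3 hA
  rw [h3, b1] at h5
  have h5' : (e : ℕ∞) ≤ Order.coheight (⟨𝔓, hA.1⟩ : PrimeSpectrum R) := by exact_mod_cast h5
  rw [h3, ← hp3, he]
  rw [he] at h2'
  generalize Order.coheight (⟨𝔓, hA.1⟩ : PrimeSpectrum R) = B at h2' h5'
  generalize 𝔓.height = A at h1 h2'
  have hA' : A ≠ ⊤ := fun h => by simp [h] at h2'
  have hB' : B ≠ ⊤ := fun h => by simp [h] at h2'
  lift A to ℕ using hA'
  lift B to ℕ using hB'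
  have k1 : l.length ≤ A := by exact_mod_cast h1
  have k2 : e ≤ B := by exact_mod_cast h5'
  have k3 : A + B ≤ e + l.length := by exact_mod_cast h2'
  have k4 : A = l.length := by omega
  have k5 : B = e := by omega
  subst k4 k5
  refine ⟨rfl, ?_⟩
  norm_cast
  omega

theorem ass_eq {R : Type} [CommRing R] [IsRegularLocalRing R] {𝔷 J P : Ideal R} {c : ℕ}
    (h : CI 𝔷 c) (hJ : J.IsPrime) (hc : J.height = c) (hP : Ass 𝔷 P) (hle : J ≤ P) : J = P :=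
  J.eq_of_le_of_height_le hle (by rw [(unmix hB hR hD h hP).1, hc])

theorem avoid {R : Type} [CommRing R] [IsRegularLocalRing R] {𝔷 J : Ideal R} {c : ℕ} {t : R}
    (h : CI 𝔷 c) (hJ : J.IsPrime) (hc : J.height = c) (ht : t ∉ J) :
    ∃ j ∈ J ^ 2, NZD 𝔷 (t + j) := by
  refine hB.davis 𝔷 (J ^ 2) t fun P hP htP hle => ht ?_
  have := hP.1
  rwa [ass_eq hB hR hD h hJ hc hP (Ideal.IsPrime.le_of_pow_le hle)]

theorem ch1_fin {R : Type} [CommRing R] [IsRegularLocalRing R] {J : Ideal R} (n : ℕ) :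
    ∀ (z₀ : Fin n → R) (𝔞 : Ideal R) (c : ℕ), CI 𝔞 c → ((c + n : ℕ) : ℕ∞) ≤ J.height →
      ∃ z : Fin n → R, (∀ k, z k - z₀ k ∈ J ^ 2) ∧ RegSeq 𝔞 (List.ofFn z) := by
  induction n with
  | zero =>
    intro z₀ 𝔞 c _ _
    exact ⟨z₀, fun k => k.elim0, by simp [RegSeq]⟩
  | succ n ih =>
    intro z₀ 𝔞 c h hc
    obtain ⟨b, hb, hn⟩ := hB.davis 𝔞 (J ^ 2) (z₀ 0) fun P hP _ hle => by
      have := hP.1
      have h1 := hc.trans (Ideal.height_mono (Ideal.IsPrime.le_of_pow_le hle))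
      rw [(unmix hB hR hD h hP).1] at h1
      have h2 : c + (n + 1) ≤ c := by exact_mod_cast h1
      omega
    obtain ⟨z, hz1, hz2⟩ := ih (fun k => z₀ k.succ) _ (c + 1) (hB.ciSucc h hn)
      (by rwa [add_assoc, add_comm 1 n])
    refine ⟨Fin.cons (z₀ 0 + b) z, fun k => ?_, ?_⟩
    · refine Fin.cases ?_ (fun k => ?_) k
      · simpa using hb
      · simpa using hz1 k
    · rw [List.ofFn_succ]
      exact ⟨hn, hz2⟩

theorem ch1 {R κ : Type} [CommRing R] [IsRegularLocalRing R] [Fintype κ] {J : Ideal R}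
    (z₀ : κ → R) (hc : (Fintype.card κ : ℕ∞) ≤ J.height) :
    ∃ z : κ → R, (∀ k, z k - z₀ k ∈ J ^ 2) ∧ CI (sp z) (Fintype.card κ) := by
  let e := Fintype.equivFin κ
  obtain ⟨z, h1, h2⟩ := ch1_fin hB hR hD (J := J) _ (fun i => z₀ (e.symm i)) ⊥ 0
    ⟨[], rfl, trivial, Ideal.ofList_nil⟩ (by rwa [zero_add])
  refine ⟨z ∘ e, fun k => by simpa using h1 (e k), List.ofFn z, List.length_ofFn, h2, ?_⟩
  rw [hB.ofFn, sp, sp, e.surjective.range_comp]

theorem ch2_fin {R : Type} [CommRing R] [IsRegularLocalRing R] {𝔟 : Ideal R} (n : ℕ) :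
    ∀ (x : Fin n → R) (𝔞 : Ideal R) (c : ℕ), CI 𝔞 c →
      ((c + n : ℕ) : WithBot ℕ∞) = ringKrullDim R → (∀ i, x i ∈ maximalIdeal R) →
      (∀ Q : Ideal R, Q.IsPrime → 𝔟 ≤ Q → 𝔞 ≤ Q → (∀ i, x i ∈ Q) → Q = maximalIdeal R) →
      ∃ y : Fin n → R, (∀ k, y k - x k ∈ 𝔟) ∧ RegSeq 𝔞 (List.ofFn y) := by
  induction n with
  | zero =>
    intro x 𝔞 c _ _ _ _
    exact ⟨x, fun k => k.elim0, by simp [RegSeq]⟩
  | succ n ih =>
    intro x 𝔞 c h hc hx hQ
    obtain ⟨b, hb, hn⟩ := hB.davis 𝔞 𝔟 (x 0) fun P hP h0 hle => by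
      have h1 := dim_le hP.1 (fun k : Fin n => x k.succ) (fun k => hx _) fun Q hQ1 hQ2 hQ3 =>
        hQ Q hQ1 (hle.trans hQ2) ((hB.assLe hP).trans hQ2) (Fin.cases (hQ2 h0) hQ3)
      have h2 := (unmix hB hR hD h hP).2
      have h3 : ((c + (n + 1) : ℕ) : WithBot ℕ∞) ≤ c + n := by
        rw [hc, ← h2]
        gcongr
      have h4 : c + (n + 1) ≤ c + n := by exact_mod_cast h3
      omega
    obtain ⟨y, hy1, hy2⟩ := ih (fun k => x k.succ) _ (c + 1) (hB.ciSucc h hn)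
      (by rwa [add_assoc, add_comm 1 n]) (fun k => hx _) fun Q hQ1 hQ2 hQ3 hQ4 => by
        refine hQ Q hQ1 hQ2 (le_sup_left.trans hQ3) (Fin.cases ?_ hQ4)
        have h5 : x 0 + b ∈ Q := hQ3 (Ideal.mem_sup_right (Ideal.mem_span_singleton_self _))
        simpa using Q.sub_mem h5 (hQ2 hb)
    refine ⟨Fin.cons (x 0 + b) y, fun k => ?_, ?_⟩
    · refine Fin.cases ?_ (fun k => ?_) k
      · simpa using hb
      · simpa using hy1 k
    · rw [List.ofFn_succ]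
      exact ⟨hn, hy2⟩

theorem ch2 {R : Type} [CommRing R] [IsRegularLocalRing R] {𝔞 𝔟 : Ideal R} {c d : ℕ}
    (x : Fin d → R) (h : CI 𝔞 c) (hb : 𝔟.IsPrime) (hle : 𝔞 ≤ 𝔟) (hc : 𝔟.height = c)
    (hd : ringKrullDim (R ⧸ 𝔟) = d) (hx : (𝔟 ⊔ sp x).radical = maximalIdeal R) :
    ∃ y : Fin d → R, (∀ i, y i - x i ∈ 𝔟) ∧ RegSeq 𝔞 (List.ofFn y) ∧
      (𝔞 ⊔ sp y).radical = maximalIdeal R := by
  obtain ⟨p, hp1, hp2⟩ := Ideal.exists_minimalPrimes_le hle
  have hp := hp1.isPrime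
  obtain rfl : p = 𝔟 := p.eq_of_le_of_height_le hp2 (hc ▸ hB.ciHt h hp hp1.le)
  have h1 := (unmix hB hR hD h (hB.minAss hp1)).2
  rw [hd, ← Nat.cast_add] at h1
  have hxm : ∀ i, x i ∈ maximalIdeal R := fun i =>
    hx ▸ Ideal.le_radical (Ideal.mem_sup_right (Ideal.subset_span ⟨i, rfl⟩))
  have hpm : p ≤ maximalIdeal R := le_maximalIdeal hp.ne_top
  obtain ⟨y, hy1, hy2⟩ := ch2_fin hB hR hD (𝔟 := p) d x 𝔞 c h h1 hxm fun Q hQ1 hQ2 _ hQ4 => by
    refine le_antisymm (le_maximalIdeal hQ1.ne_top) ?_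
    rw [← hx, hQ1.radical_le_iff]
    exact sup_le hQ2 (Ideal.span_le.2 (Set.range_subset_iff.2 hQ4))
  refine ⟨y, hy1, hy2, le_antisymm ?_ ?_⟩
  · rw [(maximalIdeal.isMaximal R).isPrime.radical_le_iff]
    refine sup_le (hle.trans hpm) (Ideal.span_le.2 (Set.range_subset_iff.2 fun i => ?_))
    simpa using (maximalIdeal R).add_mem (hpm (hy1 i)) (hxm i)
  · rw [Ideal.radical_eq_sInf, le_sInf_iff]
    rintro Q ⟨hQ1, hQ2⟩
    have h2 := hB.ciAppend h hy2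
    rw [hB.ofFn, List.length_ofFn] at h2
    have h3 := hB.ciHt h2 hQ2 hQ1
    refine (Ideal.height_eq_ringKrullDim_iff.1
      (le_antisymm Ideal.height_le_ringKrullDim_of_isPrime ?_)).ge
    rw [← h1]
    exact_mod_cast h3

theorem inj {R : Type} [CommRing R] [IsRegularLocalRing R] {𝔷 J : Ideal R} {c : ℕ}
    (h : CI 𝔷 c) (hJ : J.IsPrime) (hc : J.height = c) (hg : GenGen 𝔷 J) (w : R) (hw : w ∈ J)
    (hw' : w ∈ col 𝔷 J) : w ∈ 𝔷 := by
  by_contra hn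
  obtain ⟨P, hP, hP'⟩ := hB.assMem hn
  obtain rfl := ass_eq hB hR hD h hJ hc hP fun g hg' =>
    hP' g (mul_comm w g ▸ mem_col.1 hw' g hg')
  obtain ⟨s, hs1, hs2⟩ := hg w hw
  exact hs1 (hP' s hs2)

omit hB hR hD in
theorem exists_col {R : Type} [CommRing R] [IsNoetherianRing R] {𝔷 J : Ideal R} (hJ : J.IsPrime)
    (hg : GenGen 𝔷 J) : ∃ s, s ∉ J ∧ ∀ g ∈ J, s * g ∈ 𝔷 := by
  refine Submodule.fg_induction
    (motive := fun (N : Submodule R R) _ => N ≤ J → ∃ s, s ∉ J ∧ ∀ g ∈ N, s * g ∈ 𝔷)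
    (fun a ha => ?_) (fun M N _ _ hM hN hle => ?_) J (IsNoetherian.noetherian J) le_rfl
  · obtain ⟨s, h1, h2⟩ := hg a (ha (Submodule.mem_span_singleton_self a))
    refine ⟨s, h1, fun g hg' => ?_⟩
    obtain ⟨r, rfl⟩ := Submodule.mem_span_singleton.1 hg'
    rw [smul_eq_mul, mul_left_comm]
    exact 𝔷.mul_mem_left r h2
  · obtain ⟨s, h1, h2⟩ := hM (le_sup_left.trans hle)
    obtain ⟨s', h1', h2'⟩ := hN (le_sup_right.trans hle)
    refine ⟨s * s', fun hm => (hJ.mem_or_mem hm).elim h1 h1', fun g hg' => ?_⟩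
    obtain ⟨a, ha, b, hb, rfl⟩ := Submodule.mem_sup.1 hg'
    have e : s * s' * (a + b) = s' * (s * a) + s * (s' * b) := by ring
    rw [e]
    exact 𝔷.add_mem (𝔷.mul_mem_left _ (h2 a ha)) (𝔷.mul_mem_left _ (h2' b hb))

theorem s2 {R L : Type} [CommRing R] [IsRegularLocalRing R] [Field L] (φ : R →+* L)
    {𝔷 : Ideal R} {c : ℕ} (h : CI 𝔷 c) (hc : (RingHom.ker φ).height = c)
    (hle : 𝔷 ≤ RingHom.ker φ) (hg : GenGen 𝔷 (RingHom.ker φ))
    (hf : ∀ γ : L, ∃ a b, φ b ≠ 0 ∧ γ * φ b = φ a) (θ : L)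
    (hθ : ∀ 𝔓 : Ideal R, 𝔓.IsPrime → RingHom.ker φ ≤ 𝔓 → 𝔓.height = c + 1 →
      ∃ s, s ∉ 𝔓 ∧ ∃ w ∈ col 𝔷 (RingHom.ker φ), φ s * θ = φ w) :
    ∃ w ∈ col 𝔷 (RingHom.ker φ), φ w = θ := by
  have hJ : (RingHom.ker φ).IsPrime := RingHom.ker_isPrime φ
  obtain ⟨s0, hs0, hs1⟩ := exists_col hJ hg
  obtain ⟨a, b, hb, hab⟩ := hf θ
  have h0 : φ (s0 * b) ≠ 0 := by
    rw [map_mul]
    exact mul_ne_zero hs0 hb
  obtain ⟨j, hj, hn⟩ := avoid hB hR hD (t := s0 * b) h hJ hc h0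
  have hj0 : φ j = 0 := Ideal.pow_le_self two_ne_zero hj
  have ht : φ (s0 * b + j) = φ (s0 * b) := by rw [map_add, hj0, add_zero]
  have ht0 : φ (s0 * b + j) ≠ 0 := ht ▸ h0
  have htw : φ (s0 * b + j) * θ = φ (s0 * a) := by
    rw [ht, map_mul, map_mul, ← hab]
    ring
  have hw : s0 * a ∈ col 𝔷 (RingHom.ker φ) := mem_col.2 fun g hg' => by
    rw [mul_right_comm]
    exact 𝔷.mul_mem_right _ (hs1 g hg')
  generalize s0 * b + j = t at hn ht0 htw
  generalize s0 * a = w at hw htw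
  have hmem : w ∈ 𝔷 ⊔ Ideal.span {t} := by
    by_contra hne
    obtain ⟨P, hP, hP'⟩ := hB.assMem hne
    have h1 := (unmix hB hR hD (hB.ciSucc h hn) hP).1
    obtain ⟨s, hs, w1, hw1, e⟩ := hθ P hP.1
      (fun g hg' => hP' g (Ideal.mem_sup_left (mul_comm w g ▸ mem_col.1 hw g hg')))
      (by rw [h1, Nat.cast_add, Nat.cast_one])
    have h2 : t * w1 - s * w ∈ 𝔷 := by
      refine inj hB hR hD h hJ hc hg _ ?_
        (Ideal.sub_mem _ (Ideal.mul_mem_left _ _ hw1) (Ideal.mul_mem_left _ _ hw))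
      rw [RingHom.mem_ker, map_sub, map_mul, map_mul, ← e, ← htw]
      ring
    refine hs (hP' s ?_)
    have e2 : s * w = t * w1 - (t * w1 - s * w) := by ring
    rw [e2]
    exact Ideal.sub_mem _ (Ideal.mem_sup_right
      (Ideal.mul_mem_right _ _ (Ideal.mem_span_singleton_self t))) (Ideal.mem_sup_left h2)
  obtain ⟨z, hz, v, hv, rfl⟩ := Submodule.mem_sup.1 hmem
  obtain ⟨u, rfl⟩ := Ideal.mem_span_singleton'.1 hv
  refine ⟨u, mem_col.2 fun g hg' => hn _ ?_, ?_⟩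
  · have e : t * (u * g) = (z + u * t) * g - z * g := by ring
    rw [e]
    exact 𝔷.sub_mem (mem_col.1 hw g hg') (𝔷.mul_mem_right _ hz)
  · have hz0 : φ z = 0 := hle hz
    rw [map_add, hz0, zero_add, map_mul, mul_comm (φ u)] at htw
    exact (mul_left_cancel₀ ht0 htw).symm

end

end CmA

theorem cm (hB : S_basic) (hR : S_reg) (hD : S_dep) : S_cm where
  unmix h hA := CmA.unmix hB hR hD h hA
  avoid h hJ hc ht := CmA.avoid hB hR hD h hJ hc ht
  ch1 z₀ _ hc _ := CmA.ch1 hB hR hD z₀ hc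
  ch2 x h hb hle hc hd hx := CmA.ch2 hB hR hD x h hb hle hc hd hx
  inj h hJ hc hg w hw hw' := CmA.inj hB hR hD h hJ hc hg w hw hw'
  s2 φ _ _ h hc hle hg hf θ hθ := CmA.s2 hB hR hD φ h hc hle hg hf θ hθ

end Pool.Agent.P.MP_e7d440_ag
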