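import Pool.Agent.P.MP_e7d440_ag.Bd

/-! From a double Cech cochain to a single Cech cochain by shuffling. -/

namespace Pool.Agent.P.MP_e7d440_ag

namespace CoreOneA

variable {α β M : Type}

/-- The left entries of a list. -/
def lf : List (α ⊕ β) → List α
  | [] => []
  | Sum.inl a :: l => a :: lf l
  | Sum.inr _ :: l => lf l

/-- The right entries of a list. -/
def rt : List (α ⊕ β) → List β
  | [] => []
  | Sum.inl _ :: l => rt l
  | Sum.inr b :: l => b :: rt l

lemma length_lf_rt (l : List (α ⊕ β)) : (lf l).length + (rt l).length = l.length := by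
  induction l with
  | nil => rfl
  | cons c l ih => cases c <;> simp only [lf, rt, List.length_cons] <;> omega

lemma mem_lf {l : List (α ⊕ β)} {a : α} (h : a ∈ lf l) : Sum.inl a ∈ l := by
  induction l with
  | nil => simp [lf] at h
  | cons c l ih =>
    cases c with
    | inl a' =>
      rcases List.mem_cons.1 h with rfl | h
      · exact List.mem_cons_self
      · exact List.mem_cons_of_mem _ (ih h)
    | inr b => exact List.mem_cons_of_mem _ (ih h)

lemma mem_rt {l : List (α ⊕ β)} {b : β} (h : b ∈ rt l) : Sum.inr b ∈ l := by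
  induction l with
  | nil => simp [rt] at h
  | cons c l ih =>
    cases c with
    | inl a => exact List.mem_cons_of_mem _ (ih h)
    | inr b' =>
      rcases List.mem_cons.1 h with rfl | h
      · exact List.mem_cons_self
      · exact List.mem_cons_of_mem _ (ih h)

lemma eq_map_lf {l : List (α ⊕ β)} (h : rt l = []) : l = (lf l).map Sum.inl := by
  induction l with
  | nil => rfl
  | cons c l ih =>
    cases c with
    | inl a => exact congrArg (Sum.inl a :: ·) (ih h)
    | inr b => simp [rt] at h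

variable [AddCommGroup M]

/-- The shuffle of a double cochain. -/
def Sh : (List α → List β → M) → List (α ⊕ β) → M
  | Ξ, [] => Ξ [] []
  | Ξ, Sum.inl a :: l => Sh (fun s t => Ξ (a :: s) t) l
  | Ξ, Sum.inr b :: l => Sh (fun s t => (-1 : ℤ) ^ s.length • Ξ s (b :: t)) l

lemma Sh_sub (Ξ Θ : List α → List β → M) (l : List (α ⊕ β)) :
    Sh (fun s t => Ξ s t - Θ s t) l = Sh Ξ l - Sh Θ l := by
  induction l generalizing Ξ Θ with
  | nil => rfl
  | cons c l ih =>
    cases c with
    | inl a => exact ih _ _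
    | inr b =>
      simp only [Sh, smul_sub]
      exact ih _ _

lemma Sh_eq (Ξ : List α → List β → M) (l : List (α ⊕ β)) :
    ∃ n : ℤ, Sh Ξ l = n • Ξ (lf l) (rt l) := by
  induction l generalizing Ξ with
  | nil => exact ⟨1, (one_smul _ _).symm⟩
  | cons c l ih =>
    cases c with
    | inl a => exact ih _
    | inr b =>
      obtain ⟨n, hn⟩ := ih fun s t => (-1 : ℤ) ^ s.length • Ξ s (b :: t)
      exact ⟨n * (-1) ^ (lf l).length, by rw [mul_smul]; exact hn⟩

lemma Sh_inl (Ξ : List α → List β → M) (s : List α) : Sh Ξ (s.map Sum.inl) = Ξ s [] := by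
  induction s generalizing Ξ with
  | nil => rfl
  | cons a s ih => exact ih _

lemma sgn_sq (n : ℕ) (u : M) : (-1 : ℤ) ^ n • (-1 : ℤ) ^ n • u = u := by
  rw [smul_smul, ← mul_pow]; simp

lemma bd_Sh (Ξ : List α → List β → M) (l : List (α ⊕ β)) : bd (Sh Ξ) l = Sh (tot Ξ) l := by
  induction l generalizing Ξ with
  | nil => simp [Sh, tot]
  | cons c l ih =>
    rw [bd_cons]
    cases c with
    | inl a =>
      have h1 : (fun l' => Sh Ξ (Sum.inl a :: l')) = Sh fun s t => Ξ (a :: s) t := rfl
      rw [h1, ih, ← Sh_sub]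
      show _ = Sh (fun s t => tot Ξ (a :: s) t) l
      congr 1
      funext s t
      simp only [tot, bd_cons, List.length_cons, pow_succ, mul_neg, mul_one, neg_smul]
      abel
    | inr b =>
      have h1 : (fun l' => Sh Ξ (Sum.inr b :: l')) =
        Sh fun s t => (-1 : ℤ) ^ s.length • Ξ s (b :: t) := rfl
      rw [h1, ih, ← Sh_sub]
      show _ = Sh (fun s t => (-1 : ℤ) ^ s.length • tot Ξ s (b :: t)) l
      congr 1
      funext s t
      have h2 : bd (fun s' => (-1 : ℤ) ^ s'.length • Ξ s' (b :: t)) s =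
          bd (fun s' => (-(-1 : ℤ) ^ s.length) • Ξ s' (b :: t)) s :=
        bd_congr fun s' _ hs => by rw [← hs, pow_succ]; simp
      simp only [tot]
      rw [h2, bd_zsmul, bd_zsmul, bd_cons, smul_add, sgn_sq, sgn_sq, neg_smul]
      abel

end CoreOneA

open CoreOneA in
theorem coreOne (hV : S_val) : S_core1 := by
  intro Q A K L β β' _ _ _ _ _ _ φ B h idx d x x' hA hx hint hB η ξ hη hbη hξ0 hξV htot
  classical
  let Ξ0 : List (Fin d) → List β' → K := fun s t =>
    if t = [] then (-(-1 : ℤ) ^ d) • η s else ξ s (t.map idx)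
  have h0 : ∀ s, Ξ0 s [] = (-(-1 : ℤ) ^ d) • η s := fun s => if_pos rfl
  have h1 : ∀ s t, t ≠ [] → Ξ0 s t = ξ s (t.map idx) := fun s t ht => if_neg ht
  have htot0 : ∀ s t, s.length + t.length = d + 1 → tot Ξ0 s t = 0 := by
    intro s t hl
    by_cases ht : t = []
    · subst ht
      simp only [tot, h0]
      rw [bd_zsmul, hbη s (by simpa using hl)]
      simp
    have h2 := htot s (t.map idx) (by simpa using ht) (by simpa using hl)
    simp only [tot, h1 _ t ht] at h2 ⊢
    by_cases ht1 : t.length = 1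
    · obtain ⟨b, rfl⟩ := List.length_eq_one_iff.1 ht1
      have hs : s.length = d := by simpa using hl
      simp only [List.map_cons, List.map_nil, bd_cons, bd_nil, hξ0, List.length_cons,
        List.length_nil, sub_zero, smul_zero, add_zero, zero_add, if_true] at h2
      rw [List.map_cons, List.map_nil, h2, bd_cons, bd_nil, h0, hs, sub_zero, neg_smul, smul_neg,
        sgn_sq, add_neg_cancel]
    · rw [if_neg (by simpa using ht1), ← bd_map] at h2
      rw [← h2]
      congr 2
      refine bd_congr fun t' _ hl' => h1 _ _ ?_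
      rintro rfl
      exact ht1 hl'.symm
  let G : K →+ L := (algebraMap K L).toAddMonoidHom
  have hG : ∀ u, G u = algebraMap K L u := fun _ => rfl
  have h3 : ∀ σ : List (Fin d), G ((-(-1 : ℤ) ^ d) • Sh Ξ0 (σ.map Sum.inl)) =
      algebraMap K L (η σ) := fun σ => by
    rw [Sh_inl, h0, neg_smul, neg_smul, smul_neg, neg_neg, sgn_sq, hG]
  refine ⟨fun l => G ((-(-1 : ℤ) ^ d) • Sh Ξ0 l), fun l hl hne => ?_, fun l hl => ?_,
    fun σ _ => h3 σ⟩
  · have hlen := length_lf_rt l
    by_cases ht : rt l = []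
    · have he := eq_map_lf ht
      obtain ⟨N, a, ha⟩ := hη (lf l) (by simpa [ht, hl] using hlen)
      obtain ⟨g, hg⟩ := hA a
      refine ⟨N, g, ?_⟩
      have h4 : ∀ s : List (Fin d), φ ((s.map Sum.inl).map (Sum.elim x' h)).prod =
          algebraMap K L (algebraMap A K (s.map x).prod) := by
        intro s
        induction s with
        | nil => simp
        | cons a s ih =>
          simp only [List.map_cons, List.prod_cons, map_mul, Sum.elim_inl]
          rw [ih, hx]
      show φ (l.map (Sum.elim x' h)).prod ^ N * G ((-(-1 : ℤ) ^ d) • Sh Ξ0 l) = φ g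
      rw [he, h3, h4, hg, ← ha, map_mul, map_pow]
    · refine hV.mem φ hint _ _ hne fun V' hV' hw => ?_
      have hfac : ∀ c ∈ l, φ (Sum.elim x' h c) ≠ 0 ∧ (φ (Sum.elim x' h c))⁻¹ ∈ V' := by
        intro c hc
        obtain ⟨r, hr⟩ := List.dvd_prod (List.mem_map_of_mem (f := Sum.elim x' h) hc)
        rw [hr, map_mul] at hne hw
        refine ⟨left_ne_zero_of_mul hne, ?_⟩
        have h5 := V'.mul_mem _ _ hw (hV' r)
        rwa [mul_inv, mul_assoc, inv_mul_cancel₀ (right_ne_zero_of_mul hne), mul_one] at h5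
      have h6 : ξ (lf l) ((rt l).map idx) ∈ V'.comap (algebraMap K L) := by
        refine hξV _ _ (by simpa using ht) (by simpa [hl] using hlen) _ (fun a => ?_)
          (fun i hi => ?_) fun i hi b hb => ?_
        · obtain ⟨g, hg⟩ := hA a
          rw [ValuationSubring.mem_comap, ← hg]
          exact hV' g
        · rw [ValuationSubring.mem_comap, map_inv₀, ← hx]
          exact (hfac _ (mem_lf hi)).2
        · obtain ⟨j, hj, rfl⟩ := List.mem_map.1 hi
          exact hB V' j hV' (hfac _ (mem_rt hj)).1 (hfac _ (mem_rt hj)).2 b hb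
      obtain ⟨n, hn⟩ := Sh_eq Ξ0 l
      show G ((-(-1 : ℤ) ^ d) • Sh Ξ0 l) ∈ V'
      rw [hn, h1 _ _ ht, map_zsmul, map_zsmul]
      have h7 : G (ξ (lf l) ((rt l).map idx)) ∈ V' := h6
      exact zsmul_mem (zsmul_mem h7 _) _
  · obtain ⟨n, hn⟩ := Sh_eq (tot Ξ0) l
    rw [bd_hom G (fun l => (-(-1 : ℤ) ^ d) • Sh Ξ0 l), bd_zsmul, bd_Sh, hn,
      htot0 _ _ (by rw [length_lf_rt, hl])]
    simp

end Pool.Agent.P.MP_e7d440_ag
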