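import Pool.Agent.P.MP_e7d440_ag.Bd

/-! The Cech and duality argument. -/

namespace Pool.Agent.P.MP_e7d440_ag

open IsLocalRing

namespace CoreTwoA

section rel
variable {Q F L : Type} [CommRing Q] [Field F] [Algebra Q F] [CommRing L]

/-- `v` is a fraction with denominator a power of `c` which `φ` sends to `θ`. -/
def Rel (φ : Q →+* L) (c : Q) (v : F) (θ : L) : Prop :=
  ∃ (N : ℕ) (g : Q), algebraMap Q F c ^ N * v = algebraMap Q F g ∧ φ c ^ N * θ = φ g

variable {φ : Q →+* L} {c c' : Q} {v v' : F} {θ θ' : L}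

lemma Rel.add (h : Rel φ c v θ) (h' : Rel φ c v' θ') : Rel φ c (v + v') (θ + θ') := by
  obtain ⟨N, g, e1, e2⟩ := h
  obtain ⟨N', g', e1', e2'⟩ := h'
  refine ⟨N + N', c ^ N' * g + c ^ N * g', ?_, ?_⟩
  · simp only [map_add, map_mul, map_pow, ← e1, ← e1']; ring
  · simp only [map_add, map_mul, map_pow, ← e2, ← e2']; ring

lemma Rel.neg (h : Rel φ c v θ) : Rel φ c (-v) (-θ) := by
  obtain ⟨N, g, e1, e2⟩ := h
  exact ⟨N, -g, by rw [map_neg, ← e1]; ring, by rw [map_neg, ← e2]; ring⟩

lemma Rel.sub (h : Rel φ c v θ) (h' : Rel φ c v' θ') : Rel φ c (v - v') (θ - θ') := by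
  rw [sub_eq_add_neg, sub_eq_add_neg]; exact h.add h'.neg

lemma Rel.of_dvd (hd : c ∣ c') (h : Rel φ c v θ) : Rel φ c' v θ := by
  obtain ⟨N, g, e1, e2⟩ := h
  obtain ⟨t, rfl⟩ := hd
  refine ⟨N, t ^ N * g, ?_, ?_⟩
  · simp only [map_mul, map_pow, ← e1]; ring
  · simp only [map_mul, map_pow, ← e2]; ring

/-- `Rel φ c` as an additive subgroup. -/
def relSub (F : Type) [Field F] [Algebra Q F] (φ : Q →+* L) (c : Q) : AddSubgroup (F × L) where
  carrier := {p | Rel φ c p.1 p.2}
  zero_mem' := ⟨0, 0, by simp, by simp⟩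
  add_mem' := Rel.add
  neg_mem' := Rel.neg

lemma Rel.bd {Γ : Type} {w : Γ → Q} {ξ : List Γ → F} {Ξ : List Γ → L} {l : List Γ}
    (h : ∀ l' : List Γ, l'.Sublist l → l'.length + 1 = l.length →
      Rel φ (l'.map w).prod (ξ l') (Ξ l')) : Rel φ (l.map w).prod (bd ξ l) (bd Ξ l) := by
  have := bd_mem (relSub F φ (l.map w).prod) (f := fun l' => (ξ l', Ξ l')) (l := l)
    fun l' hs hl => (h l' hs hl).of_dvd (hs.map w).prod_dvd_prod
  have e1 := bd_hom (AddMonoidHom.fst F L) (fun l' => (ξ l', Ξ l')) l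
  have e2 := bd_hom (AddMonoidHom.snd F L) (fun l' => (ξ l', Ξ l')) l
  simp only [AddMonoidHom.coe_fst, AddMonoidHom.coe_snd] at e1 e2
  rw [e1, e2]
  exact this

lemma Rel.kill {𝔞 : Ideal Q} {u : Q} (h : Rel φ c v 0) (hu : ∀ g, φ g = 0 → u * g ∈ 𝔞) :
    Mem 𝔞 (1 * c) (algebraMap Q F u * v) := by
  obtain ⟨N, g, e1, e2⟩ := h
  refine ⟨N, u * g, hu g (by rw [← e2, mul_zero]), ?_⟩
  rw [one_mul, map_mul, ← e1]; ring

lemma mem_kill {𝔞 : Ideal Q} {u : Q} (h : Mem ⊤ (1 * c) v) (hu : u * c ∈ 𝔞) :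
    Mem 𝔞 (1 * c) (algebraMap Q F u * v) := by
  obtain ⟨N, g, -, e1⟩ := h
  refine ⟨N + 1, u * c * g, 𝔞.mul_mem_right _ hu, ?_⟩
  rw [one_mul] at e1 ⊢
  rw [map_mul, map_mul, ← e1]; ring

lemma rel_div (hc : algebraMap Q F c ≠ 0) {N : ℕ} {g : Q} (h : φ c ^ N * θ = φ g) :
    Rel φ c (algebraMap Q F g / algebraMap Q F c ^ N) θ :=
  ⟨N, g, by field_simp, h⟩

lemma mem_div (hc : algebraMap Q F c ≠ 0) (N : ℕ) (g : Q) :
    Mem ⊤ (1 * c) (algebraMap Q F g / algebraMap Q F c ^ N) :=
  ⟨N, g, trivial, by rw [one_mul]; field_simp⟩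

end rel

section lists
variable {Γ Δ : Type}

lemma bd_filterMap {M : Type} [AddCommGroup M] (u : Γ → Option Δ) (f : List Δ → M)
    (l : List Γ) (hl : ∀ i ∈ l, (u i).isSome) :
    bd (fun l' => f (l'.filterMap u)) l = bd f (l.filterMap u) := by
  induction l generalizing f with
  | nil => simp
  | cons a l ih =>
    obtain ⟨j, hj⟩ := Option.isSome_iff_exists.1 (hl a (by simp))
    rw [List.filterMap_cons_some hj, bd_cons, bd_cons,
      ← ih _ fun i hi => hl i (List.mem_cons_of_mem _ hi)]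
    simp only [List.filterMap_cons_some hj]

lemma length_filterMap_of (u : Γ → Option Δ) (l : List Γ) (hl : ∀ i ∈ l, (u i).isSome) :
    (l.filterMap u).length = l.length := by
  induction l with
  | nil => simp
  | cons a l ih =>
    obtain ⟨j, hj⟩ := Option.isSome_iff_exists.1 (hl a (by simp))
    rw [List.filterMap_cons_some hj, List.length_cons, List.length_cons,
      ih fun i hi => hl i (List.mem_cons_of_mem _ hi)]

lemma prod_filterMap {R : Type} [CommMonoid R] (u : Γ → Option Δ) (w : Γ → R) (x : Δ → R)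
    (h : ∀ i j, u i = some j → w i = x j) (l : List Γ) (hl : ∀ i ∈ l, (u i).isSome) :
    (l.map w).prod = ((l.filterMap u).map x).prod := by
  induction l with
  | nil => simp
  | cons a l ih =>
    obtain ⟨j, hj⟩ := Option.isSome_iff_exists.1 (hl a (by simp))
    rw [List.filterMap_cons_some hj, List.map_cons, List.map_cons, List.prod_cons,
      List.prod_cons, ih fun i hi => hl i (List.mem_cons_of_mem _ hi), h a j hj]

lemma prod_filterMap_dvd {R : Type} [CommMonoid R] (u : Γ → Option Δ) (w : Γ → R) (x : Δ → R)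
    (h : ∀ i j, u i = some j → w i = x j) (l : List Γ) :
    ((l.filterMap u).map x).prod ∣ (l.map w).prod := by
  induction l with
  | nil => simp
  | cons a l ih =>
    cases hj : u a with
    | none =>
      rw [List.filterMap_cons_none hj, List.map_cons, List.prod_cons]
      exact ih.mul_left _
    | some j =>
      rw [List.filterMap_cons_some hj, List.map_cons, List.map_cons, List.prod_cons,
        List.prod_cons, h a j hj]
      exact mul_dvd_mul_left _ ih

lemma exists_map (e : Δ → Γ) (l : List Γ) (hl : ∀ i ∈ l, ∃ j, e j = i) :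
    ∃ l0 : List Δ, l = l0.map e := by
  induction l with
  | nil => exact ⟨[], rfl⟩
  | cons a l ih =>
    obtain ⟨j, rfl⟩ := hl a (by simp)
    obtain ⟨l0, rfl⟩ := ih fun i hi => hl i (List.mem_cons_of_mem _ hi)
    exact ⟨j :: l0, rfl⟩

lemma filterMap_map_of (e : Δ → Γ) (u : Γ → Option Δ) (h : ∀ j, u (e j) = some j)
    (l : List Δ) : (l.map e).filterMap u = l := by
  induction l with
  | nil => rfl
  | cons a l ih => rw [List.map_cons, List.filterMap_cons_some (h a), ih]

end lists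

lemma param_ne {A : Type} [CommRing A] [IsLocalRing A] [IsNoetherianRing A] {d : ℕ}
    (x : Fin d → A) (hd : ringKrullDim A = d) (hx : (sp x).radical = maximalIdeal A)
    (i : Fin d) : x i ≠ 0 := by
  classical
  intro h0
  have e : Ideal.span (((Finset.univ.erase i).image x : Finset A) : Set A) = sp x := by
    apply le_antisymm
    · refine Ideal.span_mono ?_
      intro t ht
      simp only [Finset.coe_image] at ht
      obtain ⟨j, -, rfl⟩ := ht
      exact ⟨j, rfl⟩
    · refine Ideal.span_le.2 ?_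
      rintro _ ⟨j, rfl⟩
      by_cases hj : j = i
      · rw [hj, h0]; exact Submodule.zero_mem _
      · exact Ideal.subset_span (by simpa using ⟨j, hj, rfl⟩)
  have hm : maximalIdeal A ∈ (Ideal.span (((Finset.univ.erase i).image x : Finset A) :
      Set A)).minimalPrimes := by
    rw [e, ← Ideal.radical_minimalPrimes, hx, Ideal.minimalPrimes_eq_subsingleton_self]
    rfl
  have h1 := Ideal.height_le_card_of_mem_minimalPrimes_span_finset hm
  have h2 : ((Finset.univ.erase i).image x).card ≤ d - 1 :=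
    Finset.card_image_le.trans (by simp)
  have h3 : ((maximalIdeal A).height : WithBot ℕ∞) = d := by
    rw [IsLocalRing.maximalIdeal_height_eq_ringKrullDim, hd]
  have h4 : (maximalIdeal A).height = d := by exact_mod_cast h3
  rw [h4] at h1
  have h5 : d ≤ ((Finset.univ.erase i).image x).card := by exact_mod_cast h1
  have := i.pos
  omega

lemma uniform {A K : Type} [CommRing A] [Field K] (φ : A →+* K) {d : ℕ} (x : Fin d → A)
    (η : List (Fin d) → K) (hη : ∀ σ, σ.length = d → InLoc φ x σ (η σ)) :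
    ∃ (T : ℕ) (a : List (Fin d) → A), ∀ σ, σ.length = d →
      φ (σ.map x).prod ^ T * η σ = φ (a σ) := by
  classical
  choose! N a ha using hη
  obtain ⟨T, hT⟩ := ((List.finite_length_eq (Fin d) d).image N).bddAbove
  refine ⟨T, fun σ => (σ.map x).prod ^ (T - N σ) * a σ, fun σ hσ => ?_⟩
  have hle : N σ ≤ T := hT ⟨σ, hσ, rfl⟩
  rw [map_mul, map_pow, ← ha σ hσ, ← mul_assoc, ← pow_add, Nat.sub_add_cancel hle]

/-- the index set -/
abbrev GG (d n : ℕ) (β : Type) : Type := ((Fin d ⊕ β) ⊕ Fin n) ⊕ Fin d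

/-- the parameter underlying an index -/
def under {d n : ℕ} {β : Type} : GG d n β → Option (Fin d)
  | .inl (.inl (.inl i)) => some i
  | .inr i => some i
  | _ => none

/-- the original index -/
def back {d n : ℕ} {β : Type} : GG d n β → Option (Fin d ⊕ β)
  | .inl (.inl i) => some i
  | _ => none

/-- The heart of the argument, for one element `u`. -/
lemma heart (hV : S_vanish) (hH : S_change) (hT : S_top) {Q A K L β : Type} [CommRing Q]
    [IsDomain Q] [CommRing A] [IsDomain A] [Field K] [Field L] [Algebra A K] [Algebra K L]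
    [Finite β] (φ : Q →+* L) (ψ : Q →+* A) (𝔷 𝔞 𝔪 : Ideal Q) (z' : Q) (h : β → Q) {d n : ℕ}
    (x : Fin d → A) (x' y : Fin d → Q) (jg : Fin n → Q)
    (hinj : Function.Injective (algebraMap A K)) (hx0 : ∀ i, x i ≠ 0)
    (hx' : ∀ i, φ (x' i) = algebraMap K L (algebraMap A K (x i)) ∧ ψ (x' i) = x i)
    (hy : ∀ i, ψ (y i) = x i) (hh : ∀ i, ψ (h i) = 0) (hj : ∀ i, φ (jg i) = 0)
    (hj' : ∀ i, ψ (jg i) = 0) (hle : 𝔷 ≤ 𝔞) (hreg : RegSeq 𝔷 (z' :: List.ofFn y))
    (hz' : z' ∈ 𝔪) (hym : ∀ i, y i ∈ 𝔪)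
    (hm : ∀ P : Ideal Q, P.IsPrime → (∀ i, x' i ∈ P) → (∀ i, h i ∈ P) → (∀ i, jg i ∈ P) →
      𝔪 ≤ P)
    (η : List (Fin d) → K) (Ξ : List (Fin d ⊕ β) → L)
    (hη : ∀ σ, σ.length = d + 1 → bd η σ = 0)
    (hΞ1 : ∀ l : List (Fin d ⊕ β), l.length = d → φ (l.map (Sum.elim x' h)).prod ≠ 0 →
      ∃ (N : ℕ) (g : Q), φ (l.map (Sum.elim x' h)).prod ^ N * Ξ l = φ g)
    (hΞ2 : ∀ l : List (Fin d ⊕ β), l.length = d + 1 → bd Ξ l = 0)
    (hΞ3 : ∀ σ : List (Fin d), σ.length = d → Ξ (σ.map Sum.inl) = algebraMap K L (η σ))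
    (T : ℕ) (a : List (Fin d) → A) (b : List (Fin d) → Q)
    (ha : ∀ σ, σ.length = d →
      algebraMap A K (σ.map x).prod ^ T * η σ = algebraMap A K (a σ))
    (hb : ∀ σ, φ (b σ) = algebraMap K L (algebraMap A K (a σ)) ∧ ψ (b σ) = a σ)
    (u : Q) (hu1 : ∀ g, φ g = 0 → u * g ∈ 𝔷) (hu2 : ∀ g, ψ g = 0 → u * g ∈ 𝔞) :
    ∃ k : ℕ, (∏ i, y i) ^ k * (u * b (List.finRange d)) ∈ 𝔞 ⊔ sp fun i => y i ^ (T + k) := by
  classical
  let F := FractionRing Q
  have finj : Function.Injective (algebraMap Q F) := IsFractionRing.injective Q F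
  have fne : ∀ {c : Q}, c ≠ 0 → algebraMap Q F c ≠ 0 := fun hc h0 =>
    hc (finj (by rw [h0, map_zero]))
  let w0 : Fin d ⊕ β → Q := Sum.elim x' h
  let w : GG d n β → Q := Sum.elim (Sum.elim w0 jg) y
  let E : Set (GG d n β) := Set.range Sum.inl
  let e : Fin d ⊕ β → GG d n β := fun i => Sum.inl (Sum.inl i)
  have hwe : ∀ l : List (Fin d ⊕ β), (l.map e).map w = l.map w0 := fun l => by
    rw [List.map_map]; rfl
  have hback : ∀ i j, back i = some j → w i = w0 j := by
    rintro ((i | i) | i) j hij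
    · cases hij; rfl
    · cases hij
    · cases hij
  have hunder : ∀ i j, under i = some j → ψ (w i) = x j := by
    rintro (((i | i) | i) | i) j hij
    · cases hij; exact (hx' _).2
    · cases hij
    · cases hij
    · cases hij; exact hy _
  have hnone : ∀ i, ¬ (under i).isSome → ψ (w i) = 0 := by
    rintro (((i | i) | i) | i) hi
    · exact absurd rfl hi
    · exact hh i
    · exact hj' i
    · exact absurd rfl hi
  have hpure : ∀ l : List (GG d n β), (∀ i ∈ l, (under i).isSome) →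
      ψ (l.map w).prod = ((l.filterMap under).map x).prod := by
    intro l hl
    rw [map_list_prod, List.map_map]
    exact prod_filterMap under _ x hunder l hl
  have hxne : ∀ σ : List (Fin d), (σ.map x).prod ≠ 0 := fun σ =>
    List.prod_ne_zero (by simpa using fun i _ => hx0 i)
  have hpne : ∀ l : List (GG d n β), (∀ i ∈ l, (under i).isSome) →
      algebraMap Q F (l.map w).prod ≠ 0 := by
    intro l hl
    refine fne fun h0 => hxne (l.filterMap under) ?_
    rw [← hpure l hl, h0, map_zero]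
  have hnp : ∀ l : List (GG d n β), (¬ ∀ i ∈ l, (under i).isSome) →
      u * (l.map w).prod ∈ 𝔞 := by
    intro l hl
    push Not at hl
    obtain ⟨i, hi, hi'⟩ := hl
    refine hu2 _ ?_
    rw [map_list_prod, List.map_map]
    exact List.prod_eq_zero (List.mem_map.2 ⟨i, hi, hnone i (by simpa using hi')⟩)
  have hrad : ∀ 𝔠 : Ideal Q, 𝔪 ≤ (𝔠 ⊔ Ideal.span (w '' E)).radical := by
    intro 𝔠
    rw [Ideal.radical_eq_sInf]
    refine le_sInf ?_
    rintro P ⟨hP1, hP2⟩
    have hw : ∀ i, w (Sum.inl i) ∈ P := fun i =>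
      hP1 (Ideal.mem_sup_right (Ideal.subset_span ⟨_, ⟨i, rfl⟩, rfl⟩))
    exact hm P hP2 (fun i => hw (.inl (.inl i))) (fun i => hw (.inl (.inr i)))
      fun i => hw (.inr i)
  -- the lift of `Ξ`
  have hm0 : ∃ m0 : List (Fin d ⊕ β) → F, (∀ l, Mem ⊤ (1 * (l.map w0).prod) (m0 l)) ∧
      ∀ l, l.length = d → φ (l.map w0).prod ≠ 0 → Rel φ (l.map w0).prod (m0 l) (Ξ l) := by
    choose! N g hg using hΞ1
    have hne : ∀ l : List (Fin d ⊕ β), φ (l.map w0).prod ≠ 0 →
        algebraMap Q F (l.map w0).prod ≠ 0 := fun l hl =>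
      fne fun h0 => hl (by rw [h0, map_zero])
    refine ⟨fun l => if φ (l.map w0).prod ≠ 0 then
      algebraMap Q F (g l) / algebraMap Q F (l.map w0).prod ^ N l else 0, fun l => ?_,
      fun l h1 h2 => ?_⟩
    · beta_reduce
      split_ifs with hl
      · exact mem_div (hne l hl) _ _
      · exact Mem.zero
    · beta_reduce
      rw [if_pos h2]
      exact rel_div (hne l h2) (hg l h1 h2)
  obtain ⟨m0, hm1, hm2⟩ := hm0
  let m : List (GG d n β) → F := fun l => m0 (l.filterMap back)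
  have hmem : ∀ l, Mem ⊤ (1 * (l.map w).prod) (m l) := fun l =>
    (hm1 _).of_dvd (mul_dvd_mul_left _ (prod_filterMap_dvd back w w0 hback l))
  have hme : ∀ l0, m (l0.map e) = m0 l0 := fun l0 => by
    simp only [m]; rw [filterMap_map_of e back (fun _ => rfl)]
  have coc1 : Coc w 𝔷 E 1 d fun l => algebraMap Q F u * m l := by
    refine ⟨fun l _ _ => (hmem l).smul u, fun l hE hl => ?_⟩
    rw [bd_mul]
    by_cases h0 : φ (l.map w).prod = 0
    · exact mem_kill (Mem.bd fun l' _ _ => hmem l') (hu1 _ h0)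
    · obtain ⟨l0, rfl⟩ := exists_map e l fun i hi => by
        obtain ⟨i', rfl⟩ := hE i hi
        rcases i' with i' | i'
        · exact ⟨i', rfl⟩
        · exfalso
          apply h0
          rw [map_list_prod, List.map_map]
          exact List.prod_eq_zero (List.mem_map.2 ⟨_, hi, hj i'⟩)
      rw [List.length_map] at hl
      rw [hwe] at h0 ⊢
      rw [← bd_map]
      simp only [hme]
      refine Rel.kill (φ := φ) ?_ hu1
      rw [← hΞ2 l0 hl]
      refine Rel.bd fun l' hs hl' => hm2 l' (by omega) fun h1 => h0 ?_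
      obtain ⟨t, ht⟩ := (hs.map w0).prod_dvd_prod
      rw [ht, map_mul, h1, zero_mul]
  have cob1 := hV.vanish finj w 𝔷 E 1 d _ (z' :: List.ofFn y) hreg (by
    intro t ht
    refine hrad 𝔷 ?_
    rcases List.mem_cons.1 ht with rfl | ht
    · exact hz'
    · obtain ⟨i, rfl⟩ := List.mem_ofFn.1 ht
      exact hym i) (by simp) coc1
  -- the cocycle built from `η`
  let o : List (GG d n β) → F := fun l => if ∀ i ∈ l, (under i).isSome then
    algebraMap Q F (b (l.filterMap under)) / algebraMap Q F (l.map w).prod ^ T else 0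
  have homem : ∀ l, Mem ⊤ (1 * (l.map w).prod) (o l) := by
    intro l
    simp only [o]
    split_ifs with hl
    · exact mem_div (hpne l hl) _ _
    · exact Mem.zero
  have cob2 : Cob w 𝔞 E 1 d fun l => algebraMap Q F u * o l := by
    refine (cob1.mono hle).congr fun l hE hl => ?_
    simp only [← mul_sub]
    by_cases hp : ∀ i ∈ l, (under i).isSome
    · obtain ⟨σ, rfl⟩ := exists_map (fun i : Fin d => e (Sum.inl i)) l fun i hi => by
        obtain ⟨i', rfl⟩ := hE i hi
        rcases i' with (i' | i') | i'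
        · exact ⟨i', rfl⟩
        · exact absurd (hp _ hi) (by simp [under])
        · exact absurd (hp _ hi) (by simp [under])
      rw [List.length_map] at hl
      have e1 : σ.map (fun i : Fin d => e (Sum.inl i)) = (σ.map Sum.inl).map e := by
        rw [List.map_map]; rfl
      have e2 : (σ.map fun i : Fin d => e (Sum.inl i)).filterMap under = σ :=
        filterMap_map_of _ under (fun _ => rfl) σ
      have e3 : φ (((σ.map Sum.inl).map w0).prod) =
          algebraMap K L (algebraMap A K (σ.map x).prod) := by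
        simp only [map_list_prod, List.map_map]
        congr 1
        exact List.map_congr_left fun i _ => (hx' i).1
      have e4 : φ (((σ.map Sum.inl).map w0).prod) ≠ 0 := by
        rw [e3, map_ne_zero, map_ne_zero_iff _ hinj]
        exact hxne σ
      refine (Rel.kill (φ := φ) ?_ hu1).mono hle
      rw [← sub_self (algebraMap K L (η σ))]
      refine Rel.sub ?_ ?_
      · simp only [o]
        rw [if_pos hp, e2]
        refine rel_div (hpne _ hp) ?_
        rw [e1, hwe, e3, (hb σ).1, ← ha σ hl, map_mul, map_pow]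
      · rw [e1, hme, hwe, ← hΞ3 σ hl]
        exact hm2 _ (by simpa using hl) e4
    · exact mem_kill ((homem l).sub (hmem l)) (hnp l hp)
  have coc2 : Coc w 𝔞 Set.univ 1 d fun l => algebraMap Q F u * o l := by
    refine ⟨fun l _ _ => (homem l).smul u, fun l _ hl => ?_⟩
    rw [bd_mul]
    by_cases hp : ∀ i ∈ l, (under i).isSome
    · refine Rel.kill (φ := (algebraMap A K).comp ψ) ?_ fun g hg =>
        hu2 g (hinj (by simpa using hg))
      rw [← hη (l.filterMap under) (by rw [length_filterMap_of under l hp, hl]),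
        ← bd_filterMap under η l hp]
      refine Rel.bd fun l' hs hl' => ?_
      have hp' : ∀ i ∈ l', (under i).isSome := fun i hi => hp i (hs.subset hi)
      simp only [o]
      rw [if_pos hp']
      refine rel_div (hpne _ hp') ?_
      rw [RingHom.comp_apply, RingHom.comp_apply, hpure l' hp', (hb _).2]
      exact ha _ (by rw [length_filterMap_of under l' hp']; omega)
    · exact mem_kill (Mem.bd fun l' _ _ => homem l') (hnp l hp)
  have cob3 := hH Q F (GG d n β) w 𝔞 E Set.univ 1 d _ (Set.subset_univ _) (by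
    rintro (i | i) -
    · exact Ideal.le_radical (Ideal.mem_sup_right (Ideal.subset_span ⟨_, ⟨i, rfl⟩, rfl⟩))
    · exact hrad 𝔞 (hym i)) coc2 cob2
  have hwy : ∀ l : List (Fin d), (l.map Sum.inr).map w = l.map y := fun l => by
    rw [List.map_map]; rfl
  have cob4 : Cob y 𝔞 Set.univ 1 d fun l => algebraMap Q F u * o (l.map Sum.inr) := by
    obtain ⟨ζ, h1, h2⟩ := cob3
    refine ⟨fun l => ζ (l.map Sum.inr), fun l _ hl => ?_, fun l _ hl => ?_⟩
    · rw [← hwy]
      exact h1 _ (fun _ _ => trivial) (by simpa using hl)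
    · beta_reduce
      rw [← hwy, bd_map]
      exact h2 _ (fun _ _ => trivial) (by simpa using hl)
  refine hT.top1 finj y 𝔞 _ T _ cob4 ?_
  have hp : ∀ i ∈ (List.finRange d).map (Sum.inr : Fin d → GG d n β), (under i).isSome := by
    intro i hi
    obtain ⟨j, -, rfl⟩ := List.mem_map.1 hi
    rfl
  have hne := hpne _ hp
  simp only [o]
  rw [if_pos hp, filterMap_map_of _ under (fun _ => rfl), Fin.prod_univ_def, map_mul]
  rw [hwy] at hne ⊢
  rw [mul_left_comm, mul_div_cancel₀ _ (pow_ne_zero T hne)]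

end CoreTwoA

open CoreTwoA in
theorem coreTwo (hB : S_basic) (hR : S_reg) (hC : S_cm) (hV : S_vanish) (hH : S_change)
    (hT : S_top) (hD : S_dual) : S_core2 := by
  intro Q A K L β _ _ _ _ _ _ _ _ _ _ φ ψ 𝔷 z' c h d x x' hinj hsurj hker hlift hx' hci hnzd hab
    hht hu hh hP hdim hrad η Ξ hη1 hη2 hΞ1 hΞ2 hΞ3
  have : IsDomain Q := (hR Q).1
  have : IsNoetherianRing A := isNoetherianRing_of_surjective Q A ψ hsurj
  have hprime : (RingHom.ker ψ).IsPrime := RingHom.ker_isPrime ψ
  have hbm : RingHom.ker ψ ≤ maximalIdeal Q := le_maximalIdeal hprime.ne_top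
  have hx0 := param_ne x hdim hrad
  have hmap : ∀ y : Fin d → Q, (∀ i, ψ (y i) = x i) → ∀ k : ℕ,
      (sp fun i => y i ^ k).map ψ = sp fun i => x i ^ k := by
    intro y hy k
    rw [Ideal.map_span, ← Set.range_comp]
    congr 2
    funext i
    simp [hy]
  have hrad' : (RingHom.ker ψ ⊔ sp x').radical = maximalIdeal Q := by
    have e1 : RingHom.ker ψ ⊔ sp x' = (sp x).comap ψ := by
      have := hmap x' (fun i => (hx' i).2) 1
      simp only [pow_one] at this
      rw [← this, Ideal.comap_map_of_surjective ψ hsurj, sup_comm]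
      rfl
    rw [e1, ← Ideal.comap_radical, hrad]
    exact eq_maximalIdeal (Ideal.comap_isMaximal_of_surjective ψ hsurj)
  have hci' := hB.ciSucc hci hnzd
  obtain ⟨y, hy1, hy2, hy3⟩ := hC.ch2 x' hci' hprime hab hht
    (by rw [← hdim]
        exact ringKrullDim_eq_of_ringEquiv (RingHom.quotientKerEquivOfSurjective hsurj)) hrad'
  have hy : ∀ i, ψ (y i) = x i := fun i => by
    have := hy1 i
    rw [RingHom.mem_ker, map_sub, sub_eq_zero] at this
    rw [this, (hx' i).2]
  obtain ⟨n, jg, hjg⟩ := Submodule.fg_iff_exists_fin_generating_family.1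
    (IsNoetherian.noetherian (RingHom.ker φ))
  have hjm : ∀ i, jg i ∈ RingHom.ker φ := fun i => hjg ▸ Submodule.subset_span ⟨i, rfl⟩
  obtain ⟨T, a, ha⟩ := uniform (algebraMap A K) x η hη1
  choose b hb using fun σ => hlift (a σ)
  obtain ⟨k, hk⟩ := hD Q _ _ (c + 1) d y hci' hy2 hy3 hab (b (List.finRange d)) T (by
    intro s hs
    obtain ⟨u, hu1, hu2⟩ := hu s hs
    obtain ⟨k, hk⟩ := heart hV hH hT φ ψ 𝔷 (𝔷 ⊔ Ideal.span {z'}) (maximalIdeal Q) z' h x x' y
      jg hinj hx0 hx' hy hh hjm (fun i => hker (hjm i)) le_sup_left ⟨hnzd, hy2⟩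
      (hbm (hab (Ideal.mem_sup_right (Ideal.mem_span_singleton_self z'))))
      (fun i => hy3 ▸ Ideal.le_radical (Ideal.mem_sup_right (Ideal.subset_span ⟨i, rfl⟩)))
      (fun P hP1 h1 h2 h3 => by
        rw [← hrad', hP1.radical_le_iff]
        refine sup_le (hP P hP1 ?_ h2) (Ideal.span_le.2 ?_)
        · rw [← hjg]
          exact Ideal.span_le.2 (by rintro _ ⟨i, rfl⟩; exact h3 i)
        · rintro _ ⟨i, rfl⟩; exact h1 i)
      η Ξ hη2 hΞ1 hΞ2 hΞ3 T a b ha hb u (fun g hg => mem_col.1 hu1 g hg)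
      (fun g hg => by
        have := Ideal.add_mem _ (mem_col.1 hs g hg) (Ideal.mul_mem_right g _ hu2)
        rwa [show s * g + (u - s) * g = u * g by ring] at this)
    refine ⟨k, ?_⟩
    have := Ideal.sub_mem _ hk (Ideal.mem_sup_left
      (Ideal.mul_mem_left _ ((∏ i, y i) ^ k * b (List.finRange d)) hu2))
    rwa [show (∏ i, y i) ^ k * (u * b (List.finRange d)) -
      (∏ i, y i) ^ k * b (List.finRange d) * (u - s) =
        (∏ i, y i) ^ k * (s * b (List.finRange d)) by ring] at this)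
  have hk' : (∏ i, x i) ^ k * a (List.finRange d) ∈ (⊥ : Ideal A) ⊔ sp fun i => x i ^ (T + k) := by
    have := Ideal.mem_map_of_mem ψ hk
    rw [Ideal.map_sup, hmap y hy, (Ideal.map_eq_bot_iff_le_ker ψ).2 le_rfl, map_mul, map_pow,
      map_prod, (hb _).2] at this
    simpa only [hy] using this
  obtain ⟨ζ, h1, h2⟩ := hT.top2 hinj x ⊥ η T k (a (List.finRange d)) hx0
    ⟨fun σ _ hσ => by
      obtain ⟨N, t, ht⟩ := hη1 σ hσ
      exact ⟨N, t, trivial, by rw [one_mul]; exact ht⟩,
     fun σ _ hσ => by rw [hη2 σ hσ]; exact Mem.zero⟩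
    (by rw [Fin.prod_univ_def]; exact ha _ (by simp)) hk'
  refine ⟨ζ, fun σ hσ => ?_, fun σ hσ => ?_⟩
  · obtain ⟨N, t, -, ht⟩ := h1 σ (fun _ _ => trivial) hσ
    exact ⟨N, t, by rwa [one_mul] at ht⟩
  · obtain ⟨N, t, ht0, ht⟩ := h2 σ (fun _ _ => trivial) hσ
    rw [(Submodule.mem_bot A).1 ht0, map_zero, one_mul, mul_eq_zero] at ht
    rcases ht with ht | ht
    · exfalso
      refine List.prod_ne_zero (l := σ.map x) (by simpa using fun i _ => hx0 i) (hinj ?_)
      rw [map_zero]
      exact eq_zero_of_pow_eq_zero ht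
    · exact (sub_eq_zero.1 ht).symm

end Pool.Agent.P.MP_e7d440_ag
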