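import Pool.Agent.P.MP_e7d440_ag.CritA

/-! The criterion: construction of the presentation of the Rees algebra. -/

namespace Pool.Agent.P.MP_e7d440_ag

open IsLocalRing MvPolynomial

namespace CritB

/-- the field of rational functions in one variable -/
abbrev LL (K : Type) [Field K] : Type := FractionRing (Polynomial K)

/-- the polynomial ring of the presentation -/
abbrev PP (O σ κ : Type) [CommRing O] : Type := MvPolynomial ((σ ⊕ Unit) ⊕ κ) O

lemma aeval_C {O K σ : Type} [CommRing O] [Field K] [Algebra O K] (x : σ → K)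
    (F : MvPolynomial σ O) :
    aeval (fun a => Polynomial.C (x a)) F = Polynomial.C (aeval x F) :=
  (DFunLike.congr_fun (comp_aeval x (Polynomial.CAlgHom : K →ₐ[O] Polynomial K)) F).symm

/-- clearing denominators in a polynomial over the fraction field -/
lemma clear {O K σ : Type} [CommRing O] [Field K] [Algebra O K] (x : σ → K)
    (hK : ∀ γ : K, ∃ F G : MvPolynomial σ O, aeval x G ≠ 0 ∧ γ * aeval x G = aeval x F)
    (p : Polynomial K) : ∃ (q : MvPolynomial σ O) (r : MvPolynomial (σ ⊕ Unit) O),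
      aeval x q ≠ 0 ∧ Polynomial.C (aeval x q) * p =
        aeval (Sum.elim (fun a => Polynomial.C (x a)) fun _ => Polynomial.X) r := by
  have hC : ∀ F : MvPolynomial σ O,
      aeval (Sum.elim (fun a => Polynomial.C (x a)) fun _ : Unit => Polynomial.X)
        (rename Sum.inl F) = Polynomial.C (aeval x F) := fun F => by
    rw [aeval_rename]
    exact aeval_C x F
  induction p using Polynomial.induction_on' with
  | add p p' hp hp' =>
    obtain ⟨q, r, hq, e⟩ := hp
    obtain ⟨q', r', hq', e'⟩ := hp'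
    refine ⟨q * q', r * rename Sum.inl q' + r' * rename Sum.inl q, ?_, ?_⟩
    · rw [map_mul]; exact mul_ne_zero hq hq'
    · rw [map_add, map_mul, map_mul, map_mul, map_mul, hC, hC, ← e, ← e']; ring
  | monomial n a =>
    obtain ⟨F, G, hG, e⟩ := hK a
    refine ⟨G, rename Sum.inl F * X (Sum.inr ()) ^ n, hG, ?_⟩
    rw [map_mul, map_pow, hC, aeval_X, ← e, ← Polynomial.C_mul_X_pow_eq_monomial, map_mul]
    simp only [Sum.elim_inr]
    ring

lemma nonunit_of_coeff {K L : Type} [Field K] [Field L] [Algebra K L] (ι : Polynomial K →+* L)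
    (hι : ∀ a, ι (Polynomial.C a) = algebraMap K L a) (V : ValuationSubring L) (γ : K)
    (hγ : γ ≠ 0) (hh : ι (Polynomial.C γ * Polynomial.X) ∈ V.nonunits) (p : Polynomial K)
    (h0 : p.coeff 0 = 0) (hp : ∀ n, algebraMap K L (p.coeff n / γ ^ n) ∈ V) :
    ι p ∈ V.nonunits := by
  have hV : ι (Polynomial.C γ * Polynomial.X) ∈ V := V.nonunits_subset hh
  rw [p.as_sum_range_C_mul_X_pow, map_sum]
  refine V.nonunits.sum_mem fun n _ => ?_
  rcases n with _ | n
  · simp [h0]
  · have : ι (Polynomial.C (p.coeff (n + 1)) * Polynomial.X ^ (n + 1)) =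
        (algebraMap K L (p.coeff (n + 1) / γ ^ (n + 1)) *
          ι (Polynomial.C γ * Polynomial.X) ^ n) * ι (Polynomial.C γ * Polynomial.X) := by
      have hγ' : algebraMap K L γ ≠ 0 := by simpa using hγ
      simp only [map_mul, map_pow, hι, map_div₀]
      field_simp
      ring
    rw [this, ValuationSubring.mem_nonunits_iff, map_mul]
    have h1 := (V.valuation_le_one_iff _).2 (V.mul_mem _ _ (hp (n + 1)) (V.pow_mem hV n))
    have h2 := V.mem_nonunits_iff.1 hh
    exact lt_of_le_of_lt (mul_le_of_le_one_left' h1) h2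

end CritB

open CritB in
theorem crit (hB : S_basic) (hC : S_cm) (hJ : S_jac) (hD : S_der) (hH : S_ht) (hP : S_poly)
    (hV : S_val) (h1 : S_a1) (h2 : S_a2) (hc1 : S_core1) (hc2 : S_core2) (hR : S_rees) :
    S_crit := by
  intro O A K _ _ _ _ _ _ _ _ _ _ _ _ _ _ _ π hπ hinj hL β _ B hcov
  obtain ⟨σ, _, _, D, x, g, hg, hwr, hHOR, hPOL, hVER⟩ := hL
  classical
  have hAK : Function.Injective (algebraMap A K) := IsFractionRing.injective A K
  set xK : σ → K := fun a => algebraMap A K (x a) with hxK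
  obtain ⟨D', hD'x, hD'⟩ := hJ.norm D xK hwr
  have hlw : lwr D' g * wr D xK = lwr D g := by
    rw [hJ.lwr_eq, hJ.lwr_eq, ← hD' g]; ring
  have hπK : algebraMap O K π ≠ 0 := (map_ne_zero_iff _ hinj).2 hπ.ne_zero
  have hae : ∀ F : MvPolynomial σ O, aeval xK F = algebraMap A K (aeval x F) := fun F =>
    aeval_algebraMap_apply K x F
  have hK : ∀ γ : K, ∃ F G : MvPolynomial σ O, aeval xK G ≠ 0 ∧ γ * aeval xK G = aeval xK F := by
    have hG : ∀ {G : MvPolynomial σ O} {N : ℕ} {b : A},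
        aeval x G * b = algebraMap O A π ^ N → aeval xK G ≠ 0 := by
      intro G N b e h0
      have := congrArg (algebraMap A K) e
      rw [map_mul, ← hae, h0, zero_mul, map_pow, ← IsScalarTower.algebraMap_apply] at this
      exact pow_ne_zero _ hπK this.symm
    intro γ
    obtain ⟨a, b, hb, rfl⟩ := IsFractionRing.div_surjective (A := A) γ
    have hb' : algebraMap A K b ≠ 0 := (map_ne_zero_iff _ hAK).2 (nonZeroDivisors.ne_zero hb)
    obtain ⟨F₁, G₁, N₁, b₁, e₁, e₁'⟩ := hHOR a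
    obtain ⟨F₂, G₂, N₂, b₂, e₂, e₂'⟩ := hHOR b
    have f₁ : algebraMap A K a * aeval xK G₁ = aeval xK F₁ := by rw [hae, hae, ← map_mul, e₁]
    have f₂ : algebraMap A K b * aeval xK G₂ = aeval xK F₂ := by rw [hae, hae, ← map_mul, e₂]
    refine ⟨F₁ * G₂, F₂ * G₁, ?_, ?_⟩
    · rw [map_mul, ← f₂]
      exact mul_ne_zero (mul_ne_zero hb' (hG e₂')) (hG e₁')
    · rw [map_mul, map_mul, ← f₁, ← f₂]
      field_simp
  obtain ⟨κ, _, s, β', _, idx, H, γ, hs0, hA, hN0, hH0, hcoef, hB0⟩ :=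
    hR O A K σ β x B hinj hK hcov
  choose s₀ hs₀ using hs0
  -- the rings
  let ιL : Polynomial K →ₐ[O] (LL K) := IsScalarTower.toAlgHom O (Polynomial K) (LL K)
  have hιL : Function.Injective ιL := IsFractionRing.injective (Polynomial K) (LL K)
  have hιC : ∀ a, ιL (Polynomial.C a) = algebraMap K (LL K) a := fun a =>
    (IsScalarTower.algebraMap_apply K (Polynomial K) (LL K) a).symm
  let ev : (PP O σ κ) →ₐ[O] Polynomial K := aeval (reesV x s)
  let φ₀ : (PP O σ κ) →ₐ[O] (LL K) := ιL.comp ev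
  let ψ₀ : (PP O σ κ) →ₐ[O] A := aeval (Sum.elim (Sum.elim x fun _ => 0) s₀)
  have hkey : ∀ p, algebraMap A K (ψ₀ p) = (ev p).coeff 0 := by
    have : (IsScalarTower.toAlgHom O A K).comp ψ₀ =
        ((Polynomial.aeval (0 : K)).restrictScalars O).comp ev := by
      refine MvPolynomial.algHom_ext ?_
      rintro ((a | a) | k)
      · simp [ψ₀, ev, reesV]
      · simp [ψ₀, ev, reesV]
      · simp [ψ₀, ev, reesV, ← hs₀, ← Polynomial.coeff_zero_eq_eval_zero]
    intro p
    have := DFunLike.congr_fun this p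
    simpa [Polynomial.coeff_zero_eq_eval_zero] using this
  let 𝔫 : Ideal (PP O σ κ) := (maximalIdeal A).comap ψ₀.toRingHom
  have h𝔫 : 𝔫.IsPrime := Ideal.comap_isPrime _ _
  have hunit : ∀ p : 𝔫.primeCompl, IsUnit (ψ₀ p) := fun p => by
    by_contra h
    exact p.2 h
  have hunit' : ∀ p : 𝔫.primeCompl, IsUnit (φ₀ p) := fun p => by
    refine isUnit_iff_ne_zero.2 fun h0 => (hunit p).ne_zero (hAK ?_)
    have : ev p = 0 := hιL (by rw [map_zero]; exact h0)
    rw [hkey, this, map_zero, Polynomial.coeff_zero]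
  let φ : (Localization.AtPrime 𝔫) →ₐ[O] (LL K) := IsLocalization.liftAlgHom (M := 𝔫.primeCompl) (f := φ₀) hunit'
  let ψ : (Localization.AtPrime 𝔫) →ₐ[O] A := IsLocalization.liftAlgHom (M := 𝔫.primeCompl) (f := ψ₀) hunit
  have hφ : ∀ p, φ (algebraMap (PP O σ κ) (Localization.AtPrime 𝔫) p) = φ₀ p := fun p => IsLocalization.lift_eq hunit' p
  have hψ : ∀ p, ψ (algebraMap (PP O σ κ) (Localization.AtPrime 𝔫) p) = ψ₀ p := fun p => IsLocalization.lift_eq hunit p
  have hreg : IsRegularRing (Localization.AtPrime 𝔫) := hP.regLoc 𝔫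
  have hker : RingHom.ker φ.toRingHom ≤ RingHom.ker ψ.toRingHom := by
    intro q hq
    obtain ⟨⟨p, t⟩, e⟩ := IsLocalization.surj 𝔫.primeCompl q
    have e1 := congrArg φ e
    have e2 := congrArg ψ e
    simp only [map_mul, hφ, hψ] at e1 e2
    have hq' : φ q = 0 := hq
    rw [hq', zero_mul] at e1
    have : ev p = 0 := hιL (by rw [map_zero]; exact e1.symm)
    have h3 : ψ₀ p = 0 := hAK (by rw [hkey, this, map_zero, Polynomial.coeff_zero])
    rw [h3] at e2
    exact ((hunit t).mul_left_eq_zero).1 e2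
  have hlift : ∀ a : A, ∃ q, φ q = algebraMap K (LL K) (algebraMap A K a) ∧ ψ q = a := by
    intro a
    obtain ⟨p, q, b, c, hc, e, ep, eq⟩ := hA a
    have eb : ψ₀ p = b := hAK (by rw [hkey]; simp [ev, ep])
    have ec : ψ₀ q = c := hAK (by rw [hkey]; simp [ev, eq])
    have hq : q ∈ 𝔫.primeCompl := fun h => h (by simpa [ec] using hc)
    have e0 := IsLocalization.mk'_spec (Localization.AtPrime 𝔫) p ⟨q, hq⟩
    have e1 := congrArg φ e0
    have e2 := congrArg ψ e0
    simp only [map_mul, hφ, hψ] at e1 e2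
    refine ⟨IsLocalization.mk' (Localization.AtPrime 𝔫) p ⟨q, hq⟩, ?_, ?_⟩
    · have f1 : φ₀ p = algebraMap K (LL K) (algebraMap A K b) := by
        rw [← hιC, ← ep]; rfl
      have f2 : φ₀ q = algebraMap K (LL K) (algebraMap A K c) := by
        rw [← hιC, ← eq]; rfl
      have f3 : φ₀ q ≠ 0 := (hunit' ⟨q, hq⟩).ne_zero
      apply mul_right_cancel₀ f3
      rw [e1, f1, f2, ← e, map_mul, map_mul]
    · rw [eb, ec, ← e] at e2
      exact hc.mul_right_cancel e2
  have hsurj : Function.Surjective ψ := fun a => (hlift a).imp fun _ h => h.2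
  have hNoeth : IsNoetherianRing A := isNoetherianRing_of_surjective (Localization.AtPrime 𝔫) A ψ.toRingHom hsurj
  -- derivations
  obtain ⟨d, hd, hchain⟩ := hD.jet0 𝔫
  obtain ⟨hl1, Dτ, hDτ, hDτ'⟩ := hD.lext (O := O) (K := K)
  choose DL hDL hDL' using fun a => hl1 (D' a)
  have hDL2 : ∀ a γ, DL a (algebraMap K (LL K) γ) = algebraMap K (LL K) (D' a γ) := fun a γ => by
    rw [← hιC, ← hιC]; exact hDL a γ
  have hDτ2 : ∀ γ, Dτ (algebraMap K (LL K) γ) = 0 := fun γ => by rw [← hιC]; exact hDτ γ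
  have hφx : ∀ a, φ (algebraMap (PP O σ κ) (Localization.AtPrime 𝔫) (X (Sum.inl (Sum.inl a)))) = algebraMap K (LL K) (xK a) :=
    fun a => by rw [hφ, ← hιC]; simp [φ₀, ev, reesV, hxK]
  have hφτ : φ (algebraMap (PP O σ κ) (Localization.AtPrime 𝔫) (X (Sum.inl (Sum.inr ())))) = ιL Polynomial.X := by
    rw [hφ]; simp [φ₀, ev, reesV]
  have hdX : ∀ i j, d i (algebraMap (PP O σ κ) (Localization.AtPrime 𝔫) (X j)) = if i = j then 1 else 0 := fun i j => by
    rw [hd, pderiv_X]
    by_cases h : i = j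
    · simp [h]
    · simp [h, Pi.single_eq_of_ne' h]
  let j₁ : Jet O (Localization.AtPrime 𝔫) (LL K) (σ ⊕ Unit) κ :=
    { φ := φ
      X := fun i => algebraMap (PP O σ κ) (Localization.AtPrime 𝔫) (X i)
      d := d
      D := Sum.elim DL fun _ => Dτ
      dX := hdX
      DX := by
        rintro (a | a) (b | b)
        · rw [hφx]; simp [hDL2, hD'x]
        · rw [hφτ]; exact (hDL' a).trans (by simp)
        · rw [hφx]; simp [hDτ2]
        · rw [hφτ]; exact hDτ'.trans (by simp)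
      chain := fun a q => hchain (LL K) φ _ q }
  let e : σ ⊕ (Unit ⊕ κ) ≃ (σ ⊕ Unit) ⊕ κ := (Equiv.sumAssoc σ Unit κ).symm
  let χ : (Localization.AtPrime 𝔫) →ₐ[O] K := (IsScalarTower.toAlgHom O A K).comp ψ
  have hχ : ∀ q, χ q = algebraMap A K (ψ q) := fun q => rfl
  have hψx : ∀ a, ψ (algebraMap (PP O σ κ) (Localization.AtPrime 𝔫) (X (e (Sum.inl a)))) = x a := fun a => by
    rw [hψ]; simp [ψ₀, e]
  let j₂ : Jet O (Localization.AtPrime 𝔫) K σ (Unit ⊕ κ) :=
    { φ := χ
      X := fun i => algebraMap (PP O σ κ) (Localization.AtPrime 𝔫) (X (e i))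
      d := fun i => d (e i)
      D := D'
      dX := fun i j => by rw [hdX]; simp
      DX := fun a b => by rw [hχ, hψx]; exact hD'x a b
      chain := fun a q => by
        rw [hchain K χ (D' a) q]
        exact (e.sum_comp fun i => χ (d i q) * D' a (χ (algebraMap (PP O σ κ) (Localization.AtPrime 𝔫) (X i)))).symm }
  have hinjL : Function.Injective (algebraMap O (LL K)) := by
    rw [IsScalarTower.algebraMap_eq O K (LL K)]
    exact (algebraMap K (LL K)).injective.comp hinj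
  -- clearing denominators
  have hev : ∀ r : MvPolynomial (σ ⊕ Unit) O, ev (rename Sum.inl r) =
      aeval (Sum.elim (fun a => Polynomial.C (xK a)) fun _ => Polynomial.X) r := fun r => by
    rw [aeval_rename]; rfl
  have hev' : ∀ q : MvPolynomial σ O, ev (rename (Sum.inl ∘ Sum.inl) q) =
      Polynomial.C (aeval xK q) := fun q => by
    rw [aeval_rename]
    exact aeval_C xK q
  choose q₀ r₀ hq₀ hr₀ using fun k => clear xK hK (s k)
  have hF : ∀ θ : (LL K), ∃ a b, φ b ≠ 0 ∧ θ * φ b = φ a := by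
    intro θ
    obtain ⟨a, b, hb, rfl⟩ := IsFractionRing.div_surjective (A := Polynomial K) θ
    have hb' : ιL b ≠ 0 := (map_ne_zero_iff _ hιL).2 (nonZeroDivisors.ne_zero hb)
    obtain ⟨qa, ra, hqa, ea⟩ := clear xK hK a
    obtain ⟨qb, rb, hqb, eb⟩ := clear xK hK b
    have n1 : ιL (Polynomial.C (aeval xK qa)) ≠ 0 := by
      rw [hιC]; exact (map_ne_zero _).2 hqa
    have n2 : ιL (Polynomial.C (aeval xK qb)) ≠ 0 := by
      rw [hιC]; exact (map_ne_zero _).2 hqb
    refine ⟨algebraMap (PP O σ κ) (Localization.AtPrime 𝔫) (rename Sum.inl ra * rename (Sum.inl ∘ Sum.inl) qb),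
      algebraMap (PP O σ κ) (Localization.AtPrime 𝔫) (rename Sum.inl rb * rename (Sum.inl ∘ Sum.inl) qa), ?_, ?_⟩
    · rw [hφ]
      simp only [φ₀, AlgHom.comp_apply, map_mul, hev, hev', ← eb]
      exact mul_ne_zero (mul_ne_zero n2 hb') n1
    · rw [hφ, hφ]
      simp only [φ₀, AlgHom.comp_apply, map_mul, hev, hev', ← eb, ← ea]
      change ιL a / ιL b * _ = _
      field_simp
  have hN : ∀ θ, φ.toRingHom.IsIntegralElem θ → ∃ q, φ q = θ := by
    refine hV.locN 𝔫.primeCompl φ.toRingHom fun θ hθ => ?_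
    have : φ.toRingHom.comp (algebraMap (PP O σ κ) (Localization.AtPrime 𝔫)) =
        (algebraMap (Polynomial K) (LL K)).comp ev.toRingHom := RingHom.ext hφ
    rw [this] at hθ
    obtain ⟨p, hp⟩ := hN0 θ hθ
    exact ⟨p, (hφ p).trans hp⟩
  have ht₁ : j₁.J.height ≤ Fintype.card κ := by
    refine hH.gen (Equiv.refl _) 𝔫 φ (fun i => φ (algebraMap (PP O σ κ) (Localization.AtPrime 𝔫) (X i))) (fun _ => rfl) ?_ ?_
    · refine hJ.indep j₁.D _ hinjL ?_
      have : (Matrix.of fun b a => j₁.D a (φ (algebraMap (PP O σ κ) (Localization.AtPrime 𝔫) (X (Sum.inl b))))) = 1 := by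
        ext b a
        rw [Matrix.of_apply, Matrix.one_apply]
        exact (j₁.DX a b).trans (by simp [eq_comm])
      simp only [Equiv.refl_apply, wr, this]
      simp
    · intro k
      have hv : ∀ r : MvPolynomial (σ ⊕ Unit) O,
          aeval (fun a => φ (algebraMap (PP O σ κ) (Localization.AtPrime 𝔫) (X (Sum.inl a)))) r = φ₀ (rename Sum.inl r) := by
        intro r
        have : (aeval (fun a => φ (algebraMap (PP O σ κ) (Localization.AtPrime 𝔫) (X (Sum.inl a)))) :
            MvPolynomial (σ ⊕ Unit) O →ₐ[O] (LL K)) = φ₀.comp (rename Sum.inl) :=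
          MvPolynomial.algHom_ext fun a => by simp [hφ]
        rw [this]; rfl
      refine ⟨r₀ k, rename Sum.inl (q₀ k), ?_, ?_⟩
      · simp only [Equiv.refl_apply, hv, rename_rename, φ₀, AlgHom.comp_apply, hev', hιC]
        exact (map_ne_zero _).2 (hq₀ k)
      · simp only [Equiv.refl_apply, hv, rename_rename]
        rw [hφ]
        simp only [φ₀, AlgHom.comp_apply, hev', hev, ← hr₀ k, map_mul]
        simp [ev, reesV, mul_comm]
  have ht₂ : j₂.J.height ≤ Fintype.card (Unit ⊕ κ) := by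
    have hv : (fun a => χ (algebraMap (PP O σ κ) (Localization.AtPrime 𝔫) (X (e (Sum.inl a))))) = xK :=
      funext fun a => by rw [hχ, hψx]
    refine hH.gen e 𝔫 χ (fun i => χ (algebraMap (PP O σ κ) (Localization.AtPrime 𝔫) (X i))) (fun _ => rfl) ?_ ?_
    · rw [hv]; exact hJ.indep D xK hinj hwr
    · intro k
      rw [hv]
      obtain ⟨F, G, hG, e'⟩ := hK (χ (algebraMap (PP O σ κ) (Localization.AtPrime 𝔫) (X (e (Sum.inr k)))))
      exact ⟨F, G, hG, e'⟩
  let z₀ : κ → (Localization.AtPrime 𝔫) := fun k => algebraMap (PP O σ κ) (Localization.AtPrime 𝔫)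
    (rename (Sum.inl ∘ Sum.inl) (q₀ k) * X (Sum.inr k) - rename Sum.inl (r₀ k))
  have hz₀ : ∀ k, z₀ k ∈ j₁.J := fun k => by
    change φ (algebraMap (PP O σ κ) (Localization.AtPrime 𝔫) _) = 0
    rw [hφ]
    simp only [φ₀, AlgHom.comp_apply, map_sub, map_mul, hev', hev, ← hr₀ k]
    simp [ev, reesV]
  have hz₀' : ψ (Matrix.of fun k l => j₁.d (Sum.inr l) (z₀ k)).det ≠ 0 := by
    have hp0 : ∀ {τ : Type} (f : τ → σ ⊕ Unit) (l : κ) (r : MvPolynomial τ O),
        pderiv (Sum.inr l : (σ ⊕ Unit) ⊕ κ) (rename (Sum.inl ∘ f) r) = 0 := fun f l r => by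
      refine pderiv_eq_zero_of_notMem_vars fun h => ?_
      obtain ⟨i, -, hi⟩ := mem_vars_rename _ _ h
      simp at hi
    have : (Matrix.of fun k l => j₁.d (Sum.inr l) (z₀ k)) =
        Matrix.diagonal fun k => algebraMap (PP O σ κ) (Localization.AtPrime 𝔫) (rename (Sum.inl ∘ Sum.inl) (q₀ k)) := by
      ext k l
      have := hp0 id l (r₀ k)
      rw [Function.comp_id] at this
      simp only [Matrix.of_apply, j₁, z₀, hd, map_sub, Derivation.leibniz, hp0, this, pderiv_X,
        Matrix.diagonal_apply]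
      by_cases h : k = l
      · simp [h]
      · simp [h]
    rw [this, Matrix.det_diagonal, map_prod]
    refine Finset.prod_ne_zero_iff.2 fun k _ h0 => hq₀ k ?_
    rw [hψ] at h0
    have := hkey (rename (Sum.inl ∘ Sum.inl) (q₀ k))
    rw [h0, hev', map_zero, Polynomial.coeff_C_zero] at this
    exact this.symm
  let h : β' → (Localization.AtPrime 𝔫) := fun i => algebraMap (PP O σ κ) (Localization.AtPrime 𝔫) (H i)
  have hφh : ∀ i, φ (h i) = ιL (Polynomial.C (γ i) * Polynomial.X) := fun i => by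
    rw [hφ, ← hH0]; rfl
  have hψh : ∀ i, ψ (h i) = 0 := fun i => by
    rw [hψ]
    apply hAK
    rw [hkey, map_zero]
    simp [ev, hH0]
  have hQ4 : ∀ 𝔓 : Ideal (Localization.AtPrime 𝔫), 𝔓.IsPrime → RingHom.ker φ.toRingHom ≤ 𝔓 → (∀ i, h i ∈ 𝔓) →
      RingHom.ker ψ.toRingHom ≤ 𝔓 := by
    intro 𝔓 h𝔓 hk hh q hq
    obtain ⟨V, hV1, hV2⟩ := hV.center φ.toRingHom 𝔓 h𝔓 hk
    obtain ⟨i, hi, hco⟩ := hcoef (V.comap (algebraMap K (LL K))) fun a => by
      obtain ⟨q, hq, -⟩ := hlift a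
      change algebraMap K (LL K) _ ∈ V
      rw [← hq]; exact hV1 q
    obtain ⟨⟨p, t⟩, e⟩ := IsLocalization.surj 𝔫.primeCompl q
    have e2 := congrArg ψ e
    simp only [map_mul, hψ] at e2
    have hq' : ψ q = 0 := hq
    rw [hq', zero_mul] at e2
    have hp : algebraMap (PP O σ κ) (Localization.AtPrime 𝔫) p ∈ 𝔓 := by
      refine (hV2 _).1 ?_
      change φ _ ∈ _
      rw [hφ]
      refine nonunit_of_coeff ιL.toRingHom hιC V (γ i) hi ?_ (ev p) ?_ fun n => hco p n
      · change ιL _ ∈ _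
        rw [← hφh]; exact (hV2 _).2 (hh i)
      · rw [← hkey, ← e2, map_zero]
    rw [← e] at hp
    exact (Ideal.mul_unit_mem_iff_mem _ (IsLocalization.map_units (Localization.AtPrime 𝔫) t)).1 hp
  obtain ⟨𝔷, z', c, hCI, hNZD, hle, hht, hu⟩ := critA hB hC hH h1 h2 j₁ j₂ ψ π h g z₀
    (fun _ => rfl) hχ hker hlift (by
      change ψ (algebraMap (PP O σ κ) (Localization.AtPrime 𝔫) _) = 0
      rw [hψ]; simp [ψ₀]) hDL2 hDτ2 hN hF ht₁ ht₂ hz₀ hz₀'
    (hP.notSq π hπ 𝔫) (fun i => by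
      change Dτ (φ (h i)) * φ (algebraMap (PP O σ κ) (Localization.AtPrime 𝔫) _) = φ (h i)
      rw [hφτ, hφh, map_mul, hιC, Derivation.leibniz, hDτ2]
      have : Dτ (ιL Polynomial.X) = 1 := hDτ'
      simp [this]) hQ4 hπK hg (by
      have : (fun i => ψ (j₂.X (Sum.inl i))) = x := funext hψx
      rw [this]; exact hHOR) (by
      obtain ⟨N, r, hr⟩ := hPOL
      refine ⟨N, r, mul_right_cancel₀ hwr ?_⟩
      rw [hr, ← hlw, mul_assoc]) (by
      intro 𝔮 h𝔮 hh hπ𝔮
      obtain ⟨y, hy1, hy2, t, ht, hy3⟩ := hVER 𝔮 h𝔮 hh hπ𝔮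
      refine ⟨y, hy1, hy2, t, ht, mul_right_cancel₀ hwr ?_⟩
      change wr D' y * _ = t * lwr D' g * _
      rw [hD', hy3, ← hlw, mul_assoc])
  intro dd xx hdim hrad η ξ a1 a2 a3 a4 a5
  choose x' hx' using fun i => hlift (xx i)
  obtain ⟨Ξ, b1, b2, b3⟩ := hc1 (Localization.AtPrime 𝔫) A K (LL K) β β' φ.toRingHom B h idx dd xx x'
    (fun a => (hlift a).imp fun _ h => h.1) (fun i => (hx' i).1) hN (by
      intro V i hV1 hne hinv b hb
      obtain ⟨p, hp⟩ := hB0 i b hb
      have e1 : algebraMap K (LL K) b = φ (algebraMap (PP O σ κ) (Localization.AtPrime 𝔫) p) * (φ (h i))⁻¹ := by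
        have hne' : φ (h i) ≠ 0 := hne
        rw [eq_mul_inv_iff_mul_eq₀ hne', hφh, hφ, ← hιC, ← map_mul]
        change _ = ιL (ev p)
        rw [hp, map_mul Polynomial.C, mul_assoc]
      rw [e1]
      exact V.mul_mem _ _ (hV1 _) hinv) η ξ a1 a2 a3 a4 a5
  exact hc2 (Localization.AtPrime 𝔫) A K (LL K) β' φ.toRingHom ψ.toRingHom 𝔷 z' c h dd xx x' hAK hsurj hker hlift hx' hCI
    hNZD hle hht hu hψh hQ4 hdim hrad η Ξ a1 a2 b1 b2 b3

end Pool.Agent.P.MP_e7d440_ag
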