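import Pool.Agent.P.MP_e7d440_ag.Iface

/-! Double annihilator in an Artinian local ring with cyclic socle. -/

namespace Pool.Agent.P.MP_e7d440_ag

open IsLocalRing

namespace DannA

variable {L : Type} [CommRing L] [IsLocalRing L]

omit [IsLocalRing L] in
theorem len_cov {I J : Ideal L} (h : I ⋖ J) :
    Module.length L J = Module.length L I + 1 := by
  let f : I →ₗ[L] J := Submodule.inclusion h.le
  have key : IsSimpleModule L (J ⧸ LinearMap.range f) := by
    rwa [Submodule.range_inclusion, ← covBy_iff_quot_is_simple h.le]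
  rw [Module.length_eq_add_of_exact f (LinearMap.range f).mkQ (Submodule.inclusion_injective _)
    (Submodule.mkQ_surjective _) (LinearMap.exact_map_mkQ_range f),
    Module.length_eq_one L (J ⧸ LinearMap.range f)]

omit [IsLocalRing L] in
theorem len_wcov {I J : Ideal L} (h : I ⩿ J) :
    Module.length L J ≤ Module.length L I + 1 := by
  rcases h.eq_or_covBy with rfl | h
  · exact le_self_add
  · exact (len_cov h).le

omit [IsLocalRing L] in
theorem mem_ann {I : Ideal L} {t : L} : t ∈ I.annihilator ↔ ∀ g ∈ I, t * g = 0 :=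
  Submodule.mem_annihilator

/-- A cover is generated by one element killed by the maximal ideal. -/
theorem cov_gen {I J : Ideal L} (h : I ⋖ J) :
    ∃ x, (∀ g ∈ J, ∃ i ∈ I, ∃ c, g = i + c * x) ∧ ∀ t ∈ maximalIdeal L, t * x ∈ I := by
  obtain ⟨x, hxJ, hxI⟩ := SetLike.exists_of_lt h.lt
  have key : ∀ y ∈ J, y ∉ I → ∀ g ∈ J, ∃ i ∈ I, ∃ c, g = i + c * y := by
    intro y hyJ hyI g hg
    have h1 : I ⊔ Ideal.span {y} ≤ J := sup_le h.le ((Ideal.span_singleton_le_iff_mem _).2 hyJ)
    rcases h.eq_or_eq (le_sup_left : I ≤ I ⊔ Ideal.span {y}) h1 with h2 | h2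
    · exact absurd (h2 ▸ Ideal.mem_sup_right (Ideal.mem_span_singleton_self y)) hyI
    · rw [← h2] at hg
      obtain ⟨i, hi, z, hz, rfl⟩ := Submodule.mem_sup.1 hg
      obtain ⟨c, rfl⟩ := Ideal.mem_span_singleton'.1 hz
      exact ⟨i, hi, c, rfl⟩
  refine ⟨x, key x hxJ hxI, fun t ht => ?_⟩
  by_contra hc
  obtain ⟨i, hi, c, hx⟩ := key (t * x) (J.mul_mem_left t hxJ) hc x hxJ
  have hu : IsUnit (1 - c * t) :=
    isUnit_one_sub_self_of_mem_nonunits _ ((maximalIdeal L).mul_mem_left c ht)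
  have h3 : (1 - c * t) * x ∈ I := by
    have : (1 - c * t) * x = i := by linear_combination hx
    rw [this]
    exact hi
  exact hxI ((I.unit_mul_mem_iff_mem hu).1 h3)

theorem ann_wcov {u : L} (hu : ∀ t ∈ maximalIdeal L, t * u = 0)
    (hs : ∀ g, (∀ t ∈ maximalIdeal L, t * g = 0) → ∃ c, g = c * u) {I J : Ideal L} (h : I ⋖ J) :
    J.annihilator ⩿ I.annihilator := by
  obtain ⟨x, hx, hm⟩ := cov_gen h
  have h1 : ∀ t ∈ I.annihilator, t * x = 0 → t ∈ J.annihilator := by
    intro t ht htx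
    refine mem_ann.2 fun g hg => ?_
    obtain ⟨i, hi, c, rfl⟩ := hx g hg
    have := mem_ann.1 ht i hi
    linear_combination this + c * htx
  have h2 : ∀ t ∈ I.annihilator, ∃ c, t * x = c * u := by
    intro t ht
    refine hs _ fun s hs' => ?_
    have := mem_ann.1 ht _ (hm s hs')
    linear_combination this
  refine ⟨Submodule.annihilator_mono h.le, fun K hK1 hK2 => hK2.ne' ?_⟩
  refine le_antisymm (fun t ht => ?_) hK2.le
  obtain ⟨k, hkK, hkJ⟩ := SetLike.exists_of_lt hK1
  have hkI : k ∈ I.annihilator := hK2.le hkK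
  obtain ⟨c, hc⟩ := h2 k hkI
  obtain ⟨c', hc'⟩ := h2 t ht
  have hcu : IsUnit c := by
    by_contra hn
    exact hkJ (h1 k hkI (by rw [hc]; exact hu c ((mem_maximalIdeal c).2 hn)))
  obtain ⟨d, hd⟩ := hcu.exists_left_inv
  have h3 : t - c' * d * k ∈ J.annihilator := by
    refine h1 _ (I.annihilator.sub_mem ht (I.annihilator.mul_mem_left _ hkI)) ?_
    linear_combination hc' - c' * d * hc - c' * u * hd
  have h4 := K.add_mem (hK1.le h3) (K.mul_mem_left (c' * d) hkK)
  simpa using h4

variable [IsArtinianRing L] [IsNoetherianRing L]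

theorem low {u : L} (hu : ∀ t ∈ maximalIdeal L, t * u = 0)
    (hs : ∀ g, (∀ t ∈ maximalIdeal L, t * g = 0) → ∃ c, g = c * u) (I : Ideal L) :
    Module.length L (⊤ : Ideal L) ≤ Module.length L I.annihilator + Module.length L I := by
  induction I using WellFoundedLT.induction with
  | ind I ih =>
    rcases eq_or_ne I ⊥ with rfl | h0
    · rw [Submodule.annihilator_bot]
      exact le_self_add
    · obtain ⟨J, -, hJ⟩ := exists_le_covBy_of_lt (bot_lt_iff_ne_bot.2 h0)
      refine (ih J hJ.lt).trans ?_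
      rw [len_cov hJ, add_comm (Module.length L J) 1, ← add_assoc]
      exact add_le_add_left (len_wcov (ann_wcov hu hs hJ)) _

theorem high {u : L} (hu : ∀ t ∈ maximalIdeal L, t * u = 0)
    (hs : ∀ g, (∀ t ∈ maximalIdeal L, t * g = 0) → ∃ c, g = c * u) (I : Ideal L) :
    Module.length L I.annihilator + Module.length L I ≤ Module.length L (⊤ : Ideal L) := by
  induction I using WellFoundedGT.induction with
  | ind I ih =>
    rcases eq_or_ne I ⊤ with rfl | h0
    · have h1 : (⊤ : Ideal L).annihilator = ⊥ := by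
        refine le_antisymm (fun t ht => ?_) bot_le
        simpa using mem_ann.1 ht 1 trivial
      rw [h1, Module.length_bot, zero_add]
    · obtain ⟨J, hJ, -⟩ := exists_covBy_le_of_lt (lt_top_iff_ne_top.2 h0)
      refine le_trans ?_ (ih J hJ.lt)
      rw [len_cov hJ, add_comm (Module.length L I) 1, ← add_assoc]
      exact add_le_add_left (len_wcov (ann_wcov hu hs hJ)) _

theorem ann_ann {u : L} (hu : ∀ t ∈ maximalIdeal L, t * u = 0)
    (hs : ∀ g, (∀ t ∈ maximalIdeal L, t * g = 0) → ∃ c, g = c * u) (I : Ideal L) :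
    I.annihilator.annihilator ≤ I := by
  have h1 : I ≤ I.annihilator.annihilator := by
    intro g hg
    refine mem_ann.2 fun t ht => ?_
    rw [mul_comm]
    exact mem_ann.1 ht g hg
  have h2 := (high hu hs I.annihilator).trans (low hu hs I)
  rw [add_comm (Module.length L I.annihilator) (Module.length L I)] at h2
  have h3 : Module.length L I.annihilator ≠ ⊤ := Module.length_ne_top
  have h4 := (ENat.add_le_add_iff_right h3).1 h2
  by_contra hc
  have h5 : I < I.annihilator.annihilator := lt_of_le_of_ne h1 fun h => hc h.ge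
  have h6 := Submodule.height_strictMono h5
  rw [← Module.length_submodule, ← Module.length_submodule] at h6
  exact absurd h4 (not_le.2 h6)

end DannA

theorem dann : S_dann := by
  intro R _ _ _ 𝔠 𝔟 hr hs hle
  obtain ⟨u, hu, hs⟩ := hs
  have hc : 𝔠 ≤ maximalIdeal R := hr ▸ Ideal.le_radical
  have hne : 𝔠 ≠ ⊤ := fun h => (maximalIdeal.isMaximal R).ne_top (top_le_iff.1 (h ▸ hc))
  have : Nontrivial (R ⧸ 𝔠) := Ideal.Quotient.nontrivial_iff.2 hne
  have : IsLocalRing (R ⧸ 𝔠) :=
    IsLocalRing.of_surjective' (Ideal.Quotient.mk 𝔠) Ideal.Quotient.mk_surjective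
  have hmin : maximalIdeal R ∈ 𝔠.minimalPrimes := by
    rw [← Ideal.radical_minimalPrimes, hr, Ideal.minimalPrimes_eq_subsingleton_self]
    rfl
  have : IsArtinianRing (R ⧸ 𝔠) :=
    IsLocalRing.quotient_artinian_of_mem_minimalPrimes_of_isLocalRing 𝔠 hmin
  have hm : ∀ t : R, Ideal.Quotient.mk 𝔠 t ∈ maximalIdeal (R ⧸ 𝔠) ↔ t ∈ maximalIdeal R := by
    intro t
    constructor
    · intro h
      rw [mem_maximalIdeal] at h ⊢
      exact fun h1 => h (h1.map _)
    · intro h
      rw [← hr] at h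
      obtain ⟨n, hn⟩ := h
      rw [mem_maximalIdeal]
      intro h1
      have h2 := h1.pow n
      rw [← map_pow, Ideal.Quotient.eq_zero_iff_mem.2 hn] at h2
      exact not_isUnit_zero h2
  have h1 := DannA.ann_ann (L := R ⧸ 𝔠) (u := Ideal.Quotient.mk 𝔠 u) (fun t ht => by
      obtain ⟨t, rfl⟩ := Ideal.Quotient.mk_surjective t
      rw [← map_mul, Ideal.Quotient.eq_zero_iff_mem]
      exact hu t ((hm t).1 ht)) (fun g hg => by
      obtain ⟨g, rfl⟩ := Ideal.Quotient.mk_surjective g
      have h2 := hs g fun t ht => by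
        rw [← Ideal.Quotient.eq_zero_iff_mem, map_mul]
        exact hg _ ((hm t).2 ht)
      obtain ⟨i, hi, z, hz, rfl⟩ := Submodule.mem_sup.1 h2
      obtain ⟨c, rfl⟩ := Ideal.mem_span_singleton'.1 hz
      refine ⟨Ideal.Quotient.mk 𝔠 c, ?_⟩
      rw [map_add, Ideal.Quotient.eq_zero_iff_mem.2 hi, zero_add, map_mul])
    (𝔟.map (Ideal.Quotient.mk 𝔠))
  intro g hg
  have h2 : Ideal.Quotient.mk 𝔠 g ∈ 𝔟.map (Ideal.Quotient.mk 𝔠) := by
    refine h1 (DannA.mem_ann.2 fun t ht => ?_)
    obtain ⟨t, rfl⟩ := Ideal.Quotient.mk_surjective t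
    rw [← map_mul, Ideal.Quotient.eq_zero_iff_mem]
    refine mem_col.1 hg t (mem_col.2 fun b hb => ?_)
    rw [← Ideal.Quotient.eq_zero_iff_mem, map_mul]
    exact DannA.mem_ann.1 ht _ (Ideal.mem_map_of_mem _ hb)
  exact (Ideal.mem_quotient_iff_mem hle).1 h2

end Pool.Agent.P.MP_e7d440_ag
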