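import Pool.Agent.P.MP_e7d440_ag.Iface

/-! Depth lemmas in a Noetherian local ring. -/

namespace Pool.Agent.P.MP_e7d440_ag

open IsLocalRing

namespace DepA

variable {R : Type} [CommRing R]

theorem mem_sup1 {I : Ideal R} {r g : R} : g ∈ I ⊔ Ideal.span {r} ↔ ∃ c, g - r * c ∈ I := by
  constructor
  · intro h
    obtain ⟨a, ha, b, hb, rfl⟩ := Submodule.mem_sup.1 h
    obtain ⟨c, rfl⟩ := Ideal.mem_span_singleton'.1 hb
    exact ⟨c, by simpa [mul_comm] using ha⟩
  · rintro ⟨c, hc⟩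
    exact Submodule.mem_sup.2 ⟨_, hc, r * c, Ideal.mul_mem_right _ _
      (Ideal.mem_span_singleton_self r), by ring⟩

theorem mem_of_eq {I : Ideal R} {x y : R} (h : y ∈ I) (e : x = y) : x ∈ I := e ▸ h

theorem nzd_pow {I : Ideal R} {r : R} (h : NZD I r) (k : ℕ) : NZD I (r ^ k) := by
  induction k with
  | zero => intro g hg; simpa using hg
  | succ k ih => intro g hg; exact ih g (h _ (mem_of_eq hg (by ring)))

variable [IsLocalRing R] [IsNoetherianRing R]

theorem nak {I N : Ideal R} {r : R} (hr : r ∈ maximalIdeal R)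
    (h : ∀ g ∈ N, ∃ g' ∈ N, g - r * g' ∈ I) : N ≤ I := by
  refine Submodule.le_of_le_smul_of_le_jacobson_bot (I := maximalIdeal R)
    (IsNoetherian.noetherian N) (jacobson_eq_maximalIdeal ⊥ bot_ne_top).ge fun g hg => ?_
  obtain ⟨g', hg', e⟩ := h g hg
  exact Submodule.mem_sup.2 ⟨_, e, r * g', Submodule.smul_mem_smul hr hg', by ring⟩

theorem swap {I : Ideal R} {a b : R} (ha : a ∈ maximalIdeal R) (h1 : NZD I a)
    (h2 : NZD (I ⊔ Ideal.span {a}) b) : NZD I b ∧ NZD (I ⊔ Ideal.span {b}) a := by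
  constructor
  · have : col I (Ideal.span {b}) ≤ I := nak ha fun g hg => by
      have hb : g * b ∈ I := mem_col.1 hg b (Ideal.mem_span_singleton_self b)
      obtain ⟨c, hc⟩ := mem_sup1.1 (h2 g (Ideal.mem_sup_left (mem_of_eq hb (mul_comm _ _))))
      refine ⟨c, mem_col.2 fun y hy => ?_, hc⟩
      obtain ⟨d, rfl⟩ := Ideal.mem_span_singleton'.1 hy
      have : c * b ∈ I := h1 _ (mem_of_eq (I.sub_mem hb (I.mul_mem_right b hc)) (by ring))
      exact mem_of_eq (I.mul_mem_left d this) (by ring)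
    intro g hg
    refine this (mem_col.2 fun y hy => ?_)
    obtain ⟨d, rfl⟩ := Ideal.mem_span_singleton'.1 hy
    exact mem_of_eq (I.mul_mem_left d hg) (by ring)
  · intro g hg
    obtain ⟨c, hc⟩ := mem_sup1.1 hg
    obtain ⟨d, hd⟩ := mem_sup1.1 (h2 c (mem_sup1.2 ⟨g, mem_of_eq (I.neg_mem hc) (by ring)⟩))
    exact mem_sup1.2 ⟨d, h1 _ (mem_of_eq (I.add_mem hc (I.mul_mem_left b hd)) (by ring))⟩

theorem perm {l l' : List R} (h : l.Perm l') : ∀ {I : Ideal R},
    (∀ t ∈ l, t ∈ maximalIdeal R) → RegSeq I l → RegSeq I l' := by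
  induction h with
  | nil => exact fun _ h => h
  | cons x _ ih => exact fun hm h => ⟨h.1, ih (fun t ht => hm t (List.mem_cons_of_mem _ ht)) h.2⟩
  | swap x y l =>
    intro I hm h
    obtain ⟨h1, h2, h3⟩ := h
    obtain ⟨k1, k2⟩ := swap (hm y List.mem_cons_self) h1 h2
    exact ⟨k1, k2, by rwa [sup_right_comm]⟩
  | trans h1 _ ih1 ih2 => exact fun hm h => ih2 (fun t ht => hm t (h1.mem_iff.2 ht)) (ih1 hm h)

omit [IsNoetherianRing R] in
theorem mem_pow {l : List R} (k : ℕ) (hm : ∀ t ∈ l, t ∈ maximalIdeal R) :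
    ∀ t ∈ l.map fun t => t ^ (k + 1), t ∈ maximalIdeal R := fun t ht => by
  obtain ⟨s, hs, rfl⟩ := List.mem_map.1 ht
  exact Ideal.pow_mem_of_mem _ (hm s hs) _ (Nat.succ_pos k)

theorem last (hB : S_basic) {I : Ideal R} {t : R} {l : List R}
    (hm : ∀ s ∈ t :: l, s ∈ maximalIdeal R) (h : RegSeq I (t :: l)) :
    RegSeq I l ∧ NZD (I ⊔ Ideal.ofList l) t := by
  have := (hB.regAppend I l [t]).1 (perm (List.perm_append_singleton t l).symm hm h)
  exact ⟨this.1, this.2.1⟩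

theorem pow (hB : S_basic) (k : ℕ) (l : List R) : ∀ {I : Ideal R},
    (∀ t ∈ l, t ∈ maximalIdeal R) → RegSeq I l → RegSeq I (l.map fun t => t ^ (k + 1)) := by
  induction l with
  | nil => exact fun _ h => h
  | cons t l ih =>
    intro I hm h
    have hm' : ∀ s ∈ l, s ∈ maximalIdeal R := fun s hs => hm s (List.mem_cons_of_mem _ hs)
    obtain ⟨h1, h2⟩ := last hB (l := l.map fun t => t ^ (k + 1))
      (List.forall_mem_cons.2 ⟨hm t List.mem_cons_self, mem_pow k hm'⟩) ⟨h.1, ih hm' h.2⟩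
    refine perm (List.perm_append_singleton _ _) (fun s hs => ?_)
      ((hB.regAppend I _ [t ^ (k + 1)]).2 ⟨h1, nzd_pow h2 _, trivial⟩)
    exact mem_pow k hm s ((List.perm_append_singleton _ _).mem_iff.1 hs)

theorem colon (hB : S_basic) (k : ℕ) (l : List R) : ∀ {I : Ideal R} (w : R),
    (∀ t ∈ l, t ∈ maximalIdeal R) → RegSeq I l →
      l.prod ^ k * w ∈ I ⊔ Ideal.ofList (l.map fun t => t ^ (k + 1)) → w ∈ I ⊔ Ideal.ofList l := by
  induction l with
  | nil => intro I w _ _ h; simpa using h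
  | cons t l ih =>
    intro I w hm h hw
    have hm' : ∀ s ∈ l, s ∈ maximalIdeal R := fun s hs => hm s (List.mem_cons_of_mem _ hs)
    obtain ⟨-, h2⟩ := last hB (l := l.map fun t => t ^ (k + 1))
      (List.forall_mem_cons.2 ⟨hm t List.mem_cons_self, mem_pow k hm'⟩) ⟨h.1, pow hB k l hm' h.2⟩
    rw [List.map_cons, Ideal.ofList_cons, sup_comm (Ideal.span _), ← sup_assoc, mem_sup1] at hw
    obtain ⟨c, hc⟩ := hw
    rw [Ideal.ofList_cons, ← sup_assoc]
    refine ih w hm' h.2 ?_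
    rw [sup_right_comm, mem_sup1]
    exact ⟨c, nzd_pow h2 k _ (mem_of_eq hc (by rw [List.prod_cons]; ring))⟩

omit [IsNoetherianRing R] in
theorem exch {I P : Ideal R} {a b r : R} (ha : a ∈ maximalIdeal R) (hb : b ∈ maximalIdeal R)
    (h1 : NZD I a) (h2 : NZD (I ⊔ Ideal.span {a}) b) (hr : NZD I r)
    (hP : Ass (I ⊔ Ideal.span {r}) P) : ¬ maximalIdeal R ≤ P := by
  intro hle
  obtain ⟨hp, g, hg⟩ := hP
  obtain ⟨g', h3⟩ := mem_sup1.1 ((hg a).1 (hle ha))
  obtain ⟨c, h4⟩ := mem_sup1.1 ((hg b).1 (hle hb))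
  have h5 : b * g' - a * c ∈ I :=
    hr _ (mem_of_eq (I.sub_mem (I.mul_mem_left a h4) (I.mul_mem_left b h3)) (by ring))
  obtain ⟨d, h6⟩ := mem_sup1.1 (h2 g' (mem_sup1.2 ⟨c, h5⟩))
  have h7 : 1 * g - r * d ∈ I :=
    h1 _ (mem_of_eq (I.add_mem h3 (I.mul_mem_left r h6)) (by ring))
  exact hp.ne_top ((Ideal.eq_top_iff_one _).2 ((hg 1).2 (mem_sup1.2 ⟨d, h7⟩)))

theorem drop (hB : S_basic) (e : ℕ) : ∀ {I : Ideal R} {l : List R} {r : R},
    (∀ t ∈ l, t ∈ maximalIdeal R) → RegSeq I l → l.length = e + 1 → r ∈ maximalIdeal R →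
      NZD I r → ∃ l' : List R, l'.length = e ∧ (∀ t ∈ l', t ∈ maximalIdeal R) ∧
        RegSeq (I ⊔ Ideal.span {r}) l' := by
  induction e with
  | zero => exact fun _ _ _ _ _ => ⟨[], rfl, by simp, trivial⟩
  | succ e ih =>
    intro I l r hm h hl hr hr'
    match l, hm, h, hl with
    | a :: b :: l, hm, h, hl =>
      have ha := hm a List.mem_cons_self
      have hm' : ∀ s ∈ b :: l, s ∈ maximalIdeal R := fun s hs => hm s (List.mem_cons_of_mem _ hs)
      have hb := hm' b List.mem_cons_self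
      obtain ⟨w, hw, w1, w2⟩ := hB.avoid2 (I ⊔ Ideal.span {a}) (I ⊔ Ideal.span {r})
        (maximalIdeal R) (fun P hP hle => hB.nzdIff.1 h.2.1 P hP (hle hb))
        (fun P hP => exch ha hb h.1 h.2.1 hr' hP)
      obtain ⟨l2, k1, k2, k3⟩ := ih hm' h.2 (by simpa using hl) hw w1
      obtain ⟨l3, j1, j2, j3⟩ := ih (I := I ⊔ Ideal.span {w}) (l := a :: l2)
        (List.forall_mem_cons.2 ⟨ha, k2⟩) ⟨(swap ha h.1 w1).2, by rwa [sup_right_comm]⟩
        (by simp [k1]) hr (swap hr hr' w2).2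
      exact ⟨w :: l3, by simp [j1], List.forall_mem_cons.2 ⟨hw, j2⟩, w2, by rwa [sup_right_comm]⟩

theorem leDim (hB : S_basic) (l : List R) : ∀ {I P : Ideal R},
    (∀ t ∈ l, t ∈ maximalIdeal R) → RegSeq I l → Ass I P →
      (l.length : WithBot ℕ∞) ≤ ringKrullDim (R ⧸ P) := by
  induction l with
  | nil =>
    intro I P _ _ hP
    have := hP.1
    simpa using ringKrullDim_nonneg_of_nontrivial (R := R ⧸ P)
  | cons r l ih =>
    intro I P hm h hP
    obtain ⟨hp, g, hg⟩ := hP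
    have hgI : g ∉ I := fun hh =>
      hp.ne_top ((Ideal.eq_top_iff_one _).2 ((hg 1).2 (by simpa using hh)))
    have hex : ∃ n ∈ col I P, n ∉ I ⊔ Ideal.span {r} := by
      by_contra hc
      push Not at hc
      refine hgI (nak (N := col I P) (hm r List.mem_cons_self) (fun n hn => ?_)
        (mem_col.2 fun p hp => mem_of_eq ((hg p).1 hp) (mul_comm _ _)))
      obtain ⟨c, hc'⟩ := mem_sup1.1 (hc n hn)
      exact ⟨c, mem_col.2 fun p hp => h.1 _
        (mem_of_eq (I.sub_mem (mem_col.1 hn p hp) (I.mul_mem_right p hc')) (by ring)), hc'⟩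
    obtain ⟨n, hn, hn'⟩ := hex
    obtain ⟨Q, hQ, hQ'⟩ := hB.assMem hn'
    have hPQ : P ≤ Q := fun p hp =>
      hQ' p (Ideal.mem_sup_left (mem_of_eq (mem_col.1 hn p hp) (mul_comm _ _)))
    have hrQ : r ∈ Q := hQ' r (mem_sup1.2 ⟨n, by simp⟩)
    have hrP : r ∉ P := fun hh => hgI (h.1 g ((hg r).1 hh))
    have h1 := ih (fun s hs => hm s (List.mem_cons_of_mem _ hs)) h.2 hQ
    have h2 := ringKrullDim_succ_le_of_surjective (Ideal.Quotient.factor hPQ)
      (Ideal.Quotient.factor_surjective hPQ) (r := Ideal.Quotient.mk P r)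
      (mem_nonZeroDivisors_of_ne_zero (mt Ideal.Quotient.eq_zero_iff_mem.1 hrP))
      (Ideal.Quotient.eq_zero_iff_mem.2 hrQ)
    refine le_trans ?_ h2
    rw [List.length_cons, Nat.cast_succ]
    gcongr

end DepA

theorem dep (hB : S_basic) : S_dep where
  perm h := DepA.perm h
  pow k := DepA.pow hB k _
  colon k w := DepA.colon hB k _ w
  drop := DepA.drop hB _
  leDim := DepA.leDim hB _

end Pool.Agent.P.MP_e7d440_ag
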