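import Pool.Agent.P.MP_e7d440_ag.Iface

/-! Extension of derivations to localizations. -/

namespace Pool.Agent.P.MP_e7d440_ag

open IsLocalRing MvPolynomial

noncomputable section

namespace DerA

/-- The ring map to the dual numbers attached to a derivation. -/
def dual {O R R' : Type} [CommRing O] [CommRing R] [CommRing R'] [Algebra O R] [Algebra R R']
    (D : Derivation O R R) : R →+* TrivSqZeroExt R' R' where
  toFun r := TrivSqZeroExt.inl (algebraMap R R' r) + TrivSqZeroExt.inr (algebraMap R R' (D r))
  map_one' := by ext <;> simp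
  map_mul' a b := by
    ext
    · simp
    · simp [mul_comm, -DualNumber.inr_eq_smul_eps]
  map_zero' := by ext <;> simp
  map_add' a b := by ext <;> simp [-DualNumber.inr_eq_smul_eps]

theorem ext {O R R' : Type} [CommRing O] [CommRing R] [CommRing R'] [Algebra O R] [Algebra O R']
    [Algebra R R'] [IsScalarTower O R R'] (M : Submonoid R) [IsLocalization M R']
    (D : Derivation O R R) :
    ∃ D' : Derivation O R' R', ∀ r, D' (algebraMap R R' r) = algebraMap R R' (D r) := by
  have hu : ∀ y : M, IsUnit (dual (R' := R') D y) := fun y => by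
    rw [TrivSqZeroExt.isUnit_iff_isUnit_fst]
    simpa [dual] using IsLocalization.map_units R' y
  let g : R' →+* TrivSqZeroExt R' R' := IsLocalization.lift hu
  have hg : ∀ r, g (algebraMap R R' r) = dual D r := fun r => IsLocalization.lift_eq hu r
  have hfst : ∀ x, (g x).fst = x := by
    have : ((TrivSqZeroExt.fstHom R' R' R').toRingHom.comp g) = RingHom.id R' := by
      apply IsLocalization.ringHom_ext M
      ext r
      simp [hg, dual]
    exact fun x => DFunLike.congr_fun this x
  have hsnd : ∀ r, (g (algebraMap R R' r)).snd = algebraMap R R' (D r) := fun r => by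
    simp [hg, dual, -DualNumber.inr_eq_smul_eps]
  have hmul : ∀ x y, (g (x * y)).snd = x * (g y).snd + y * (g x).snd := fun x y => by
    rw [map_mul, TrivSqZeroExt.snd_mul, hfst, hfst]
    simp [mul_comm]
  let L : R' →ₗ[O] R' :=
    { toFun := fun x => (g x).snd
      map_add' := fun x y => by simp
      map_smul' := fun o x => by
        rw [Algebra.smul_def, hmul, IsScalarTower.algebraMap_apply O R R', hsnd,
          Derivation.map_algebraMap, map_zero, mul_zero, add_zero, RingHom.id_apply,
          Algebra.smul_def, IsScalarTower.algebraMap_apply O R R'] }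
  exact ⟨Derivation.mk' L fun x y => hmul x y, hsnd⟩

/-- The chain rule passes to a localization. -/
theorem chain_loc {O R R' F ν : Type} [CommRing O] [CommRing R] [CommRing R'] [Field F]
    [Algebra O R'] [Algebra O F] [Algebra R R'] [Fintype ν] (M : Submonoid R)
    [IsLocalization M R'] (χ : R' →ₐ[O] F) (D : Derivation O F F) (d : ν → Derivation O R' R')
    (c : ν → F)
    (h : ∀ r, D (χ (algebraMap R R' r)) = ∑ i, χ (d i (algebraMap R R' r)) * c i) (x : R') :
    D (χ x) = ∑ i, χ (d i x) * c i := by
  obtain ⟨⟨r, s⟩, e⟩ := IsLocalization.surj M x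
  have hs : χ (algebraMap R R' s) ≠ 0 := ((IsLocalization.map_units R' s).map χ).ne_zero
  have h1 := h r
  rw [← e, map_mul, Derivation.leibniz, h s] at h1
  simp only [Derivation.leibniz, smul_eq_mul, map_add, map_mul, add_mul, Finset.sum_add_distrib,
    mul_assoc, ← Finset.mul_sum] at h1
  exact mul_left_cancel₀ hs (add_left_cancel h1)

theorem chain_poly {O F ν : Type} [CommRing O] [Field F] [Algebra O F] [Fintype ν]
    (χ : MvPolynomial ν O →ₐ[O] F) (D : Derivation O F F) (p : MvPolynomial ν O) :
    D (χ p) = ∑ i, χ (pderiv i p) * D (χ (X i)) := by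
  classical
  induction p using MvPolynomial.induction_on with
  | C a => simp
  | add p q hp hq => simp only [map_add, hp, hq, add_mul, Finset.sum_add_distrib]
  | mul_X p n hp =>
    rw [map_mul, Derivation.leibniz, hp]
    simp only [Derivation.leibniz, smul_eq_mul, map_add, map_mul, add_mul, Finset.sum_add_distrib,
      mul_assoc, ← Finset.mul_sum, pderiv_X]
    congr 2
    rw [Finset.sum_eq_single n]
    · simp
    · intro b _ hb
      simp [Pi.single_eq_of_ne' hb]
    · simp

/-- The derivation acting on the coefficients. -/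
def coefDer {O K : Type} [CommRing O] [Field K] [Algebra O K] (D : Derivation O K K) :
    Derivation O (Polynomial K) (Polynomial K) :=
  PolynomialModule.equivPolynomialSelf.toLinearMap.compDer D.mapCoeffs

theorem coefDer_C {O K : Type} [CommRing O] [Field K] [Algebra O K] (D : Derivation O K K)
    (γ : K) : coefDer D (Polynomial.C γ) = Polynomial.C (D γ) := by
  change PolynomialModule.equivPolynomialSelf (D.mapCoeffs (Polynomial.C γ)) = _
  rw [Derivation.mapCoeffs_C]
  simp

theorem coefDer_X {O K : Type} [CommRing O] [Field K] [Algebra O K] (D : Derivation O K K) :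
    coefDer D Polynomial.X = 0 := by
  change PolynomialModule.equivPolynomialSelf (D.mapCoeffs Polynomial.X) = _
  rw [Derivation.mapCoeffs_X, map_zero]

end DerA

theorem der : S_der where
  ext := DerA.ext
  jloc := by
    intro O Q L ι κ _ _ _ _ _ _ _ _ _ j 𝔓 _ hJ
    have hu : ∀ y : 𝔓.primeCompl, IsUnit (j.φ y) := fun y =>
      isUnit_iff_ne_zero.2 fun h0 => y.2 (hJ h0)
    let φ' : Localization.AtPrime 𝔓 →ₐ[O] L := IsLocalization.liftAlgHom hu
    have hφ : ∀ g, φ' (algebraMap Q _ g) = j.φ g := fun g => IsLocalization.lift_eq hu g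
    choose d' hd' using fun i => DerA.ext (R' := Localization.AtPrime 𝔓) 𝔓.primeCompl (j.d i)
    refine ⟨⟨φ', fun i => algebraMap Q _ (j.X i), d', j.D, fun i i' => ?_, fun a b => ?_,
      fun a g => ?_⟩, rfl, hφ, fun _ => rfl, hd'⟩
    · rw [hd', j.dX]
      split_ifs <;> simp
    · rw [hφ, j.DX]
    · refine DerA.chain_loc 𝔓.primeCompl φ' (j.D a) d' _ (fun r => ?_) g
      simp only [hd', hφ]
      exact j.chain a r
  jet0 := by
    intro O ν _ _ 𝔫 _
    choose d hd using fun i : ν =>
      DerA.ext (R' := Localization.AtPrime 𝔫) 𝔫.primeCompl (pderiv (R := O) i)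
    refine ⟨d, hd, fun F _ _ χ D g => ?_⟩
    refine DerA.chain_loc 𝔫.primeCompl χ D d _ (fun r => ?_) g
    simp only [hd]
    exact DerA.chain_poly (χ.comp (IsScalarTower.toAlgHom O (MvPolynomial ν O) _)) D r
  lext := by
    intro O K _ _ _
    refine ⟨fun D => ?_, ?_⟩
    · obtain ⟨D', hD'⟩ := DerA.ext (R' := FractionRing (Polynomial K))
        (nonZeroDivisors (Polynomial K)) (DerA.coefDer D)
      exact ⟨D', fun γ => by rw [hD', DerA.coefDer_C], by rw [hD', DerA.coefDer_X, map_zero]⟩
    · obtain ⟨D', hD'⟩ := DerA.ext (R' := FractionRing (Polynomial K))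
        (nonZeroDivisors (Polynomial K)) ((Polynomial.derivative' (R := K)).restrictScalars O)
      refine ⟨D', fun γ => ?_, ?_⟩
      · rw [hD']
        simp
      · rw [hD']
        simp
  frac := by
    intro O σ _ _
    choose D hD using fun p : σ => DerA.ext (R' := FractionRing (MvPolynomial σ O))
      (nonZeroDivisors (MvPolynomial σ O)) (pderiv (R := O) p)
    exact ⟨D, hD⟩

end

end Pool.Agent.P.MP_e7d440_ag
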