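import Pool.Agent.P.MP_e7d440_ag.Iface

/-! Duality for the top local cohomology. -/

namespace Pool.Agent.P.MP_e7d440_ag

open IsLocalRing

namespace DualA

variable {R : Type} [CommRing R]

lemma prod_mul_mem {d : ℕ} (y : Fin d → R) (n : ℕ) {w : R} (hw : w ∈ sp fun i => y i ^ n) :
    (∏ i, y i) * w ∈ sp fun i => y i ^ (n + 1) := by
  classical
  induction hw using Submodule.span_induction with
  | mem x hx =>
    obtain ⟨i, rfl⟩ := hx
    have e : (∏ j, y j) * y i ^ n = (∏ j ∈ Finset.univ.erase i, y j) * y i ^ (n + 1) := by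
      rw [← Finset.mul_prod_erase Finset.univ y (Finset.mem_univ i)]; ring
    simp only
    rw [e]
    exact Ideal.mul_mem_left _ _ (Ideal.subset_span ⟨i, rfl⟩)
  | zero => simp
  | add x z _ _ hx hz => rw [mul_add]; exact Ideal.add_mem _ hx hz
  | smul r x _ hx =>
    rw [smul_eq_mul, mul_left_comm]
    exact Ideal.mul_mem_left _ _ hx

lemma pow_mul_mem {d : ℕ} (y : Fin d → R) (n k : ℕ) {w : R} (hw : w ∈ sp fun i => y i ^ n) :
    (∏ i, y i) ^ k * w ∈ sp fun i => y i ^ (n + k) := by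
  induction k with
  | zero => simpa using hw
  | succ k ih =>
    have := prod_mul_mem y (n + k) ih
    rw [← mul_assoc, ← pow_succ'] at this
    exact this

lemma step_mem {d : ℕ} (y : Fin d → R) (𝔞 : Ideal R) (n : ℕ) {w : R}
    (hw : w ∈ 𝔞 ⊔ sp fun i => y i ^ n) : (∏ i, y i) * w ∈ 𝔞 ⊔ sp fun i => y i ^ (n + 1) := by
  obtain ⟨u, hu, v, hv, rfl⟩ := Submodule.mem_sup.1 hw
  rw [mul_add]
  exact Ideal.add_mem _ (Ideal.mem_sup_left (Ideal.mul_mem_left _ _ hu))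
    (Ideal.mem_sup_right (prod_mul_mem y n hv))

lemma uniform [IsNoetherianRing R] {d : ℕ} (y : Fin d → R) (𝔞 J : Ideal R) (a : R) (T : ℕ)
    (H : ∀ s ∈ J, ∃ k : ℕ, (∏ i, y i) ^ k * (s * a) ∈ 𝔞 ⊔ sp fun i => y i ^ (T + k)) :
    ∃ k1 : ℕ, ∀ k, k1 ≤ k → ∀ s ∈ J,
      (∏ i, y i) ^ k * (s * a) ∈ 𝔞 ⊔ sp fun i => y i ^ (T + k) := by
  let S : ℕ → Submodule R R := fun k =>
    Submodule.comap (LinearMap.toSpanSingleton R R ((∏ i, y i) ^ k * a))
      (𝔞 ⊔ sp fun i => y i ^ (T + k))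
  have hS : ∀ k s, s ∈ S k ↔ (∏ i, y i) ^ k * (s * a) ∈ 𝔞 ⊔ sp fun i => y i ^ (T + k) := by
    intro k s
    simp only [S, Submodule.mem_comap, LinearMap.toSpanSingleton_apply, smul_eq_mul]
    rw [mul_left_comm]
  have hmono : Monotone S := by
    refine monotone_nat_of_le_succ fun k s hs => ?_
    rw [hS] at hs ⊢
    have := step_mem y 𝔞 (T + k) hs
    rw [← mul_assoc, ← pow_succ'] at this
    exact this
  obtain ⟨k1, hk1⟩ := monotone_stabilizes_iff_noetherian.mpr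
    (inferInstance : IsNoetherian R R) ⟨S, hmono⟩
  refine ⟨k1, fun k hk s hs => ?_⟩
  obtain ⟨j, hj⟩ := H s hs
  rw [← hS] at hj ⊢
  have h1 : s ∈ S (max j k1) := hmono (le_max_left _ _) hj
  have h2 : S k1 = S (max j k1) := hk1 _ (le_max_right _ _)
  rw [← h2] at h1
  exact hmono hk h1

lemma sp_pow_le {d : ℕ} (y : Fin d → R) (n : ℕ) : (sp fun i => y i ^ n) ≤ sp y ^ n := by
  rw [Ideal.span_le]
  rintro _ ⟨i, rfl⟩
  have h : y i ∈ sp y := Ideal.subset_span ⟨i, rfl⟩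
  exact Ideal.pow_mem_pow h n

lemma sp_le_rad {d : ℕ} (y : Fin d → R) (n : ℕ) : sp y ≤ (sp fun i => y i ^ n).radical := by
  rw [Ideal.span_le]
  rintro _ ⟨i, rfl⟩
  exact ⟨n, Ideal.subset_span ⟨i, rfl⟩⟩

/-- Artin-Rees for the colon ideal. -/
lemma artin_rees [IsNoetherianRing R] (𝔞 𝔟 I : Ideal R) :
    ∃ k0 : ℕ, ∀ n, k0 ≤ n → ∀ t, (∀ g ∈ 𝔟, t * g ∈ 𝔞 ⊔ I ^ n) →
      ∃ t' ∈ I ^ (n - k0), t - t' ∈ col 𝔞 𝔟 := by
  classical
  obtain ⟨g, b, hb⟩ := Submodule.fg_iff_exists_fin_generating_family.1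
    (IsNoetherian.noetherian 𝔟)
  let mu : R →ₗ[R] (Fin g → R ⧸ 𝔞) :=
    LinearMap.pi fun i => 𝔞.mkQ ∘ₗ LinearMap.toSpanSingleton R R (b i)
  have hmu : ∀ t i, mu t i = 𝔞.mkQ (t * b i) := fun t i => rfl
  obtain ⟨k0, hk0⟩ := Ideal.exists_pow_inf_eq_pow_smul I (LinearMap.range mu)
  refine ⟨k0, fun n hn t ht => ?_⟩
  have hbm : ∀ i, b i ∈ 𝔟 := fun i => hb ▸ Submodule.subset_span ⟨i, rfl⟩
  have h1 : mu t ∈ I ^ n • (⊤ : Submodule R (Fin g → R ⧸ 𝔞)) := by
    have hw : ∀ i, ∃ w ∈ I ^ n, 𝔞.mkQ (t * b i) = 𝔞.mkQ w := by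
      intro i
      obtain ⟨u, hu, v, hv, e⟩ := Submodule.mem_sup.1 (ht _ (hbm i))
      refine ⟨v, hv, ?_⟩
      rw [← e, map_add]
      have : 𝔞.mkQ u = 0 := (Submodule.Quotient.mk_eq_zero _).2 hu
      rw [this, zero_add]
    choose w hw1 hw2 using hw
    have e : mu t = ∑ i, w i • (Pi.single i (𝔞.mkQ 1) : Fin g → R ⧸ 𝔞) := by
      funext j
      rw [hmu, hw2, Finset.sum_apply, Finset.sum_eq_single j]
      · rw [Pi.smul_apply, Pi.single_eq_same, ← map_smul, smul_eq_mul, mul_one]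
      · intro i _ hi
        rw [Pi.smul_apply, Pi.single_eq_of_ne hi.symm, smul_zero]
      · intro h; exact absurd (Finset.mem_univ j) h
    rw [e]
    exact Submodule.sum_mem _ fun i _ => Submodule.smul_mem_smul (hw1 i) Submodule.mem_top
  have h2 : mu t ∈ I ^ (n - k0) • LinearMap.range mu := by
    have h3 : mu t ∈ I ^ n • (⊤ : Submodule R (Fin g → R ⧸ 𝔞)) ⊓ LinearMap.range mu :=
      ⟨h1, ⟨t, rfl⟩⟩
    rw [hk0 n hn] at h3
    exact Submodule.smul_mono le_rfl inf_le_right h3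
  rw [LinearMap.range_eq_map, ← Submodule.map_smul''] at h2
  obtain ⟨t', ht', e⟩ := h2
  refine ⟨t', by simpa using ht', ?_⟩
  rw [mem_col]
  have h4 : ∀ i, (t - t') * b i ∈ 𝔞 := by
    intro i
    have : mu (t - t') i = 0 := by rw [map_sub, e, sub_self]; rfl
    rw [hmu] at this
    exact (Submodule.Quotient.mk_eq_zero _).1 this
  intro x hx
  rw [← hb] at hx
  induction hx using Submodule.span_induction with
  | mem x hx => obtain ⟨i, rfl⟩ := hx; exact h4 i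
  | zero => simp
  | add x z _ _ hx hz => rw [mul_add]; exact Ideal.add_mem _ hx hz
  | smul r x _ hx =>
    rw [smul_eq_mul, mul_left_comm]
    exact Ideal.mul_mem_left _ _ hx

lemma soc1_max [IsLocalRing R] : Soc1 (maximalIdeal R) := by
  refine ⟨1, fun t ht => by simpa using ht, fun g _ => ?_⟩
  exact Ideal.mem_sup_right (by simp)

end DualA

open DualA

theorem dual (hB : S_basic) (hR : S_reg) (hD : S_dep) (hC : S_cm) (hS : S_socx)
    (hA : S_dann) : S_dual := by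
  intro R _ _ 𝔞 𝔟 c d y hCI hreg hrad hab a T H
  classical
  have ham : 𝔞 ⊔ sp y ≤ maximalIdeal R := hrad ▸ Ideal.le_radical
  have hym : ∀ i, y i ∈ maximalIdeal R := fun i =>
    ham (Ideal.mem_sup_right (Ideal.subset_span ⟨i, rfl⟩))
  have hCI2 : CI (𝔞 ⊔ sp y) (c + d) := by
    have := hB.ciAppend hCI hreg
    rwa [hB.ofFn, List.length_ofFn] at this
  have hmin : maximalIdeal R ∈ (𝔞 ⊔ sp y).minimalPrimes := by
    rw [← Ideal.radical_minimalPrimes, hrad, Ideal.minimalPrimes_eq_subsingleton_self]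
    rfl
  have hht := (hC.unmix hCI2 (hB.minAss hmin)).1
  have hdim : ((c + d : ℕ) : WithBot ℕ∞) = ringKrullDim R := by
    rw [← IsLocalRing.maximalIdeal_height_eq_ringKrullDim, hht]
    rfl
  obtain ⟨s, hs1, hs2⟩ := Submodule.FG.exists_span_finset_card_eq_spanFinrank
    (IsNoetherian.noetherian (maximalIdeal R))
  have hp1 : Ideal.ofList s.toList = maximalIdeal R := by
    rw [← hs2]
    unfold Ideal.ofList
    congr 1
    ext x
    simp
  have hp2 : (s.toList.length : WithBot ℕ∞) = ringKrullDim R := by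
    rw [Finset.length_toList, hs1]
    exact IsRegularLocalRing.spanFinrank_maximalIdeal
  have hplen : s.toList.length = c + d := by
    have := hp2.trans hdim.symm
    exact_mod_cast this
  have hpreg := ((hR R).2 s.toList hp1 hp2).1
  obtain ⟨la, hla1, hla2, hla3⟩ := hCI
  have hcn : ∀ n : ℕ, Soc1 (𝔞 ⊔ sp fun i => y i ^ (n + 1)) ∧
      (𝔞 ⊔ sp fun i => y i ^ (n + 1)).radical = maximalIdeal R := by
    intro n
    have hyl : ∀ t ∈ List.ofFn y, t ∈ maximalIdeal R := by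
      intro t ht
      obtain ⟨i, rfl⟩ := (List.mem_ofFn' _ _).1 ht
      exact hym i
    have h1 := hD.pow n hyl hreg
    have e1 : (List.ofFn y).map (fun t => t ^ (n + 1)) = List.ofFn fun i => y i ^ (n + 1) := by
      rw [List.map_ofFn]; rfl
    rw [e1] at h1
    have h2 : RegSeq ⊥ (la ++ List.ofFn fun i => y i ^ (n + 1)) := by
      rw [hB.regAppend]
      refine ⟨hla2, ?_⟩
      rw [bot_sup_eq, hla3]
      exact h1
    have h3 := hS R ⊥ s.toList (la ++ List.ofFn fun i => y i ^ (n + 1))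
      (fun t ht => hp1 ▸ Ideal.subset_span ht)
      (by
        intro t ht
        rcases List.mem_append.1 ht with h | h
        · exact ham (Ideal.mem_sup_left (hla3 ▸ Ideal.subset_span h))
        · obtain ⟨i, rfl⟩ := (List.mem_ofFn' _ _).1 h
          exact Ideal.pow_mem_of_mem _ (hym i) _ (Nat.succ_pos n))
      hpreg h2 (by rw [hplen, List.length_append, hla1, List.length_ofFn])
      (by rw [bot_sup_eq, hp1]; exact soc1_max)
    rw [bot_sup_eq, Ideal.ofList_append, hla3, hB.ofFn] at h3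
    refine ⟨h3, le_antisymm ?_ ?_⟩
    · rw [← hrad]
      refine Ideal.radical_mono (sup_le_sup_left ?_ _)
      exact (sp_pow_le y _).trans (Ideal.pow_le_self (Nat.succ_ne_zero n))
    · rw [← hrad, Ideal.radical_le_radical_iff]
      refine sup_le (le_sup_left.trans Ideal.le_radical) ?_
      exact (sp_le_rad y (n + 1)).trans (Ideal.radical_mono le_sup_right)
  obtain ⟨k1, hk1⟩ := uniform y 𝔞 (col 𝔞 𝔟) a T H
  obtain ⟨k0, hk0⟩ := artin_rees 𝔞 𝔟 (sp y)
  obtain ⟨n0, hn0⟩ := Ideal.exists_pow_le_of_le_radical_of_fg (sp_le_rad y T)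
    (IsNoetherian.noetherian (sp y))
  refine ⟨k1 + k0 + n0 + 1, ?_⟩
  set k := k1 + k0 + n0 + 1 with hk
  obtain ⟨hsoc, hrd⟩ := hcn (T + (k1 + k0 + n0))
  have ek : T + (k1 + k0 + n0) + 1 = T + k := by omega
  rw [ek] at hsoc hrd
  have key := hA R _ (𝔟 ⊔ (𝔞 ⊔ sp fun i => y i ^ (T + k))) hrd hsoc le_sup_right
  have e2 : 𝔟 ⊔ (𝔞 ⊔ sp fun i => y i ^ (T + k)) = 𝔟 ⊔ sp fun i => y i ^ (T + k) := by
    rw [← sup_assoc, sup_eq_left.2 hab]
  rw [← e2]
  apply key
  rw [mem_col]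
  intro t ht
  rw [mem_col] at ht
  obtain ⟨t', ht1, ht2⟩ := hk0 (T + k) (by omega) t fun g hg =>
    sup_le_sup_left (sp_pow_le y (T + k)) 𝔞 (ht g (Ideal.mem_sup_left hg))
  have ht3 : t' ∈ sp fun i => y i ^ T :=
    hn0 (Ideal.pow_le_pow_right (by omega) ht1)
  have e3 : (∏ i, y i) ^ k * a * t =
      (∏ i, y i) ^ k * ((t - t') * a) + a * ((∏ i, y i) ^ k * t') := by ring
  rw [e3]
  exact Ideal.add_mem _ (hk1 k (by omega) _ ht2)
    (Ideal.mem_sup_right (Ideal.mul_mem_left _ _ (pow_mul_mem y T k ht3)))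

end Pool.Agent.P.MP_e7d440_ag
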