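import Pool.Agent.P.MP_e7d440_ag.Iface

/-! Finiteness of normalization: reduction to an infinite residue field. -/

namespace Pool.Agent.P.MP_e7d440_ag

open IsLocalRing Polynomial

namespace FinA

theorem mccoy {S : Type} [CommRing S] {u q : S[X]} {b : S} {n : ℕ} (hu : IsUnit (u.coeff n))
    (h : C b ∣ u * q) : C b ∣ q := by
  have key : ∀ p : S[X], C b ∣ p ↔ p.map (Ideal.Quotient.mk (Ideal.span {b})) = 0 := fun p => by
    rw [C_dvd_iff_dvd_coeff, Polynomial.ext_iff]
    simp only [coeff_map, coeff_zero, Ideal.Quotient.eq_zero_iff_mem, Ideal.mem_span_singleton]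
  rw [key] at h ⊢
  rw [Polynomial.map_mul] at h
  have h1 : u.map (Ideal.Quotient.mk (Ideal.span {b})) ∈ nonZeroDivisors _ :=
    Polynomial.mem_nonZeroDivisors_iff.2 fun a ha => by
      have h2 := congrArg (coeff · n) ha
      simp only [coeff_smul, coeff_map, smul_eq_mul, coeff_zero] at h2
      exact (hu.map _).mul_left_eq_zero.1 h2
  exact h1.1 _ h

section Gauss

variable {O : Type} [CommRing O] [IsDomain O] [IsDiscreteValuationRing O] {π : O}

theorem isPrime (hπ : Irreducible π) : (Ideal.span {(C π : O[X])}).IsPrime :=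
  (Ideal.span_singleton_prime (C_ne_zero.2 hπ.ne_zero)).2 (prime_C_iff.2 hπ.prime)

theorem unit_coeff (hπ : Irreducible π) {u : O[X]} (hu : u ∉ Ideal.span {(C π : O[X])}) :
    ∃ n, IsUnit (u.coeff n) := by
  rw [Ideal.mem_span_singleton, C_dvd_iff_dvd_coeff, not_forall] at hu
  obtain ⟨n, hn⟩ := hu
  refine ⟨n, by_contra fun h => hn ?_⟩
  rw [← Ideal.mem_span_singleton, ← hπ.maximalIdeal_eq]
  exact h

variable (P : Ideal O[X]) [P.IsPrime]

omit [IsDiscreteValuationRing O] in
theorem inj_loc : Function.Injective (algebraMap O[X] (Localization.AtPrime P)) :=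
  IsLocalization.injective _ P.primeCompl_le_nonZeroDivisors

theorem dvr (hπ : Irreducible π) (hP : P = Ideal.span {C π}) :
    IsDiscreteValuationRing (Localization.AtPrime P) := by
  have hm : maximalIdeal (Localization.AtPrime P) = Ideal.span {algebraMap O[X] _ (C π)} := by
    rw [← Localization.AtPrime.map_eq_maximalIdeal, ← Set.image_singleton, ← Ideal.map_span, ← hP]
  have hf : ¬ IsField (Localization.AtPrime P) := by
    rw [isField_iff_maximalIdeal_eq, hm, Ideal.span_singleton_eq_bot,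
      map_eq_zero_iff _ (inj_loc P)]
    exact C_ne_zero.2 hπ.ne_zero
  exact ((IsDiscreteValuationRing.TFAE _ hf).out 0 4).2 (⟨⟨_, hm⟩⟩ : Submodule.IsPrincipal _)

omit [IsDomain O] [IsDiscreteValuationRing O] in
theorem inf_res (hπ : Irreducible π) (hP : P = Ideal.span {C π}) :
    Infinite (ResidueField (Localization.AtPrime P)) := by
  refine Infinite.of_injective (fun k : ℕ => residue _ (algebraMap O[X] _ (X ^ k))) fun k l h => ?_
  by_contra hkl
  have h1 : residue _ (algebraMap O[X] (Localization.AtPrime P) (X ^ k - X ^ l)) = 0 := by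
    rw [map_sub, map_sub, sub_eq_zero]
    exact h
  rw [residue_eq_zero_iff, IsLocalization.AtPrime.to_map_mem_maximal_iff _ P, hP,
    Ideal.mem_span_singleton, C_dvd_iff_dvd_coeff] at h1
  have h2 := h1 k
  rw [coeff_sub, coeff_X_pow, coeff_X_pow, if_pos rfl, if_neg hkl, sub_zero] at h2
  exact hπ.not_isUnit (isUnit_of_dvd_one h2)

end Gauss

theorem cond (hF : S_fina) {O L ν : Type} [CommRing O] [IsDomain O] [IsDiscreteValuationRing O]
    [CharZero O] [Field L] [Algebra O L] [Finite ν] (s : ν → L)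
    (hi : Function.Injective (algebraMap O L))
    (hfr : ∀ γ : L, ∃ a ∈ Algebra.adjoin O (Set.range s), ∃ b ∈ Algebra.adjoin O (Set.range s),
      b ≠ 0 ∧ γ * b = a) :
    ∃ c ∈ Algebra.adjoin O (Set.range s), c ≠ 0 ∧
      ∀ γ : L, IsIntegral (Algebra.adjoin O (Set.range s)) γ →
        c * γ ∈ Algebra.adjoin O (Set.range s) := by
  obtain ⟨π, hπ⟩ := IsDiscreteValuationRing.exists_irreducible O
  have := isPrime hπ
  set P : Ideal O[X] := Ideal.span {C π} with hP
  set S := Algebra.adjoin O (Set.range s) with hS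
  have := dvr P hπ hP
  have := inf_res P hπ hP
  have : CharZero (Localization.AtPrime P) := charZero_of_injective_algebraMap (inj_loc P)
  let j := algebraMap L[X] (FractionRing L[X])
  have hj : Function.Injective j := IsFractionRing.injective _ _
  let χ : S[X] →+* FractionRing L[X] := j.comp (mapRingHom (algebraMap S L))
  have hχ : Function.Injective χ := hj.comp (map_injective _ Subtype.val_injective)
  let ι : O[X] →+* S[X] := mapRingHom (algebraMap O S)
  have hι : Function.Injective ι :=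
    map_injective _ fun a b h => hi (congrArg Subtype.val h)
  have hψ : Function.Injective (χ.comp ι) := hχ.comp hι
  have hu0 : ∀ u, u ∉ P → χ (ι u) ≠ 0 := fun u hu h =>
    hu (((map_eq_zero_iff _ hψ).1 h).symm ▸ P.zero_mem)
  have hun : ∀ y : P.primeCompl, IsUnit (χ.comp ι y) := fun y => (hu0 y y.2).isUnit
  let _ : Algebra (Localization.AtPrime P) (FractionRing L[X]) :=
    (IsLocalization.lift hun).toAlgebra
  have ham : ∀ p, algebraMap (Localization.AtPrime P) (FractionRing L[X]) (algebraMap O[X] _ p) =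
      χ (ι p) := fun p => IsLocalization.lift_eq hun p
  have hχC : ∀ a : S, χ (C a) = j (C (a : L)) := fun a => by simp [χ]
  let T := Algebra.adjoin (Localization.AtPrime P) (Set.range fun i => j (C (s i)))
  have hA : ∀ y ∈ T, ∃ p u, u ∉ P ∧ y * χ (ι u) = χ p := by
    intro y hy
    induction hy using Algebra.adjoin_induction with
    | mem y hy =>
      obtain ⟨i, rfl⟩ := hy
      exact ⟨C ⟨s i, Algebra.subset_adjoin ⟨i, rfl⟩⟩, 1, P.primeCompl.one_mem, by
        rw [map_one, map_one, mul_one, hχC]⟩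
    | algebraMap r =>
      obtain ⟨⟨a, u⟩, h⟩ := IsLocalization.surj P.primeCompl r
      exact ⟨ι a, u, u.2, by rw [← ham, ← ham, ← map_mul, h]⟩
    | add y z _ _ hy hz =>
      obtain ⟨p, u, hu, e⟩ := hy
      obtain ⟨q, v, hv, e'⟩ := hz
      refine ⟨p * ι v + q * ι u, u * v, P.primeCompl.mul_mem hu hv, ?_⟩
      simp only [map_mul, map_add, ← e, ← e']
      ring
    | mul y z _ _ hy hz =>
      obtain ⟨p, u, hu, e⟩ := hy
      obtain ⟨q, v, hv, e'⟩ := hz
      refine ⟨p * q, u * v, P.primeCompl.mul_mem hu hv, ?_⟩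
      simp only [map_mul, ← e, ← e']
      ring
  have hB0 : ∀ a ∈ S, j (C a) ∈ T := by
    intro a ha
    induction ha using Algebra.adjoin_induction with
    | mem y hy =>
      obtain ⟨i, rfl⟩ := hy
      exact Algebra.subset_adjoin ⟨i, rfl⟩
    | algebraMap r =>
      have h := T.algebraMap_mem (algebraMap O[X] _ (C r))
      rwa [ham, show ι (C r) = C (algebraMap O S r) from map_C _, hχC] at h
    | add y z _ _ hy hz => rw [map_add, map_add]; exact add_mem hy hz
    | mul y z _ _ hy hz => rw [map_mul, map_mul]; exact mul_mem hy hz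
  have hB : ∀ p, χ p ∈ T := by
    intro p
    have hX : χ X ∈ T := by
      have h := T.algebraMap_mem (algebraMap O[X] _ X)
      rwa [ham, show ι X = X from map_X _] at h
    induction p using Polynomial.induction_on' with
    | add p q hp hq => rw [map_add]; exact add_mem hp hq
    | monomial n a =>
      rw [← C_mul_X_pow_eq_monomial, map_mul, map_pow, hχC]
      exact mul_mem (hB0 _ a.2) (pow_mem hX _)
  have : IsFractionRing S L := IsFractionRing.of_field _ _ fun z => by
    obtain ⟨a, ha, b, hb, hb0, e⟩ := hfr z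
    exact ⟨⟨a, ha⟩, ⟨b, hb⟩, eq_div_of_mul_eq hb0 e⟩
  have hC0 : ∀ q : L[X], ∃ (p : S[X]) (b : S), b ≠ 0 ∧ χ p = χ (C b) * j q := fun q => by
    obtain ⟨b, hb, e⟩ := IsLocalization.integerNormalization_spec (nonZeroDivisors S) q
    refine ⟨_, b, nonZeroDivisors.ne_zero hb, (congrArg j e).trans ?_⟩
    rw [hχC, ← map_mul, ← smul_eq_C_mul]
    rfl
  obtain ⟨c, hc, hc0, H⟩ := hF (Localization.AtPrime P) (FractionRing L[X]) ν
    (fun i => j (C (s i)))
    ((IsLocalization.lift_injective_iff hun).2 fun x y =>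
      (inj_loc P).eq_iff.trans hψ.eq_iff.symm)
    (fun γ => by
      obtain ⟨⟨q, r⟩, e⟩ := IsLocalization.surj (nonZeroDivisors L[X]) γ
      obtain ⟨p, b, hb, e1⟩ := hC0 q
      obtain ⟨p', b', hb', e2⟩ := hC0 r
      have hb1 : ∀ b : S, b ≠ 0 → χ (C b) ≠ 0 := fun b hb =>
        (map_ne_zero_iff _ hχ).2 (C_ne_zero.2 hb)
      refine ⟨χ (p * C b'), hB _, χ (p' * C b), hB _, ?_, ?_⟩
      · rw [map_mul, e2]
        exact mul_ne_zero (mul_ne_zero (hb1 _ hb')
          ((map_ne_zero_iff _ hj).2 (nonZeroDivisors.ne_zero r.2))) (hb1 _ hb)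
      · rw [map_mul, map_mul, e1, e2, show j q = γ * j r from e.symm]
        ring)
  obtain ⟨p0, u, hu, e0⟩ := hA c hc
  have hp0 : p0 ≠ 0 := by
    rintro rfl
    exact mul_ne_zero hc0 (hu0 u hu) (e0.trans (map_zero _))
  refine ⟨p0.leadingCoeff, p0.leadingCoeff.2,
    fun h => leadingCoeff_ne_zero.2 hp0 (Subtype.ext h), fun γ hγ => ?_⟩
  have hγ' : IsIntegral T (j (C γ)) :=
    hγ.map_of_comp_eq ((χ.comp C).codRestrict T fun a => hB _) (j.comp C)
      (RingHom.ext fun a => hχC a)
  obtain ⟨p1, u1, hu1, e1⟩ := hA _ (H _ hγ')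
  obtain ⟨a, ha, b, hb, hb0, e⟩ := hfr γ
  obtain ⟨n, hn⟩ := unit_coeff hπ hu1
  have hd : C (⟨b, hb⟩ : S) ∣ ι u1 * (p0 * C ⟨a, ha⟩) := by
    refine ⟨p1 * ι u, hχ ?_⟩
    simp only [map_mul, hχC, ← e0, ← e1, ← e]
    ring
  have hn' : IsUnit ((ι u1).coeff n) := by
    rw [show (ι u1).coeff n = algebraMap O S (u1.coeff n) from coeff_map _ _]
    exact hn.map _
  obtain ⟨d, hd'⟩ := (C_dvd_iff_dvd_coeff _ _).1 (mccoy hn' hd) p0.natDegree
  rw [coeff_mul_C] at hd'
  have h1 : (p0.leadingCoeff : L) * a = b * d := congrArg Subtype.val hd'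
  have h2 : (p0.leadingCoeff : L) * γ = d := by
    apply mul_left_cancel₀ hb0
    rw [← h1, ← e]
    ring
  rw [h2]
  exact d.2

end FinA

theorem fin (hF : S_fina) : S_fin := by
  intro O L ν _ _ _ _ _ _ _ s hi hfr
  obtain ⟨c, hc, hc0, H⟩ := FinA.cond hF s hi hfr
  have : Algebra.FiniteType O (Algebra.adjoin O (Set.range s)) :=
    (Subalgebra.fg_iff_finiteType _).1 (Subalgebra.fg_def.2 ⟨_, Set.finite_range s, rfl⟩)
  have : IsNoetherianRing (Algebra.adjoin O (Set.range s)) :=
    Algebra.FiniteType.isNoetherianRing O _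
  have hle : (integralClosure (Algebra.adjoin O (Set.range s)) L).toSubmodule ≤
      Submodule.span _ {c⁻¹} := fun γ hγ =>
    Submodule.mem_span_singleton.2 ⟨⟨c * γ, H γ hγ⟩, by
      change c * γ * c⁻¹ = γ
      field_simp⟩
  obtain ⟨t, ht⟩ := (Submodule.fg_span_singleton _).of_le hle
  refine ⟨t, fun γ hγ => ?_, fun γ hγ => ?_⟩
  · have h : γ ∈ (integralClosure (Algebra.adjoin O (Set.range s)) L).toSubmodule :=
      ht ▸ Submodule.subset_span hγ
    exact h
  · have h : γ ∈ Submodule.span (Algebra.adjoin O (Set.range s)) (t : Set L) := ht ▸ hγ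
    clear hγ
    induction h using Submodule.span_induction with
    | mem y hy => exact Algebra.subset_adjoin (Or.inr hy)
    | zero => exact zero_mem _
    | add y z _ _ hy hz => exact add_mem hy hz
    | smul a y _ hy => exact mul_mem (Algebra.adjoin_mono Set.subset_union_left a.2) hy

end Pool.Agent.P.MP_e7d440_ag
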