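import Pool.Agent.P.MP_e7d440_ag.Iface

/-! A conductor element for finitely generated domains over a discrete valuation ring of
characteristic zero with infinite residue field. -/

namespace Pool.Agent.P.MP_e7d440_ag

open IsLocalRing MvPolynomial

noncomputable section

namespace FinaA

lemma eval₂_scale {σ k R : Type} [CommRing k] [CommRing R] (c : k →+* R) (w : σ → R) (u : R)
    {n : ℕ} {p : MvPolynomial σ k} (hp : p.IsHomogeneous n) :
    eval₂ c (fun i ↦ w i * u) p = eval₂ c w p * u ^ n := by
  classical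
  rw [eval₂_eq, eval₂_eq, Finset.sum_mul]
  refine Finset.sum_congr rfl fun d hd ↦ ?_
  simp_rw [mul_pow]
  rw [Finset.prod_mul_distrib, Finset.prod_pow_eq_pow_sum, ← hp.degree_eq_sum_deg_support hd]
  ring

section Hom

variable {O L σ : Type} [CommRing O] [Field L] [Algebra O L]

/-- the homogenized family -/
def hX (a : σ → L) : σ → Polynomial L := fun j => Polynomial.C (a j) * Polynomial.X

lemma aeval_hX (a : σ → L) {e : ℕ} {F : MvPolynomial σ O} (hF : F.IsHomogeneous e) :
    aeval (hX a) F = Polynomial.C (aeval a F) * Polynomial.X ^ e := by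
  have h := eval₂_scale (algebraMap O (Polynomial L)) (fun j => Polynomial.C (a j))
    Polynomial.X hF
  rw [aeval_def]
  refine h.trans ?_
  congr 1
  exact (comp_aeval_apply a (Polynomial.CAlgHom : L →ₐ[O] Polynomial L) F).symm

lemma exists_hom (a : σ → L) (h : ¬ AlgebraicIndependent O (hX a)) :
    ∃ (e : ℕ) (F : MvPolynomial σ O), F ≠ 0 ∧ F.IsHomogeneous e ∧ aeval a F = 0 := by
  rw [algebraicIndependent_iff] at h
  push Not at h
  obtain ⟨F, h1, h2⟩ := h
  by_contra hc
  push Not at hc
  apply h2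
  rw [← sum_homogeneousComponent F]
  refine Finset.sum_eq_zero fun e he => ?_
  by_contra h0
  refine hc e _ h0 (homogeneousComponent_isHomogeneous e F) ?_
  have h3 : aeval (hX a) F = ∑ i ∈ Finset.range (F.totalDegree + 1),
      Polynomial.C (aeval a (homogeneousComponent i F)) * Polynomial.X ^ i := by
    conv_lhs => rw [← sum_homogeneousComponent F]
    rw [map_sum]
    exact Finset.sum_congr rfl fun i _ => aeval_hX a (homogeneousComponent_isHomogeneous i F)
  have h4 := congrArg (fun p => Polynomial.coeff p e) h3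
  simp only [h1, Polynomial.coeff_zero, Polynomial.finsetSum_coeff, Polynomial.coeff_C_mul_X_pow,
    Finset.sum_ite_eq, he, if_true] at h4
  exact h4.symm

lemma exists_unit [IsDomain O] [IsDiscreteValuationRing O] [Infinite (ResidueField O)]
    (hinj : Function.Injective (algebraMap O L)) (a : σ → L) {e : ℕ} {F : MvPolynomial σ O}
    (h0 : F ≠ 0) (hF : F.IsHomogeneous e) (ha : aeval a F = 0) :
    ∃ (G : MvPolynomial σ O) (b : σ → O) (i : σ), G.IsHomogeneous e ∧ aeval a G = 0 ∧
      IsUnit (eval b G) ∧ IsUnit (b i) := by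
  obtain ⟨d, hd, hmin⟩ := F.support.exists_min_image
    (fun d => IsDiscreteValuationRing.addVal O (F.coeff d)) (support_nonempty.2 h0)
  have hd0 : F.coeff d ≠ 0 := mem_support_iff.1 hd
  obtain ⟨G, hG⟩ : C (F.coeff d) ∣ F := (C_dvd_iff_dvd_coeff _ _).2 fun i => by
    by_cases hi : i ∈ F.support
    · exact IsDiscreteValuationRing.addVal_le_iff_dvd.1 (hmin i hi)
    · rw [notMem_support_iff.1 hi]; exact dvd_zero _
  have hc : ∀ i, F.coeff i = F.coeff d * G.coeff i := fun i => by
    conv_lhs => rw [hG]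
    rw [coeff_C_mul]
  have h1 : G.coeff d = 1 := mul_left_cancel₀ hd0 (by rw [← hc, mul_one])
  have hGh : G.IsHomogeneous e := fun i hi => hF (by rw [hc]; exact mul_ne_zero hd0 hi)
  have hGa : aeval a G = 0 := by
    rw [hG, map_mul, aeval_C] at ha
    exact (mul_eq_zero.1 ha).resolve_left ((map_ne_zero_iff _ hinj).2 hd0)
  have hne : map (residue O) G ≠ 0 := fun h => by
    have := congrArg (coeff d) h
    rw [coeff_map, h1, map_one, coeff_zero] at this
    exact one_ne_zero this
  obtain ⟨β, hβ⟩ : ∃ β : σ → ResidueField O, eval β (map (residue O) G) ≠ 0 := by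
    by_contra hcon
    push Not at hcon
    exact hne (MvPolynomial.funext fun x => by rw [hcon, map_zero])
  choose b hb using fun i => residue_surjective (β i)
  have hev : residue O (eval b G) = eval β (map (residue O) G) := by
    rw [eval_map, ← coe_eval₂Hom, ← funext hb]
    exact (hom_eval₂ G (RingHom.id O) (residue O) b).trans (by rw [RingHom.comp_id]; rfl)
  have hu : IsUnit (eval b G) := (residue_ne_zero_iff_isUnit _).1 (hev ▸ hβ)
  have he : e ≠ 0 := by
    rintro rfl
    rw [← totalDegree_zero_iff_isHomogeneous, totalDegree_eq_zero_iff_eq_C] at hGh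
    rw [hGh, aeval_C] at hGa
    rw [hGh, eval_C] at hu
    exact (hu.map (algebraMap O L)).ne_zero hGa
  by_contra hcon
  push Not at hcon
  have hz : β = fun i => β i * 0 := funext fun i => by
    rw [mul_zero, ← hb, residue_eq_zero_iff]
    exact hcon G b i hGh hGa hu
  apply hβ
  rw [eval_map, hz, eval₂_scale _ _ _ hGh, zero_pow he, mul_zero]

end Hom

section Int

variable {O D B σ : Type} [CommRing O] [CommRing D] [CommRing B] [Algebra O D]

/-- degree at most `n` with prescribed coefficient -/
def Top (G : Polynomial D) (n : ℕ) (c : D) : Prop := G.natDegree ≤ n ∧ G.coeff n = c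

lemma Top.mul {G G' : Polynomial D} {n n' : ℕ} {c c' : D} (h : Top G n c) (h' : Top G' n' c') :
    Top (G * G') (n + n') (c * c') :=
  ⟨Polynomial.natDegree_mul_le.trans (add_le_add h.1 h'.1), by
    rw [Polynomial.coeff_mul_add_eq_of_natDegree_le h.1 h'.1, h.2, h'.2]⟩

lemma top_one : Top (1 : Polynomial D) 0 1 := ⟨by simp, by simp⟩

lemma Top.pow {G : Polynomial D} {c : D} (h : Top G 1 c) : ∀ n, Top (G ^ n) n (c ^ n)
  | 0 => by simpa using top_one
  | n + 1 => by rw [pow_succ, pow_succ]; exact (h.pow n).mul h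

lemma top_prod {ι : Type} (s : Finset ι) {G : ι → Polynomial D} {n : ι → ℕ} {c : ι → D}
    (h : ∀ i, Top (G i) (n i) (c i)) : Top (∏ i ∈ s, G i) (∑ i ∈ s, n i) (∏ i ∈ s, c i) := by
  classical
  induction s using Finset.induction_on with
  | empty => simpa using top_one
  | insert i s hi ih =>
    rw [Finset.prod_insert hi, Finset.sum_insert hi, Finset.prod_insert hi]
    exact (h i).mul ih

lemma top_sum {ι : Type} (s : Finset ι) {G : ι → Polynomial D} {n : ℕ} {c : ι → D}
    (h : ∀ i ∈ s, Top (G i) n (c i)) : Top (∑ i ∈ s, G i) n (∑ i ∈ s, c i) :=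
  ⟨Polynomial.natDegree_sum_le_of_forall_le _ _ fun i hi => (h i hi).1, by
    rw [Polynomial.finsetSum_coeff]
    exact Finset.sum_congr rfl fun i hi => (h i hi).2⟩

lemma top_aeval {e : ℕ} {F : MvPolynomial σ O} (hF : F.IsHomogeneous e) (p q : σ → D) :
    Top (aeval (fun j => Polynomial.C (p j) + Polynomial.C (q j) * Polynomial.X) F) e
      (aeval q F) := by
  rw [aeval_def, aeval_def, eval₂_eq, eval₂_eq]
  refine top_sum _ fun d hd => ?_
  have h1 : Top (algebraMap O (Polynomial D) (F.coeff d)) 0 (algebraMap O D (F.coeff d)) := by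
    rw [Polynomial.algebraMap_apply]
    exact ⟨by simp, by simp⟩
  have h2 : ∀ j, Top (Polynomial.C (p j) + Polynomial.C (q j) * Polynomial.X) 1 (q j) := fun j =>
    ⟨by rw [add_comm]; exact Polynomial.natDegree_linear_le, by simp⟩
  have h3 := h1.mul (top_prod d.support fun j => (h2 j).pow (d j))
  rwa [zero_add, ← hF.degree_eq_sum_deg_support hd] at h3

lemma integral_of_hom [Algebra D B] [Algebra O B] [IsScalarTower O D B] {e : ℕ}
    {F : MvPolynomial σ O} (hF : F.IsHomogeneous e) (b : σ → O) (hb : IsUnit (eval b F))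
    (p : σ → D) (y : B)
    (h : aeval (fun j => algebraMap D B (p j) + algebraMap O B (b j) * y) F = 0) :
    IsIntegral D y := by
  obtain ⟨h1, h2⟩ := top_aeval hF p (fun j => algebraMap O D (b j))
  obtain ⟨u, hu⟩ := hb.exists_left_inv
  refine ⟨Polynomial.C (algebraMap O D u) * aeval (fun j => Polynomial.C (p j) +
    Polynomial.C (algebraMap O D (b j)) * Polynomial.X) F, ?_, ?_⟩
  · refine Polynomial.monic_of_natDegree_le_of_coeff_eq_one e
      ((Polynomial.natDegree_C_mul_le _ _).trans h1) ?_
    have h3 : aeval (fun j => algebraMap O D (b j)) F = algebraMap O D (eval b F) :=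
      aeval_algebraMap_apply D b F
    rw [Polynomial.coeff_C_mul, h2, h3, ← map_mul, hu, map_one]
  · rw [← Polynomial.aeval_def, map_mul]
    have h3 := comp_aeval_apply
      (fun j => Polynomial.C (p j) + Polynomial.C (algebraMap O D (b j)) * Polynomial.X)
      ((Polynomial.aeval y : Polynomial D →ₐ[D] B).restrictScalars O) F
    simp only [AlgHom.coe_restrictScalars', map_add, map_mul, Polynomial.aeval_C,
      Polynomial.aeval_X, ← IsScalarTower.algebraMap_apply] at h3
    rw [h3, h, mul_zero]

end Int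

section NN

variable {O L : Type} [CommRing O] [Field L] [Algebra O L]

/-- homogeneous Noether normalization -/
lemma noether [IsDomain O] [IsDiscreteValuationRing O] [Infinite (ResidueField O)]
    (hinj : Function.Injective (algebraMap O L)) : ∀ (n : ℕ) (a : Fin n → L),
    ∃ (m : ℕ) (l : Fin m → L), (∀ j, l j ∈ Submodule.span O (Set.range a)) ∧
      AlgebraicIndependent O (hX l) ∧
      ∀ i, IsIntegral (Algebra.adjoin O (Set.range (hX l))) (hX a i) := by
  have triv : ∀ (n : ℕ) (a : Fin n → L), AlgebraicIndependent O (hX a) →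
      ∃ (m : ℕ) (l : Fin m → L), (∀ j, l j ∈ Submodule.span O (Set.range a)) ∧
      AlgebraicIndependent O (hX l) ∧
      ∀ i, IsIntegral (Algebra.adjoin O (Set.range (hX l))) (hX a i) := fun n a h =>
    ⟨n, a, fun j => Submodule.subset_span ⟨j, rfl⟩, h, fun i =>
      isIntegral_algebraMap (x := (⟨hX a i, Algebra.subset_adjoin ⟨i, rfl⟩⟩ :
        Algebra.adjoin O (Set.range (hX a))))⟩
  intro n
  induction n with
  | zero =>
    intro a
    by_cases h : AlgebraicIndependent O (hX a)
    · exact triv _ a h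
    obtain ⟨e, F, h0, hF, ha⟩ := exists_hom a h
    obtain ⟨G, b, i, -⟩ := exists_unit hinj a h0 hF ha
    exact i.elim0
  | succ n ih =>
    intro a
    by_cases h : AlgebraicIndependent O (hX a)
    · exact triv _ a h
    obtain ⟨e, F, h0, hF, ha⟩ := exists_hom a h
    obtain ⟨G, b, i, hG, hGa, hu, hi⟩ := exists_unit hinj a h0 hF ha
    obtain ⟨v, hv⟩ := hi.exists_right_inv
    obtain ⟨m, l, h1, h2, h3⟩ := ih fun j => a (i.succAbove j) - b (i.succAbove j) • v • a i
    refine ⟨m, l, fun j => ?_, h2, ?_⟩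
    · refine (Submodule.span_le.2 ?_ : _ ≤ Submodule.span O (Set.range a)) (h1 j)
      rintro _ ⟨j, rfl⟩
      exact Submodule.sub_mem _ (Submodule.subset_span ⟨_, rfl⟩)
        (Submodule.smul_mem _ _ (Submodule.smul_mem _ _ (Submodule.subset_span ⟨_, rfl⟩)))
    set R := Algebra.adjoin O (Set.range (hX l))
    have h4 : ∀ j, IsIntegral R (hX (fun j => a j - b j • v • a i) j) := by
      intro j
      refine Fin.succAboveCases i ?_ (fun j => h3 j) j
      have : a i - b i • v • a i = 0 := by rw [smul_smul, hv, one_smul, sub_self]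
      simp only [hX, this, map_zero, zero_mul]
      exact isIntegral_zero
    have h5 : ∀ j, hX a j = hX (fun j => a j - b j • v • a i) j +
        algebraMap O (Polynomial L) (b j) * (Polynomial.C (v • a i) * Polynomial.X) := by
      intro j
      simp only [hX, Polynomial.algebraMap_apply, Algebra.smul_def, map_sub, map_mul]
      ring
    have h6 : IsIntegral (integralClosure R (Polynomial L))
        (Polynomial.C (v • a i) * Polynomial.X : Polynomial L) := by
      refine integral_of_hom hG b hu (fun j => ⟨_, h4 j⟩) _ ?_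
      have e1 : aeval (hX a) G = 0 := by rw [aeval_hX a hG, hGa, map_zero, zero_mul]
      rw [funext h5] at e1
      exact e1
    have h7 : IsIntegral R (Polynomial.C (v • a i) * Polynomial.X : Polynomial L) :=
      isIntegral_trans _ h6
    intro j
    rw [h5]
    refine (h4 j).add (IsIntegral.mul ?_ h7)
    rw [IsScalarTower.algebraMap_apply O R (Polynomial L)]
    exact isIntegral_algebraMap

end NN

/-- common denominators of integral elements -/
lemma denom {P B : Type} [CommRing P] [IsDomain P] [IsIntegrallyClosed P] [IsNoetherianRing P]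
    [CharZero P] [CommRing B] [IsDomain B] [Algebra P B]
    (hinj : Function.Injective (algebraMap P B)) (S : Subalgebra P B) [Module.Finite P S]
    (hfr : ∀ x : B, ∃ v ∈ S, v ≠ 0 ∧ v * x ∈ S) :
    ∃ c ∈ S, c ≠ 0 ∧ ∀ δ : B, IsIntegral P δ → c * δ ∈ S := by
  have : FaithfulSMul P B := (faithfulSMul_iff_algebraMap_injective P B).2 hinj
  have : FaithfulSMul P S := (faithfulSMul_iff_algebraMap_injective P S).2 fun x y h =>
    hinj (congrArg Subtype.val h)
  have : IsFractionRing S (FractionRing B) := IsFractionRing.of_field S _ fun z => by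
    obtain ⟨x, y, -, rfl⟩ := IsFractionRing.div_surjective B z
    obtain ⟨v, hv, hv0, hx⟩ := hfr x
    obtain ⟨w, hw, hw0, hy⟩ := hfr y
    refine ⟨⟨_, S.mul_mem hw hx⟩, ⟨_, S.mul_mem hv hy⟩, ?_⟩
    change _ = algebraMap B (FractionRing B) (w * (v * x)) /
      algebraMap B (FractionRing B) (v * (w * y))
    have h1 : algebraMap B (FractionRing B) (v * w) ≠ 0 :=
      (map_ne_zero_iff _ (IsFractionRing.injective B _)).2 (mul_ne_zero hv0 hw0)
    rw [show w * (v * x) = (v * w) * x by ring, show v * (w * y) = (v * w) * y by ring,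
      map_mul _ (v * w), map_mul _ (v * w), mul_div_mul_left _ _ h1]
  let := FractionRing.liftAlgebra P (FractionRing B)
  have : FiniteDimensional (FractionRing P) (FractionRing B) :=
    Module.Finite.of_isLocalization P S (nonZeroDivisors P)
  have hfin := IsIntegralClosure.finite P (FractionRing P) (FractionRing B)
    (integralClosure P (FractionRing B))
  have hN : IsNoetherian P (integralClosure P (FractionRing B)) := inferInstance
  let φ : integralClosure P B →ₗ[P] integralClosure P (FractionRing B) :=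
    { toFun := fun x => ⟨algebraMap B _ x.1, x.2.map (IsScalarTower.toAlgHom P B _)⟩
      map_add' := fun x y => Subtype.ext (map_add _ _ _)
      map_smul' := fun r x => Subtype.ext
        (map_smul (IsScalarTower.toAlgHom P B (FractionRing B)) r x.1) }
  have hφ : Function.Injective φ := fun x y h =>
    Subtype.ext (IsFractionRing.injective B (FractionRing B) (congrArg Subtype.val h))
  have : Module.Finite P (integralClosure P B) := Module.Finite.of_injective φ hφ
  obtain ⟨t, ht⟩ := Module.Finite.fg_top (R := P) (M := integralClosure P B)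
  choose v hv hv0 hx using hfr
  refine ⟨∏ x ∈ t, v x, S.prod_mem fun x _ => hv _, Finset.prod_ne_zero_iff.2 fun x _ => hv0 _,
    fun δ hδ => ?_⟩
  have hm : (⟨δ, hδ⟩ : integralClosure P B) ∈ Submodule.span P (t : Set (integralClosure P B)) :=
    ht ▸ Submodule.mem_top
  change _ * ((⟨δ, hδ⟩ : integralClosure P B) : B) ∈ S
  generalize (⟨δ, hδ⟩ : integralClosure P B) = z at hm ⊢
  induction hm using Submodule.span_induction with
  | mem z hz =>
    classical
    rw [← Finset.prod_erase_mul t _ hz, mul_assoc]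
    exact S.mul_mem (S.prod_mem fun x _ => hv _) (hx _)
  | zero => simpa using S.zero_mem
  | add a b _ _ ha hb => rw [Subalgebra.coe_add, mul_add]; exact S.add_mem ha hb
  | smul r a _ ha => rw [Subalgebra.coe_smul, mul_smul_comm]; exact S.smul_mem ha r

section Main

variable {O L : Type} [CommRing O] [Field L] [Algebra O L]

lemma exists_pow {σ : Type} (a : σ → L) (S : Subring (Polynomial L))
    (hO : ∀ r, algebraMap O (Polynomial L) r ∈ S) (ha : ∀ i, hX a i ∈ S) (hX1 : Polynomial.X ∈ S)
    {u : L} (hu : u ∈ Algebra.adjoin O (Set.range a)) :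
    ∃ N, ∀ M, N ≤ M → Polynomial.C u * Polynomial.X ^ M ∈ S := by
  suffices h : ∃ N, Polynomial.C u * Polynomial.X ^ N ∈ S by
    obtain ⟨N, hN⟩ := h
    refine ⟨N, fun M hM => ?_⟩
    obtain ⟨c, rfl⟩ := Nat.exists_eq_add_of_le hM
    rw [pow_add, ← mul_assoc]
    exact S.mul_mem hN (S.pow_mem hX1 _)
  induction hu using Algebra.adjoin_induction with
  | mem x hx =>
    obtain ⟨i, rfl⟩ := hx
    exact ⟨1, by rw [pow_one]; exact ha i⟩
  | algebraMap r => exact ⟨0, by rw [pow_zero, mul_one]; exact hO r⟩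
  | add x y _ _ hx hy =>
    obtain ⟨N, hN⟩ := hx
    obtain ⟨M, hM⟩ := hy
    refine ⟨N + M, ?_⟩
    rw [show Polynomial.C (x + y) * Polynomial.X ^ (N + M) =
      Polynomial.C x * Polynomial.X ^ N * Polynomial.X ^ M +
        Polynomial.C y * Polynomial.X ^ M * Polynomial.X ^ N by rw [map_add]; ring]
    exact S.add_mem (S.mul_mem hN (S.pow_mem hX1 _)) (S.mul_mem hM (S.pow_mem hX1 _))
  | mul x y _ _ hx hy =>
    obtain ⟨N, hN⟩ := hx
    obtain ⟨M, hM⟩ := hy
    refine ⟨N + M, ?_⟩
    rw [show Polynomial.C (x * y) * Polynomial.X ^ (N + M) =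
      Polynomial.C x * Polynomial.X ^ N * (Polynomial.C y * Polynomial.X ^ M) by
        rw [map_mul]; ring]
    exact S.mul_mem hN hM

lemma integral_shift (S₀ : Subalgebra O L) (S : Subring (Polynomial L))
    (h : ∀ u ∈ S₀, ∃ N, ∀ M, N ≤ M → Polynomial.C u * Polynomial.X ^ M ∈ S) {γ : L}
    (hγ : IsIntegral S₀ γ) : ∃ N, IsIntegral S (Polynomial.C γ * Polynomial.X ^ N) := by
  obtain ⟨p, hp, hp'⟩ := hγ
  choose! N hN using h
  let f : S₀ →+* Polynomial L := Polynomial.C.comp (algebraMap S₀ L)
  let M := (Finset.range p.natDegree).sup fun k => N (p.coeff k)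
  have hq : ((p.map f).scaleRoots (Polynomial.X ^ M)).Monic :=
    (Polynomial.monic_scaleRoots_iff _).2 (hp.map f)
  have hl : (p.map f).scaleRoots (Polynomial.X ^ M) ∈
      Polynomial.lifts (algebraMap S (Polynomial L)) := by
    rw [Polynomial.lifts_iff_coeff_lifts]
    intro k
    suffices hk : ((p.map f).scaleRoots (Polynomial.X ^ M)).coeff k ∈ S from ⟨⟨_, hk⟩, rfl⟩
    rw [Polynomial.coeff_scaleRoots, Polynomial.coeff_map, hp.natDegree_map, ← pow_mul]
    rcases lt_trichotomy k p.natDegree with hk | rfl | hk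
    · refine hN _ (p.coeff k).2 _ ?_
      have h1 : N (p.coeff k) ≤ M :=
        Finset.le_sup (f := fun k => N (p.coeff k)) (Finset.mem_range.2 hk)
      exact h1.trans (Nat.le_mul_of_pos_right _ (by omega))
    · rw [hp.coeff_natDegree, map_one, tsub_self, mul_zero, pow_zero, mul_one]
      exact S.one_mem
    · rw [Polynomial.coeff_eq_zero_of_natDegree_lt hk, map_zero, zero_mul]
      exact S.zero_mem
  obtain ⟨q, h1, -, h2⟩ := Polynomial.lifts_and_natDegree_eq_and_monic hl hq
  refine ⟨M, q, h2, ?_⟩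
  rw [← Polynomial.eval_map, h1, mul_comm, Polynomial.scaleRoots_eval_mul, Polynomial.eval_map,
    ← Polynomial.hom_eval₂, hp', map_zero, mul_zero]

lemma main [IsDomain O] [IsDiscreteValuationRing O] [CharZero O] [Infinite (ResidueField O)]
    (hinj : Function.Injective (algebraMap O L)) {n : ℕ} (a : Fin n → L) (i₀ : Fin n)
    (h1 : a i₀ = 1) (S₀ : Subalgebra O L) (hS : S₀ = Algebra.adjoin O (Set.range a))
    (hfr : ∀ γ : L, ∃ x ∈ S₀, ∃ y ∈ S₀, y ≠ 0 ∧ γ * y = x) :
    ∃ c ∈ S₀, c ≠ 0 ∧ ∀ γ : L, IsIntegral S₀ γ → c * γ ∈ S₀ := by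
  obtain ⟨m, l, hl, hind, hint⟩ := noether hinj n a
  let : Algebra (MvPolynomial (Fin m) O) (Polynomial L) := (aeval (hX l)).toRingHom.toAlgebra
  have hal : ∀ F : MvPolynomial (Fin m) O, algebraMap _ (Polynomial L) F = aeval (hX l) F :=
    fun _ => rfl
  have hint' : ∀ i, IsIntegral (MvPolynomial (Fin m) O) (hX a i) := fun i => by
    refine (hint i).map_of_comp_eq hind.aevalEquiv.symm.toRingEquiv.toRingHom (RingHom.id _) ?_
    refine RingHom.ext fun x => ?_
    obtain ⟨F, rfl⟩ := hind.aevalEquiv.surjective x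
    change aeval (hX l) (hind.aevalEquiv.symm (hind.aevalEquiv F)) =
      algebraMap _ (Polynomial L) (hind.aevalEquiv F)
    rw [AlgEquiv.symm_apply_apply, AlgebraicIndependent.algebraMap_aevalEquiv]
  let S := Algebra.adjoin (MvPolynomial (Fin m) O) (Set.range (hX a))
  have : Module.Finite (MvPolynomial (Fin m) O) S :=
    Algebra.finite_adjoin_of_finite_of_isIntegral (Set.finite_range _) (by
      rintro _ ⟨i, rfl⟩; exact hint' i)
  have hXS : Polynomial.X ∈ S := by
    have : hX a i₀ ∈ S := Algebra.subset_adjoin ⟨i₀, rfl⟩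
    simpa only [hX, h1, map_one, one_mul] using this
  have hpow : ∀ u ∈ S₀, ∃ N, ∀ M, N ≤ M → Polynomial.C u * Polynomial.X ^ M ∈ S.toSubring :=
    fun u hu => exists_pow a S.toSubring (fun r => by
      have := S.algebraMap_mem (C r)
      rwa [hal, aeval_C] at this) (fun i => Algebra.subset_adjoin ⟨i, rfl⟩) hXS (hS ▸ hu)
  have hfr' : ∀ x : Polynomial L, ∃ v ∈ S, v ≠ 0 ∧ v * x ∈ S := by
    intro x
    induction x using Polynomial.induction_on' with
    | add p q hp hq =>
      obtain ⟨v, hv, hv0, h⟩ := hp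
      obtain ⟨w, hw, hw0, h'⟩ := hq
      refine ⟨v * w, S.mul_mem hv hw, mul_ne_zero hv0 hw0, ?_⟩
      rw [show v * w * (p + q) = w * (v * p) + v * (w * q) by ring]
      exact S.add_mem (S.mul_mem hw h) (S.mul_mem hv h')
    | monomial k γ =>
      obtain ⟨x, hx, y, hy, hy0, rfl⟩ := hfr γ
      obtain ⟨N, hN⟩ := hpow _ hx
      obtain ⟨M, hM⟩ := hpow _ hy
      refine ⟨_, hM (N + M) (by omega), mul_ne_zero (Polynomial.C_ne_zero.2 hy0)
        (pow_ne_zero _ Polynomial.X_ne_zero), ?_⟩
      rw [← Polynomial.C_mul_X_pow_eq_monomial, show Polynomial.C y * Polynomial.X ^ (N + M) *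
        (Polynomial.C γ * Polynomial.X ^ k) =
        Polynomial.C (γ * y) * Polynomial.X ^ (N + M + k) by rw [map_mul]; ring]
      exact hN _ (by omega)
  obtain ⟨c, hc, hc0, hδ⟩ := denom hind S hfr'
  have hco : ∀ p ∈ S, ∀ k, p.coeff k ∈ S₀ := by
    let T : Subalgebra O (Polynomial L) := (Polynomial.mapAlgHom S₀.val).range
    have hT : ∀ u ∈ S₀, Polynomial.C u * Polynomial.X ∈ T := fun u hu =>
      ⟨Polynomial.C ⟨u, hu⟩ * Polynomial.X, by simp⟩
    have ha : ∀ i, a i ∈ S₀ := fun i => hS ▸ Algebra.subset_adjoin ⟨i, rfl⟩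
    have hST : ∀ p ∈ S, p ∈ T := by
      intro p hp
      induction hp using Algebra.adjoin_induction with
      | mem x hx =>
        obtain ⟨i, rfl⟩ := hx
        exact hT _ (ha i)
      | algebraMap F =>
        rw [hal]
        refine (Algebra.adjoin_le ?_ : Algebra.adjoin O (Set.range (hX l)) ≤ T)
          (by rw [Algebra.adjoin_range_eq_range_aeval]; exact ⟨F, rfl⟩)
        rintro _ ⟨j, rfl⟩
        refine hT _ ((Submodule.span_le.2 ?_ : _ ≤ S₀.toSubmodule) (hl j))
        rintro _ ⟨i, rfl⟩
        exact ha i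
      | add x y _ _ hx hy => exact T.add_mem hx hy
      | mul x y _ _ hx hy => exact T.mul_mem hx hy
    intro p hp k
    obtain ⟨q, rfl⟩ := hST p hp
    change (q.map _).coeff k ∈ S₀
    rw [Polynomial.coeff_map]
    exact (q.coeff k).2
  refine ⟨c.leadingCoeff, hco c hc _, Polynomial.leadingCoeff_ne_zero.2 hc0, fun γ hγ => ?_⟩
  obtain ⟨N, hN⟩ := integral_shift S₀ S.toSubring hpow hγ
  have hN' : IsIntegral S (Polynomial.C γ * Polynomial.X ^ N : Polynomial L) := hN
  have h2 := hco _ (hδ _ (isIntegral_trans _ hN')) (c.natDegree + N)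
  rwa [← mul_assoc, Polynomial.coeff_mul_X_pow, Polynomial.coeff_mul_C] at h2

end Main

end FinaA

theorem fina : S_fina := by
  intro O L ν _ _ _ _ _ _ _ _ s hinj hfr
  obtain ⟨n, ⟨e⟩⟩ := Finite.exists_equiv_fin (Option ν)
  refine FinaA.main hinj (fun i => (e.symm i).elim 1 s) (e none) (by simp) _ ?_ hfr
  refine le_antisymm (Algebra.adjoin_mono ?_) (Algebra.adjoin_le ?_)
  · rintro _ ⟨i, rfl⟩
    exact ⟨e (some i), by simp⟩
  · rintro _ ⟨i, rfl⟩
    rcases h : e.symm i with _ | j
    · simp only [h, Option.elim]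
      exact Subalgebra.one_mem _
    · simp only [h, Option.elim]
      exact Algebra.subset_adjoin ⟨j, rfl⟩

end

end Pool.Agent.P.MP_e7d440_ag
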