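import Pool.Agent.P.MP_e7d440_ag.Iface

/-! Heights of the kernel and generic generation. -/

namespace Pool.Agent.P.MP_e7d440_ag

open IsLocalRing MvPolynomial

namespace HtA

section ind
variable {O Q L ι κ : Type} [CommRing O] [CommRing Q] [Field L] [Algebra O Q] [Algebra O L]
  [Fintype ι] [Fintype κ] [DecidableEq ι] [DecidableEq κ] (j : Jet O Q L ι κ)

lemma mem_J {g : Q} : g ∈ j.J ↔ j.φ g = 0 := RingHom.mem_ker

lemma der_sq (d : Derivation O Q Q) {g : Q} (hg : g ∈ j.J ^ 2) : j.φ (d g) = 0 := by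
  rw [pow_two] at hg
  refine Submodule.mul_induction_on hg (fun x hx y hy => ?_) fun x y hx hy => ?_
  · rw [d.leibniz, map_add, smul_eq_mul, smul_eq_mul, map_mul, map_mul, (mem_J j).1 hx,
      (mem_J j).1 hy, zero_mul, zero_mul, add_zero]
  · rw [map_add, map_add, hx, hy, add_zero]

lemma key (z : κ → Q) (hz : ∀ k, z k ∈ j.J) (hj : j.jac z ≠ 0) (a : κ → Q)
    (h : ∑ k, a k * z k ∈ j.J ^ 2) (k : κ) : a k ∈ j.J := by
  have h1 : (Matrix.of fun k l => j.φ (j.d (Sum.inr l) (z k))).det ≠ 0 := by
    have h2 := j.ρ.map_det (Matrix.of fun k l => j.d (Sum.inr l) (z k))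
    intro h3
    exact hj (h2.trans h3)
  have h2 : Matrix.vecMul (fun k => j.φ (a k))
      (Matrix.of fun k l => j.φ (j.d (Sum.inr l) (z k))) = 0 := by
    funext l
    have h3 := der_sq j (j.d (Sum.inr l)) h
    rw [map_sum, map_sum] at h3
    rw [Pi.zero_apply, ← h3]
    refine Finset.sum_congr rfl fun k _ => ?_
    rw [Derivation.leibniz, map_add, smul_eq_mul, smul_eq_mul, map_mul, map_mul,
      (mem_J j).1 (hz k), zero_mul, add_zero]
    rfl
  exact (mem_J j).2 (congrFun (Matrix.eq_zero_of_vecMul_eq_zero h1 h2) k)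

end ind

section loc
variable {Q κ : Type} [CommRing Q] [Fintype κ] (J : Ideal Q) [J.IsPrime]

lemma indep (z : κ → Q) (hz : ∀ k, z k ∈ J)
    (h : ∀ a : κ → Q, ∑ k, a k * z k ∈ J ^ 2 → ∀ k, a k ∈ J) :
    LinearIndependent (ResidueField (Localization.AtPrime J)) fun k =>
      (maximalIdeal (Localization.AtPrime J)).toCotangent ⟨algebraMap Q _ (z k),
        (IsLocalization.AtPrime.to_map_mem_maximal_iff _ J _).2 (hz k)⟩ := by
  rw [Fintype.linearIndependent_iff]
  intro g hg k
  choose r hr using fun k => residue_surjective (g k)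
  obtain ⟨b, hb⟩ := IsLocalization.exist_integer_multiples_of_finite J.primeCompl r
  choose a ha using hb
  have h1 : ∑ k, r k * algebraMap Q (Localization.AtPrime J) (z k) ∈
      maximalIdeal (Localization.AtPrime J) ^ 2 := by
    have h2 : (maximalIdeal (Localization.AtPrime J)).toCotangent (∑ k, r k • ⟨algebraMap Q _ (z k),
        (IsLocalization.AtPrime.to_map_mem_maximal_iff _ J _).2 (hz k)⟩) = 0 := by
      rw [map_sum, ← hg]
      refine Finset.sum_congr rfl fun k _ => ?_
      rw [map_smul, ← hr k, ← ResidueField.algebraMap_eq, algebraMap_smul]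
    simpa using (Ideal.toCotangent_eq_zero _ _).1 h2
  have h2 : algebraMap Q (Localization.AtPrime J) (∑ k, a k * z k) ∈
      (J ^ 2).map (algebraMap Q (Localization.AtPrime J)) := by
    rw [Ideal.map_pow, Localization.AtPrime.map_eq_maximalIdeal]
    convert Ideal.mul_mem_left _ (algebraMap Q (Localization.AtPrime J) b) h1 using 1
    rw [map_sum, Finset.mul_sum]
    refine Finset.sum_congr rfl fun k _ => ?_
    rw [map_mul, ha k, Algebra.smul_def, mul_assoc]
  obtain ⟨s, hs, h3⟩ :=
    (IsLocalization.algebraMap_mem_map_algebraMap_iff J.primeCompl _ _ _).1 h2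
  have h4 := h (fun k => s * a k) (by simpa only [Finset.mul_sum, mul_assoc] using h3) k
  have h5 : a k ∈ J := (Ideal.IsPrime.mem_or_mem ‹_› h4).resolve_left hs
  have h6 := (IsLocalization.AtPrime.to_map_mem_maximal_iff (Localization.AtPrime J) J _).2 h5
  rw [ha k, Algebra.smul_def] at h6
  rw [← hr k, residue_eq_zero_iff]
  exact (Ideal.unit_mul_mem_iff_mem _ (IsLocalization.map_units _ b)).1 h6

lemma main [IsRegularRing Q] (z : κ → Q) (hz : ∀ k, z k ∈ J)
    (h : ∀ a : κ → Q, ∑ k, a k * z k ∈ J ^ 2 → ∀ k, a k ∈ J) (hh : J.height ≤ Fintype.card κ) :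
    J.height = Fintype.card κ ∧ GenGen (sp z) J := by
  have h1 := indep J z hz h
  have h2 := (IsRegularLocalRing.iff_finrank_cotangentSpace (Localization.AtPrime J)).1
    inferInstance
  rw [IsLocalization.AtPrime.ringKrullDim_eq_height J] at h2
  have h3 : ((Module.finrank (ResidueField (Localization.AtPrime J))
      (CotangentSpace (Localization.AtPrime J)) : ℕ) : ℕ∞) = J.height := by exact_mod_cast h2
  have h4 := h1.fintype_card_le_finrank
  have h5 : Fintype.card κ = Module.finrank (ResidueField (Localization.AtPrime J))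
      (CotangentSpace (Localization.AtPrime J)) := by
    rw [← h3] at hh
    exact le_antisymm h4 (by exact_mod_cast hh)
  refine ⟨by rw [← h3, h5], fun g hg => ?_⟩
  have h6 := h1.span_eq_top_of_card_eq_finrank' h5
  rw [show (fun k => (maximalIdeal (Localization.AtPrime J)).toCotangent ⟨algebraMap Q _ (z k),
      (IsLocalization.AtPrime.to_map_mem_maximal_iff _ J _).2 (hz k)⟩) =
      (maximalIdeal (Localization.AtPrime J)).toCotangent ∘ fun k => ⟨algebraMap Q _ (z k),
      (IsLocalization.AtPrime.to_map_mem_maximal_iff _ J _).2 (hz k)⟩ from rfl, Set.range_comp,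
    CotangentSpace.span_image_eq_top_iff] at h6
  have h7 : algebraMap Q (Localization.AtPrime J) g ∈
      (sp z).map (algebraMap Q (Localization.AtPrime J)) := by
    have h8 := Submodule.mem_map_of_mem (f := (maximalIdeal (Localization.AtPrime J)).subtype)
      (h6.ge (Submodule.mem_top (x := ⟨algebraMap Q _ g,
        (IsLocalization.AtPrime.to_map_mem_maximal_iff _ J _).2 hg⟩)))
    rw [Submodule.map_span, ← Set.range_comp] at h8
    rw [Ideal.map_span, ← Set.range_comp]
    exact h8
  obtain ⟨s, hs, h9⟩ :=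
    (IsLocalization.algebraMap_mem_map_algebraMap_iff J.primeCompl _ _ _).1 h7
  exact ⟨s, hs, h9⟩

end loc

section gen
variable {O ν ι κ : Type} [CommRing O] [Fintype κ] (e : ι ⊕ κ ≃ ν) (p q : κ → MvPolynomial ι O)

/-- the generic relations -/
noncomputable def rel (k : κ) : MvPolynomial ν O :=
  rename (fun a => e (Sum.inl a)) (q k) * X (e (Sum.inr k)) - rename (fun a => e (Sum.inl a)) (p k)

lemma elim (g : MvPolynomial ν O) : ∃ (N : ℕ) (G : MvPolynomial ι O),
    rename (fun a => e (Sum.inl a)) (∏ k, q k) ^ N * g - rename (fun a => e (Sum.inl a)) G ∈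
      sp (rel e p q) := by
  classical
  induction g using MvPolynomial.induction_on with
  | C o => exact ⟨0, C o, by simp⟩
  | add g g' h h' =>
    obtain ⟨N, G, h⟩ := h
    obtain ⟨N', G', h'⟩ := h'
    refine ⟨N + N', (∏ k, q k) ^ N' * G + (∏ k, q k) ^ N * G', ?_⟩
    convert Ideal.add_mem _
      (Ideal.mul_mem_left _ (rename (fun a => e (Sum.inl a)) (∏ k, q k) ^ N') h)
      (Ideal.mul_mem_left _ (rename (fun a => e (Sum.inl a)) (∏ k, q k) ^ N) h') using 1
    rw [map_add, map_mul, map_mul, map_pow, map_pow]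
    ring
  | mul_X g i h =>
    obtain ⟨N, G, h⟩ := h
    obtain ⟨i, rfl⟩ := e.surjective i
    rcases i with a | k
    · refine ⟨N, G * X a, ?_⟩
      convert Ideal.mul_mem_right (X (e (Sum.inl a))) _ h using 1
      rw [map_mul, rename_X]
      ring
    · refine ⟨N + 1, G * (∏ l ∈ Finset.univ.erase k, q l) * p k, ?_⟩
      have h1 : rel e p q k ∈ sp (rel e p q) := Ideal.subset_span ⟨k, rfl⟩
      convert Ideal.add_mem _ (Ideal.mul_mem_right
        (rename (fun a => e (Sum.inl a)) (∏ k, q k) * X (e (Sum.inr k))) _ h)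
        (Ideal.mul_mem_left _ (rename (fun a => e (Sum.inl a))
          (G * ∏ l ∈ Finset.univ.erase k, q l)) h1) using 1
      rw [← Finset.mul_prod_erase _ q (Finset.mem_univ k), rel]
      simp only [map_mul]
      ring

end gen

lemma ht_le {R κ : Type} [CommRing R] [IsNoetherianRing R] [Fintype κ] (K : Ideal R)
    [hK : K.IsPrime] (f : κ → R) (hf : ∀ k, f k ∈ K) (h : GenGen (sp f) K) :
    K.height ≤ Fintype.card κ := by
  classical
  have h1 : K ∈ (Ideal.span ((Finset.univ.image f : Finset R) : Set R)).minimalPrimes := by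
    rw [Finset.coe_image, Finset.coe_univ, Set.image_univ]
    refine ⟨⟨hK, Ideal.span_le.2 (Set.range_subset_iff.2 hf)⟩, fun 𝔮 h𝔮 hle g hg => ?_⟩
    obtain ⟨s, hs, h2⟩ := h g hg
    exact (h𝔮.1.mem_or_mem (h𝔮.2 h2)).resolve_left fun h3 => hs (hle h3)
  exact (Ideal.height_le_card_of_mem_minimalPrimes_span_finset h1).trans
    (by exact_mod_cast Finset.card_image_le)

end HtA

open HtA in
theorem hts : S_ht where
  ind := fun j z hz hj hh =>
    have := RingHom.ker_isPrime j.ρ
    main j.J z hz (key j z hz hj) hh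
  gen := by
    intro O ν ι κ F _ _ _ _ _ _ _ e 𝔫 _ χ v hv hind hpq
    choose p q hq hpq using hpq
    have := RingHom.ker_isPrime χ.toRingHom
    have h1 : ∀ g : MvPolynomial ν O, χ (algebraMap (MvPolynomial ν O) _ g) = aeval v g := by
      intro g
      have h2 : χ.comp (IsScalarTower.toAlgHom O (MvPolynomial ν O) (Localization.AtPrime 𝔫)) =
          aeval v := MvPolynomial.algHom_ext fun i => by rw [aeval_X]; exact hv i
      exact AlgHom.congr_fun h2 g
    have h2 : ∀ G : MvPolynomial ι O, aeval v (rename (fun a => e (Sum.inl a)) G) =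
        aeval (fun a => v (e (Sum.inl a))) G := fun G => aeval_rename _ _ _
    have h3 : ∀ k, aeval v (rel e p q k) = 0 := fun k => by
      rw [rel, map_sub, map_mul, h2, h2, aeval_X, ← hpq k, mul_comm, sub_self]
    have h4 : ∀ g ∈ sp (rel e p q), aeval v g = 0 := fun g hg =>
      (Ideal.span_le (I := RingHom.ker (aeval v).toRingHom)).2 (Set.range_subset_iff.2 h3) hg
    refine ht_le _ (fun k => algebraMap (MvPolynomial ν O) _ (rel e p q k))
      (fun k => (h1 _).trans (h3 k)) fun x hx => ?_
    obtain ⟨⟨g, s⟩, hs⟩ := IsLocalization.surj 𝔫.primeCompl x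
    have hx' : χ x = 0 := hx
    have h5 : aeval v g = 0 := by rw [← h1, ← hs, map_mul, hx', zero_mul]
    obtain ⟨N, G, h6⟩ := elim e p q g
    have h7 := h4 _ h6
    rw [map_sub, map_mul, h5, mul_zero, zero_sub, neg_eq_zero, h2] at h7
    rw [hind.eq_zero_of_aeval_eq_zero G h7, map_zero, sub_zero] at h6
    refine ⟨algebraMap (MvPolynomial ν O) _ (rename (fun a => e (Sum.inl a)) (∏ k, q k) ^ N) *
      algebraMap (MvPolynomial ν O) _ (s : MvPolynomial ν O), fun h8 => ?_, ?_⟩
    · have h9 : χ _ = 0 := h8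
      rw [map_mul, h1, map_pow, h2, map_prod] at h9
      exact mul_ne_zero (pow_ne_zero _ (Finset.prod_ne_zero_iff.2 fun k _ => hq k))
        ((IsLocalization.map_units _ s).map χ).ne_zero h9
    · rw [mul_assoc, mul_comm _ x, hs, ← map_mul]
      have h9 := Ideal.mem_map_of_mem (algebraMap _ (Localization.AtPrime 𝔫)) h6
      rwa [Ideal.map_span, ← Set.range_comp] at h9

end Pool.Agent.P.MP_e7d440_ag
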