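import Pool.Agent.P.MP_e7d440_ag.Iface

/-! Jacobian identities. -/

namespace Pool.Agent.P.MP_e7d440_ag

open IsLocalRing MvPolynomial

noncomputable section

namespace JacA

/-- The chain rule for polynomial expressions. -/
theorem chain {O R ι : Type} [CommRing O] [CommRing R] [Algebra O R] [Fintype ι]
    (D : Derivation O R R) (y : ι → R) (F : MvPolynomial ι O) :
    D (aeval y F) = ∑ b, aeval y (pderiv b F) * D (y b) := by
  classical
  induction F using MvPolynomial.induction_on with
  | C a => simp
  | add p q hp hq => simp [hp, hq, add_mul, Finset.sum_add_distrib]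
  | mul_X p n hp =>
    simp only [map_mul, aeval_X, Derivation.leibniz, smul_eq_mul, hp, map_add, pderiv_X, add_mul,
      Finset.sum_add_distrib, Finset.mul_sum, Pi.single_apply]
    congr 1
    · rw [Finset.sum_eq_single n (fun b _ hb => by simp [hb.symm]) (by simp)]
      simp
    · exact Finset.sum_congr rfl fun b _ => by ring

variable {O Q L ι κ : Type} [CommRing O] [CommRing Q] [Field L] [Algebra O Q] [Algebra O L]
  [Fintype ι] [Fintype κ] [DecidableEq ι] [DecidableEq κ]

theorem block (j : Jet O Q L ι κ) (g : ι → Q) (f : κ → Q) (hf : ∀ k, j.φ (f k) = 0) :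
    j.φ (Matrix.of fun p q => j.d q (Sum.elim g f p)).det =
      wr j.D (fun b => j.φ (g b)) * j.jac f := by
  have key : j.φ.mapMatrix (Matrix.of fun p q => j.d q (Sum.elim g f p)) *
      Matrix.fromBlocks 1 0 (Matrix.of fun l a => j.D a (j.φ (j.X (Sum.inr l)))) 1 =
      Matrix.fromBlocks (Matrix.of fun b a => j.D a (j.φ (g b)))
        (Matrix.of fun b l => j.φ (j.d (Sum.inr l) (g b))) 0
        (j.φ.mapMatrix (Matrix.of fun k l => j.d (Sum.inr l) (f k))) := by
    ext p q
    rcases q with a | l
    · have h := j.chain a (Sum.elim g f p)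
      have h' : (j.φ.mapMatrix (Matrix.of fun p q => j.d q (Sum.elim g f p)) *
          Matrix.fromBlocks 1 0 (Matrix.of fun l a => j.D a (j.φ (j.X (Sum.inr l)))) 1 :
          Matrix (ι ⊕ κ) (ι ⊕ κ) L) p (Sum.inl a) = j.D a (j.φ (Sum.elim g f p)) := by
        rw [h, Matrix.mul_apply]
        refine Finset.sum_congr rfl fun i _ => ?_
        rcases i with b | l
        · simp [j.DX, Matrix.one_apply, eq_comm]
        · simp
      rw [h']
      rcases p with b | k
      · simp
      · simp [hf]
    · rcases p with b | k <;> simp [Matrix.mul_apply, Matrix.one_apply]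
  have h := congrArg Matrix.det key
  rw [Matrix.det_mul, Matrix.det_fromBlocks_zero₁₂, Matrix.det_fromBlocks_zero₂₁, Matrix.det_one,
    Matrix.det_one, mul_one, mul_one, ← AlgHom.map_det, ← AlgHom.map_det] at h
  exact h

theorem mul (j : Jet O Q L ι κ) (f : κ → Q) (M : Matrix κ κ Q) (hf : ∀ k, j.φ (f k) = 0) :
    j.jac (M.mulVec f) = j.φ M.det * j.jac f := by
  unfold Jet.jac
  rw [AlgHom.map_det, AlgHom.map_det, AlgHom.map_det, ← Matrix.det_mul]
  congr 1
  ext k l
  simp [Matrix.mul_apply, Matrix.mulVec, dotProduct, hf]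

theorem unit [IsLocalRing Q] (j : Jet O Q L ι κ) (f : κ → Q) (y : ι → Q) (hf : sp f = j.J)
    (h : ∀ i, ∃ F G : MvPolynomial ι O, IsUnit (aeval y G) ∧
      j.φ (j.X i * aeval y G - aeval y F) = 0) :
    ∃ v, IsUnit v ∧ j.φ v = wr j.D (fun b => j.φ (y b)) * j.jac f := by
  have h0 : ∀ k, j.φ (f k) = 0 := fun k =>
    (hf ▸ Ideal.subset_span (Set.mem_range_self k) : f k ∈ j.J)
  refine ⟨_, ?_, block j y f h0⟩
  have h1 : ∀ k, residue Q (f k) = 0 := fun k => by
    rw [residue_eq_zero_iff, mem_maximalIdeal]
    intro hu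
    exact (hu.map j.φ).ne_zero (h0 k)
  choose F G hG hFG using h
  have h2 : ∀ i, ∃ m : κ → Q, ∑ k, m k * f k = j.X i * aeval y (G i) - aeval y (F i) := fun i =>
    Ideal.mem_span_range_iff_exists_fun.mp (hf ▸ hFG i : _ ∈ sp f)
  choose m hm using h2
  have key : (residue Q).mapMatrix (Matrix.of fun i => Sum.elim (fun b =>
      aeval y (pderiv b (F i)) - j.X i * aeval y (pderiv b (G i))) (m i)) *
      (residue Q).mapMatrix (Matrix.of fun p q => j.d q (Sum.elim y f p)) =
      Matrix.diagonal fun i => residue Q (aeval y (G i)) := by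
    ext i q
    have h3 := congrArg (fun t => residue Q (j.d q t)) (hm i)
    simp only [map_sum, Derivation.leibniz, map_sub, smul_eq_mul, map_add, map_mul, h1, zero_mul,
      add_zero, chain, j.dX, Finset.mul_sum] at h3
    simp only [Matrix.mul_apply, Fintype.sum_sum_type, RingHom.mapMatrix_apply, Matrix.map_apply,
      Matrix.of_apply, Sum.elim_inl, Sum.elim_inr, map_sub, map_mul, sub_mul,
      Finset.sum_sub_distrib, h3, Matrix.diagonal_apply, mul_assoc]
    by_cases hq : i = q
    · simp [hq]
    · simp [hq, Ne.symm hq]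
  have h4 := congrArg Matrix.det key
  rw [Matrix.det_mul, Matrix.det_diagonal, ← RingHom.map_det, ← RingHom.map_det] at h4
  by_contra hu
  rw [(residue_eq_zero_iff _).mpr ((mem_maximalIdeal _).mpr hu), mul_zero] at h4
  exact Finset.prod_ne_zero_iff.mpr (fun i _ => ((hG i).map (residue Q)).ne_zero) h4.symm

theorem lwr_eq (D : ι → Derivation O L L) (γ : ι → L) : lwr D γ = wr D γ / ∏ b, γ b := by
  unfold lwr wr
  rw [div_eq_inv_mul, ← Finset.prod_inv_distrib, ← Matrix.det_diagonal, ← Matrix.det_mul]
  congr 1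
  ext b a
  simp [div_eq_inv_mul]

theorem norm (D : ι → Derivation O L L) (x : ι → L) (h : wr D x ≠ 0) :
    ∃ D' : ι → Derivation O L L, (∀ a b, D' a (x b) = if a = b then 1 else 0) ∧
      ∀ γ, wr D' γ * wr D x = wr D γ := by
  let W : Matrix ι ι L := Matrix.of fun b a => D a (x b)
  have hW : IsUnit W.det := isUnit_iff_ne_zero.mpr h
  have key : ∀ γ : ι → L, (Matrix.of fun b a => (∑ a', W⁻¹ a' a • D a') (γ b)) =
      (Matrix.of fun b a => D a (γ b)) * W⁻¹ := fun γ => by
    ext b a
    have h1 : ⇑(∑ a', W⁻¹ a' a • D a') = ∑ a', ⇑(W⁻¹ a' a • D a') :=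
      map_sum Derivation.coeFnAddMonoidHom _ _
    simp [Matrix.mul_apply, h1, mul_comm]
  refine ⟨fun a => ∑ a', W⁻¹ a' a • D a', fun a b => ?_, fun γ => ?_⟩
  · have h1 := congrFun (congrFun ((key x).trans (Matrix.mul_nonsing_inv W hW)) b) a
    rw [Matrix.one_apply] at h1
    simpa only [Matrix.of_apply, eq_comm] using h1
  · unfold wr
    rw [key, ← Matrix.det_mul, Matrix.nonsing_inv_mul_cancel_right W _ hW]

theorem indep [IsDomain O] [CharZero O] (D : ι → Derivation O L L) (x : ι → L)
    (hi : Function.Injective (algebraMap O L)) (h : wr D x ≠ 0) : AlgebraicIndependent O x := by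
  obtain ⟨D', h1, -⟩ := norm D x h
  have key : ∀ (n : ℕ) (p : MvPolynomial ι O), (∀ m, coeff m p ≠ 0 → m.degree < n) →
      aeval x p = 0 → p = 0 := by
    intro n
    induction n with
    | zero =>
      intro p hp _
      ext m
      by_contra hm
      exact Nat.not_lt_zero _ (hp m hm)
    | succ n ih =>
      intro p hp h0
      have h2 : ∀ a, pderiv a p = 0 := fun a => by
        refine ih _ (fun m hm => ?_) ?_
        · rw [coeff_pderiv] at hm
          have h3 := hp _ (left_ne_zero_of_mul hm)
          rw [map_add, Finsupp.degree_single] at h3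
          omega
        · have h3 := chain (D' a) x p
          rw [h0, map_zero] at h3
          simpa [h1] using h3.symm
      have h3 : p = C (coeff 0 p) := by
        ext m
        rw [coeff_C]
        split_ifs with hm
        · rw [hm]
        · obtain ⟨a, ha⟩ := Finsupp.ne_iff.mp (Ne.symm hm)
          have h4 := coeff_pderiv (i := a) p (m - Finsupp.single a 1)
          rw [h2, coeff_zero, tsub_add_cancel_of_le (Finsupp.single_le_iff.mpr
            (Nat.one_le_iff_ne_zero.mpr ha))] at h4
          exact (mul_eq_zero.mp h4.symm).resolve_right (Nat.cast_add_one_ne_zero _)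
      rw [h3, aeval_C, map_eq_zero_iff _ hi] at h0
      rw [h3, h0, map_zero]
  refine algebraicIndependent_iff.mpr fun p hp => key (p.totalDegree + 1) p (fun m hm => ?_) hp
  exact Nat.lt_succ_of_le (le_totalDegree (mem_support_iff.mpr hm))

end JacA

theorem jacs : S_jac where
  block := JacA.block
  mul := JacA.mul
  unit := JacA.unit
  lwr_eq := JacA.lwr_eq
  norm := JacA.norm
  indep := JacA.indep

end

end Pool.Agent.P.MP_e7d440_ag
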