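import Pool.Agent.P.MP_e7d440_ag.Iface

/-! The canonical module along a prime covering the kernel. -/

namespace Pool.Agent.P.MP_e7d440_ag

open IsLocalRing MvPolynomial

namespace LinkA

variable {Q R L : Type} [CommRing Q] [CommRing R] [Field L] [Algebra Q R] {𝔓 : Ideal Q}
  [h𝔓 : 𝔓.IsPrime] [IsLocalization.AtPrime R 𝔓] {φ : Q →+* L} {ψ : R →+* L}
  (h : ∀ g, ψ (algebraMap Q R g) = φ g)
include h

theorem ne_zero (s : 𝔓.primeCompl) : φ s ≠ 0 :=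
  h s ▸ ((IsLocalization.map_units R s).map ψ).ne_zero

theorem map_mk (a : Q) (s : 𝔓.primeCompl) : ψ (IsLocalization.mk' R a s) * φ s = φ a := by
  rw [← h s, ← map_mul, IsLocalization.mk'_spec, h]

variable (𝔓) in
theorem loc_iff {γ : L} : loc φ 𝔓 γ ↔ ∃ v, ψ v = γ := by
  refine ⟨fun ⟨a, b, hb, e⟩ => ⟨IsLocalization.mk' R a (⟨b, hb⟩ : 𝔓.primeCompl),
    mul_right_cancel₀ (ne_zero h ⟨b, hb⟩) ((map_mk h a _).trans e.symm)⟩, fun ⟨v, e⟩ => ?_⟩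
  obtain ⟨⟨a, s⟩, rfl⟩ := IsLocalization.mk'_surjective 𝔓.primeCompl v
  exact ⟨a, s, s.2, e ▸ map_mk h a s⟩

theorem mk_mem {a : Q} {s : 𝔓.primeCompl} (e : IsLocalization.mk' R a s ∈ RingHom.ker ψ) :
    a ∈ RingHom.ker φ := by
  rw [RingHom.mem_ker, ← map_mk h a s, RingHom.mem_ker.mp e, zero_mul]

omit h𝔓 [IsLocalization.AtPrime R 𝔓] in
theorem under_ker : (RingHom.ker ψ).under Q = RingHom.ker φ := by
  ext g
  rw [Ideal.mem_comap, RingHom.mem_ker, RingHom.mem_ker, h]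

theorem covers [IsLocalRing R] (hc : Covers (RingHom.ker φ) 𝔓) :
    Covers (RingHom.ker ψ) (maximalIdeal R) := by
  have hm := IsLocalization.AtPrime.under_maximalIdeal R 𝔓
  have hi : Function.Injective (Ideal.under Q : Ideal R → Ideal Q) :=
    (IsLocalization.orderEmbedding 𝔓.primeCompl R).injective
  refine ⟨(le_maximalIdeal (RingHom.ker_ne_top ψ)).lt_of_ne fun e => hc.1.ne ?_,
    fun P hP h1 h2 => (hc.2 (P.under Q) inferInstance ?_ ?_).imp (fun e => hi ?_) fun e => hi ?_⟩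
  · rw [← under_ker h, e, hm]
  · exact under_ker h ▸ Ideal.comap_mono h1
  · exact hm ▸ Ideal.comap_mono h2
  · rw [e, under_ker h]
  · rw [e, hm]

variable (𝔓) {𝔷 : Ideal Q}

include h𝔓 in
theorem genGen (hg : GenGen 𝔷 (RingHom.ker φ)) :
    GenGen (𝔷.map (algebraMap Q R)) (RingHom.ker ψ) := by
  intro g e
  obtain ⟨⟨g, t⟩, rfl⟩ := IsLocalization.mk'_surjective 𝔓.primeCompl g
  obtain ⟨s, h1, h2⟩ := hg g (mk_mem h e)
  refine ⟨algebraMap Q R s, by rwa [RingHom.mem_ker, h], ?_⟩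
  rw [IsLocalization.mul_mk'_eq_mk'_of_mul, IsLocalization.mk'_mem_map_algebraMap_iff]
  exact ⟨1, one_mem _, by rwa [one_mul]⟩

include h𝔓 in
theorem col_up {w : Q} (hw : w ∈ col 𝔷 (RingHom.ker φ)) :
    algebraMap Q R w ∈ col (𝔷.map (algebraMap Q R)) (RingHom.ker ψ) := by
  refine mem_col.mpr fun g e => ?_
  obtain ⟨⟨g, t⟩, rfl⟩ := IsLocalization.mk'_surjective 𝔓.primeCompl g
  rw [IsLocalization.mul_mk'_eq_mk'_of_mul, IsLocalization.mk'_mem_map_algebraMap_iff]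
  exact ⟨1, one_mem _, by rw [one_mul]; exact mem_col.mp hw g (mk_mem h e)⟩

omit h in
theorem common {a : Q} (N : Ideal Q) (hN : N.FG) (H : ∀ g ∈ N, ∃ s ∉ 𝔓, s * (a * g) ∈ 𝔷) :
    ∃ s ∉ 𝔓, ∀ g ∈ N, s * a * g ∈ 𝔷 := by
  induction N, hN using Submodule.fg_induction with
  | singleton x =>
    obtain ⟨s, h1, h2⟩ := H x (Submodule.mem_span_singleton_self x)
    refine ⟨s, h1, fun g hg => ?_⟩
    obtain ⟨c, rfl⟩ := Ideal.mem_span_singleton'.mp hg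
    convert 𝔷.mul_mem_left c h2 using 1
    ring
  | sup N₁ N₂ _ _ ih₁ ih₂ =>
    obtain ⟨s, h1, h2⟩ := ih₁ fun g hg => H g (Submodule.mem_sup_left hg)
    obtain ⟨t, h3, h4⟩ := ih₂ fun g hg => H g (Submodule.mem_sup_right hg)
    refine ⟨s * t, fun e => (h𝔓.mem_or_mem e).elim h1 h3, fun g hg => ?_⟩
    obtain ⟨x, hx, y, hy, rfl⟩ := Submodule.mem_sup.mp hg
    convert 𝔷.add_mem (𝔷.mul_mem_left t (h2 x hx)) (𝔷.mul_mem_left s (h4 y hy)) using 1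
    ring

include h𝔓 in
theorem col_down [IsNoetherianRing Q] {v : R}
    (hv : v ∈ col (𝔷.map (algebraMap Q R)) (RingHom.ker ψ)) :
    ∃ s, s ∉ 𝔓 ∧ ∃ w ∈ col 𝔷 (RingHom.ker φ), φ s * ψ v = φ w := by
  obtain ⟨⟨a, t⟩, rfl⟩ := IsLocalization.mk'_surjective 𝔓.primeCompl v
  obtain ⟨s, h1, h2⟩ := common 𝔓 (𝔷 := 𝔷) (a := a) (RingHom.ker φ) (IsNoetherian.noetherian _)
    fun g hg => by
      have := mem_col.mp hv (algebraMap Q R g) (by rwa [RingHom.mem_ker, h])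
      rw [mul_comm, IsLocalization.mul_mk'_eq_mk'_of_mul,
        IsLocalization.mk'_mem_map_algebraMap_iff, mul_comm g] at this
      exact this
  refine ⟨s * t, fun e => (h𝔓.mem_or_mem e).elim h1 t.2, s * a, mem_col.mpr h2, ?_⟩
  rw [map_mul, map_mul, ← map_mk h a t]
  ring

omit h h𝔓 in
theorem isUnit_of [IsLocalRing R] {x u : R} (h0 : ψ x ≠ 0) (hu : ψ u = (ψ x)⁻¹) : IsUnit x := by
  refine (notMem_maximalIdeal.mp fun e => (maximalIdeal.isMaximal R).ne_top ?_)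
  have : 1 - u * x ∈ RingHom.ker ψ := by
    rw [RingHom.mem_ker, map_sub, map_mul, hu, inv_mul_cancel₀ h0, map_one, sub_self]
  rw [Ideal.eq_top_iff_one, ← sub_add_cancel 1 (u * x)]
  exact add_mem (le_maximalIdeal (RingHom.ker_ne_top ψ) this) (Ideal.mul_mem_left _ _ e)

end LinkA

open LinkA in
theorem link (hB : S_basic) (hL : S_ls) (hK : S_linkl) (hJ : S_jac) (hG : S_log) (hD : S_der)
    (hV : S_val) : S_link := by
  intro O Q L ι κ _ _ _ _ _ _ _ _ _ _ j z hn hfr hz hci hht hgg hj 𝔓 h𝔓 hc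
  obtain ⟨j', hDD, hφ, hX, hd⟩ := hD.jloc j 𝔓 hc.1.le
  have h : ∀ g, j'.ρ (algebraMap Q _ g) = j.ρ g := hφ
  have hl : ∀ {γ : L}, loc j.ρ 𝔓 γ ↔ ∃ v, j'.φ v = γ := loc_iff 𝔓 h
  have : j'.J.IsPrime := RingHom.ker_isPrime _
  have hht' : j'.J.height = Fintype.card κ := by
    rw [← IsLocalization.height_under 𝔓.primeCompl, under_ker h, hht]
  obtain ⟨f, ϖ, hf, hm, hϖ, hdim⟩ := hL _ κ j'.J (hV.quot j'.ρ (hV.locN 𝔓.primeCompl j'.ρ
    fun θ hθ => by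
      rw [show j'.ρ.comp (algebraMap Q _) = j.ρ from RingHom.ext h] at hθ
      obtain ⟨g, e⟩ := hn θ hθ
      exact ⟨g, (h g).trans e⟩) (covers h hc)) hht'
  have hf0 : ∀ k, j'.φ (f k) = 0 := fun k =>
    RingHom.mem_ker.mp (hf.le (Ideal.subset_span ⟨k, rfl⟩))
  have hM : ∀ k, ∃ c : κ → Localization.AtPrime 𝔓, ∑ i, c i * f i = algebraMap Q _ (z k) :=
    fun k => Ideal.mem_span_range_iff_exists_fun.mp (hf.ge ((h _).trans (hz k)))
  choose M hM using hM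
  have hMf : Matrix.mulVec (Matrix.of M) f = algebraMap Q _ ∘ z := funext hM
  have hsp : sp (Matrix.mulVec (Matrix.of M) f) = (sp z).map (algebraMap Q _) := by
    rw [hMf, Ideal.map_span, ← Set.range_comp]
  obtain ⟨k1, -, k3⟩ := hK _ κ f ϖ (Matrix.of M) (hf ▸ this) (hf ▸ hht') (hf ▸ hm) (hf ▸ hϖ) hdim
    (hsp ▸ hB.ciLoc 𝔓.primeCompl hci) (hsp ▸ hf ▸ genGen 𝔓 h hgg)
  rw [hsp, hf] at k1 k3
  have hjac : j.jac z = j'.φ (Matrix.of M).det * j'.jac f := by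
    rw [← hJ.mul j' f _ hf0, hMf, Jet.jac, Jet.jac, ← hφ, RingHom.map_det]
    exact congrArg (fun N => j'.φ (Matrix.det N)) (Matrix.ext fun k l => (hd _ _).symm)
  have hfr' : ∀ γ : L, ∃ a b, j'.φ b ≠ 0 ∧ γ * j'.φ b = j'.φ a := fun γ => by
    obtain ⟨a, b, h1, h2⟩ := hfr γ
    exact ⟨algebraMap Q _ a, algebraMap Q _ b, by rwa [hφ], by rwa [hφ, hφ]⟩
  have hPm : ∀ a ∈ 𝔓, algebraMap Q (Localization.AtPrime 𝔓) a ∈ maximalIdeal _ := fun a ha =>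
    (IsLocalization.AtPrime.to_map_mem_maximal_iff _ 𝔓 a).mpr ha
  refine ⟨j'.jac f, right_ne_zero_of_mul (hjac ▸ hj), fun θ hθ => ?_, fun w hw => ?_,
    fun g => ?_, fun π h1 h2 γ hγ => ?_, fun g b₀ a ha h0 => ?_, fun y hy H => ?_⟩
  · obtain ⟨v, e⟩ := hl.mp hθ
    obtain ⟨s, h1, w, h2, h3⟩ := col_down 𝔓 h (Ideal.mul_mem_left _ v k1)
    refine ⟨s, h1, w, h2, Eq.trans ?_ h3⟩
    change _ = j.φ s * j'.φ _
    rw [map_mul, e, hjac]
    ring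
  · obtain ⟨v, e⟩ := k3 _ (col_up 𝔓 h hw)
    have e' : j'.φ (algebraMap Q _ w - v * (Matrix.of M).det) = 0 := e
    rw [map_sub, map_mul, hφ, sub_eq_zero] at e'
    refine hl.mpr ⟨v, ?_⟩
    rw [div_mul_eq_mul_div, eq_div_iff hj, e', hjac]
    ring
  · refine hl.mpr ⟨_, (hJ.block j' (fun b => algebraMap Q _ (g b)) f hf0).trans ?_⟩
    simp only [hφ, hDD]
  · rw [← hDD]
    refine hl.mpr (hG.vert j' f ϖ π hf hm hϖ hfr' ?_ ?_ γ hγ) <;>
      rw [IsScalarTower.algebraMap_apply O Q]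
    · exact hPm _ h1
    · rw [← Localization.AtPrime.map_eq_maximalIdeal, ← Ideal.map_pow,
        IsLocalization.algebraMap_mem_map_algebraMap_iff 𝔓.primeCompl]
      exact fun ⟨s, h3, h4⟩ => h2 s h3 h4
  · obtain ⟨u, e⟩ := hG.pole j' f ϖ hf hm hϖ (fun b => algebraMap Q _ (g b)) b₀ (by rwa [hφ])
    obtain ⟨x, hx, t, ht, e'⟩ := Submodule.mem_sup.mp (hm.ge (hPm a ha))
    obtain ⟨t, rfl⟩ := Ideal.mem_span_singleton'.mp ht
    have hx' : j'.φ x = 0 := hx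
    simp only [hφ, hDD] at e
    refine hl.mpr ⟨t * u, ?_⟩
    rw [div_mul_eq_mul_div, eq_div_iff h0, ← hφ a, ← e', map_add, hx', map_mul, map_mul,
      mul_assoc, e]
    ring
  · choose y' hy' using fun b => hl.mp (hy b)
    obtain rfl : (fun b => j'.φ (y' b)) = y := funext hy'
    obtain ⟨v, ⟨v, rfl⟩, e⟩ := hJ.unit j' f y' hf fun i => by
      obtain ⟨F, G, h1, h2, h3⟩ := H i
      obtain ⟨u, hu⟩ := hl.mp h2
      rw [← comp_aeval_apply] at h1 hu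
      rw [← comp_aeval_apply, ← comp_aeval_apply] at h3
      exact ⟨F, G, isUnit_of (ψ := j'.ρ) h1 hu, by rw [map_sub, map_mul, hX, hφ, h3, sub_self]⟩
    rw [← hDD, ← e]
    exact ⟨left_ne_zero_of_mul (e ▸ (v.isUnit.map j'.φ).ne_zero),
      hl.mpr ⟨(v⁻¹ : (Localization.AtPrime 𝔓)ˣ), map_units_inv _ _⟩⟩

end Pool.Agent.P.MP_e7d440_ag
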