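import Pool.Agent.P.MP_e7d440_ag.Iface

/-! The condition `LogCY` passes to localizations at primes. -/

namespace Pool.Agent.P.MP_e7d440_ag

open MvPolynomial

namespace LocyA

lemma loc_up {C A K : Type} [CommRing C] [CommRing A] [Field K] [Algebra C A] [Algebra C K]
    [Algebra A K] [IsScalarTower C A K] {𝔮 : Ideal A} {γ : K}
    (h : loc (algebraMap C K) (𝔮.under C) γ) : loc (algebraMap A K) 𝔮 γ := by
  obtain ⟨a, b, hb, e⟩ := h
  refine ⟨algebraMap C A a, algebraMap C A b, hb, ?_⟩
  rw [← IsScalarTower.algebraMap_apply, ← IsScalarTower.algebraMap_apply, e]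

end LocyA

theorem locy : S_locy := by
  intro O C K _ _ _ _ _ _ _ _ π 𝔭 _ _ _ h
  obtain ⟨σ, _, _, D, x, g, hg, hw, hh, ⟨N, r, hr⟩, hv⟩ := h
  have hx : (fun a => algebraMap (Localization.AtPrime 𝔭) K (algebraMap C _ (x a))) =
      fun a => algebraMap C K (x a) :=
    funext fun a => (IsScalarTower.algebraMap_apply _ _ _ _).symm
  have hae : ∀ G : MvPolynomial σ O,
      aeval (fun a => algebraMap C (Localization.AtPrime 𝔭) (x a)) G =
        algebraMap C (Localization.AtPrime 𝔭) (aeval x G) := fun G =>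
    aeval_algebraMap_apply _ x G
  refine ⟨σ, inferInstance, inferInstance, D, fun a => algebraMap C _ (x a), g, hg, ?_, ?_, ?_, ?_⟩
  · rw [hx]; exact hw
  · intro a
    obtain ⟨⟨c, s⟩, rfl⟩ := IsLocalization.mk'_surjective 𝔭.primeCompl a
    obtain ⟨F1, G1, N1, b1, e1, f1⟩ := hh c
    obtain ⟨F2, G2, N2, b2, e2, f2⟩ := hh s
    refine ⟨F1 * G2, F2 * G1, N1 + N2, IsLocalization.mk' _ (b1 * b2) s, ?_, ?_⟩
    · have h1 := IsLocalization.mk'_spec (Localization.AtPrime 𝔭) c s
      simp only [hae, map_mul, ← e1, ← e2]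
      linear_combination (algebraMap C (Localization.AtPrime 𝔭) (aeval x G1) *
        algebraMap C (Localization.AtPrime 𝔭) (aeval x G2)) * h1
    · have h1 := IsLocalization.mk'_spec (Localization.AtPrime 𝔭) (b1 * b2) s
      rw [IsScalarTower.algebraMap_apply O C (Localization.AtPrime 𝔭), ← map_pow, pow_add, ← f1,
        ← f2]
      simp only [hae, map_mul, ← e2] at h1 ⊢
      linear_combination (algebraMap C (Localization.AtPrime 𝔭) (aeval x G1) *
        algebraMap C (Localization.AtPrime 𝔭) (aeval x G2)) * h1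
  · refine ⟨N, algebraMap C _ r, ?_⟩
    rw [hx, ← IsScalarTower.algebraMap_apply]
    exact hr
  · intro 𝔮 hq h1 hπ
    have hq' : (𝔮.under C).IsPrime := inferInstance
    have h1' : (𝔮.under C).height = 1 := by
      rw [← h1]; exact IsLocalization.height_under 𝔭.primeCompl 𝔮
    have hπ' : algebraMap O C π ∈ 𝔮.under C := by
      rw [Ideal.under_def, Ideal.mem_comap, ← IsScalarTower.algebraMap_apply]
      exact hπ
    obtain ⟨y, hy, hF, t, ht, ht'⟩ := hv _ hq' h1' hπ'
    refine ⟨y, fun b => LocyA.loc_up (hy b), ?_, t, LocyA.loc_up ht, ht'⟩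
    intro a
    obtain ⟨⟨c, s⟩, rfl⟩ := IsLocalization.mk'_surjective 𝔭.primeCompl a
    obtain ⟨F1, G1, n1, l1, e1⟩ := hF c
    obtain ⟨F2, G2, n2, l2, e2⟩ := hF s
    have h2 : algebraMap (Localization.AtPrime 𝔭) K (IsLocalization.mk' _ (1 : C) s) *
        algebraMap C K s = 1 := by
      rw [IsScalarTower.algebraMap_apply C (Localization.AtPrime 𝔭) K, ← map_mul,
        IsLocalization.mk'_spec, map_one, map_one]
    have h3 : algebraMap (Localization.AtPrime 𝔭) K (IsLocalization.mk' _ c s) *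
        algebraMap C K s = algebraMap C K c := by
      rw [IsScalarTower.algebraMap_apply C (Localization.AtPrime 𝔭) K, ← map_mul,
        IsLocalization.mk'_spec, ← IsScalarTower.algebraMap_apply]
    have h4 : algebraMap C K s ≠ 0 := right_ne_zero_of_mul_eq_one h2
    refine ⟨F1 * G2, F2 * G1, ?_, ?_, ?_⟩
    · rw [map_mul, ← e2]
      exact mul_ne_zero (mul_ne_zero h4 n2) n1
    · rw [map_mul, ← e2, mul_inv, mul_inv, ← eq_inv_of_mul_eq_one_left h2]
      exact ((loc_map _ hq _).mul hq (LocyA.loc_up l2)).mul hq (LocyA.loc_up l1)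
    · rw [map_mul, map_mul, ← e2, ← e1]
      linear_combination (aeval y G1 * aeval y G2) * h3

end Pool.Agent.P.MP_e7d440_ag
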