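import Pool.Agent.P.MP_e7d440_ag.Iface

/-! Logarithmic forms along a discrete valuation. -/

namespace Pool.Agent.P.MP_e7d440_ag

open IsLocalRing

namespace LogA

variable {O Q L ι κ : Type} [CommRing O] [CommRing Q] [IsLocalRing Q] [Field L] [Algebra O Q]
  [Algebra O L] [Fintype ι] [Fintype κ] [DecidableEq ι] [DecidableEq κ]

theorem of_mem_max (j : Jet O Q L ι κ) {ϖ : Q} (hm : j.J ⊔ Ideal.span {ϖ} = maximalIdeal Q)
    {c : Q} (hc : c ∈ maximalIdeal Q) : ∃ t, j.φ c = j.φ t * j.φ ϖ := by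
  rw [← hm] at hc
  obtain ⟨y, hy, z, hz, rfl⟩ := Submodule.mem_sup.1 hc
  obtain ⟨t, rfl⟩ := Ideal.mem_span_singleton'.1 hz
  have hy0 : j.φ y = 0 := hy
  exact ⟨t, by rw [map_add, hy0, zero_add, map_mul]⟩

theorem normal_form [IsNoetherianRing Q] (j : Jet O Q L ι κ) {ϖ : Q}
    (hm : j.J ⊔ Ideal.span {ϖ} = maximalIdeal Q) {a : Q} (ha : j.φ a ≠ 0) :
    ∃ (u : Qˣ) (n : ℕ), j.φ a = j.φ u * j.φ ϖ ^ n := by
  by_contra hcon
  push Not at hcon
  have h1 : ∀ n : ℕ, ∃ c, j.φ a = j.φ c * j.φ ϖ ^ n := by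
    intro n
    induction n with
    | zero => exact ⟨a, by simp⟩
    | succ n ih =>
      obtain ⟨c, hc⟩ := ih
      have hcm : c ∈ maximalIdeal Q := by
        rw [mem_maximalIdeal, mem_nonunits_iff]
        rintro ⟨u, rfl⟩
        exact hcon u n hc
      obtain ⟨t, ht⟩ := of_mem_max j hm hcm
      exact ⟨t, by rw [hc, ht]; ring⟩
  have hϖ : ϖ ∈ maximalIdeal Q := by
    rw [← hm]
    exact Ideal.mem_sup_right (Ideal.mem_span_singleton_self ϖ)
  have h2 := Ideal.iInf_pow_smul_eq_bot_of_isLocalRing (M := Q ⧸ j.J) (maximalIdeal Q)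
    (maximalIdeal.isMaximal Q).ne_top
  have h3 : Ideal.Quotient.mk j.J a ∈
      ⨅ n : ℕ, (maximalIdeal Q ^ n • ⊤ : Submodule Q (Q ⧸ j.J)) := by
    rw [Submodule.mem_iInf]
    intro n
    obtain ⟨c, hc⟩ := h1 n
    have : Ideal.Quotient.mk j.J a = ϖ ^ n • Ideal.Quotient.mk j.J c := by
      rw [Algebra.smul_def, Ideal.Quotient.algebraMap_eq, ← map_mul, Ideal.Quotient.eq]
      change j.φ (a - ϖ ^ n * c) = 0
      rw [map_sub, map_mul, map_pow, hc]
      ring
    rw [this]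
    exact Submodule.smul_mem_smul (Ideal.pow_mem_pow hϖ n) Submodule.mem_top
  rw [h2, Submodule.mem_bot, Ideal.Quotient.eq_zero_iff_mem] at h3
  exact ha h3

theorem key (j : Jet O Q L ι κ) (f : κ → Q) (ϖ : Q) (π : O) (hf : sp f = j.J)
    (hm : j.J ⊔ Ideal.span {ϖ} = maximalIdeal Q) (hπ : algebraMap O Q π ∈ maximalIdeal Q)
    (hπ2 : algebraMap O Q π ∉ maximalIdeal Q ^ 2) (g : ι → Q) (b₀ : ι) (hg : g b₀ = ϖ) :
    (Matrix.of fun p q => j.d q (Sum.elim g f p)).det ∈ maximalIdeal Q := by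
  have hϖ : ϖ ∈ maximalIdeal Q := by
    rw [← hm]
    exact Ideal.mem_sup_right (Ideal.mem_span_singleton_self ϖ)
  have hfm : ∀ k, f k ∈ maximalIdeal Q := by
    intro k
    rw [← hm, ← hf]
    exact Ideal.mem_sup_left (Ideal.subset_span ⟨k, rfl⟩)
  have hπ' := hπ
  rw [← hm, ← hf] at hπ'
  obtain ⟨y, hy, z, hz, hyz⟩ := Submodule.mem_sup.1 hπ'
  obtain ⟨b, rfl⟩ := Ideal.mem_span_singleton'.1 hz
  obtain ⟨a, rfl⟩ := Ideal.mem_span_range_iff_exists_fun.1 hy
  rw [← residue_eq_zero_iff, RingHom.map_det, ← Matrix.exists_vecMul_eq_zero_iff]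
  refine ⟨fun p => residue Q (Sum.elim (Pi.single b₀ b) a p), fun h0 => hπ2 ?_, ?_⟩
  · have hb : b ∈ maximalIdeal Q := by
      have := congrFun h0 (Sum.inl b₀)
      simpa [residue_eq_zero_iff] using this
    have ha : ∀ k, a k ∈ maximalIdeal Q := by
      intro k
      have := congrFun h0 (Sum.inr k)
      simpa [residue_eq_zero_iff] using this
    rw [← hyz, sq]
    exact Ideal.add_mem _ (Ideal.sum_mem _ fun k _ => Ideal.mul_mem_mul (ha k) (hfm k))
      (Ideal.mul_mem_mul hb hϖ)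
  · funext q
    have h1 : j.d q (∑ k, a k * f k + b * ϖ) = 0 := by
      rw [hyz, Derivation.map_algebraMap]
    have h2 : b * j.d q ϖ + ∑ k, a k * j.d q (f k) =
        -(ϖ * j.d q b + ∑ k, f k * j.d q (a k)) := by
      simp only [map_add, map_sum, Derivation.leibniz, smul_eq_mul, Finset.sum_add_distrib] at h1
      linear_combination h1
    have h3 : b * j.d q ϖ + ∑ k, a k * j.d q (f k) ∈ maximalIdeal Q := by
      rw [h2]
      exact neg_mem (Ideal.add_mem _ (Ideal.mul_mem_right _ _ hϖ)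
        (Ideal.sum_mem _ fun k _ => Ideal.mul_mem_right _ _ (hfm k)))
    rw [← residue_eq_zero_iff] at h3
    simp only [Matrix.vecMul, dotProduct, RingHom.mapMatrix_apply, Matrix.map_apply,
      Matrix.of_apply, Fintype.sum_sum_type, Sum.elim_inl, Sum.elim_inr, Pi.zero_apply,
      ← map_mul, ← map_sum, ← map_add]
    rw [← h3]
    congr 2
    rw [Finset.sum_eq_single b₀]
    · simp [hg]
    · intro i _ hi
      simp [hi]
    · simp

omit [IsLocalRing Q] in
theorem phi_f (j : Jet O Q L ι κ) {f : κ → Q} (hf : sp f = j.J) (k : κ) : j.φ (f k) = 0 := by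
  have : f k ∈ j.J := by
    rw [← hf]
    exact Ideal.subset_span ⟨k, rfl⟩
  exact this

omit [IsLocalRing Q] in
theorem phi_unit_inv (j : Jet O Q L ι κ) (u : Qˣ) : j.φ (u⁻¹ : Qˣ) = (j.φ u)⁻¹ := by
  apply eq_inv_of_mul_eq_one_left
  rw [← map_mul, Units.inv_mul, map_one]

theorem basic (hJ : S_jac) (j : Jet O Q L ι κ) (f : κ → Q) (ϖ : Q) (π : O) (hf : sp f = j.J)
    (hm : j.J ⊔ Ideal.span {ϖ} = maximalIdeal Q) (hϖ : ϖ ∉ j.J)
    (hπ : algebraMap O Q π ∈ maximalIdeal Q) (hπ2 : algebraMap O Q π ∉ maximalIdeal Q ^ 2)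
    (g : ι → Q) (hg : ∀ b, IsUnit (g b) ∨ g b = ϖ) :
    lwr j.D (fun b => j.φ (g b)) * j.jac f ∈ j.φ.range := by
  have hW : j.φ ϖ ≠ 0 := hϖ
  have hb := hJ.block j g f (phi_f j hf)
  by_cases h2 : ∃ b₁ b₂, b₁ ≠ b₂ ∧ g b₁ = ϖ ∧ g b₂ = ϖ
  · obtain ⟨b₁, b₂, hne, e₁, e₂⟩ := h2
    have : lwr j.D (fun b => j.φ (g b)) = 0 := by
      refine Matrix.det_zero_of_row_eq hne ?_
      funext a
      simp [e₁, e₂]
    rw [this, zero_mul]
    exact zero_mem _
  rw [hJ.lwr_eq, div_mul_eq_mul_div, ← hb]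
  by_cases h1 : ∃ b₀, g b₀ = ϖ
  · obtain ⟨b₀, e₀⟩ := h1
    obtain ⟨t, ht⟩ := of_mem_max j hm (key j f ϖ π hf hm hπ hπ2 g b₀ e₀)
    have hu : IsUnit (∏ b ∈ Finset.univ.erase b₀, g b) := by
      refine IsUnit.prod_iff.2 fun b hb => (hg b).resolve_right fun e => h2 ?_
      exact ⟨b, b₀, (Finset.mem_erase.1 hb).1, e, e₀⟩
    obtain ⟨u, hu⟩ := hu
    rw [ht, ← map_prod, ← Finset.mul_prod_erase _ _ (Finset.mem_univ b₀), e₀, ← hu, map_mul]
    refine ⟨t * (u⁻¹ : Qˣ), ?_⟩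
    change j.φ (t * (u⁻¹ : Qˣ)) = _
    rw [map_mul, phi_unit_inv]
    field_simp
  · have hu : IsUnit (∏ b, g b) :=
      IsUnit.prod_iff.2 fun b _ => (hg b).resolve_right fun e => h1 ⟨b, e⟩
    obtain ⟨u, hu⟩ := hu
    rw [← map_prod, ← hu, div_eq_mul_inv, ← phi_unit_inv, ← map_mul]
    exact ⟨_, rfl⟩

omit [IsLocalRing Q] [Algebra O Q] [Fintype ι] [Fintype κ] [DecidableEq ι] [DecidableEq κ] in
theorem dlog (D : Derivation O L L) {γ u v W : L} {n k : ℕ} (hγ : γ ≠ 0) (hu : u ≠ 0)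
    (hv : v ≠ 0) (hW : W ≠ 0) (h : γ * (v * W ^ k) = u * W ^ n) :
    D γ / γ = D (u * v⁻¹) / (u * v⁻¹) + ((n : L) - k) * (D W / W) := by
  have h1 : γ = u * v⁻¹ * W ^ ((n : ℤ) - k) := by
    rw [zpow_sub₀ hW, zpow_natCast, zpow_natCast]
    field_simp
    linear_combination h
  have h2 : u * v⁻¹ ≠ 0 := mul_ne_zero hu (inv_ne_zero hv)
  generalize u * v⁻¹ = y at h1 h2
  subst h1
  rw [Derivation.leibniz, Derivation.leibniz_zpow, zpow_sub_one₀ hW]
  have h3 : W ^ ((n : ℤ) - k) ≠ 0 := zpow_ne_zero _ hW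
  simp only [smul_eq_mul, zsmul_eq_mul, Int.cast_sub, Int.cast_natCast]
  field_simp
  ring

end LogA

open LogA in
theorem logs (hJ : S_jac) : S_log := by
  constructor
  · intro O Q L ι κ _ _ _ _ _ _ _ _ _ _ _ j f ϖ π hf hm hϖ hfr hπ hπ2 γ hγ
    have hW : j.φ ϖ ≠ 0 := hϖ
    have hu0 : ∀ u : Qˣ, j.φ u ≠ 0 := fun u => (u.isUnit.map j.φ).ne_zero
    have h1 : ∀ b, ∃ (u : Qˣ) (e : ℤ), ∀ a,
        j.D a (γ b) / γ b = j.D a (j.φ u) / j.φ u + (e : L) * (j.D a (j.φ ϖ) / j.φ ϖ) := by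
      intro b
      obtain ⟨p, q, hq, hpq⟩ := hfr (γ b)
      have hp : j.φ p ≠ 0 := by
        rw [← hpq]
        exact mul_ne_zero (hγ b) hq
      obtain ⟨u, n, hu⟩ := normal_form j hm hp
      obtain ⟨v, k, hv⟩ := normal_form j hm hq
      refine ⟨u * v⁻¹, (n : ℤ) - k, fun a => ?_⟩
      rw [hu, hv] at hpq
      rw [dlog (j.D a) (hγ b) (hu0 u) (hu0 v) hW hpq, Units.val_mul, map_mul j.φ, phi_unit_inv]
      push_cast
      rfl
    choose u e hue using h1
    let A : ι → ι → L := fun b a => j.D a (j.φ (u b)) / j.φ (u b)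
    let w : ι → L := fun a => j.D a (j.φ ϖ) / j.φ ϖ
    let B : ι → ι → L := fun b => (e b : L) • w
    let F := (Matrix.detRowAlternating (n := ι) (R := L)).toMultilinearMap
    have h2 : lwr j.D γ = F (A + B) := by
      have : (A + B) = fun b a => j.D a (γ b) / γ b := by
        funext b a
        rw [hue]
        rfl
      rw [this]
      rfl
    change lwr j.D γ * j.jac f ∈ j.φ.range
    rw [h2, F.map_add_univ, Finset.sum_mul]
    refine sum_mem fun s _ => ?_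
    have h3 : s.piecewise A B = fun b => (((if b ∈ s then 1 else e b : ℤ) : L)) •
        fun a => j.D a (j.φ (s.piecewise (fun b => (u b : Q)) (fun _ => ϖ) b)) /
          j.φ (s.piecewise (fun b => (u b : Q)) (fun _ => ϖ) b) := by
      funext b
      by_cases hb : b ∈ s
      · simp [hb, A]
      · simp [hb, B, w]
    rw [h3, F.map_smul_univ, smul_mul_assoc, smul_eq_mul]
    refine mul_mem (prod_mem fun b _ => intCast_mem _ _) ?_
    refine basic hJ j f ϖ π hf hm hϖ hπ hπ2 (s.piecewise (fun b => (u b : Q)) (fun _ => ϖ)) ?_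
    intro b
    by_cases hb : b ∈ s
    · left
      simp [hb]
    · right
      simp [hb]
  · intro O Q L ι κ _ _ _ _ _ _ _ _ _ _ _ j f ϖ hf hm hϖ g b₀ hg
    obtain ⟨u, n, hu⟩ := normal_form j hm hg
    have hu0 : j.φ u ≠ 0 := (u.isUnit.map j.φ).ne_zero
    let M : Matrix ι ι L := Matrix.of fun b a => j.D a (j.φ (g b))
    have h1 : ∀ c : Q, wr j.D (fun b => j.φ (Function.update g b₀ c b)) =
        (M.updateRow b₀ fun a => j.D a (j.φ c)).det := by
      intro c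
      unfold wr
      congr 1
      ext b a
      by_cases hb : b = b₀
      · subst hb
        simp
      · simp [M, hb]
    have h2 : j.φ ϖ • M b₀ = (j.φ (g b₀) * n) • (fun a => j.D a (j.φ ϖ)) +
        (j.φ (g b₀) * j.φ ϖ * (j.φ u)⁻¹) • fun a => j.D a (j.φ u) := by
      funext a
      simp only [M, Pi.smul_apply, Pi.add_apply, Matrix.of_apply, smul_eq_mul, hu,
        Derivation.leibniz, Derivation.leibniz_pow, nsmul_eq_mul]
      rcases n with _ | n
      · simp only [Nat.cast_zero, zero_mul, mul_zero, pow_zero]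
        field_simp
        ring
      · simp only [Nat.add_sub_cancel]
        field_simp
        ring
    have h3 : j.φ ϖ * wr j.D (fun b => j.φ (g b)) =
        j.φ (g b₀) * n * wr j.D (fun b => j.φ (Function.update g b₀ ϖ b)) +
        j.φ (g b₀) * j.φ ϖ * (j.φ u)⁻¹ * wr j.D (fun b => j.φ (Function.update g b₀ u b)) := by
      rw [h1, h1, ← Matrix.det_updateRow_smul, ← Matrix.det_updateRow_smul,
        ← Matrix.det_updateRow_add, ← h2, Matrix.det_updateRow_smul, Matrix.updateRow_eq_self]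
      rfl
    have h4 := hJ.block j (Function.update g b₀ ϖ) f (phi_f j hf)
    have h5 := hJ.block j (Function.update g b₀ u) f (phi_f j hf)
    refine ⟨n * (Matrix.of fun p q => j.d q (Sum.elim (Function.update g b₀ ϖ) f p)).det +
      ϖ * (u⁻¹ : Qˣ) * (Matrix.of fun p q => j.d q (Sum.elim (Function.update g b₀ u) f p)).det,
      ?_⟩
    rw [h3, map_add, map_mul, map_mul, map_mul, h4, h5, phi_unit_inv, map_natCast]
    ring

end Pool.Agent.P.MP_e7d440_ag
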