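import Pool.Agent.P.MP_e7d440_ag.Iface

/-! Regular local rings with a discrete valuation ring as quotient, and local linkage. -/

namespace Pool.Agent.P.MP_e7d440_ag

open IsLocalRing

namespace LsA

/-- A generating set of the maximal ideal contains a minimal one. -/
theorem extract {R : Type} [CommRing R] [IsLocalRing R] [IsNoetherianRing R] (S : Set R)
    (hS : Ideal.span S = maximalIdeal R) :
    ∃ t : Finset R, (t : Set R) ⊆ S ∧ Ideal.span (t : Set R) = maximalIdeal R ∧
      t.card ≤ Module.finrank (ResidueField R) (CotangentSpace R) := by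
  classical
  have hm : ∀ s : S, (s : R) ∈ maximalIdeal R := fun s => hS ▸ Ideal.subset_span s.2
  let u : S → maximalIdeal R := fun s => ⟨s, hm s⟩
  let v : S → CotangentSpace R := fun s => (maximalIdeal R).toCotangent (u s)
  have key : ∀ {κ : Type} (a : κ → S),
      Submodule.span (ResidueField R) (Set.range (v ∘ a)) = ⊤ ↔
        Ideal.span (Set.range fun k => (a k : R)) = maximalIdeal R := by
    intro κ a
    have h1 : Set.range (v ∘ a) = (maximalIdeal R).toCotangent '' Set.range (u ∘ a) := by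
      rw [← Set.range_comp]; rfl
    rw [h1, CotangentSpace.span_image_eq_top_iff,
      ← (Submodule.map_injective_of_injective (Submodule.injective_subtype _)).eq_iff,
      Submodule.map_span, Submodule.map_top, Submodule.range_subtype, ← Set.range_comp]
    rfl
  obtain ⟨κ, a, -, hsp, hli⟩ := exists_linearIndependent' (ResidueField R) v
  have hfin : Finite κ := hli.finite
  let _ := Fintype.ofFinite κ
  have htop : Submodule.span (ResidueField R) (Set.range (v ∘ a)) = ⊤ := by
    rw [hsp]
    exact (key id).2 (by simpa using hS)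
  refine ⟨Finset.univ.image fun k => (a k : R), ?_, ?_, ?_⟩
  · intro x hx
    simp only [Finset.coe_image, Finset.coe_univ, Set.image_univ, Set.mem_range] at hx
    obtain ⟨k, rfl⟩ := hx
    exact (a k).2
  · rw [Finset.coe_image, Finset.coe_univ, Set.image_univ]
    exact (key a).1 htop
  · exact Finset.card_image_le.trans hli.fintype_card_le_finrank

/-- A prime below a maximal ideal that is principal modulo `P` equals `P`. -/
theorem le_of_sup {R : Type} [CommRing R] [IsLocalRing R] [IsNoetherianRing R] {P J : Ideal R}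
    (hJ : J.IsPrime) {w : R} (hP : P ≤ J) (hm : P ⊔ Ideal.span {w} = maximalIdeal R)
    (hw : w ∉ J) : J ≤ P := by
  refine Submodule.le_of_le_smul_of_le_jacobson_bot (I := maximalIdeal R)
    (IsNoetherian.noetherian J) (jacobson_eq_maximalIdeal _ bot_ne_top).ge fun x hx => ?_
  have h1 : x ∈ P ⊔ Ideal.span {w} := hm ▸ le_maximalIdeal hJ.ne_top hx
  obtain ⟨p, hp, q, hq, rfl⟩ := Submodule.mem_sup.1 h1
  obtain ⟨t, rfl⟩ := Ideal.mem_span_singleton'.1 hq
  have h2 : t * w ∈ J := by simpa using J.sub_mem hx (hP hp)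
  have h3 : t ∈ J := (hJ.mem_or_mem h2).resolve_right hw
  refine Submodule.add_mem_sup hp ?_
  rw [mul_comm]
  exact Submodule.smul_mem_smul (hm ▸ Ideal.mem_sup_right (Ideal.subset_span rfl)) h3

theorem det_mul_mem {R κ : Type} [CommRing R] [Fintype κ] [DecidableEq κ] (f : κ → R)
    (M : Matrix κ κ R) : M.det ∈ col (sp (M.mulVec f)) (sp f) := by
  rw [mem_col]
  intro g hg
  induction hg using Submodule.span_induction with
  | mem x hx =>
    obtain ⟨k, rfl⟩ := hx
    have h1 : M.det * f k = (M.adjugate.mulVec (M.mulVec f)) k := by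
      rw [Matrix.mulVec_mulVec, Matrix.adjugate_mul]
      simp [Matrix.smul_mulVec]
    rw [h1, Matrix.mulVec, dotProduct]
    exact Ideal.sum_mem _ fun l _ => Ideal.mul_mem_left _ _ (Ideal.subset_span ⟨l, rfl⟩)
  | zero => simp
  | add x y _ _ h1 h2 => rw [mul_add]; exact add_mem h1 h2
  | smul c x _ h1 =>
    rw [smul_eq_mul, mul_left_comm]; exact Ideal.mul_mem_left _ _ h1

theorem sp_elim {R κ : Type} [CommRing R] (z : κ → R) (w : R) :
    sp (Sum.elim z fun _ : Unit => w) = sp z ⊔ Ideal.span {w} := by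
  rw [sp, Set.Sum.elim_range, Ideal.span_union, Set.range_const]

/-- The quotient by `J` is a valuation ring. -/
theorem val {R : Type} [CommRing R] [IsLocalRing R] [IsNoetherianRing R] {J : Ideal R}
    (hJ : J.IsPrime) {w : R} (hm : J ⊔ Ideal.span {w} = maximalIdeal R) (a b : R) :
    (∃ v, a - v * b ∈ J) ∨ ∃ v ∈ maximalIdeal R, b - v * a ∈ J := by
  have := IsLocalRing.of_surjective' (Ideal.Quotient.mk J) Ideal.Quotient.mk_surjective
  have hloc : IsLocalHom (Ideal.Quotient.mk J) :=
    IsLocalHom.of_surjective _ Ideal.Quotient.mk_surjective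
  have hpr : (maximalIdeal (R ⧸ J)).IsPrincipal := by
    refine ⟨Ideal.Quotient.mk J w, le_antisymm (fun x hx => ?_) ?_⟩
    · obtain ⟨x, rfl⟩ := Ideal.Quotient.mk_surjective x
      have h1 : x ∈ J ⊔ Ideal.span {w} := by
        rw [hm]
        exact fun hu => hx (hu.map _)
      obtain ⟨p, hp, q, hq, rfl⟩ := Submodule.mem_sup.1 h1
      obtain ⟨t, rfl⟩ := Ideal.mem_span_singleton'.1 hq
      rw [map_add, Ideal.Quotient.eq_zero_iff_mem.2 hp, zero_add, map_mul]
      exact Ideal.mul_mem_left _ _ (Ideal.subset_span rfl)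
    · rw [Submodule.span_le, Set.singleton_subset_iff]
      have h1 : w ∈ maximalIdeal R := hm ▸ Ideal.mem_sup_right (Ideal.subset_span rfl)
      exact fun hu => h1 ((isUnit_map_iff _ _).1 hu)
  have hv : ValuationRing (R ⧸ J) :=
    ((tfae_of_isNoetherianRing_of_isLocalRing_of_isDomain (R ⧸ J)).out 4 1).1 hpr
  obtain ⟨c, hc⟩ := ValuationRing.cond (Ideal.Quotient.mk J b) (Ideal.Quotient.mk J a)
  obtain ⟨c, rfl⟩ := Ideal.Quotient.mk_surjective c
  rcases hc with hc | hc
  · refine Or.inl ⟨c, Ideal.Quotient.eq.1 ?_⟩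
    rw [← hc, map_mul, mul_comm]
  · have h1 : b - c * a ∈ J := Ideal.Quotient.eq.1 (by rw [← hc, map_mul, mul_comm])
    by_cases hu : IsUnit c
    · obtain ⟨d, hd⟩ := hu.exists_left_inv
      refine Or.inl ⟨d, ?_⟩
      have h2 : a - d * b = -d * (b - c * a) := by linear_combination (-a) * hd
      rw [h2]
      exact J.mul_mem_left _ h1
    · exact Or.inr ⟨c, hu, h1⟩

end LsA

theorem ls (hB : S_basic) (hR : S_reg) (hC : S_cm) : S_ls := by
  intro R κ _ _ _ J hJ hD hht
  classical
  obtain ⟨π, hπ⟩ := IsDiscreteValuationRing.exists_irreducible (R ⧸ J)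
  obtain ⟨w, rfl⟩ := Ideal.Quotient.mk_surjective π
  have hwJ : w ∉ J := fun h => hπ.ne_zero (Ideal.Quotient.eq_zero_iff_mem.2 h)
  have hm : J ⊔ Ideal.span {w} = maximalIdeal R := by
    have h1 : (maximalIdeal (R ⧸ J)).comap (Ideal.Quotient.mk J) = maximalIdeal R :=
      eq_maximalIdeal (Ideal.comap_isMaximal_of_surjective _ Ideal.Quotient.mk_surjective)
    rw [← h1, hπ.maximalIdeal_eq, ← Set.image_singleton, ← Ideal.map_span,
      Ideal.comap_map_of_surjective _ Ideal.Quotient.mk_surjective, ← RingHom.ker_eq_comap_bot,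
      Ideal.mk_ker, sup_comm]
  obtain ⟨t, htS, ht, hcard⟩ := LsA.extract ((J : Set R) ∪ {w})
    (by rw [Ideal.span_union, Ideal.span_eq, hm])
  have hwt : w ∈ t := by
    by_contra hc
    have h1 : Ideal.span (t : Set R) ≤ J := Ideal.span_le.2 fun x hx =>
      (htS hx).resolve_right fun h => hc (by rw [← Set.mem_singleton_iff.1 h]; exact hx)
    rw [ht, ← hm] at h1
    exact hwJ (h1 (Ideal.mem_sup_right (Ideal.subset_span rfl)))
  set l := (t.erase w).toList with hl
  have hlJ : Ideal.ofList l ≤ J := Ideal.span_le.2 fun x hx => by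
    have h1 : x ∈ t.erase w := by simpa [hl] using hx
    exact (htS (Finset.mem_of_mem_erase h1)).resolve_right (Finset.ne_of_mem_erase h1)
  have hlm : Ideal.ofList (l ++ [w]) = maximalIdeal R := by
    rw [← ht, Ideal.ofList]
    congr 1
    ext x
    by_cases hx : x = w
    · simp [hx, hwt]
    · simp [hl, hx]
  have hlen : (l ++ [w]).length = t.card := by
    simp [hl, Finset.card_erase_add_one hwt]
  have hdim : (((l ++ [w]).length : ℕ) : WithBot ℕ∞) = ringKrullDim R := by
    have h1 := (IsRegularLocalRing.iff_finrank_cotangentSpace R).1 inferInstance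
    have h2 : (maximalIdeal R).spanFinrank ≤ t.card := by
      rw [← ht]
      simpa using Submodule.spanFinrank_span_le_ncard_of_finite (R := R) t.finite_toSet
    rw [spanFinrank_maximalIdeal_eq_finrank_cotangentSpace] at h2
    rw [hlen, ← h1, le_antisymm hcard h2]
  have hseq := ((hR R).2 _ hlm hdim).1
  have hJl : Ideal.ofList l = J := le_antisymm hlJ (LsA.le_of_sup hJ hlJ
    (by rw [← hlm, Ideal.ofList_append, Ideal.ofList_singleton]) hwJ)
  have hCI : CI J l.length := ⟨l, rfl, ((hB.regAppend _ _ _).1 hseq).1, hJl⟩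
  have h3 := (hC.unmix hCI ⟨hJ, 1, fun r => by rw [mul_one]⟩).1
  have h4 : Fintype.card κ = l.length := by
    rw [hht] at h3
    exact_mod_cast h3
  let e := Fintype.equivFinOfCardEq h4
  refine ⟨fun k => l.get (e k), w, ?_, hm, hwJ, ?_⟩
  · rw [← hJl, sp, show (fun k => l.get (e k)) = l.get ∘ e from rfl,
      e.surjective.range_comp, Set.range_list_get]
  · rw [← hdim, h4]
    simp

theorem linkl (hB : S_basic) (hR : S_reg) (hC : S_cm) (hW : S_wiebe) : S_linkl := by
  intro R κ _ _ _ _ f ϖ M hJ hht hm hϖ hdim hCI hG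
  classical
  obtain ⟨j, hj, hnzd⟩ := hC.avoid hCI hJ hht hϖ
  have hjJ : j ∈ sp f := Ideal.pow_le_self two_ne_zero hj
  set w := ϖ + j with hw
  have hm' : sp f ⊔ Ideal.span {w} = maximalIdeal R := by
    rw [← hm]
    apply le_antisymm
    · refine sup_le le_sup_left ((Ideal.span_singleton_le_iff_mem _).2 ?_)
      exact add_mem (Ideal.mem_sup_right (Ideal.subset_span rfl)) (Ideal.mem_sup_left hjJ)
    · refine sup_le le_sup_left ((Ideal.span_singleton_le_iff_mem _).2 ?_)
      have : ϖ = w - j := by rw [hw]; ring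
      rw [this]
      exact sub_mem (Ideal.mem_sup_right (Ideal.subset_span rfl)) (Ideal.mem_sup_left hjJ)
  have hCI' := hB.ciSucc hCI hnzd
  have hrad : maximalIdeal R ≤ (sp (M.mulVec f) ⊔ Ideal.span {w}).radical := by
    rw [Ideal.radical_eq_sInf]
    refine le_sInf fun P hP => ?_
    have := hP.2
    have h1 := hB.ciHt hCI' hP.2 hP.1
    have h2 : (maximalIdeal R).height = (Fintype.card κ + 1 : ℕ) := by
      have h3 := maximalIdeal_height_eq_ringKrullDim (R := R)
      rw [hdim] at h3
      exact_mod_cast h3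
    exact (Ideal.eq_of_le_of_height_le P (le_maximalIdeal hP.2.ne_top) (h2 ▸ h1)).ge
  have hnot : M.det ∉ sp (M.mulVec f) ⊔ Ideal.span {w} := by
    let g : κ ⊕ Unit → R := Sum.elim f fun _ => w
    have hg : sp g = maximalIdeal R := by rw [LsA.sp_elim, hm']
    have hgm : ∀ i, g i ∈ maximalIdeal R := fun i => hg ▸ Ideal.subset_span ⟨i, rfl⟩
    have hv : (Matrix.fromBlocks M 0 0 (1 : Matrix Unit Unit R)).mulVec g =
        Sum.elim (M.mulVec f) fun _ => w := by
      rw [Matrix.fromBlocks_mulVec]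
      simp [g]
    have hfam : RegFam g := by
      refine ⟨Finset.univ.toList, Finset.nodup_toList _, fun i => by simp, ?_⟩
      refine ((hR R).2 _ ?_ ?_).1
      · rw [← hg, Ideal.ofList, sp]
        congr 1
        ext x
        simp only [List.mem_map, Finset.mem_toList, Finset.mem_univ, true_and,
          Set.mem_ofPred_eq, Set.mem_range]
      · rw [hdim]; simp
    have := hW R (κ ⊕ Unit) g (Matrix.fromBlocks M 0 0 1) hgm hfam
      (by rw [hv, LsA.sp_elim]; exact fun i => hrad (hgm i))
    rwa [hv, LsA.sp_elim, Matrix.det_fromBlocks_zero₂₁, Matrix.det_one, mul_one] at this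
  have hdet := LsA.det_mul_mem f M
  refine ⟨hdet, fun h => hnot (Ideal.mem_sup_left (hC.inj hCI hJ hht hG _ h hdet)),
    fun u hu => ?_⟩
  rcases LsA.val hJ hm' u M.det with h | ⟨v, hv, h⟩
  · exact h
  exfalso
  have h1 : M.det - v * u ∈ sp (M.mulVec f) :=
    hC.inj hCI hJ hht hG _ h (sub_mem hdet (Ideal.mul_mem_left _ _ hu))
  rw [← hm'] at hv
  obtain ⟨p, hp, q, hq, rfl⟩ := Submodule.mem_sup.1 hv
  apply hnot
  have h2 : M.det = (M.det - (p + q) * u) + u * p + q * u := by ring
  rw [h2]
  exact add_mem (add_mem (Ideal.mem_sup_left h1) (Ideal.mem_sup_left (mem_col.1 hu p hp)))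
    (Ideal.mem_sup_right (Ideal.mul_mem_right _ _ hq))

end Pool.Agent.P.MP_e7d440_ag
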