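import Pool.Agent.P.MP_e7d440_ag.Iface

/-! Localizations of polynomial rings over a discrete valuation ring. -/

namespace Pool.Agent.P.MP_e7d440_ag

open IsLocalRing MvPolynomial

namespace PolyA

/-- A quotient by an ideal inside the square of the maximal ideal that contains a non zero
divisor is not regular. -/
lemma not_regular_of_le_sq {S : Type} [CommRing S] [IsLocalRing S] [IsNoetherianRing S]
    (J : Ideal S) (hJ : J ≤ maximalIdeal S ^ 2) {r : S} (hr : r ∈ nonZeroDivisors S)
    (hrJ : r ∈ J) : ¬ IsRegularLocalRing (S ⧸ J) := by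
  intro hreg
  have h1 : ringKrullDim (S ⧸ J) + 1 ≤ ringKrullDim S :=
    ringKrullDim_succ_le_of_surjective (Ideal.Quotient.mk J) Ideal.Quotient.mk_surjective hr
      (Ideal.Quotient.eq_zero_iff_mem.2 hrJ)
  have h2 := hreg.spanFinrank_maximalIdeal
  have fg := (maximalIdeal (S ⧸ J)).fg_of_isNoetherianRing
  obtain ⟨t, ht, htspan⟩ := Submodule.FG.exists_span_finset_card_eq_spanFinrank fg
  classical
  choose l hl using Ideal.Quotient.mk_surjective (I := J)
  have hcomap : (maximalIdeal (S ⧸ J)).comap (Ideal.Quotient.mk J) = maximalIdeal S := by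
    have : ((maximalIdeal (S ⧸ J)).comap (Ideal.Quotient.mk J)).IsMaximal :=
      Ideal.comap_isMaximal_of_surjective _ Ideal.Quotient.mk_surjective
    exact eq_maximalIdeal this
  have hspan : Ideal.span (t.image l : Set S) ⊔ J = maximalIdeal S := by
    rw [← hcomap, ← htspan]
    have : Submodule.span (S ⧸ J) (t : Set (S ⧸ J)) =
        (Ideal.span (t.image l : Set S)).map (Ideal.Quotient.mk J) := by
      rw [Ideal.map_span, Finset.coe_image, ← Set.image_comp]
      have : (Ideal.Quotient.mk J) ∘ l = id := funext hl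
      rw [this, Set.image_id]
    rw [this, Ideal.comap_map_of_surjective _ Ideal.Quotient.mk_surjective,
      ← RingHom.ker_eq_comap_bot, Ideal.mk_ker]
  have hle : maximalIdeal S ≤ Ideal.span (t.image l : Set S) := by
    refine Submodule.le_of_le_smul_of_le_jacobson_bot (I := maximalIdeal S)
      (maximalIdeal S).fg_of_isNoetherianRing (maximalIdeal_le_jacobson _) ?_
    rw [smul_eq_mul, ← sq]
    exact hspan.ge.trans (sup_le_sup_left hJ _)
  have heq : maximalIdeal S = Ideal.span (t.image l : Set S) :=
    le_antisymm hle (le_sup_left.trans hspan.le)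
  have h3 : (maximalIdeal S).spanFinrank ≤ t.card := by
    rw [heq]
    refine (Submodule.spanFinrank_span_le_ncard_of_finite (Finset.finite_toSet _)).trans ?_
    rw [Set.ncard_coe_finset]
    exact Finset.card_image_le
  have h4 := ringKrullDim_le_spanFinrank_maximalIdeal S
  rw [← h2, ← ht] at h1
  have h5 : ((t.card : WithBot ℕ∞) + 1) ≤ t.card :=
    h1.trans (h4.trans (by exact_mod_cast h3))
  have h6 : t.card + 1 ≤ t.card := by exact_mod_cast h5
  omega

/-- A localization of a regular ring is regular. -/
lemma regLoc {P : Type} [CommRing P] [IsRegularRing P] (M : Submonoid P) (S : Type) [CommRing S]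
    [Algebra P S] [IsLocalization M S] : IsRegularRing S := by
  have := IsLocalization.isNoetherianRing M S inferInstance
  rw [isRegularRing_iff]
  intro q hq
  have := IsLocalization.isLocalization_isLocalization_atPrime_isLocalization M
    (Localization.AtPrime q) q
  exact IsRegularLocalRing.of_ringEquiv (IsLocalization.algEquiv
    (q.comap (algebraMap P S)).primeCompl (Localization.AtPrime (q.comap (algebraMap P S)))
    (Localization.AtPrime q)).toRingEquiv

lemma reg_quot {O ν : Type} [CommRing O] [IsDomain O] [IsDiscreteValuationRing O] [Fintype ν]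
    {π : O} (hπ : Irreducible π) :
    IsRegularRing (MvPolynomial ν O ⧸ (Ideal.span {π}).map (C : O →+* MvPolynomial ν O)) := by
  have : (Ideal.span {π}).IsMaximal := PrincipalIdealRing.isMaximal_of_irreducible hπ
  let := Ideal.Quotient.field (Ideal.span {π})
  exact IsRegularRing.of_ringEquiv
    (MvPolynomial.quotientEquivQuotientMvPolynomial (σ := ν) (Ideal.span {π})).toRingEquiv

lemma notSq {O ν : Type} [CommRing O] [IsDomain O] [IsDiscreteValuationRing O] [Fintype ν]
    {π : O} (hπ : Irreducible π) (𝔭 : Ideal (MvPolynomial ν O)) [𝔭.IsPrime] (R : Type)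
    [CommRing R] [IsLocalRing R] [Algebra (MvPolynomial ν O) R] [IsLocalization.AtPrime R 𝔭] :
    algebraMap (MvPolynomial ν O) R (C π) ∉ maximalIdeal R ^ 2 := by
  intro h
  have hle := 𝔭.primeCompl_le_nonZeroDivisors
  have := IsLocalization.isDomain_of_le_nonZeroDivisors R hle
  have := IsLocalization.isNoetherianRing 𝔭.primeCompl R inferInstance
  set I := (Ideal.span {π}).map (C : O →+* MvPolynomial ν O) with hI
  have hJ : I.map (algebraMap _ R) ≤ maximalIdeal R ^ 2 := by
    rw [hI, Ideal.map_span, Ideal.map_span, Set.image_singleton, Set.image_singleton,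
      Ideal.span_singleton_le_iff_mem]
    exact h
  have hne : I.map (algebraMap _ R) ≠ ⊤ := fun h0 =>
    (maximalIdeal.isMaximal R).ne_top
      (top_le_iff.1 (h0.ge.trans (hJ.trans (Ideal.pow_le_self two_ne_zero))))
  have := Ideal.Quotient.nontrivial_iff.2 hne
  have := IsLocalRing.of_surjective' (Ideal.Quotient.mk (I.map (algebraMap _ R)))
    Ideal.Quotient.mk_surjective
  have := reg_quot (ν := ν) hπ
  have := regLoc (Algebra.algebraMapSubmonoid (MvPolynomial ν O ⧸ I) 𝔭.primeCompl)
    (R ⧸ I.map (algebraMap _ R))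
  refine not_regular_of_le_sq _ hJ (r := algebraMap (MvPolynomial ν O) R (C π)) ?_ ?_
    (IsRegularLocalRing.of_isRegularRing_of_isLocalRing _)
  · refine mem_nonZeroDivisors_of_ne_zero ?_
    rw [Ne, map_eq_zero_iff _ (IsLocalization.injective R hle), C_eq_zero]
    exact hπ.ne_zero
  · exact Ideal.mem_map_of_mem _ (Ideal.mem_map_of_mem _ (Ideal.mem_span_singleton_self π))

end PolyA

theorem polys (_hR : S_reg) : S_poly where
  regLoc 𝔫 _ := PolyA.regLoc 𝔫.primeCompl _
  notSq := by
    intro O ν _ _ _ _ π hπ 𝔫 _ 𝔓 h𝔓 _ s hs h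
    refine PolyA.notSq hπ (𝔓.comap (algebraMap (MvPolynomial ν O) _)) (Localization.AtPrime 𝔓) ?_
    have h1 := Ideal.mem_map_of_mem (algebraMap _ (Localization.AtPrime 𝔓)) h
    rw [Ideal.map_pow, Localization.AtPrime.map_eq_maximalIdeal, map_mul,
      Ideal.unit_mul_mem_iff_mem _
        (IsLocalization.map_units (Localization.AtPrime 𝔓) (⟨s, hs⟩ : 𝔓.primeCompl))] at h1
    exact h1

end Pool.Agent.P.MP_e7d440_ag
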