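import Pool.Agent.P.MP_e7d440_ag.Iface

/-! The normalized Rees algebra. -/

namespace Pool.Agent.P.MP_e7d440_ag

open IsLocalRing MvPolynomial

noncomputable section

namespace ReesA

theorem int_of_range {Q Q' P : Type*} [CommRing Q] [CommRing Q'] [CommRing P] (f : Q →+* P)
    (g : Q' →+* P) (h : ∀ q, ∃ q', g q' = f q) {x : P} (hx : f.IsIntegralElem x) :
    g.IsIntegralElem x := by
  obtain ⟨m, hm, h0⟩ := hx
  have hl : m.map f ∈ Polynomial.lifts g := by
    rw [Polynomial.lifts_iff_coeff_lifts]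
    intro n
    rw [Polynomial.coeff_map]
    exact h _
  obtain ⟨m', h1, -, h2⟩ := Polynomial.lifts_and_natDegree_eq_and_monic hl (hm.map f)
  refine ⟨m', h2, ?_⟩
  rw [Polynomial.eval₂_eq_eval_map, h1, ← Polynomial.eval₂_eq_eval_map, h0]

theorem mem_of_val {A K : Type*} [CommRing A] [IsDomain A] [IsIntegrallyClosed A] [Field K]
    [Algebra A K] [IsFractionRing A K] (c : K)
    (h : ∀ V : ValuationSubring K, (∀ a, algebraMap A K a ∈ V) → c ∈ V) :
    ∃ a : A, c = algebraMap A K a := by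
  have h1 : c ∈ (integralClosure (Subring.closure (Set.range (algebraMap A K))) K).toSubring := by
    rw [← iInf_valuationSubring_superset, Subring.mem_iInf]
    rintro ⟨V, hV⟩
    exact h V fun a => hV ⟨a, rfl⟩
  have h2 : IsIntegral A c := by
    refine int_of_range _ (algebraMap A K) ?_ h1
    rintro ⟨q, hq⟩
    have : Subring.closure (Set.range (algebraMap A K)) ≤ (algebraMap A K).range :=
      Subring.closure_le.2 fun _ h => h
    exact this hq
  obtain ⟨a, ha⟩ := IsIntegrallyClosed.isIntegral_iff.1 h2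
  exact ⟨a, ha.symm⟩

/-- coefficients of an element integral over a ring of bounded polynomials are bounded -/
theorem coeff_mem {O K ν : Type*} [CommRing O] [Field K] [Algebra O K] (V : ValuationSubring K)
    (hO : ∀ o, algebraMap O K o ∈ V) (g : K) (s : ν → Polynomial K)
    (hs : ∀ k n, (s k).coeff n / g ^ n ∈ V) (p : Polynomial K)
    (hp : (aeval s : MvPolynomial ν O →ₐ[O] Polynomial K).toRingHom.IsIntegralElem p) (n : ℕ) :
    p.coeff n / g ^ n ∈ V := by
  let ψ : Polynomial K →+* Polynomial K :=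
    Polynomial.compRingHom (Polynomial.C g⁻¹ * Polynomial.X)
  have hψ : ∀ q n, (ψ q).coeff n = q.coeff n / g ^ n := fun q n => by
    rw [Polynomial.coe_compRingHom_apply, Polynomial.comp_C_mul_X_coeff, inv_pow, div_eq_mul_inv]
  let W : Polynomial V →+* Polynomial K := Polynomial.mapRingHom (algebraMap V K)
  have hW : ∀ q : Polynomial K, (∀ n, q.coeff n / g ^ n ∈ V) → ψ q ∈ W.range := fun q hq => by
    have : ψ q ∈ Polynomial.lifts (algebraMap V K) := by
      rw [Polynomial.lifts_iff_coeff_lifts]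
      intro n
      exact ⟨⟨_, hq n⟩, (hψ q n).symm⟩
    exact this
  have h1 : W.IsIntegralElem (ψ p) := by
    refine int_of_range _ W (fun q => ?_) (hp.map ψ)
    change ψ (aeval s q) ∈ W.range
    induction q using MvPolynomial.induction_on with
    | C o =>
      refine hW _ fun n => ?_
      rw [aeval_C, Polynomial.algebraMap_apply, Polynomial.coeff_C]
      split_ifs with h
      · rw [h, pow_zero, div_one]; exact hO o
      · rw [zero_div]; exact V.zero_mem
    | add q q' h h' => rw [map_add, map_add]; exact add_mem h h'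
    | mul_X q k h => rw [map_mul, map_mul, aeval_X]; exact mul_mem h (hW _ (hs k))
  let _ : Algebra (Polynomial V) (Polynomial K) := Polynomial.algebra V K
  have h2 : IsIntegral V ((ψ p).coeff n) := IsIntegral.coeff (R := V) (S := K) h1 n
  obtain ⟨a, ha⟩ := IsIntegrallyClosed.isIntegral_iff.1 h2
  rw [← hψ, ← ha]
  exact a.2

theorem frac_poly {O K : Type*} [CommRing O] [Field K] [Algebra O K]
    (R : Subalgebra O (Polynomial K)) (hX : Polynomial.X ∈ R)
    (hC : ∀ c : K, ∃ a b : K, b ≠ 0 ∧ c * b = a ∧ Polynomial.C a ∈ R ∧ Polynomial.C b ∈ R)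
    (p : Polynomial K) : ∃ q ∈ R, q ≠ 0 ∧ p * q ∈ R := by
  induction p using Polynomial.induction_on' with
  | add p p' h h' =>
    obtain ⟨q, hq, h0, h1⟩ := h
    obtain ⟨q', hq', h0', h1'⟩ := h'
    refine ⟨q * q', R.mul_mem hq hq', mul_ne_zero h0 h0', ?_⟩
    have : (p + p') * (q * q') = p * q * q' + p' * q' * q := by ring
    rw [this]
    exact R.add_mem (R.mul_mem h1 hq') (R.mul_mem h1' hq)
  | monomial n c =>
    obtain ⟨a, b, hb, hab, ha, hb'⟩ := hC c
    refine ⟨Polynomial.C b, hb', Polynomial.C_ne_zero.2 hb, ?_⟩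
    rw [← Polynomial.C_mul_X_pow_eq_monomial, mul_right_comm, ← map_mul, hab]
    exact R.mul_mem ha (R.pow_mem hX n)

theorem frac_field {O P L : Type*} [CommRing O] [CommRing P] [IsDomain P] [Field L] [Algebra O P]
    [Algebra O L] [Algebra P L] [IsScalarTower O P L] [IsFractionRing P L] (R : Subalgebra O P)
    (h : ∀ p : P, ∃ q ∈ R, q ≠ 0 ∧ p * q ∈ R) (γ : L) :
    ∃ a ∈ R.map (IsScalarTower.toAlgHom O P L), ∃ b ∈ R.map (IsScalarTower.toAlgHom O P L),
      b ≠ 0 ∧ γ * b = a := by
  obtain ⟨p, p', hp', rfl⟩ := IsFractionRing.div_surjective (A := P) γ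
  obtain ⟨q, hq, h0, h1⟩ := h p
  obtain ⟨q', hq', h0', h1'⟩ := h p'
  have hinj := IsFractionRing.injective P L
  have h2 := nonZeroDivisors.ne_zero hp'
  refine ⟨_, ⟨_, R.mul_mem h1 hq', rfl⟩, _, ⟨_, R.mul_mem h1' hq, rfl⟩, ?_, ?_⟩
  · exact (map_ne_zero_iff _ hinj).2 (mul_ne_zero (mul_ne_zero h2 h0') h0)
  · have h3 := (map_ne_zero_iff _ hinj).2 h2
    change _ * algebraMap P L _ = algebraMap P L _
    simp only [map_mul]
    field_simp

/-- the value of a choice -/
def bv {K β : Type} [Field K] (B : β → Finset K) (i : β) : Option (B i) → K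
  | none => 1
  | some b => b

/-- the product of the values of a choice function -/
def gam {K β : Type} [Field K] [Fintype β] (B : β → Finset K) (f : (i : β) → Option (B i)) : K :=
  ∏ i, bv B i (f i)

theorem gam_update {K β : Type} [Field K] [Fintype β] [DecidableEq β] (B : β → Finset K)
    (f : (i : β) → Option (B i)) (i : β) (hf : f i = none) (b : B i) :
    gam B (Function.update f i (some b)) = b * gam B f := by
  rw [gam, gam, ← Finset.mul_prod_erase _ _ (Finset.mem_univ i),
    ← Finset.mul_prod_erase _ (fun i => bv B i (f i)) (Finset.mem_univ i), Function.update_self,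
    hf]
  have : ∏ k ∈ Finset.univ.erase i, bv B k (Function.update f i (some b) k) =
      ∏ k ∈ Finset.univ.erase i, bv B k (f k) :=
    Finset.prod_congr rfl fun k hk => by rw [Function.update_of_ne (Finset.ne_of_mem_erase hk)]
  rw [this]
  simp [bv]

theorem exists_gam {K β : Type} [Field K] [Fintype β] (B : β → Finset K) (V : ValuationSubring K)
    (i₀ : β) (h : ∀ b ∈ B i₀, b ∈ V) : ∃ f : (i : β) → Option (B i), f i₀ = none ∧ gam B f ≠ 0 ∧
      (∀ f', gam B f' / gam B f ∈ V) ∧ 1 / gam B f ∈ V := by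
  classical
  have h1 : ∀ i, ∃ o : Option (B i), (i = i₀ → o = none) ∧
      ∀ o', V.valuation (bv B i o') ≤ V.valuation (bv B i o) := by
    intro i
    by_cases hi : i = i₀
    · subst hi
      refine ⟨none, fun _ => rfl, fun o' => ?_⟩
      cases o' with
      | none => exact le_rfl
      | some b =>
        change V.valuation b ≤ V.valuation 1
        rw [map_one]
        exact (V.valuation_le_one_iff _).2 (h b b.2)
    · obtain ⟨o, ho⟩ := Finite.exists_max fun o : Option (B i) => V.valuation (bv B i o)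
      exact ⟨o, fun h => absurd h hi, ho⟩
  choose f hf0 hf using h1
  have h2 : ∀ f', V.valuation (gam B f') ≤ V.valuation (gam B f) := fun f' => by
    rw [gam, gam, map_prod, map_prod]
    exact Finset.prod_le_prod' fun i _ => hf i _
  have h3 : gam B (fun _ => none) = 1 := Finset.prod_eq_one fun _ _ => rfl
  have h4 : gam B f ≠ 0 := fun h0 => by
    have := h2 fun _ => none
    rw [h0, h3, map_one, map_zero] at this
    exact not_lt.2 this zero_lt_one
  have h5 : ∀ f', gam B f' / gam B f ∈ V := fun f' => by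
    rw [← V.valuation_le_one_iff, map_div₀]
    exact div_le_one_of_le₀ (h2 f') zero_le
  exact ⟨f, hf0 i₀ rfl, h4, h5, h3 ▸ h5 fun _ => none⟩

end ReesA

open ReesA

theorem rees (hF : S_fin) : S_rees := by
  intro O A K σ β _ _ _ _ _ _ _ _ _ _ _ _ _ _ _ _ x B hOK hx hB
  classical
  let _ : Fintype β := Fintype.ofFinite β
  obtain ⟨G, hG⟩ := (Algebra.essFiniteType_iff O A).1 inferInstance
  let P := Polynomial K
  let L := FractionRing P
  let Ch := (i : β) → Option (B i)
  let s1 : G ⊕ Ch → P := Sum.elim (fun a => Polynomial.C (algebraMap A K a))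
    fun f => Polynomial.C (gam B f) * Polynomial.X
  let j : P →ₐ[O] L := IsScalarTower.toAlgHom O P L
  have hj : Function.Injective j := IsFractionRing.injective P L
  let s0 : (σ ⊕ Unit) ⊕ (G ⊕ Ch) → L := fun k => j (reesV x s1 k)
  have hR0 : Algebra.adjoin O (Set.range s0) =
      (Algebra.adjoin O (Set.range (reesV x s1))).map j := by
    rw [AlgHom.map_adjoin, ← Set.range_comp]
    rfl
  have hOL : Function.Injective (algebraMap O L) := by
    rw [IsScalarTower.algebraMap_eq O P L, RingHom.coe_comp]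
    refine (IsFractionRing.injective P L).comp fun a b hab => hOK ?_
    rw [Polynomial.algebraMap_apply, Polynomial.algebraMap_apply] at hab
    exact Polynomial.C_injective hab
  obtain ⟨t, ht, ht'⟩ := hF O L _ s0 hOL (by
    rw [hR0]
    refine frac_field _ (frac_poly _ (Algebra.subset_adjoin ⟨Sum.inl (Sum.inr ()), rfl⟩) ?_)
    intro c
    obtain ⟨F, F', h0, h1⟩ := hx c
    have : ∀ F : MvPolynomial σ O, Polynomial.C (aeval (fun a => algebraMap A K (x a)) F) ∈
        Algebra.adjoin O (Set.range (reesV x s1)) := by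
      intro F
      induction F using MvPolynomial.induction_on with
      | C o => rw [aeval_C]; exact Subalgebra.algebraMap_mem _ o
      | add q q' h h' => rw [map_add, map_add]; exact add_mem h h'
      | mul_X q k h =>
        rw [map_mul, map_mul, aeval_X]
        exact mul_mem h (Algebra.subset_adjoin ⟨Sum.inl (Sum.inl k), rfl⟩)
    exact ⟨_, _, h0, h1, this F, this F'⟩)
  have hint : ∀ θ : L, IsIntegral (Algebra.adjoin O (Set.range s0)) θ →
      (j.toRingHom.comp (aeval (reesV x s1) : MvPolynomial _ O →ₐ[O] P).toRingHom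
        ).IsIntegralElem θ := by
    intro θ hθ
    refine int_of_range _ _ ?_ hθ
    rintro ⟨q, hq⟩
    rw [hR0, Algebra.adjoin_range_eq_range_aeval] at hq
    obtain ⟨_, ⟨q', rfl⟩, rfl⟩ := hq
    exact ⟨q', rfl⟩
  have hτ : ∀ θ : t, ∃ p : P, j p = θ := fun θ =>
    IsIntegrallyClosed.isIntegral_iff.1 (hint θ (ht θ θ.2)).of_comp
  choose τ hτ using hτ
  let s : (G ⊕ Ch) ⊕ t → P := Sum.elim s1 τ
  have hR1 : Algebra.adjoin O (Set.range s0 ∪ (t : Set L)) =
      (aeval (reesV x s) : MvPolynomial _ O →ₐ[O] P).range.map j := by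
    rw [← Algebra.adjoin_range_eq_range_aeval, AlgHom.map_adjoin]
    congr 1
    apply Set.Subset.antisymm
    · rintro _ (⟨k | k, rfl⟩ | h)
      · exact ⟨_, ⟨Sum.inl k, rfl⟩, rfl⟩
      · exact ⟨_, ⟨Sum.inr (Sum.inl k), rfl⟩, rfl⟩
      · exact ⟨_, ⟨Sum.inr (Sum.inr ⟨_, h⟩), rfl⟩, hτ ⟨_, h⟩⟩
    · rintro _ ⟨_, ⟨k | k | k, rfl⟩, rfl⟩
      · exact Or.inl ⟨Sum.inl k, rfl⟩
      · exact Or.inl ⟨Sum.inr k, rfl⟩
      · exact Or.inr (by rw [show reesV x s (Sum.inr (Sum.inr k)) = τ k from rfl, hτ]; exact k.2)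
  have hI : ∀ p : MvPolynomial ((σ ⊕ Unit) ⊕ ((G ⊕ Ch) ⊕ t)) O,
      IsIntegral (Algebra.adjoin O (Set.range s0)) (j (aeval (reesV x s) p)) := by
    intro p
    have : Algebra.adjoin O (Set.range s0 ∪ (t : Set L)) ≤
        (integralClosure (Algebra.adjoin O (Set.range s0)) L).restrictScalars O := by
      refine Algebra.adjoin_le ?_
      rintro θ (h | h)
      · exact isIntegral_algebraMap (R := Algebra.adjoin O (Set.range s0))
          (x := ⟨θ, Algebra.subset_adjoin h⟩)
      · exact ht θ h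
    apply this
    rw [hR1]
    exact ⟨_, ⟨p, rfl⟩, rfl⟩
  have h5 : ∀ V : ValuationSubring K, (∀ a, algebraMap A K a ∈ V) →
      ∃ i : {p : β × Ch // p.2 p.1 = none}, gam B i.1.2 ≠ 0 ∧
        ∀ (p : MvPolynomial ((σ ⊕ Unit) ⊕ ((G ⊕ Ch) ⊕ t)) O) (n : ℕ),
          (aeval (reesV x s) p).coeff n / gam B i.1.2 ^ n ∈ V := by
    intro V hV
    obtain ⟨i₀, hi₀⟩ := hB V hV
    obtain ⟨f, hf0, hf1, hf2, hf3⟩ := exists_gam B V i₀ hi₀
    refine ⟨⟨(i₀, f), hf0⟩, hf1, fun p n => ?_⟩
    have hC : ∀ (a : A) (n : ℕ),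
        (Polynomial.C (algebraMap A K a)).coeff n / gam B f ^ n ∈ V := fun a n => by
      rw [Polynomial.coeff_C]
      split_ifs with h
      · rw [h, pow_zero, div_one]; exact hV a
      · rw [zero_div]; exact V.zero_mem
    have hX : ∀ c : K, c / gam B f ∈ V → ∀ n : ℕ,
        (Polynomial.C c * Polynomial.X).coeff n / gam B f ^ n ∈ V := fun c hc n => by
      rw [Polynomial.coeff_C_mul_X]
      split_ifs with h
      · rw [h, pow_one]; exact hc
      · rw [zero_div]; exact V.zero_mem
    refine coeff_mem (O := O) V (fun o => ?_) (gam B f) (reesV x s1) ?_ _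
      ((hint _ (hI p)).of_map hj) n
    · rw [IsScalarTower.algebraMap_apply O A K]; exact hV _
    · rintro ((k | k) | k | k) n
      · exact hC _ n
      · have := hX 1 hf3 n
        rwa [map_one, one_mul] at this
      · exact hC _ n
      · exact hX _ (hf2 k) n
  have hGm : ∀ b ∈ Algebra.adjoin O (G : Set A),
      ∃ p : MvPolynomial ((σ ⊕ Unit) ⊕ ((G ⊕ Ch) ⊕ t)) O,
        aeval (reesV x s) p = Polynomial.C (algebraMap A K b) := by
    intro b hb
    induction hb using Algebra.adjoin_induction with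
    | mem a ha => exact ⟨X (Sum.inr (Sum.inl (Sum.inl ⟨a, ha⟩))), aeval_X _ _⟩
    | algebraMap o =>
      exact ⟨C o, by rw [aeval_C, ← IsScalarTower.algebraMap_apply, Polynomial.algebraMap_apply]⟩
    | add a b _ _ h h' =>
      obtain ⟨p, hp⟩ := h
      obtain ⟨q, hq⟩ := h'
      exact ⟨p + q, by rw [map_add, map_add, map_add, hp, hq]⟩
    | mul a b _ _ h h' =>
      obtain ⟨p, hp⟩ := h
      obtain ⟨q, hq⟩ := h'
      exact ⟨p * q, by rw [map_mul, map_mul, map_mul, hp, hq]⟩
  refine ⟨(G ⊕ Ch) ⊕ t, inferInstance, s, {p : β × Ch // p.2 p.1 = none}, inferInstance,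
    fun i => i.1.1, fun i => X (Sum.inr (Sum.inl (Sum.inr i.1.2))), fun i => gam B i.1.2,
    fun k => ?_, fun a => ?_, fun θ hθ => ?_, fun i => aeval_X _ _, h5, fun i b hb => ?_⟩
  · refine mem_of_val _ fun V hV => ?_
    obtain ⟨i, -, hi⟩ := h5 V hV
    have := hi (X (Sum.inr k)) 0
    rwa [aeval_X, pow_zero, div_one] at this
  · obtain ⟨c, hc, hu, hb⟩ := hG a
    obtain ⟨p, hp⟩ := hGm _ hb
    obtain ⟨q, hq⟩ := hGm _ hc
    exact ⟨p, q, a * c, c, hu, rfl, hp, hq⟩
  · have h1 : IsIntegral (integralClosure (Algebra.adjoin O (Set.range s0)) L) θ :=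
      int_of_range _ _ (fun q => ⟨⟨_, hI q⟩, rfl⟩) hθ
    have h2 := ht' θ (isIntegral_trans (R := Algebra.adjoin O (Set.range s0))
      (A := integralClosure (Algebra.adjoin O (Set.range s0)) L) θ h1)
    rw [hR1] at h2
    obtain ⟨_, ⟨p, rfl⟩, rfl⟩ := h2
    exact ⟨p, rfl⟩
  · refine ⟨X (Sum.inr (Sum.inl (Sum.inr (Function.update i.1.2 i.1.1 (some ⟨b, hb⟩))))), ?_⟩
    rw [aeval_X, ← gam_update B i.1.2 i.1.1 i.2 ⟨b, hb⟩]
    rfl

end

end Pool.Agent.P.MP_e7d440_ag
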