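import Pool.Agent.P.MP_e7d440_ag.Bd

/-! From valuations to schemes. -/

namespace Pool.Agent.P.MP_e7d440_ag

open CategoryTheory AlgebraicGeometry IsLocalRing

namespace SchemeA

/-- Transport along an isomorphism of fields over `A`. -/
theorem valInj_of_equiv {A K K' : Type} [CommRing A] [IsLocalRing A] [Field K] [Field K']
    [Algebra A K] [Algebra A K'] (e : K' ≃+* K)
    (he : ∀ a, e (algebraMap A K' a) = algebraMap A K a) (h : ValInj A K) : ValInj A K' := by
  intro β _ B hB d x hd hx η ξ h1 h2 h3 h4 h5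
  have hbd : ∀ {Γ : Type} (f : List Γ → K') (l : List Γ),
      bd (fun l => e (f l)) l = e (bd f l) := fun f l => bd_hom (e : K' →+* K).toAddMonoidHom f l
  have hbd' : ∀ {Γ : Type} (f : List Γ → K) (l : List Γ),
      bd (fun l => e.symm (f l)) l = e.symm (bd f l) :=
    fun f l => bd_hom (e.symm : K →+* K').toAddMonoidHom f l
  have hmem : ∀ (V : ValuationSubring K) (t : K'), t ∈ V.comap (e : K' →+* K) ↔ e t ∈ V :=
    fun _ _ => Iff.rfl
  obtain ⟨ζ, hz1, hz2⟩ := h β (fun i => (B i).map e.toEquiv.toEmbedding)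
    (fun V hV => by
      obtain ⟨i, hi⟩ := hB (V.comap (e : K' →+* K)) fun a => (hmem _ _).2 (he a ▸ hV a)
      refine ⟨i, fun b hb => ?_⟩
      obtain ⟨b, hb', rfl⟩ := Finset.mem_map.1 hb
      exact hi b hb')
    d x hd hx (fun σ => e (η σ)) (fun σ τ => e (ξ σ τ))
    (fun σ hσ => by
      obtain ⟨N, a, ha⟩ := h1 σ hσ
      exact ⟨N, a, by rw [← he, ← he, ← ha, map_mul, map_pow]⟩)
    (fun σ hσ => by rw [hbd, h2 σ hσ, map_zero])
    (fun σ => by rw [h3, map_zero])
    (fun σ τ hτ hl V hV hV' hV'' => h4 σ τ hτ hl (V.comap (e : K' →+* K))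
      (fun a => (hmem _ _).2 (he a ▸ hV a))
      (fun i hi => (hmem _ _).2 (by rw [map_inv₀, he]; exact hV' i hi))
      (fun i hi b hb => hV'' i hi _ (Finset.mem_map.2 ⟨b, hb, rfl⟩)))
    (fun σ τ hτ hl => by
      have := congrArg e (h5 σ τ hτ hl)
      rw [apply_ite e, map_zero] at this
      rw [← this, tot, tot, map_add, map_zsmul, hbd, hbd])
  refine ⟨fun σ => e.symm (ζ σ), fun σ hσ => ?_, fun σ hσ => ?_⟩
  · obtain ⟨N, a, ha⟩ := hz1 σ hσ
    refine ⟨N, a, e.injective ?_⟩
    rw [map_mul, map_pow, he, he, e.apply_symm_apply, ha]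
  · rw [hbd', hz2 σ hσ, e.symm_apply_apply]

variable {A : Type} [CommRing A] {W : Scheme.{0}} [IsIntegral W]

/-- The inclusion of a valuation subring of the function field. -/
noncomputable abbrev incl (V : ValuationSubring W.functionField) :
    CommRingCat.of V ⟶ W.functionField := CommRingCat.ofHom (algebraMap V W.functionField)

/-- `l` extends the generic point of `W`. -/
def IsLift (V : ValuationSubring W.functionField) (l : Spec (CommRingCat.of V) ⟶ W) : Prop :=
  Spec.map (incl V) ≫ l = W.fromSpecStalk (genericPoint W)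

theorem gen_mem {U : W.Opens} {w : W} (h : w ∈ U) : genericPoint W ∈ U :=
  (genericPoint_specializes w).mem_open U.isOpen h

theorem fromSpecStalk_comp (f : W ⟶ Spec (CommRingCat.of A)) :
    W.fromSpecStalk (genericPoint W) ≫ f = Spec.map (CommRingCat.ofHom (toFF f)) := by
  conv_lhs => rw [← Category.comp_id f, ← toSpecΓ_SpecMap_ΓSpecIso_inv,
    Scheme.toSpecΓ_naturality_assoc, Scheme.fromSpecStalk_toSpecΓ_assoc, ← Spec.map_comp,
    ← Spec.map_comp]
  rfl

theorem exists_lift (f : W ⟶ Spec (CommRingCat.of A)) [UniversallyClosed f]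
    (V : ValuationSubring W.functionField) (hV : ∀ a, toFF f a ∈ V) : ∃ l, IsLift V l := by
  have H : ValuativeCriterion.Existence f := by
    have : (ValuativeCriterion.Existence ⊓ @QuasiCompact : MorphismProperty Scheme) f := by
      rw [← UniversallyClosed.eq_valuativeCriterion]
      infer_instance
    exact this.1
  have w : W.fromSpecStalk (genericPoint W) ≫ f = Spec.map (incl V) ≫
      Spec.map (CommRingCat.ofHom ((toFF f).codRestrict V hV)) := by
    rw [fromSpecStalk_comp, ← Spec.map_comp]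
    rfl
  obtain ⟨l, hl, -⟩ := (H { R := V, K := W.functionField, commSq := ⟨w⟩, .. }).exists_lift
  exact ⟨l, hl⟩

theorem IsLift.unique (f : W ⟶ Spec (CommRingCat.of A)) [IsSeparated f]
    {V : ValuationSubring W.functionField} {l l' : Spec (CommRingCat.of V) ⟶ W}
    (h : IsLift V l) (h' : IsLift V l') : l = l' := by
  have e : l' ≫ f = l ≫ f := by
    obtain ⟨a, ha⟩ := Spec.map_surjective (l ≫ f)
    obtain ⟨a', ha'⟩ := Spec.map_surjective (l' ≫ f)
    have h1 : a' ≫ incl V = a ≫ incl V := by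
      apply Spec.map_injective
      rw [Spec.map_comp, Spec.map_comp, ha, ha', ← Category.assoc, ← Category.assoc, h, h']
    rw [← ha, ← ha']
    congr 1
    ext t
    exact congrArg (fun g => g.hom t) h1
  have w : W.fromSpecStalk (genericPoint W) ≫ f = Spec.map (incl V) ≫ l ≫ f := by
    rw [← Category.assoc, h]
  let S : ValuativeCommSq f := { R := V, K := W.functionField, commSq := ⟨w⟩, .. }
  have : Subsingleton S.commSq.LiftStruct := IsSeparated.valuativeCriterion f S
  exact congrArg CommSq.LiftStruct.l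
    (Subsingleton.elim (⟨l, h, rfl⟩ : S.commSq.LiftStruct) ⟨l', h', e⟩)

theorem IsLift.germ_eq {V : ValuationSubring W.functionField} {l : Spec (CommRingCat.of V) ⟶ W}
    (h : IsLift V l) {U : W.Opens} (hU : l (closedPoint V) ∈ U) (s : Γ(W, U)) :
    W.presheaf.germ U (genericPoint W) (gen_mem hU) s =
      algebraMap V W.functionField (Scheme.stalkClosedPointTo l (W.presheaf.germ U _ hU s)) := by
  have h1 : Scheme.stalkClosedPointTo l ≫ incl V =
      W.presheaf.stalkSpecializes (genericPoint_specializes _) := by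
    apply Spec.map_injective
    rw [← cancel_mono (W.fromSpecStalk _), Scheme.SpecMap_stalkSpecializes_fromSpecStalk,
      Spec.map_comp, Category.assoc, Scheme.Spec_stalkClosedPointTo_fromSpecStalk, h]
  rw [← TopCat.Presheaf.germ_stalkSpecializes_apply W.presheaf hU (genericPoint_specializes _),
    ← h1]
  rfl

theorem IsLift.germ_mem {V : ValuationSubring W.functionField} {l : Spec (CommRingCat.of V) ⟶ W}
    (h : IsLift V l) {U : W.Opens} (hU : l (closedPoint V) ∈ U) (s : Γ(W, U)) :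
    W.presheaf.germ U (genericPoint W) (gen_mem hU) s ∈ V := by
  rw [h.germ_eq hU]
  exact Subtype.property _

theorem IsLift.mem_basicOpen {V : ValuationSubring W.functionField}
    {l : Spec (CommRingCat.of V) ⟶ W} (h : IsLift V l) {U : W.Opens} (hU : l (closedPoint V) ∈ U)
    (s : Γ(W, U)) (h0 : genericPoint W ∈ W.basicOpen s)
    (h1 : (W.presheaf.germ U (genericPoint W) (gen_mem hU) s : W.functionField)⁻¹ ∈ V) :
    l (closedPoint V) ∈ W.basicOpen s := by
  rw [Scheme.mem_basicOpen _ _ _ (gen_mem hU)] at h0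
  rw [Scheme.mem_basicOpen _ _ _ hU]
  refine isUnit_of_map_unit (Scheme.stalkClosedPointTo l).hom _ ?_
  refine IsUnit.of_mul_eq_one (⟨_, h1⟩ : V) (Subtype.ext ?_)
  have h2 := mul_inv_cancel₀ (a := (W.presheaf.germ U (genericPoint W) (gen_mem hU) s :
    W.functionField)) h0.ne_zero
  nth_rewrite 1 [h.germ_eq hU] at h2
  exact h2

theorem IsLift.mem_of_affine (f : W ⟶ Spec (CommRingCat.of A)) [IsSeparated f]
    {V : ValuationSubring W.functionField} {l : Spec (CommRingCat.of V) ⟶ W} (h : IsLift V l)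
    {U : W.Opens} (hU : IsAffineOpen U) (h0 : genericPoint W ∈ U)
    (hV : ∀ s : Γ(W, U), W.presheaf.germ U (genericPoint W) h0 s ∈ V) :
    l (closedPoint V) ∈ U := by
  let φ : Γ(W, U) ⟶ CommRingCat.of V :=
    CommRingCat.ofHom ((W.presheaf.germ U (genericPoint W) h0).hom.codRestrict V hV)
  have h' : IsLift V (Spec.map φ ≫ hU.fromSpec) := by
    rw [IsLift, ← Spec.map_comp_assoc, ← hU.fromSpecStalk_eq_fromSpecStalk h0]
    rfl
  rw [h.unique f h', Scheme.Hom.comp_apply, ← SetLike.mem_coe, ← hU.range_fromSpec]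
  exact ⟨_, rfl⟩

theorem exists_gens (f : W ⟶ Spec (CommRingCat.of A)) [LocallyOfFiniteType f]
    {U : W.Opens} (hU : IsAffineOpen U) (h0 : genericPoint W ∈ U) :
    ∃ B : Finset W.functionField,
      (∀ b ∈ B, ∃ s : Γ(W, U), W.presheaf.germ U (genericPoint W) h0 s = b) ∧
      ∀ V : ValuationSubring W.functionField, (∀ a, toFF f a ∈ V) → (∀ b ∈ B, b ∈ V) →
        ∀ s : Γ(W, U), W.presheaf.germ U (genericPoint W) h0 s ∈ V := by
  classical
  have h1 := f.finiteType_appLE (isAffineOpen_top _) hU (le_top : U ≤ f ⁻¹ᵁ ⊤)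
  let := (f.appLE ⊤ U le_top).hom.toAlgebra
  obtain ⟨s, hs⟩ := h1.out
  refine ⟨s.image (W.presheaf.germ U (genericPoint W) h0), fun b hb => ?_, fun V hV hB t => ?_⟩
  · obtain ⟨t, -, rfl⟩ := Finset.mem_image.1 hb
    exact ⟨t, rfl⟩
  · have ht : t ∈ Algebra.adjoin Γ(Spec (CommRingCat.of A), ⊤) (s : Set Γ(W, U)) :=
      hs ▸ Algebra.mem_top
    induction ht using Algebra.adjoin_induction with
    | mem t ht => exact hB _ (Finset.mem_image_of_mem _ ht)
    | algebraMap r =>
      obtain ⟨a, rfl⟩ := (ConcreteCategory.bijective_of_isIso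
        (Scheme.ΓSpecIso (CommRingCat.of A)).inv).2 r
      convert hV a using 1
      exact TopCat.Presheaf.germ_res_apply W.presheaf _ _ _ _
    | add a b _ _ ha hb => rw [map_add]; exact V.add_mem _ _ ha hb
    | mul a b _ _ ha hb => rw [map_mul]; exact V.mul_mem _ _ ha hb

omit [IsIntegral W] in
theorem mem_foldr {α : Type} (g : α → W.Opens) (l : List α) (w : W) :
    w ∈ (l.map g).foldr (· ⊓ ·) ⊤ ↔ ∀ i ∈ l, w ∈ g i := by
  induction l with
  | nil => simp
  | cons a l ih =>
    rw [List.map_cons, List.foldr_cons, List.forall_mem_cons, ← ih]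
    rfl

omit [IsIntegral W] in
theorem mem_piece {α β : Type} (f : W ⟶ Spec (CommRingCat.of A)) (x : α → A) (U : β → W.Opens)
    (σ : List α) (τ : List β) (w : W) : w ∈ piece f x U σ τ ↔
      (∀ j ∈ σ, w ∈ W.basicOpen (pull f (x j))) ∧ ∀ i ∈ τ, w ∈ U i := by
  rw [← mem_foldr, ← mem_foldr]
  rfl

end SchemeA

open SchemeA in
theorem scheme : S_scheme := by
  intro A K _ _ _ _ _ _ h d x hd hx W _ f hf hb β _ U hU hne hcov η ξ h1 h2 h3 h4 h5
  let := (toFF f).toAlgebra
  have : IsFractionRing A W.functionField := hb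
  let e := IsLocalization.algEquiv (nonZeroDivisors A) W.functionField K
  have h' : ValInj A W.functionField := valInj_of_equiv e.toRingEquiv e.commutes h
  have h0 : ∀ i, genericPoint W ∈ U i := fun i => (hne i).elim fun w => gen_mem w.2
  choose B hB hB' using fun i => exists_gens f (hU i) (h0 i)
  refine h' β B (fun V hV => ?_) d x hd hx η ξ h1 h2 h3 (fun σ τ hτ hl V hV hV' hV'' => ?_) h5
  · obtain ⟨l, hl⟩ := exists_lift f V hV
    have hw : l (closedPoint V) ∈ iSup U := hcov ▸ trivial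
    obtain ⟨i, hi⟩ := TopologicalSpace.Opens.mem_iSup.1 hw
    refine ⟨i, fun b hb => ?_⟩
    obtain ⟨s, rfl⟩ := hB i b hb
    exact hl.germ_mem hi s
  · obtain ⟨l, hl'⟩ := exists_lift f V hV
    obtain ⟨⟨w⟩, s, hs⟩ := h4 σ τ hτ hl
    have hg := ((mem_piece f x U σ τ _).1 (gen_mem w.2)).1
    have hw : l (closedPoint V) ∈ piece f x U σ τ := (mem_piece f x U σ τ _).2
      ⟨fun j hj => hl'.mem_basicOpen (U := ⊤) trivial _ (hg j hj) (hV' j hj),
        fun i hi => hl'.mem_of_affine f (hU i) (h0 i) (hB' i V hV (hV'' i hi))⟩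
    exact hs ▸ hl'.germ_mem hw s

end Pool.Agent.P.MP_e7d440_ag
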