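import Pool.Agent.P.MP_e7d440_ag.Iface

/-! The cyclicity of the socle does not depend on the regular sequence. -/

namespace Pool.Agent.P.MP_e7d440_ag

open IsLocalRing

namespace SocxA

variable {R : Type} [CommRing R]

lemma mem_sup_span {I : Ideal R} {a x : R} : x ∈ I ⊔ Ideal.span {a} ↔ ∃ g, x - a * g ∈ I := by
  rw [sup_comm, Ideal.mem_span_singleton_sup]
  constructor
  · rintro ⟨g, b, hb, rfl⟩
    exact ⟨g, by simpa [mul_comm] using hb⟩
  · rintro ⟨g, hg⟩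
    exact ⟨g, _, hg, by ring⟩

lemma one [IsLocalRing R] {I : Ideal R} {a r : R} (ha : a ∈ maximalIdeal R)
    (hr : r ∈ maximalIdeal R) (na : NZD I a) (nr : NZD I r) (h : Soc1 (I ⊔ Ideal.span {a})) :
    Soc1 (I ⊔ Ideal.span {r}) := by
  obtain ⟨u, h1, h2⟩ := h
  obtain ⟨u', hu⟩ := mem_sup_span.1 (h1 r hr)
  refine ⟨u', fun t ht => ?_, fun g' hg' => ?_⟩
  · obtain ⟨g, hg⟩ := mem_sup_span.1 (h1 t ht)
    refine mem_sup_span.2 ⟨g, na _ ?_⟩
    have := I.sub_mem (I.mul_mem_left r hg) (I.mul_mem_left t hu)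
    convert this using 1
    ring
  · obtain ⟨g, hg⟩ := mem_sup_span.1 (hg' a ha)
    have h3 : g ∈ I ⊔ Ideal.span {a} ⊔ Ideal.span {u} := h2 g fun t ht => by
      obtain ⟨k, hk⟩ := mem_sup_span.1 (hg' t ht)
      refine mem_sup_span.2 ⟨k, nr _ ?_⟩
      have := I.sub_mem (I.mul_mem_left a hk) (I.mul_mem_left t hg)
      convert this using 1
      ring
    obtain ⟨c, hc⟩ := mem_sup_span.1 h3
    obtain ⟨n, hn⟩ := mem_sup_span.1 hc
    refine mem_sup_span.2 ⟨c, mem_sup_span.2 ⟨n, na _ ?_⟩⟩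
    have := I.add_mem (I.add_mem hg (I.mul_mem_left r hn)) (I.mul_mem_left c hu)
    convert this using 1
    ring

lemma cons (I : Ideal R) (a : R) (l : List R) :
    I ⊔ Ideal.ofList (a :: l) = I ⊔ Ideal.span {a} ⊔ Ideal.ofList l := by
  rw [Ideal.ofList_cons, sup_assoc]

lemma swap (I : Ideal R) (a w : R) (l : List R) :
    I ⊔ Ideal.span {a} ⊔ Ideal.ofList (w :: l) = I ⊔ Ideal.span {w} ⊔ Ideal.ofList (a :: l) := by
  rw [cons, cons, sup_right_comm I]

lemma main (hB : S_basic) (hD : S_dep) [IsLocalRing R] [IsNoetherianRing R] (e : ℕ) :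
    ∀ (I : Ideal R) (l l' : List R), (∀ t ∈ l, t ∈ maximalIdeal R) →
      (∀ t ∈ l', t ∈ maximalIdeal R) → RegSeq I l → RegSeq I l' → l.length = e + 1 →
      l'.length = e + 1 → Soc1 (I ⊔ Ideal.ofList l) → Soc1 (I ⊔ Ideal.ofList l') := by
  induction e with
  | zero =>
    intro I l l' hl hl' rl rl' e1 e2 h
    obtain ⟨a, rfl⟩ := List.length_eq_one_iff.1 e1
    obtain ⟨r, rfl⟩ := List.length_eq_one_iff.1 e2
    rw [Ideal.ofList_singleton] at h ⊢
    exact one (hl a (by simp)) (hl' r (by simp)) rl.1 rl'.1 h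
  | succ e ih =>
    intro I l l' hl hl' rl rl' e1 e2 h
    obtain ⟨a, l, rfl⟩ := List.exists_cons_of_length_eq_add_one e1
    obtain ⟨r, l', rfl⟩ := List.exists_cons_of_length_eq_add_one e2
    have e3 : l.length = e + 1 := by simpa using e1
    have e4 : l'.length = e + 1 := by simpa using e2
    have hl0 : ∀ t ∈ l, t ∈ maximalIdeal R := fun t ht => hl t (List.mem_cons_of_mem _ ht)
    have hl0' : ∀ t ∈ l', t ∈ maximalIdeal R := fun t ht => hl' t (List.mem_cons_of_mem _ ht)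
    have ha := hl a List.mem_cons_self
    have hr := hl' r List.mem_cons_self
    have key : ∀ (J : Ideal R) (k : List R), k.length = e + 1 → (∀ t ∈ k, t ∈ maximalIdeal R) →
        RegSeq J k → ∀ P, Ass J P → ¬ maximalIdeal R ≤ P := by
      intro J k hk h1 h2 P hP hm
      obtain ⟨b, k, rfl⟩ := List.exists_cons_of_length_eq_add_one hk
      exact hB.nzdIff.1 h2.1 P hP (hm (h1 b List.mem_cons_self))
    obtain ⟨w, hw, w1, w2⟩ := hB.avoid2 _ _ _ (key _ l e3 hl0 rl.2) (key _ l' e4 hl0' rl'.2)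
    obtain ⟨l1, f1, m1, r1⟩ := hD.drop hl0 rl.2 e3 hw w1
    obtain ⟨l2, f2, m2, r2⟩ := hD.drop hl0' rl'.2 e4 hw w2
    have cm : ∀ {b : R} {k : List R}, b ∈ maximalIdeal R → (∀ t ∈ k, t ∈ maximalIdeal R) →
        ∀ t ∈ b :: k, t ∈ maximalIdeal R := fun hb hk => List.forall_mem_cons.2 ⟨hb, hk⟩
    have p1 : RegSeq I (w :: a :: l1) :=
      hD.perm (List.Perm.swap w a l1) (cm ha (cm hw m1)) ⟨rl.1, w1, r1⟩
    have p2 : RegSeq I (w :: r :: l2) :=
      hD.perm (List.Perm.swap w r l2) (cm hr (cm hw m2)) ⟨rl'.1, w2, r2⟩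
    rw [cons] at h ⊢
    have s1 := ih _ l (w :: l1) hl0 (cm hw m1) rl.2 ⟨w1, r1⟩ e3 (by simp [f1]) h
    rw [swap] at s1
    have s2 := ih _ (a :: l1) (r :: l2) (cm ha m1) (cm hr m2) p1.2 p2.2 (by simp [f1])
      (by simp [f2]) s1
    rw [swap] at s2
    exact ih _ (w :: l2) l' (cm hw m2) hl0' ⟨w2, r2⟩ rl'.2 (by simp [f2]) e4 s2

end SocxA

theorem socx (hB : S_basic) (hD : S_dep) : S_socx := by
  intro R _ _ _ I l l' hl hl' rl rl' e h
  cases l' with
  | nil => rwa [List.length_eq_zero_iff.1 e] at h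
  | cons r l' => exact SocxA.main hB hD l'.length I l _ hl hl' rl rl' e rfl h

end Pool.Agent.P.MP_e7d440_ag
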