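import Pool.Agent.P.MP_e7d440_ag.Bd

/-! Adding one index to the family, and change of family. -/

namespace Pool.Agent.P.MP_e7d440_ag

namespace StepA

variable {Q F Γ : Type} [CommRing Q] [Field F] [Algebra Q F] {𝔞 : Ideal Q} {c : Q} {u : F}
  {w : Γ → Q}

theorem cancel {t : Q} {N : ℕ} (ht : t ∣ c) (h : Mem 𝔞 c (algebraMap Q F t ^ N * u)) :
    Mem 𝔞 c u := by
  obtain ⟨s, rfl⟩ := ht
  obtain ⟨M, a, ha, e⟩ := h
  refine ⟨M + N, s ^ N * a, 𝔞.mul_mem_left _ ha, ?_⟩
  rw [map_mul (algebraMap Q F) (s ^ N), ← e, map_mul, map_pow]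
  ring

theorem absorb {a : Γ} {l l' : List Γ} (ha : a ∈ l) (hs : l'.Sublist l)
    (h : Mem 𝔞 (c * ((a :: l').map w).prod) u) : Mem 𝔞 (c * (l.map w).prod) u := by
  refine h.of_dvd_pow (k := 2) ?_
  rw [List.map_cons, List.prod_cons, pow_two, ← mul_assoc]
  exact mul_dvd_mul (mul_dvd_mul_left _ (List.dvd_prod (List.mem_map_of_mem ha)))
    ((hs.map w).prod_dvd_prod.mul_left _)

theorem deg_mono {E E' : Set Γ} (hE : E ⊆ E') {q : ℕ} {ξ : List Γ → F}
    (h : Deg w 𝔞 E' c q ξ) : Deg w 𝔞 E c q ξ := fun l hl => h l fun i hi => hE (hl i hi)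

theorem ctx {a : Γ} {l : List Γ} :
    Mem 𝔞 (c * w a * (l.map w).prod) u ↔ Mem 𝔞 (c * ((a :: l).map w).prod) u := by
  rw [List.map_cons, List.prod_cons, mul_assoc]

theorem cons_mem {E : Set Γ} {a : Γ} {l : List Γ} (h : ∀ i ∈ l, i ∈ insert a E) :
    ∀ i ∈ a :: l, i ∈ insert a E := List.forall_mem_cons.2 ⟨Set.mem_insert _ _, h⟩

theorem mem_of_not {E : Set Γ} {a : Γ} {l : List Γ} (h : ∀ i ∈ l, i ∈ insert a E)
    (h' : ¬ ∀ i ∈ l, i ∈ E) : a ∈ l := by
  by_contra ha
  exact h' fun i hi => (h i hi).resolve_left fun e => ha (e ▸ hi)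

open Classical in
/-- The cochain supported on the lists that start with `a` and continue in `E`. -/
noncomputable def z3 (E : Set Γ) (a : Γ) (ζ : List Γ → F) : List Γ → F
  | [] => 0
  | b :: l => if b = a ∧ ∀ i ∈ l, i ∈ E then ζ l else 0

theorem z3_of {E : Set Γ} {a : Γ} (ha : a ∉ E) (ζ : List Γ → F) {l : List Γ}
    (h : ∀ i ∈ l, i ∈ E) : z3 E a ζ l = 0 := by
  cases l with
  | nil => rfl
  | cons b l =>
    rw [z3, if_neg]
    rintro ⟨rfl, -⟩
    exact ha (h b List.mem_cons_self)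

end StepA

open StepA in
theorem step : S_step := by
  classical
  intro Q F Γ _ _ _ w 𝔞 E a c q ξ ζ ha hξ hζ hζ0 hC
  have sub : ∀ {l : List Γ}, (∀ i ∈ l, i ∈ E) → ∀ i ∈ l, i ∈ insert a E :=
    fun h i hi => Set.mem_insert_of_mem _ (h i hi)
  have hζ' : Deg w ⊤ (insert a E) c q ζ := fun l _ hl => by
    by_cases h : ∀ i ∈ l, i ∈ E
    · exact hζ l h hl
    · rw [hζ0 l h]; exact Mem.zero
  have hA : Deg w ⊤ (insert a E) c (q + 1) fun l => ξ l - bd ζ l := fun l h hl =>
    (hξ.1 l h hl).sub (hζ'.bd l h hl)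
  have hB : Deg w 𝔞 (insert a E) c (q + 1 + 1) (bd fun l => ξ l - bd ζ l) := fun l h hl => by
    rw [bd_sub, bd_bd, sub_zero]; exact hξ.2 l h hl
  refine ⟨⟨fun l h hl => ctx.2 (hA (a :: l) (cons_mem (sub h)) (by simp [hl])),
    fun l h hl => ?_⟩, fun ⟨ζ2, k1, k2⟩ => ?_⟩
  · have e := bd_cons (fun l => ξ l - bd ζ l) a l
    rw [eq_sub_of_add_eq' (eq_sub_iff_add_eq.1 e)]
    refine Mem.sub ((hC l h hl).of_dvd ?_) (ctx.2 (hB (a :: l) (cons_mem (sub h)) (by simp [hl])))
    exact mul_dvd_mul (dvd_mul_right _ _) dvd_rfl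
  have b0 : ∀ l : List Γ, (∀ i ∈ l, i ∈ E) → bd (z3 E a ζ2) l = 0 := fun l h => by
    rw [← bd_zero (M := F) l]
    exact bd_congr fun l' hs _ => z3_of ha ζ2 fun i hi => h i (hs.subset hi)
  have b1 : ∀ l : List Γ, (∀ i ∈ l, i ∈ E) → bd (z3 E a ζ2) (a :: l) = -bd ζ2 l := fun l h => by
    rw [bd_cons, z3_of ha ζ2 h, zero_sub, neg_inj]
    exact bd_congr fun l' hs _ => if_pos ⟨rfl, fun i hi => h i (hs.subset hi)⟩
  have d3 : Deg w ⊤ (insert a E) c q (z3 E a ζ2) := fun l _ hl => by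
    cases l with
    | nil => exact Mem.zero
    | cons b l =>
      by_cases h : b = a ∧ ∀ i ∈ l, i ∈ E
      · rw [z3, if_pos h, h.1]; exact ctx.1 (k1 l h.2 hl)
      · rw [z3, if_neg h]; exact Mem.zero
  obtain ⟨ξ3, e3⟩ : ∃ ξ3 : List Γ → F, ξ3 = fun l => ξ l - bd ζ l + bd (z3 E a ζ2) l := ⟨_, rfl⟩
  have hA3 : Deg w ⊤ (insert a E) c (q + 1) ξ3 := fun l h hl => by
    rw [e3]; exact (hA l h hl).add (d3.bd l h hl)
  have hB3 : Deg w 𝔞 (insert a E) c (q + 1 + 1) (bd ξ3) := fun l h hl => by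
    rw [e3, bd_add, bd_bd, add_zero]; exact hB l h hl
  have hC3 : Deg w 𝔞 E c (q + 1) ξ3 := fun l h hl => by
    rw [e3]; beta_reduce; rw [b0 l h, add_zero]; exact hC l h hl
  have hD3 : ∀ l : List Γ, (∀ i ∈ l, i ∈ E) → l.length = q →
      Mem 𝔞 (c * ((a :: l).map w).prod) (ξ3 (a :: l)) := fun l h hl => by
    rw [e3]; beta_reduce; rw [b1 l h, ← sub_eq_add_neg]; exact ctx.1 (k2 l h hl)
  refine ⟨fun l => ζ l - z3 E a ζ2 l + if ∀ i ∈ l, i ∈ E then 0 else ξ3 (a :: l),
    fun l h hl => ?_, fun l h hl => ?_⟩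
  · have hl' : l.length = q := by omega
    refine ((hζ' l h hl').sub (d3 l h hl')).add ?_
    split_ifs with h1
    · exact Mem.zero
    · exact absorb (mem_of_not h h1) (List.Sublist.refl l) (hA3 _ (cons_mem h) (by simp [hl']))
  · have e : ξ l - bd (fun l => ζ l - z3 E a ζ2 l +
        if ∀ i ∈ l, i ∈ E then 0 else ξ3 (a :: l)) l =
        ξ3 l - bd (fun l => if ∀ i ∈ l, i ∈ E then 0 else ξ3 (a :: l)) l := by
      rw [bd_add, bd_sub, congrFun e3 l]; ring
    beta_reduce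
    rw [e]
    by_cases h1 : ∀ i ∈ l, i ∈ E
    · rw [bd_congr (g := fun _ => 0) fun l' hs _ => if_pos fun i hi => h1 i (hs.subset hi),
        bd_zero, sub_zero]
      exact hC3 l h1 hl
    · have hal := mem_of_not h h1
      have e' : ξ3 l - bd (fun l => if ∀ i ∈ l, i ∈ E then 0 else ξ3 (a :: l)) l =
          bd ξ3 (a :: l) +
            bd (fun l => ξ3 (a :: l) - if ∀ i ∈ l, i ∈ E then 0 else ξ3 (a :: l)) l := by
        rw [bd_cons, bd_sub]; ring
      rw [e']
      refine (absorb hal (List.Sublist.refl l) (hB3 _ (cons_mem h) (by simp [hl]))).add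
        (bd_mem (memSub F 𝔞 (c * (l.map w).prod)) fun l' hs hl' => ?_)
      split_ifs with h2
      · rw [sub_zero]; exact absorb hal hs (hD3 l' h2 (by omega))
      · rw [sub_self]; exact Mem.zero

open StepA in
theorem change (hV : S_vanish) : S_change := by
  classical
  intro Q F Γ _ _ _ _ w 𝔞 E E' c q ξ hE hr hξ h0
  have key : ∀ S : Set Γ, S.Finite → S ⊆ E' → Cob w 𝔞 (E ∪ S) c q ξ := by
    intro S hS
    induction S, hS using Set.Finite.induction_on with
    | empty => intro _; rwa [Set.union_empty]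
    | @insert a S _ _ ih =>
      intro hs
      have h1 := ih fun i hi => hs (Set.mem_insert_of_mem _ hi)
      have hsub : insert a (E ∪ S) ⊆ E' := by
        rw [← Set.union_insert]; exact Set.union_subset hE hs
      have hrad : w a ∈ (𝔞 ⊔ Ideal.span (w '' (E ∪ S))).radical :=
        Ideal.radical_mono (sup_le_sup_left (Ideal.span_mono
          (Set.image_mono Set.subset_union_left)) _) (hr a (hs (Set.mem_insert _ _)))
      rw [Set.union_insert]
      generalize E ∪ S = E1 at h1 hsub hrad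
      by_cases ha : a ∈ E1
      · rwa [Set.insert_eq_of_mem ha]
      obtain ⟨ζ, k1, k2⟩ := h1
      cases q with
      | zero =>
        refine ⟨ζ, fun l _ hl => by omega, fun l _ hl => k2 l ?_ hl⟩
        rw [List.length_eq_zero_iff.1 hl]; simp
      | succ q =>
        obtain ⟨c1, c2⟩ := step Q F Γ w 𝔞 E1 a c q ξ (fun l => if ∀ i ∈ l, i ∈ E1 then ζ l else 0)
          ha ⟨deg_mono hsub hξ.1, deg_mono hsub hξ.2⟩
          (fun l h hl => by beta_reduce; rw [if_pos h]; exact k1 l h (by omega))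
          (fun l h => if_neg h) (fun l h hl => by
            beta_reduce
            rw [bd_congr (g := ζ) fun l' hs _ => if_pos fun i hi => h i (hs.subset hi)]
            exact k2 l h hl)
        refine c2 ?_
        have dv : ∀ x : Q, w a ∣ c * w a * x := fun x => (dvd_mul_left _ _).mul_right _
        by_cases hz : algebraMap Q F (w a) = 0
        · have : ∀ (I : Ideal Q) (x : Q) (u : F), Mem I (c * w a * x) u := fun I x u =>
            cancel (N := 1) (dv x) (by rw [hz, pow_one, zero_mul]; exact Mem.zero)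
          exact ⟨fun _ => 0, fun _ _ _ => this _ _ _, fun _ _ _ => this _ _ _⟩
        obtain ⟨N, ζ2, j1, j2⟩ := hV.kill w 𝔞 E1 (c * w a) q _ (w a) hrad c1
        have hN : algebraMap Q F (w a) ^ N ≠ 0 := pow_ne_zero _ hz
        refine ⟨fun l => (algebraMap Q F (w a) ^ N)⁻¹ * ζ2 l, fun l h hl => ?_, fun l h hl => ?_⟩
        · refine cancel (N := N) (dv _) ?_
          rw [mul_inv_cancel_left₀ hN]
          exact j1 l h hl
        · refine cancel (N := N) (dv _) ?_
          beta_reduce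
          rw [bd_mul, mul_sub _ _ (_ * _), mul_inv_cancel_left₀ hN]
          exact j2 l h hl
  have := key E' (Set.toFinite _) subset_rfl
  rwa [Set.union_eq_self_of_subset_left hE] at this

end Pool.Agent.P.MP_e7d440_ag
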