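import Pool.Agent.P.MP_e7d440_ag.Iface

/-! Residual transcendence degree at a vertical prime of height one. -/

namespace Pool.Agent.P.MP_e7d440_ag

open IsLocalRing MvPolynomial

namespace TrA

theorem minimal {C : Type} [CommRing C] [IsDomain C] {𝔮 : Ideal C} [𝔮.IsPrime]
    (hh : 𝔮.height = 1) {a : C} (ha0 : a ≠ 0) {P : Ideal C} [P.IsPrime] (ha : a ∈ P)
    (hP : P ≤ 𝔮) : P = 𝔮 := by
  by_contra hne
  have h1 := Ideal.height_add_one_le_of_lt_of_isPrime (lt_of_le_of_ne hP hne)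
  have h2 := Ideal.height_add_one_le_of_lt_of_isPrime
    (bot_lt_iff_ne_bot.2 fun h : P = ⊥ => ha0 (by simpa [h] using ha))
  have h3 : (1 : ℕ∞) + 1 ≤ 1 := by
    calc (1 : ℕ∞) + 1 ≤ P.height + 1 := by
          gcongr
          exact le_add_self.trans h2
      _ ≤ 1 := hh ▸ h1
  exact absurd h3 (by decide)

theorem alg {A C : Type} [CommRing A] [CommRing C] [IsDomain A] [IsDomain C] [Algebra A C]
    [Algebra.FiniteType A C] [IsNoetherianRing C] (𝔮 : Ideal C) [hq : 𝔮.IsPrime]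
    (hh : 𝔮.height = 1) (a : A) (ha0 : algebraMap A C a ≠ 0) (ha : algebraMap A C a ∈ 𝔮)
    (hmax : ∀ P : Ideal C, P.IsPrime → 𝔮 ≤ P →
      P.comap (algebraMap A C) = 𝔮.comap (algebraMap A C) → P = 𝔮) : Algebra.IsAlgebraic A C := by
  have hfin := ((Ideal.span {algebraMap A C a}).finite_minimalPrimes_of_isNoetherianRing C).sdiff
    (t := {𝔮})
  have hcl : IsClosed (⋃ P ∈ (Ideal.span {algebraMap A C a}).minimalPrimes \ {𝔮},
      PrimeSpectrum.zeroLocus (P : Set C)) :=
    hfin.isClosed_biUnion fun P _ => PrimeSpectrum.isClosed_zeroLocus _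
  have hqf : Algebra.QuasiFiniteAt A 𝔮 := by
    refine Algebra.QuasiFiniteAt.of_isOpen_singleton_fiber ⟨𝔮, hq⟩
      (isOpen_induced_iff.2 ⟨_, hcl.isOpen_compl, Set.ext fun P => ?_⟩)
    simp only [Set.mem_preimage, Set.mem_compl_iff, Set.mem_iUnion, Set.mem_singleton_iff,
      PrimeSpectrum.mem_zeroLocus, SetLike.coe_subset_coe, exists_prop, not_exists, not_and]
    constructor
    · intro h
      have h1 : P.1.asIdeal.comap (algebraMap A C) = 𝔮.comap (algebraMap A C) :=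
        congrArg PrimeSpectrum.asIdeal P.2
      have h2 : algebraMap A C a ∈ P.1.asIdeal := by
        rw [← Ideal.mem_comap, h1]
        exact ha
      obtain ⟨Q, hQ, hQP⟩ := Ideal.exists_minimalPrimes_le
        ((Ideal.span_singleton_le_iff_mem _).2 h2)
      have h3 : Q = 𝔮 := by
        by_contra h3
        exact h Q ⟨hQ, h3⟩ hQP
      exact Subtype.ext (PrimeSpectrum.ext (hmax _ P.1.2 (h3 ▸ hQP) h1))
    · rintro rfl Q hQ hle
      have := hQ.1.1.1
      exact hQ.2 (minimal hh ha0 (hQ.1.1.2 (Ideal.mem_span_singleton_self _)) hle)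
  obtain ⟨r, hr, hri, h⟩ := Algebra.zariskisMainProperty_iff.1
    (Algebra.ZariskisMainProperty.of_finiteType (R := A) 𝔮)
  refine ⟨fun c => ?_⟩
  obtain ⟨m, hm⟩ := h c
  have hr0 : r ^ m ∈ nonZeroDivisors C :=
    mem_nonZeroDivisors_of_ne_zero (pow_ne_zero _ fun h0 => hr (h0 ▸ 𝔮.zero_mem))
  exact IsAlgebraic.of_mul hr0 (hri.pow m).isAlgebraic hm.isAlgebraic

theorem mem_adjoin {O k C D ι : Type} [CommRing O] [CommRing k] [CommRing C] [CommRing D]
    [Algebra O C] [Algebra O k] [Algebra O D] [Algebra k D] [IsScalarTower O k D]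
    (hk : Function.Surjective (algebraMap O k)) (φ : C →ₐ[O] D) (y : ι → C) (d : D) :
    d ∈ Algebra.adjoin k (Set.range fun i => φ (y i)) ↔
      ∃ a ∈ Algebra.adjoin O (Set.range y), φ a = d := by
  simp only [Algebra.adjoin_range_eq_range_aeval, AlgHom.mem_range]
  have h : ∀ F : MvPolynomial ι O,
      aeval (fun i => φ (y i)) (map (algebraMap O k) F) = φ (aeval y F) := fun F => by
    rw [aeval_map_algebraMap, comp_aeval_apply]
  constructor
  · rintro ⟨G, rfl⟩
    obtain ⟨F, rfl⟩ := map_surjective _ hk G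
    exact ⟨_, ⟨F, rfl⟩, (h F).symm⟩
  · rintro ⟨_, ⟨F, rfl⟩, rfl⟩
    exact ⟨_, h F⟩

end TrA

theorem tr : S_tr := by
  intro O C σ ν _ _ _ _ _ _ _ _ _ π 𝔮 s x hπ hinj hq hh hπq hint hx
  have hsurj : Function.Surjective (algebraMap O (O ⧸ 𝔮.under O)) := Ideal.Quotient.mk_surjective
  have hP : 𝔮.under O = Ideal.span {π} :=
    ((PrincipalIdealRing.isMaximal_of_irreducible hπ).eq_of_le Ideal.IsPrime.ne_top'
      ((Ideal.span_singleton_le_iff_mem _).2 hπq)).symm
  have halg : Algebra.IsAlgebraic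
      (Algebra.adjoin (O ⧸ 𝔮.under O) (Set.range fun i => Ideal.Quotient.mkₐ O 𝔮 (s i)))
      (C ⧸ 𝔮) := by
    refine ⟨fun d => ?_⟩
    obtain ⟨c, rfl⟩ := Ideal.Quotient.mk_surjective d
    refine IsIntegral.isAlgebraic ((hint c).map_of_comp_eq
      (((Ideal.Quotient.mk 𝔮).comp (Algebra.adjoin O (Set.range s)).val.toRingHom).codRestrict _
        fun a => (TrA.mem_adjoin hsurj _ s _).2 ⟨a.1, a.2, rfl⟩) (Ideal.Quotient.mk 𝔮) ?_)
    rfl
  obtain ⟨t, hts, ht⟩ := exists_isTranscendenceBasis_subset (R := O ⧸ 𝔮.under O)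
    (Set.range fun i => Ideal.Quotient.mkₐ O 𝔮 (s i))
  choose y hy using fun a : t => hts a.2
  have hy' : (fun a : t => Ideal.Quotient.mkₐ O 𝔮 (s (y a))) = Subtype.val := funext hy
  have hN : IsNoetherianRing C := Algebra.FiniteType.isNoetherianRing O C
  have hft : Algebra.FiniteType (Algebra.adjoin O (Set.range fun a => s (y a))) C :=
    Algebra.FiniteType.of_restrictScalars_finiteType O _ C
  have h1 : Algebra.IsAlgebraic (Algebra.adjoin O (Set.range fun a => s (y a))) C := by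
    refine TrA.alg 𝔮 hh (algebraMap O _ π) ?_ hπq fun P hP hle he => ?_
    · exact fun h0 => hπ.ne_zero (hinj (h0.trans (map_zero _).symm))
    · refine le_antisymm (fun c hc => ?_) hle
      by_contra hc'
      obtain ⟨d, hd, hd0⟩ := Submodule.exists_mem_ne_zero_of_ne_bot
        (Ideal.comap_ne_bot_of_algebraic_mem (I := P.map (Ideal.Quotient.mk 𝔮))
          (fun h0 => hc' (Ideal.Quotient.eq_zero_iff_mem.1 h0)) (Ideal.mem_map_of_mem _ hc)
          (ht.isAlgebraic.isAlgebraic (Ideal.Quotient.mk 𝔮 c)))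
      obtain ⟨a, ha, had⟩ := (TrA.mem_adjoin hsurj (Ideal.Quotient.mkₐ O 𝔮) (fun a => s (y a))
        d.1).1 (by
          rw [hy']
          exact d.2)
      have h2 : a ∈ P := by
        have h3 : Ideal.Quotient.mk 𝔮 a ∈ P.map (Ideal.Quotient.mk 𝔮) := by
          rw [show Ideal.Quotient.mk 𝔮 a = d.1 from had]
          exact hd
        exact (Ideal.mem_quotient_iff_mem hle).1 h3
      have h3 : (⟨a, ha⟩ : Algebra.adjoin O (Set.range fun a => s (y a))) ∈
          𝔮.comap (algebraMap _ C) := he ▸ h2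
      exact hd0 (Subtype.ext (had.symm.trans (Ideal.Quotient.eq_zero_iff_mem.2 h3)))
  obtain ⟨e⟩ := (Cardinal.le_def _ _).1 (hx.cardinalMk_le_trdeg.trans
    ((Algebra.IsAlgebraic.trdeg_le_cardinalMk O (Set.range fun a => s (y a))).trans
      Cardinal.mk_range_le))
  refine ⟨fun a => y (e a), fun F hF => ?_⟩
  have h2 : map (algebraMap O (O ⧸ 𝔮.under O)) F = 0 := by
    refine (algebraicIndependent_iff.1 (ht.1.comp e e.injective)) _ ?_
    rw [aeval_map_algebraMap, ← hy']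
    exact (comp_aeval_apply _ (Ideal.Quotient.mkₐ O 𝔮) F).symm.trans
      (Ideal.Quotient.eq_zero_iff_mem.2 hF)
  refine (C_dvd_iff_dvd_coeff _ _).2 fun i => ?_
  have h3 := congrArg (coeff i) h2
  rw [coeff_map, coeff_zero] at h3
  rw [← Ideal.mem_span_singleton, ← hP]
  exact Ideal.Quotient.eq_zero_iff_mem.1 h3

end Pool.Agent.P.MP_e7d440_ag
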