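import Pool.Agent.P.MP_e7d440_ag.Iface

/-! Normal Noetherian domains and valuation rings. -/

namespace Pool.Agent.P.MP_e7d440_ag

open IsLocalRing

namespace ValA

/-- An associated prime of a fractional principal ideal has height one. -/
theorem height_one {A K : Type} [CommRing A] [IsDomain A] [IsNoetherianRing A]
    [IsIntegrallyClosed A] [Field K] [Algebra A K] [IsFractionRing A K] {𝔮 : Ideal A}
    (h : 𝔮.IsPrime) (h0 : 𝔮 ≠ ⊥) (y : K)
    (hy : ∀ r, r ∈ 𝔮 ↔ ∃ a, algebraMap A K r * y = algebraMap A K a) : 𝔮.height = 1 := by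
  have inj := IsFractionRing.injective A K
  have h1 : ∃ t ∈ 𝔮, ∃ c, c ∉ 𝔮 ∧ algebraMap A K t * y = algebraMap A K c := by
    by_contra! hc
    have h2 : IsIntegral A y := by
      refine isIntegral_of_smul_mem_submodule (Submodule.map (Algebra.linearMap A K) 𝔮) ?_
        (Submodule.FG.map _ (IsNoetherian.noetherian _)) y ?_
      · obtain ⟨a, ha, ha0⟩ := (Submodule.ne_bot_iff _).1 h0
        exact (Submodule.ne_bot_iff _).2 ⟨_, ⟨a, ha, rfl⟩, (map_ne_zero_iff _ inj).2 ha0⟩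
      · rintro _ ⟨m, hm, rfl⟩
        obtain ⟨a, ha⟩ := (hy m).1 hm
        refine ⟨a, by_contra fun h3 => hc m hm a h3 ha, ?_⟩
        rw [smul_eq_mul, mul_comm]
        exact ha.symm
    obtain ⟨a, ha⟩ := IsIntegrallyClosed.algebraMap_eq_of_integral h2
    exact h.ne_top ((Ideal.eq_top_iff_one _).2 ((hy 1).2 ⟨a, by rw [map_one, one_mul, ha]⟩))
  obtain ⟨t, ht, c, hc, e⟩ := h1
  have h2 : 𝔮 ∈ (Ideal.span {t}).minimalPrimes := by
    refine ⟨⟨h, (Ideal.span_singleton_le_iff_mem _).2 ht⟩, fun p hp hle m hm => ?_⟩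
    obtain ⟨a, ha⟩ := (hy m).1 hm
    have h3 : c * m = a * t := inj (by
      rw [map_mul, map_mul, ← e, ← ha]
      ring)
    have h4 : c * m ∈ p := h3 ▸ p.mul_mem_left _ (hp.2 (Ideal.mem_span_singleton_self t))
    exact (hp.1.mem_or_mem h4).resolve_left fun h5 => hc (hle h5)
  exact le_antisymm (Ideal.height_le_one_of_isPrincipal_of_mem_minimalPrimes _ _ h2)
    (Order.one_le_iff_ne_zero.2 (Ideal.height_eq_zero_iff_eq_bot.not.2 h0))

theorem hart (hB : S_basic) {A K : Type} [CommRing A] [IsDomain A] [IsNoetherianRing A]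
    [IsIntegrallyClosed A] [Field K] [Algebra A K] [IsFractionRing A K] (t : A) (γ : K)
    (h : ∀ 𝔮 : Ideal A, 𝔮.IsPrime → 𝔮.height = 1 → t ∉ 𝔮 → loc (algebraMap A K) 𝔮 γ) :
    ∃ (N : ℕ) (a : A), algebraMap A K t ^ N * γ = algebraMap A K a := by
  let I : Ideal A :=
    { carrier := {r | ∃ a, algebraMap A K r * γ = algebraMap A K a}
      add_mem' := by
        rintro r s ⟨a, ha⟩ ⟨b, hb⟩
        exact ⟨a + b, by rw [map_add, map_add, add_mul, ha, hb]⟩
      zero_mem' := ⟨0, by simp⟩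
      smul_mem' := by
        rintro c r ⟨a, ha⟩
        exact ⟨c * a, by rw [smul_eq_mul, map_mul, map_mul, mul_assoc, ha]⟩ }
  have hI : I ≠ ⊥ := by
    obtain ⟨⟨a, b⟩, hab⟩ := IsLocalization.surj (nonZeroDivisors A) γ
    exact (Submodule.ne_bot_iff _).2 ⟨b, ⟨a, by rw [mul_comm]; exact hab⟩,
      nonZeroDivisors.ne_zero b.2⟩
  have ht : t ∈ I.radical := by
    rw [← Ideal.sInf_minimalPrimes, Submodule.mem_sInf]
    intro 𝔮 hq
    by_contra htq
    obtain ⟨hp, g, hg⟩ := hB.minAss hq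
    have h1 : Ideal.height 𝔮 = 1 := by
      refine height_one hp (fun h0 => hI (eq_bot_iff.2 (h0 ▸ hq.1.2))) (algebraMap A K g * γ)
        fun r => ?_
      rw [hg, ← mul_assoc, ← map_mul]
      rfl
    obtain ⟨a, b, hb, e⟩ := h 𝔮 hp h1 htq
    exact hb (hq.1.2 ⟨a, by rw [mul_comm]; exact e⟩)
  obtain ⟨N, a, ha⟩ := ht
  exact ⟨N, a, by rw [← map_pow]; exact ha⟩

theorem dvr {A K : Type} [CommRing A] [IsDomain A] [IsNoetherianRing A] [IsIntegrallyClosed A]
    [Field K] [Algebra A K] [IsFractionRing A K] (𝔮 : Ideal A) (hp : 𝔮.IsPrime)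
    (h1 : 𝔮.height = 1) :
    ∃ V : ValuationSubring K, (∀ γ, γ ∈ V ↔ loc (algebraMap A K) 𝔮 γ) ∧
      ∀ a, algebraMap A K a ∈ V.nonunits ↔ a ∈ 𝔮 := by
  have inj := IsFractionRing.injective A K
  let R := Localization.AtPrime 𝔮
  have hle : 𝔮.primeCompl ≤ nonZeroDivisors A := 𝔮.primeCompl_le_nonZeroDivisors
  let : Algebra R K := IsLocalization.localizationAlgebraOfSubmonoidLe R K _ _ hle
  have : IsScalarTower A R K :=
    IsLocalization.localization_isScalarTower_of_submonoid_le R K _ _ hle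
  have : IsFractionRing R K :=
    IsFractionRing.isFractionRing_of_isDomain_of_isLocalization 𝔮.primeCompl R K
  have h2 : IsIntegrallyClosed R := isIntegrallyClosed_of_isLocalization R _ hle
  have h3 : Ring.KrullDimLE 1 R := Ring.krullDimLE_iff.2 (by
    rw [IsLocalization.AtPrime.ringKrullDim_eq_height 𝔮 R, h1]
    rfl)
  have : ValuationRing R :=
    ((tfae_of_isNoetherianRing_of_isLocalRing_of_isDomain R).out 3 1).1
      (And.intro h2 fun (P : Ideal R) (hP : P ≠ ⊥) (hP' : P.IsPrime) => eq_maximalIdeal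
        (Ring.krullDimLE_one_iff_of_noZeroDivisors.1 h3 P hP hP'))
  let V : ValuationSubring K := ⟨(algebraMap R K).range, ValuationRing.isInteger_or_isInteger R⟩
  have hV : ∀ γ, γ ∈ V ↔ loc (algebraMap A K) 𝔮 γ := fun γ => by
    constructor
    · rintro ⟨r, rfl⟩
      obtain ⟨⟨a, b⟩, hab⟩ := IsLocalization.surj 𝔮.primeCompl r
      refine ⟨a, b, b.2, ?_⟩
      rw [IsScalarTower.algebraMap_apply A R K, IsScalarTower.algebraMap_apply A R K, ← map_mul,
        hab]
    · rintro ⟨a, b, hb, e⟩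
      refine ⟨IsLocalization.mk' R a (⟨b, hb⟩ : 𝔮.primeCompl), ?_⟩
      have hb0 : algebraMap A K b ≠ 0 := (map_ne_zero_iff _ inj).2 fun h0 => hb (h0 ▸ 𝔮.zero_mem)
      refine mul_right_cancel₀ hb0 ?_
      rw [e, IsScalarTower.algebraMap_apply A R K, IsScalarTower.algebraMap_apply A R K, ← map_mul]
      exact congrArg _ (IsLocalization.mk'_spec R a (⟨b, hb⟩ : 𝔮.primeCompl))
  refine ⟨V, hV, fun a => ?_⟩
  rw [ValuationSubring.mem_nonunits_iff_or, hV]
  constructor
  · rintro (h | h)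
    · rw [(map_eq_zero_iff _ inj).1 h]
      exact 𝔮.zero_mem
    · by_contra ha
      exact h (loc_inv _ (by rw [(RingHom.injective_iff_ker_eq_bot _).1 inj]; exact bot_le) ha)
  · intro ha
    refine or_iff_not_imp_left.2 fun h0 ⟨c, b, hb, e⟩ => hb ?_
    have : b = a * c := inj (by rw [map_mul, ← e, mul_inv_cancel_left₀ h0])
    rw [this]
    exact 𝔮.mul_mem_right _ ha

theorem center {Q L : Type} [CommRing Q] [Field L] (φ : Q →+* L) (𝔓 : Ideal Q) (hp : 𝔓.IsPrime)
    (hk : RingHom.ker φ ≤ 𝔓) :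
    ∃ V : ValuationSubring L, (∀ g, φ g ∈ V) ∧ ∀ g, φ g ∈ V.nonunits ↔ g ∈ 𝔓 := by
  let R := Localization.AtPrime 𝔓
  have hu : ∀ b : 𝔓.primeCompl, IsUnit (φ b) := fun b =>
    isUnit_iff_ne_zero.2 fun h0 => b.2 (hk h0)
  let f : R →+* L := IsLocalization.lift hu
  have hf : ∀ g, f (algebraMap Q R g) = φ g := IsLocalization.lift_eq hu
  obtain ⟨V, hV, hl⟩ := IsLocalRing.exists_factor_valuationRing f
  refine ⟨V, fun g => hf g ▸ hV _, fun g => ?_⟩
  rw [← hf, ← IsLocalization.AtPrime.to_map_mem_maximal_iff R 𝔓 g]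
  refine (ValuationSubring.coe_mem_nonunits_iff (a := ⟨_, hV _⟩)).trans ?_
  rw [mem_maximalIdeal, mem_maximalIdeal, mem_nonunits_iff, mem_nonunits_iff]
  exact (isUnit_map_iff (f.codRestrict V.toSubring hV) _).not

theorem locN {P Q L : Type} [CommRing P] [CommRing Q] [Field L] [Algebra P Q] (M : Submonoid P)
    [IsLocalization M Q] (φ : Q →+* L)
    (h : ∀ θ, (φ.comp (algebraMap P Q)).IsIntegralElem θ → ∃ p, φ (algebraMap P Q p) = θ)
    (θ : L) (hθ : φ.IsIntegralElem θ) : ∃ g, φ g = θ := by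
  let := φ.toAlgebra
  let := (φ.comp (algebraMap P Q)).toAlgebra
  have : IsScalarTower P Q L := .of_algebraMap_eq fun _ => rfl
  obtain ⟨m, hm⟩ := IsIntegral.exists_multiple_integral_of_isLocalization M θ hθ
  obtain ⟨p, hp⟩ := h _ hm
  refine ⟨IsLocalization.mk' Q p m, ?_⟩
  refine ((IsLocalization.map_units Q m).map φ).mul_right_cancel ?_
  rw [← map_mul, IsLocalization.mk'_spec, hp, mul_comm]
  exact Algebra.smul_def (m : P) θ

theorem closedIn {Q L : Type} [CommRing Q] [Field L] (φ : Q →+* L)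
    (h : ∀ θ, φ.IsIntegralElem θ → ∃ g, φ g = θ) : IsIntegrallyClosedIn φ.range L := by
  refine Subring.isIntegrallyClosedIn_iff.2 fun {x} hx => h x ?_
  let := φ.toAlgebra
  let := φ.rangeRestrict.toAlgebra
  have : IsScalarTower Q φ.range L := .of_algebraMap_eq fun _ => rfl
  have : Algebra.IsIntegral Q φ.range :=
    Algebra.isIntegral_of_surjective φ.rangeRestrict_surjective
  exact isIntegral_trans (R := Q) x hx

theorem mem {Q L : Type} [CommRing Q] [Field L] (φ : Q →+* L)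
    (h : ∀ θ, φ.IsIntegralElem θ → ∃ g, φ g = θ) (w : Q) (γ : L) (hw : φ w ≠ 0)
    (hγ : ∀ V : ValuationSubring L, (∀ g, φ g ∈ V) → (φ w)⁻¹ ∈ V → γ ∈ V) :
    ∃ (N : ℕ) (g : Q), φ w ^ N * γ = φ g := by
  let R := Localization.Away w
  have hu : ∀ b : Submonoid.powers w, IsUnit (φ b) := by
    rintro ⟨_, n, rfl⟩
    exact isUnit_iff_ne_zero.2 (by rw [map_pow]; exact pow_ne_zero _ hw)
  let f : R →+* L := IsLocalization.lift hu
  have hf : ∀ g, f (algebraMap Q R g) = φ g := IsLocalization.lift_eq hu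
  have hf' : f.comp (algebraMap Q R) = φ := RingHom.ext hf
  have := closedIn f (locN (Submonoid.powers w) f (by simpa only [hf', hf] using h))
  have h1 : γ ∈ f.range := by
    by_contra h1
    obtain ⟨V, hV, hV'⟩ := Subring.exists_le_valuationSubring_of_isIntegrallyClosedIn h1
    refine hV' (hγ V (fun g => hV ⟨_, hf g⟩) (hV ⟨IsLocalization.Away.invSelf w, ?_⟩))
    refine eq_inv_of_mul_eq_one_right ?_
    rw [← hf, ← map_mul, IsLocalization.Away.mul_invSelf, map_one]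
  obtain ⟨r, rfl⟩ := h1
  obtain ⟨⟨g, _, N, rfl⟩, e⟩ := IsLocalization.surj (Submonoid.powers w) r
  refine ⟨N, g, ?_⟩
  rw [← map_pow, ← hf, ← hf, ← map_mul, mul_comm]
  exact congrArg f e

theorem quot {R L : Type} [CommRing R] [IsLocalRing R] [IsNoetherianRing R] [Field L]
    (φ : R →+* L) [(RingHom.ker φ).IsPrime] (h : ∀ θ, φ.IsIntegralElem θ → ∃ g, φ g = θ)
    (hc : Covers (RingHom.ker φ) (maximalIdeal R)) :
    IsDiscreteValuationRing (R ⧸ RingHom.ker φ) := by
  have hs := Ideal.Quotient.mk_surjective (I := RingHom.ker φ)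
  have : IsLocalRing (R ⧸ RingHom.ker φ) := .of_surjective' _ hs
  let := φ.toAlgebra
  let := φ.kerLift.toAlgebra
  have : IsScalarTower R (R ⧸ RingHom.ker φ) L := .of_algebraMap_eq fun _ => rfl
  have : IsIntegrallyClosedIn (R ⧸ RingHom.ker φ) L := by
    refine isIntegrallyClosedIn_iff.2 ⟨φ.kerLift_injective, fun {x} hx => ?_⟩
    obtain ⟨g, hg⟩ := h x (isIntegral_trans (R := R) x hx)
    exact ⟨Ideal.Quotient.mk _ g, hg⟩
  have : FaithfulSMul (R ⧸ RingHom.ker φ) L :=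
    (faithfulSMul_iff_algebraMap_injective _ _).2 φ.kerLift_injective
  have h1 : IsIntegrallyClosed (R ⧸ RingHom.ker φ) :=
    IsIntegrallyClosed.of_isIntegrallyClosedIn _ L
  have h2 : maximalIdeal (R ⧸ RingHom.ker φ) ≠ ⊥ := by
    obtain ⟨a, ha, ha'⟩ := SetLike.exists_of_lt hc.1
    refine (Submodule.ne_bot_iff _).2 ⟨Ideal.Quotient.mk _ a, ?_,
      Ideal.Quotient.eq_zero_iff_mem.not.2 ha'⟩
    have := IsLocalHom.of_surjective _ hs
    exact fun hu => ha ((isUnit_map_iff _ a).1 hu)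
  have h3 : ∀ P : Ideal (R ⧸ RingHom.ker φ), P ≠ ⊥ → P.IsPrime → P = maximalIdeal _ := by
    intro P hP hP'
    have h4 : RingHom.ker φ ≤ P.comap (Ideal.Quotient.mk _) := fun a ha => by
      rw [Ideal.mem_comap, Ideal.Quotient.eq_zero_iff_mem.2 ha]
      exact P.zero_mem
    rcases hc.2 _ (Ideal.comap_isPrime _ P) h4
      (le_maximalIdeal (Ideal.comap_isPrime _ P).ne_top) with h5 | h5
    · refine (hP (eq_bot_iff.2 fun a ha => ?_)).elim
      obtain ⟨a, rfl⟩ := hs a
      exact Ideal.Quotient.eq_zero_iff_mem.2 (h5.le ha)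
    · refine le_antisymm (le_maximalIdeal hP'.ne_top) fun a ha => ?_
      obtain ⟨a, rfl⟩ := hs a
      exact h5.ge fun hu => ha (hu.map _)
  have : IsPrincipalIdealRing (R ⧸ RingHom.ker φ) :=
    ((tfae_of_isNoetherianRing_of_isLocalRing_of_isDomain _).out 3 0).1 (And.intro h1 h3)
  exact { not_a_field' := h2 }

end ValA

theorem vals (hB : S_basic) : S_val where
  hart := ValA.hart hB
  dvr := ValA.dvr
  center := ValA.center
  mem := ValA.mem
  locN := ValA.locN
  quot := ValA.quot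

end Pool.Agent.P.MP_e7d440_ag
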