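import Pool.Agent.P.MP_e7d440_ag.Bd

/-! Cech classes are killed by powers of elements of the radical; vanishing below the depth. -/

namespace Pool.Agent.P.MP_e7d440_ag

namespace VanishA

variable {Q F Γ : Type} [CommRing Q] [Field F] [Algebra Q F] {𝔞 : Ideal Q} {c : Q}
  {w : Γ → Q} {E : Set Γ} {q : ℕ} {ξ : List Γ → F}

lemma ev {x y : Q} {u : F} (h : Mem 𝔞 (x * y) u) :
    ∀ᶠ N in Filter.atTop, Mem 𝔞 y (algebraMap Q F x ^ N * u) := by
  obtain ⟨N, a, ha, e⟩ := h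
  filter_upwards [Filter.eventually_ge_atTop N] with N' hN
  obtain ⟨k, rfl⟩ := Nat.exists_eq_add_of_le hN
  refine ⟨N, x ^ k * a, 𝔞.mul_mem_left _ ha, ?_⟩
  rw [map_mul, map_pow, ← e, map_mul]
  ring

lemma evAll [Finite Γ] {i : Γ} (hi : i ∈ E) {n : ℕ} {u : List Γ → F}
    (h : Deg w 𝔞 E c n u) : ∀ᶠ N in Filter.atTop, ∀ l : List Γ, (∀ j ∈ l, j ∈ E) →
      l.length + 1 = n → Mem 𝔞 (c * (l.map w).prod) (algebraMap Q F (w i) ^ N * u (i :: l)) := by
  have hf : {l : List Γ | (∀ j ∈ l, j ∈ E) ∧ l.length + 1 = n}.Finite :=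
    (List.finite_length_eq Γ (n - 1)).subset fun l hl => by
      have := hl.2
      simp only [Set.mem_ofPred_eq]
      omega
  have h1 := (Filter.eventually_all_finite hf (l := Filter.atTop) (p := fun l (N : ℕ) =>
    Mem 𝔞 (c * (l.map w).prod) (algebraMap Q F (w i) ^ N * u (i :: l)))).2 fun l hl => by
      have h2 := h (i :: l) (List.forall_mem_cons.2 ⟨hi, hl.1⟩) hl.2
      rw [List.map_cons, List.prod_cons, mul_left_comm] at h2
      exact ev h2
  exact h1.mono fun N hN l h2 h3 => hN l ⟨h2, h3⟩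

/-- The elements killing the class of `ξ`. -/
def ann (w : Γ → Q) (𝔞 : Ideal Q) (E : Set Γ) (c : Q) (q : ℕ) (ξ : List Γ → F) : Ideal Q where
  carrier := {t | Cob w 𝔞 E c q fun l => algebraMap Q F t * ξ l}
  zero_mem' := ⟨fun _ => 0, fun _ _ _ => Mem.zero, fun l _ _ => by simpa using Mem.zero⟩
  add_mem' := by
    rintro s t ⟨ζ, h1, h2⟩ ⟨ζ', h3, h4⟩
    refine ⟨fun l => ζ l + ζ' l, fun l hE hl => (h1 l hE hl).add (h3 l hE hl),
      fun l hE hl => ?_⟩
    have := (h2 l hE hl).add (h4 l hE hl)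
    convert this using 1
    simp only [bd_add, map_add]
    ring
  smul_mem' := by
    rintro s t ⟨ζ, h1, h2⟩
    refine ⟨fun l => algebraMap Q F s * ζ l, fun l hE hl => (h1 l hE hl).smul s,
      fun l hE hl => ?_⟩
    have := (h2 l hE hl).smul s
    convert this using 1
    simp only [bd_mul, smul_eq_mul, map_mul]
    ring

lemma kill [Finite Γ] {t : Q} (ht : t ∈ (𝔞 ⊔ Ideal.span (w '' E)).radical)
    (h : Coc w 𝔞 E c q ξ) : ∃ N : ℕ, Cob w 𝔞 E c q (fun l => algebraMap Q F t ^ N * ξ l) := by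
  have h1 : 𝔞 ⊔ Ideal.span (w '' E) ≤ (ann w 𝔞 E c q ξ).radical := by
    refine sup_le (fun a ha => Ideal.le_radical ?_) (Ideal.span_le.2 ?_)
    · exact ⟨fun _ => 0, fun _ _ _ => Mem.zero, fun l hE hl => by
        simpa using (Mem.of_mem ha).mul (h.1 l hE hl)⟩
    · rintro _ ⟨i, hi, rfl⟩
      obtain ⟨N, h2, h3⟩ := ((evAll hi h.1).and (evAll hi h.2)).exists
      refine ⟨N, fun l => algebraMap Q F (w i) ^ N * ξ (i :: l), h2, fun l hE hl => ?_⟩
      have := h3 l hE (by rw [hl])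
      convert this using 1
      simp only [bd_mul, bd_cons, map_pow]
      ring
  obtain ⟨N, hN⟩ := Ideal.radical_le_radical_iff.2 h1 ht
  exact ⟨N, by simp only [← map_pow]; exact hN⟩

lemma cancel (hinj : Function.Injective (algebraMap Q F)) {t : Q} (ht : NZD 𝔞 t) {u : F}
    (h : Mem 𝔞 c (algebraMap Q F t * u)) (h' : Mem ⊤ c u) : Mem 𝔞 c u := by
  obtain ⟨N, a, ha, e⟩ := h
  obtain ⟨M, b, -, e'⟩ := h'
  have h1 : t * (c ^ N * b) = c ^ M * a := hinj (by
    simp only [map_mul, map_pow]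
    rw [← e, ← e']
    ring)
  refine ⟨N + M, c ^ N * b, ht _ (h1 ▸ 𝔞.mul_mem_left _ ha), ?_⟩
  rw [map_mul, map_pow, ← e']
  ring

lemma split {t : Q} {u : F} (h : Mem (𝔞 ⊔ Ideal.span {t}) c u) :
    ∃ v, Mem ⊤ c v ∧ Mem 𝔞 c (u - algebraMap Q F t * v) := by
  obtain ⟨N, a, ha, e⟩ := h
  by_cases h0 : algebraMap Q F c = 0
  · exact ⟨0, Mem.zero, 1, 0, 𝔞.zero_mem, by simp [h0]⟩
  obtain ⟨b, hb, d, hd, rfl⟩ := Submodule.mem_sup.1 ha
  obtain ⟨g, rfl⟩ := Ideal.mem_span_singleton'.1 hd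
  have h1 : algebraMap Q F c ^ N * (algebraMap Q F g / algebraMap Q F c ^ N) =
      algebraMap Q F g := mul_div_cancel₀ _ (pow_ne_zero _ h0)
  refine ⟨algebraMap Q F g / algebraMap Q F c ^ N, ⟨N, g, trivial, h1⟩, N, b, hb, ?_⟩
  rw [map_add, map_mul] at e
  linear_combination e - algebraMap Q F t * h1

lemma coc_smul (h : Coc w 𝔞 E c q ξ) (t : Q) :
    Coc w 𝔞 E c q fun l => algebraMap Q F t * ξ l :=
  ⟨fun l hE hl => (h.1 l hE hl).smul t, fun l hE hl => by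
    rw [bd_mul]; exact (h.2 l hE hl).smul t⟩

lemma claim (hinj : Function.Injective (algebraMap Q F)) {t : Q} (ht : NZD 𝔞 t)
    (ih : ∀ q' ζ, q = q' + 1 → Coc w (𝔞 ⊔ Ideal.span {t}) E c q' ζ →
      Cob (F := F) w (𝔞 ⊔ Ideal.span {t}) E c q' ζ)
    (h : Coc w 𝔞 E c q ξ) (h' : Cob w 𝔞 E c q fun l => algebraMap Q F t * ξ l) :
    Cob w 𝔞 E c q ξ := by
  obtain ⟨ζ, h1, h2⟩ := h'
  cases q with
  | zero =>
    refine ⟨fun _ => 0, fun _ _ _ => Mem.zero, fun l hE hl => ?_⟩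
    have h3 := h2 l hE hl
    have h4 := h.1 l hE hl
    obtain rfl := List.length_eq_zero_iff.1 hl
    simp only [bd_nil, sub_zero] at h3 ⊢
    exact cancel hinj ht h3 h4
  | succ q =>
    have d1 : Deg w ⊤ E c q ζ := fun l hE hl => h1 l hE (by rw [hl])
    obtain ⟨ζ', -, h3⟩ := ih q ζ rfl ⟨d1, fun l hE hl => by
      have h4 : Mem (𝔞 ⊔ Ideal.span {t}) (c * (l.map w).prod) (algebraMap Q F t * ξ l) :=
        (Mem.of_mem (Ideal.mem_sup_right (Ideal.mem_span_singleton_self t))).mul (h.1 l hE hl)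
      simpa using h4.sub ((h2 l hE hl).mono le_sup_left)⟩
    have h4 : ∀ l : List Γ, ∃ v : F, (∀ i ∈ l, i ∈ E) → l.length = q →
        Mem ⊤ (c * (l.map w).prod) v ∧
          Mem 𝔞 (c * (l.map w).prod) (ζ l - bd ζ' l - algebraMap Q F t * v) := by
      intro l
      by_cases hc : (∀ i ∈ l, i ∈ E) ∧ l.length = q
      · obtain ⟨v, hv⟩ := split (h3 l hc.1 hc.2)
        exact ⟨v, fun _ _ => hv⟩
      · exact ⟨0, fun a b => absurd ⟨a, b⟩ hc⟩
    choose v hv using h4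
    have d2 : Deg w ⊤ E c q v := fun l hE hl => (hv l hE hl).1
    have d3 : Deg w 𝔞 E c q fun l => ζ l - bd ζ' l - algebraMap Q F t * v l :=
      fun l hE hl => (hv l hE hl).2
    refine ⟨v, fun l hE hl => d2 l hE (by omega), fun l hE hl =>
      cancel hinj ht ?_ ((h.1 l hE hl).sub (d2.bd l hE hl))⟩
    have := (h2 l hE hl).add (d3.bd l hE hl)
    convert this using 1
    rw [bd_sub, bd_sub, bd_bd, bd_mul]
    ring

lemma van [Finite Γ] (hinj : Function.Injective (algebraMap Q F)) (r : List Q) :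
    ∀ (𝔞 : Ideal Q) (q : ℕ) (ξ : List Γ → F), RegSeq 𝔞 r →
      (∀ t ∈ r, t ∈ (𝔞 ⊔ Ideal.span (w '' E)).radical) → q < r.length →
      Coc w 𝔞 E c q ξ → Cob w 𝔞 E c q ξ := by
  induction r with
  | nil => intro _ _ _ _ _ h; simp at h
  | cons t r ih =>
    intro 𝔞 q ξ hr hrad hq h
    obtain ⟨N, hN⟩ := kill (hrad t List.mem_cons_self) h
    induction N with
    | zero => simpa using hN
    | succ N ihN =>
      refine ihN ?_
      have h1 := coc_smul h (t ^ N)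
      rw [map_pow] at h1
      refine claim hinj hr.1 (fun q' ζ e hζ => ih _ q' ζ hr.2 (fun s hs => ?_) ?_ hζ) h1 ?_
      · exact Ideal.radical_mono (sup_le_sup_right le_sup_left _)
          (hrad s (List.mem_cons_of_mem _ hs))
      · rw [List.length_cons] at hq
        omega
      · simpa only [pow_succ', mul_assoc] using hN

end VanishA

theorem vanish : S_vanish :=
  ⟨fun _ _ _ _ _ _ _ ht h => VanishA.kill ht h,
    fun hinj _ 𝔞 _ _ q ξ r h1 h2 h3 h4 => VanishA.van hinj r 𝔞 q ξ h1 h2 h3 h4⟩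

end Pool.Agent.P.MP_e7d440_ag
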