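import Pool.Agent.P.MP_e7d440_ag.Iface

/-! Wiebe's theorem. -/

namespace Pool.Agent.P.MP_e7d440_ag

open IsLocalRing Matrix

namespace WiebeA

variable {R ν : Type} [CommRing R] [Fintype ν] [DecidableEq ν]

/-- The span of the Koszul relations. -/
def Kz (g : ν → R) : Submodule R (ν → R) :=
  Submodule.span R {v | ∃ j k, v = g j • (Pi.single k 1 : ν → R) - g k • Pi.single j 1}

theorem comb (g : ν → R) (l : List ν) {x : R} (hx : x ∈ Ideal.ofList (l.map g)) :
    ∃ c : ν → R, (∀ j, j ∉ l → c j = 0) ∧ x = ∑ j, c j * g j := by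
  induction hx using Submodule.span_induction with
  | mem x hx =>
    obtain ⟨j, hj, rfl⟩ := List.mem_map.1 hx
    exact ⟨Pi.single j 1, fun k hk => Pi.single_eq_of_ne (fun e : k = j => hk (e ▸ hj)) 1, by
      simp [Pi.single_apply]⟩
  | zero => exact ⟨0, fun _ _ => rfl, by simp⟩
  | add x y _ _ hx hy =>
    obtain ⟨c, hc, rfl⟩ := hx
    obtain ⟨c', hc', rfl⟩ := hy
    exact ⟨c + c', fun j hj => by simp [hc j hj, hc' j hj], by
      simp [add_mul, Finset.sum_add_distrib]⟩
  | smul r x _ hx =>
    obtain ⟨c, hc, rfl⟩ := hx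
    exact ⟨r • c, fun j hj => by simp [hc j hj], by simp [Finset.mul_sum, mul_assoc]⟩

theorem syz (hB : S_basic) (g : ν → R) (l : List ν) (hl : l.Nodup) (hr : RegSeq ⊥ (l.map g))
    (a : ν → R) (ha : ∀ j, j ∉ l → a j = 0) (h0 : ∑ j, a j * g j = 0) : a ∈ Kz g := by
  induction l using List.reverseRecOn generalizing a with
  | nil =>
    have : a = 0 := funext fun j => ha j (by simp)
    rw [this]; exact zero_mem _
  | append_singleton l i ih =>
    rw [List.map_append, hB.regAppend] at hr
    have hi : i ∉ l := fun h => by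
      have := List.disjoint_of_nodup_append hl h
      simp at this
    have h1 : g i * a i ∈ ⊥ ⊔ Ideal.ofList (l.map g) := by
      rw [← Finset.add_sum_erase _ _ (Finset.mem_univ i), add_eq_zero_iff_eq_neg] at h0
      rw [mul_comm, h0, bot_sup_eq]
      refine neg_mem (Ideal.sum_mem _ fun j hj => ?_)
      by_cases hj' : j ∈ l
      · exact Ideal.mul_mem_left _ _ (Ideal.subset_span (List.mem_map.2 ⟨j, hj', rfl⟩))
      · rw [ha j (by simp [hj', Finset.ne_of_mem_erase hj]), zero_mul]; exact zero_mem _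
    have h2 := hr.2.1 _ h1
    rw [bot_sup_eq] at h2
    obtain ⟨c, hc, hac⟩ := comb g l h2
    have h3 : a i • (Pi.single i 1 : ν → R) - g i • c ∈ Kz g := by
      have : a i • (Pi.single i 1 : ν → R) - g i • c =
          ∑ j, c j • (g j • (Pi.single i 1 : ν → R) - g i • Pi.single j 1) := by
        ext k
        simp [hac, Finset.sum_apply, mul_sub, Finset.sum_sub_distrib, Pi.single_apply,
          mul_comm]
      rw [this]
      exact Submodule.sum_mem _ fun j _ =>
        Submodule.smul_mem _ _ (Submodule.subset_span ⟨j, i, rfl⟩)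
    have h4 := ih (List.Nodup.of_append_left hl) hr.1
      (a - (a i • (Pi.single i 1 : ν → R) - g i • c)) (fun j hj => by
        by_cases e : j = i
        · subst e; simp [hc j hj]
        · simp [hc j hj, Pi.single_eq_of_ne e, ha j (by simp [hj, e])]) (by
        simp only [Pi.sub_apply, Pi.smul_apply, smul_eq_mul, sub_mul, Finset.sum_sub_distrib, h0,
          mul_assoc, ← Finset.mul_sum, ← hac]
        simp [Pi.single_apply, mul_comm])
    simpa using add_mem h4 h3

omit [DecidableEq ν] in
theorem mem_sp (h : ν → R) (c : ν → R) : ∑ j, c j * h j ∈ sp h :=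
  Ideal.sum_mem _ fun j _ => Ideal.mul_mem_left _ _ (Ideal.subset_span ⟨j, rfl⟩)

theorem w0 {g : ν → R} (U : Matrix ν ν R) (i : ν) {a : ν → R} (ha : a ∈ Kz g) :
    (U.updateRow i a).det ∈ sp (U *ᵥ g) := by
  induction ha using Submodule.span_induction with
  | mem x hx =>
    obtain ⟨j, k, rfl⟩ := hx
    rw [sub_eq_add_neg, ← neg_smul, det_updateRow_add, det_updateRow_smul, det_updateRow_smul]
    have h1 := congrFun (mulVec_mulVec g (adjugate (U.updateRow i (Pi.single k 1)))
      (U.updateRow i (Pi.single k 1))) j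
    rw [adjugate_mul, smul_mulVec, one_mulVec, mulVec, dotProduct,
      ← Finset.add_sum_erase _ _ (Finset.mem_univ i), adjugate_apply, updateRow_idem] at h1
    have h2 : (U.updateRow i (Pi.single k 1) *ᵥ g) i = g k := by simp [mulVec]
    have h3 : ∑ l ∈ Finset.univ.erase i, (adjugate (U.updateRow i (Pi.single k 1))) j l *
        (U.updateRow i (Pi.single k 1) *ᵥ g) l ∈ sp (U *ᵥ g) :=
      Ideal.sum_mem _ fun l hl => Ideal.mul_mem_left _ _ (Ideal.subset_span ⟨l, by
        simp [mulVec, updateRow_ne (Finset.ne_of_mem_erase hl)]⟩)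
    rw [h2, Pi.smul_apply, smul_eq_mul] at h1
    convert h3 using 1
    linear_combination -h1
  | zero => rw [det_eq_zero_of_row_eq_zero i (by simp)]; exact zero_mem _
  | add x y _ _ hx hy => rw [det_updateRow_add]; exact add_mem hx hy
  | smul r x _ hx => rw [det_updateRow_smul]; exact Ideal.mul_mem_left _ _ hx

theorem w1 {g : ν → R} (hg : ∀ a : ν → R, ∑ j, a j * g j = 0 → a ∈ Kz g) (U' : Matrix ν ν R)
    (s : Finset ν) (U : Matrix ν ν R) (h : U *ᵥ g = U' *ᵥ g) (hs : ∀ r, r ∉ s → U r = U' r) :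
    U.det - U'.det ∈ sp (U' *ᵥ g) := by
  induction s using Finset.induction_on generalizing U with
  | empty =>
    have : U = U' := funext fun r => hs r (by simp)
    rw [this, sub_self]; exact zero_mem _
  | insert i s _ ih =>
    have h1 : U.updateRow i (U' i) *ᵥ g = U' *ᵥ g := by
      ext r
      by_cases e : r = i
      · subst e; simp [mulVec]
      · rw [← h]; simp [mulVec, updateRow_ne e]
    have h2 := ih (U.updateRow i (U' i)) h1 fun r hr => by
      by_cases e : r = i
      · subst e; simp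
      · rw [updateRow_ne e, hs r (by simp [e, hr])]
    have h3 := w0 (g := g) U i (hg (U i - U' i) (by
      have := congrFun h i
      simp only [mulVec, dotProduct] at this
      simp [sub_mul, Finset.sum_sub_distrib, this]))
    have h4 := det_updateRow_add U i (U i - U' i) (U' i)
    rw [sub_add_cancel, updateRow_eq_self] at h4
    rw [h] at h3
    convert add_mem h3 h2 using 1
    rw [h4]; ring

end WiebeA

open WiebeA in
theorem wiebe (hB : S_basic) (hD : S_dep) : S_wiebe := by
  intro R ν _ _ _ _ _ g M hm ⟨l, hl, hall, hr⟩ hrad hdet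
  choose n hn using hrad
  obtain ⟨k, hk⟩ : ∃ k, ∀ i, n i ≤ k := ⟨Finset.univ.sup n, fun i => Finset.le_sup (by simp)⟩
  have h1 : ∀ i, ∃ c : ν → R, ∑ j, c j * (M *ᵥ g) j = g i ^ (k + 1) := fun i =>
    Ideal.mem_span_range_iff_exists_fun.1
      (Ideal.pow_mem_of_pow_mem _ (hn i) ((hk i).trans (Nat.le_succ k)))
  choose N hN using h1
  have hN' : Matrix.of N *ᵥ (M *ᵥ g) = fun i => g i ^ (k + 1) := funext hN
  have hd : diagonal (fun i => g i ^ k) *ᵥ g = fun i => g i ^ (k + 1) := by
    ext i; rw [mulVec_diagonal, pow_succ]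
  have h2 := w1 (fun a => syz hB g l hl hr a fun j hj => absurd (hall j) hj)
    (diagonal fun i => g i ^ k) Finset.univ (Matrix.of N * M)
    (by rw [← mulVec_mulVec, hN', hd]) (by simp)
  rw [hd, det_mul, det_diagonal] at h2
  have h3 : (Matrix.of N).det * M.det ∈ sp fun i => g i ^ (k + 1) := by
    obtain ⟨c, hc⟩ := Ideal.mem_span_range_iff_exists_fun.1 hdet
    rw [← hc, Finset.mul_sum]
    refine Ideal.sum_mem _ fun j _ => ?_
    have h4 := congrFun (mulVec_mulVec (M *ᵥ g) (adjugate (Matrix.of N)) (Matrix.of N)) j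
    rw [adjugate_mul, smul_mulVec, one_mulVec, hN', Pi.smul_apply, smul_eq_mul] at h4
    rw [mul_left_comm, ← h4]
    exact Ideal.mul_mem_left _ _ (mem_sp _ _)
  have h5 : (l.map g).prod = ∏ i, g i := by
    rw [← List.prod_toFinset g hl]
    exact Finset.prod_congr (Finset.eq_univ_of_forall fun i => List.mem_toFinset.2 (hall i))
      fun _ _ => rfl
  have hm' : ∀ t ∈ l.map g, t ∈ maximalIdeal R := fun t ht => by
    obtain ⟨i, -, rfl⟩ := List.mem_map.1 ht
    exact hm i
  have h6 := hD.colon k 1 hm' hr (by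
    rw [h5, mul_one, ← Finset.prod_pow, bot_sup_eq]
    have h7 : (sp fun i => g i ^ (k + 1)) ≤ Ideal.ofList ((l.map g).map fun t => t ^ (k + 1)) :=
      Ideal.span_mono (by
        rintro _ ⟨i, rfl⟩
        exact List.mem_map.2 ⟨g i, List.mem_map.2 ⟨i, hall i, rfl⟩, rfl⟩)
    simpa using h7 (sub_mem h3 h2))
  rw [bot_sup_eq] at h6
  exact (maximalIdeal.isMaximal R).ne_top
    ((Ideal.eq_top_iff_one _).2 (Ideal.span_le.2 hm' h6))

end Pool.Agent.P.MP_e7d440_ag
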