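import Pool.Agent.P.MP_e7d440_ag.Aone
import Pool.Agent.P.MP_e7d440_ag.Atwo
import Pool.Agent.P.MP_e7d440_ag.Basic
import Pool.Agent.P.MP_e7d440_ag.Cm
import Pool.Agent.P.MP_e7d440_ag.CoreOne
import Pool.Agent.P.MP_e7d440_ag.CoreTwo
import Pool.Agent.P.MP_e7d440_ag.Crit
import Pool.Agent.P.MP_e7d440_ag.Dann
import Pool.Agent.P.MP_e7d440_ag.Dep
import Pool.Agent.P.MP_e7d440_ag.Der
import Pool.Agent.P.MP_e7d440_ag.Dual
import Pool.Agent.P.MP_e7d440_ag.Fin
import Pool.Agent.P.MP_e7d440_ag.Fin0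
import Pool.Agent.P.MP_e7d440_ag.Fina
import Pool.Agent.P.MP_e7d440_ag.Ht
import Pool.Agent.P.MP_e7d440_ag.Jac
import Pool.Agent.P.MP_e7d440_ag.Link
import Pool.Agent.P.MP_e7d440_ag.Locy
import Pool.Agent.P.MP_e7d440_ag.Log
import Pool.Agent.P.MP_e7d440_ag.Ls
import Pool.Agent.P.MP_e7d440_ag.Poly
import Pool.Agent.P.MP_e7d440_ag.Rees
import Pool.Agent.P.MP_e7d440_ag.Reg
import Pool.Agent.P.MP_e7d440_ag.Scheme
import Pool.Agent.P.MP_e7d440_ag.Socx
import Pool.Agent.P.MP_e7d440_ag.Step
import Pool.Agent.P.MP_e7d440_ag.Top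
import Pool.Agent.P.MP_e7d440_ag.Tr
import Pool.Agent.P.MP_e7d440_ag.Val
import Pool.Agent.P.MP_e7d440_ag.Vanish
import Pool.Agent.P.MP_e7d440_ag.Wiebe

/-! The general steps, with all hypotheses discharged. -/

namespace Pool.Agent.P.MP_e7d440_ag

theorem dep' : S_dep := dep basic
theorem cm' : S_cm := cm basic reg dep'
theorem dual' : S_dual := dual basic reg dep' cm' (socx basic dep') dann
theorem vals' : S_val := vals basic
theorem ls' : S_ls := ls basic reg cm'
theorem linkl' : S_linkl := linkl basic reg cm' (wiebe basic dep')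
theorem logs' : S_log := logs jacs
theorem link' : S_link := link basic ls' linkl' jacs logs' der vals'
theorem fin' : S_fin := fin fina
theorem rees' : S_rees := rees fin'
theorem polys' : S_poly := polys reg
theorem coreOne' : S_core1 := coreOne vals'
theorem coreTwo' : S_core2 :=
  coreTwo basic reg cm' vanish (change vanish) (tops step) dual'
theorem crit' : S_crit :=
  crit basic cm' jacs der hts polys' vals' (aone link' vals') (atwo link' cm') coreOne' coreTwo'
    rees'

end Pool.Agent.P.MP_e7d440_ag
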