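import Pool.Agent.P.MP_e7d440_ag.Iface

/-! A chain with many independent Pluecker ratios lies in one chart. -/

namespace Pool.Agent.P.MP_e7d440_ag

namespace ChainA

theorem exists_iterate {n : ℕ} (i p : Fin n) : ∃ d : ℕ, (finRotate n)^[d] i = p := by
  have := i.neZero
  refine ⟨(p - i).val, ?_⟩
  rw [← finCycle_eq_finRotate_iterate]
  simp

theorem mnr_map {R S : Type} [CommRing R] [CommRing S] (f : R →+* S) {r n : ℕ}
    (N : Matrix (Fin r) (Fin n) R) (c : Fin r → Fin n) : mnr (N.map f) c = f (mnr N c) := by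
  unfold mnr
  rw [RingHom.map_det]
  rfl

theorem mnr_mul {R : Type} [CommRing R] {r n : ℕ} (M : Matrix (Fin r) (Fin r) R)
    (N : Matrix (Fin r) (Fin n) R) (c : Fin r → Fin n) : mnr (M * N) c = M.det * mnr N c := by
  unfold mnr
  rw [← Matrix.det_mul]
  rfl

theorem kill_map {R S : Type} [CommRing R] [CommRing S] (f : R →+* S) {n : ℕ} (i : Fin n) :
    (kill R i).map f = kill S i := by
  ext a b
  simp only [kill, Matrix.map_apply, Matrix.diagonal_apply]
  split_ifs <;> simp

/-- An independent family of fractions of polynomials in `g` has at most as many members as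
`g`. -/
theorem card_le {κ k s γ : Type} [Field κ] [Field k] [Algebra κ k] [Fintype s] [Fintype γ]
    (g : γ → k) (t : s → k) (ht : AlgebraicIndependent κ t)
    (h : ∀ p, ∃ x ∈ Algebra.adjoin κ (Set.range g), ∃ y ∈ Algebra.adjoin κ (Set.range g),
      t p = x / y) : Fintype.card s ≤ Fintype.card γ := by
  have h1 : (AlgebraicIndependent.matroid κ k).Indep (Set.range t) := ht.to_subtype_range
  have h2 : Set.range t ⊆ (AlgebraicIndependent.matroid κ k).closure (Set.range g) := by
    rintro _ ⟨p, rfl⟩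
    rw [AlgebraicIndependent.matroid_closure_eq]
    obtain ⟨x, hx, y, hy, e⟩ := h p
    have a1 : IsAlgebraic (Algebra.adjoin κ (Set.range g)) x :=
      isAlgebraic_algebraMap (⟨x, hx⟩ : Algebra.adjoin κ (Set.range g))
    have a2 : IsAlgebraic (Algebra.adjoin κ (Set.range g)) y :=
      isAlgebraic_algebraMap (⟨y, hy⟩ : Algebra.adjoin κ (Set.range g))
    have a3 : IsAlgebraic (Algebra.adjoin κ (Set.range g)) (t p) := by
      rw [e, div_eq_mul_inv]; exact a1.mul a2.inv
    exact a3
  have h3 := h1.encard_le_eRk_of_subset h2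
  rw [Matroid.eRk_closure_eq] at h3
  have h4 := h3.trans (Matroid.eRk_le_encard _ _)
  have h5 : (Set.range t).encard = Fintype.card s := by
    rw [← Set.image_univ, ht.injective.injOn.encard_image, Set.encard_univ]; simp
  have h6 : (Set.range g).encard ≤ Fintype.card γ := by
    rw [← Set.image_univ]
    refine (Set.encard_image_le _ _).trans ?_
    rw [Set.encard_univ]; simp
  rw [h5] at h4
  exact_mod_cast h4.trans h6

/-- The chain lies in one chart. -/
theorem partA {κ k s : Type} [Field κ] [Field k] [Algebra κ k] [Fintype s] {r m : ℕ}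
    (N : Fin (r + m) → Matrix (Fin r) (Fin (r + m)) k)
    (A : Fin (r + m) → Matrix (Fin r) (Fin r) k)
    (hA : ∀ i, N i * kill k i = A i * N (finRotate (r + m) i))
    (J : Fin r → Fin (r + m)) (hJ : Function.Injective J) (hN : ∀ i, mnr (N i) J ≠ 0)
    (t : s → k) (ht : AlgebraicIndependent κ t)
    (hr : ∀ p, ∃ i c c', t p = mnr (N i) c / mnr (N i) c') : Fintype.card s ≤ r * m := by
  classical
  let M : Fin (r + m) → Matrix (Fin r) (Fin r) k := fun i => (N i).submatrix id J
  have hM : ∀ i, IsUnit (M i).det := fun i => (hN i).isUnit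
  let B : Fin (r + m) → Matrix (Fin r) (Fin (r + m)) k := fun i => (M i)⁻¹ * N i
  have hNB : ∀ i, N i = M i * B i := fun i => by
    simp only [B]
    rw [← Matrix.mul_assoc, Matrix.mul_nonsing_inv _ (hM i), Matrix.one_mul]
  have hBJ : ∀ i a b, B i a (J b) = if a = b then 1 else 0 := fun i a b => by
    have : ((M i)⁻¹ * M i) a b = B i a (J b) := rfl
    rw [← this, Matrix.nonsing_inv_mul _ (hM i), Matrix.one_apply]
  have hB : ∀ i, B i * kill k i =
      ((M i)⁻¹ * A i * M (finRotate _ i)) * B (finRotate _ i) := fun i => by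
    rw [Matrix.mul_assoc _ (M (finRotate _ i)), ← hNB, Matrix.mul_assoc _ (A i), ← hA,
      ← Matrix.mul_assoc]
  have hstep : ∀ i a p, p ≠ i → B i a p = 0 ∨ B i a p = B (finRotate _ i) a p := by
    intro i a p hp
    have h1 := hB i
    generalize (M i)⁻¹ * A i * M (finRotate _ i) = A' at h1
    have h2 : ∀ b, A' a b = if a = b ∧ J b ≠ i then 1 else 0 := fun b => by
      have := congrFun (congrFun h1 a) (J b)
      rw [kill, Matrix.mul_diagonal, Matrix.mul_apply, hBJ] at this
      simp only [hBJ, mul_ite, mul_one, mul_zero, Finset.sum_ite_eq', Finset.mem_univ,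
        if_true] at this
      rw [← this]
      by_cases e1 : a = b <;> by_cases e2 : J b = i <;> simp [e1, e2]
    have h3 := congrFun (congrFun h1 a) p
    rw [kill, Matrix.mul_diagonal, Matrix.mul_apply, if_neg hp, mul_one,
      Finset.sum_eq_single a (fun b _ hb => by rw [h2, if_neg (fun h => hb h.1.symm), zero_mul])
        (by simp), h2] at h3
    split_ifs at h3
    · right; simpa using h3
    · left; simpa using h3
  let g : Fin r × {p : Fin (r + m) // p ∉ Set.range J} → k := fun q => B q.2.1 q.1 q.2.1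
  have hmem : ∀ i a p, B i a p ∈ Algebra.adjoin κ (Set.range g) := by
    intro i a p
    by_cases hp : p ∈ Set.range J
    · obtain ⟨b, rfl⟩ := hp
      rw [hBJ]
      split_ifs
      · exact one_mem _
      · exact zero_mem _
    · obtain ⟨d, hd⟩ := exists_iterate i p
      induction d generalizing i with
      | zero =>
        obtain rfl : i = p := hd
        exact Algebra.subset_adjoin ⟨(a, ⟨i, hp⟩), rfl⟩
      | succ d ih =>
        by_cases hpi : p = i
        · subst hpi
          exact Algebra.subset_adjoin ⟨(a, ⟨p, hp⟩), rfl⟩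
        · rcases hstep i a p hpi with h | h
          · rw [h]; exact zero_mem _
          · rw [h]; exact ih _ hd
  have hmnr : ∀ i c, mnr (B i) c ∈ Algebra.adjoin κ (Set.range g) := by
    intro i c
    rw [mnr, Matrix.det_apply']
    exact sum_mem fun σ _ => mul_mem (intCast_mem _ _) (prod_mem fun a _ => hmem _ _ _)
  have hc := card_le g t ht (fun p => by
    obtain ⟨i, c, c', e⟩ := hr p
    refine ⟨_, hmnr i c, _, hmnr i c', ?_⟩
    rw [e, hNB i, mnr_mul (M i), mnr_mul (M i), mul_div_mul_left _ _ (hM i).ne_zero])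
  rw [Fintype.card_prod, Fintype.card_subtype_compl, Fintype.card_fin, Fintype.card_fin,
    Set.card_range_of_injective hJ, Fintype.card_fin, Nat.add_sub_cancel_left] at hc
  exact hc

/-- A nonzero element killed by a specialisation is independent of a family whose
specialisation is independent. -/
theorem indep_option {κ k R s : Type} [Field κ] [Field k] [Algebra κ k] [CommRing R]
    [IsDomain R] [Algebra κ R] (ev : R →ₐ[κ] k) (x : s → R) (y : R)
    (hx : AlgebraicIndependent κ (ev ∘ x)) (hy : y ≠ 0) (h0 : ev y = 0) :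
    AlgebraicIndependent κ (fun o : Option s => o.elim y x) := by
  rw [(AlgebraicIndependent.of_comp ev hx).option_iff_transcendental]
  intro halg
  obtain ⟨⟨z, hz⟩, hz0, w, hw⟩ := halg.exists_nonzero_dvd (mem_nonZeroDivisors_of_ne_zero hy)
  apply hz0
  rw [Algebra.adjoin_range_eq_range_aeval] at hz
  obtain ⟨F, rfl⟩ := hz
  have h1 : ev (MvPolynomial.aeval x F) = 0 := by
    have : MvPolynomial.aeval x F = y * w := hw
    rw [this, map_mul, h0, zero_mul]
  rw [← AlgHom.comp_apply, MvPolynomial.comp_aeval] at h1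
  have h2 : F = 0 := hx.eq_zero_of_aeval_eq_zero F h1
  subst h2
  ext; simp

theorem exists_local (κ k : Type) [Field κ] [Field k] [Algebra κ k] :
    ∃ (R : Type) (_ : CommRing R) (_ : IsDomain R) (_ : Algebra κ R)
      (ψ : Polynomial k →+* R) (ev : R →ₐ[κ] k), Function.Injective ψ ∧
      (∀ f, ev (ψ f) = f.eval 0) ∧ ∀ f, f.eval 0 ≠ 0 → IsUnit (ψ f) := by
  refine ⟨PowerSeries k, inferInstance, inferInstance, inferInstance,
    Polynomial.coeToPowerSeries.ringHom,
    { PowerSeries.constantCoeff (R := k) with commutes' := fun c => ?_ },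
    Polynomial.coe_injective k, fun f => ?_, fun f hf => ?_⟩
  · simp [PowerSeries.algebraMap_apply]
  · simp [Polynomial.coeff_zero_eq_eval_zero]
  · rw [PowerSeries.isUnit_iff_constantCoeff]
    simpa [Polynomial.coeff_zero_eq_eval_zero] using hf

/-- The set of vanishing minors. -/
def van {k : Type} [Field k] {r n : ℕ} (N : Fin n → Matrix (Fin r) (Fin n) k) :
    Set (Fin n × (Fin r → Fin n)) := {q | mnr (N q.1) q.2 = 0}

/-- Deformation of a chain which does not lie in one chart. -/
theorem partB (h1 : S_chain1) (h2 : S_chain2) {κ k s : Type} [Field κ] [Field k] [Algebra κ k]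
    {r n : ℕ} (hrn : r ≤ n) (N : Fin n → Matrix (Fin r) (Fin n) k)
    (A : Fin n → Matrix (Fin r) (Fin r) k) (hN : ∀ i, ∃ c, mnr (N i) c ≠ 0)
    (hA : ∀ i, N i * kill k i = A i * N (finRotate n i))
    (hJ : ¬ ∃ J : Fin r → Fin n, Function.Injective J ∧ ∀ i, mnr (N i) J ≠ 0)
    (t : s → k) (ht : AlgebraicIndependent κ t)
    (hr : ∀ p, ∃ i c c', t p = mnr (N i) c / mnr (N i) c') :
    ∃ (k' : Type) (_ : Field k') (_ : Algebra κ k') (N' : Fin n → Matrix (Fin r) (Fin n) k')
      (A' : Fin n → Matrix (Fin r) (Fin r) k') (t' : Option s → k'),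
      (∀ i, ∃ c, mnr (N' i) c ≠ 0) ∧ (∀ i, N' i * kill k' i = A' i * N' (finRotate n i)) ∧
      (van N').ncard < (van N).ncard ∧ AlgebraicIndependent κ t' ∧
      ∀ p, ∃ i c c', t' p = mnr (N' i) c / mnr (N' i) c' := by
  have h3 : ∃ i₀, (∃ v, Matrix.vecMul v (N i₀) = Pi.single i₀ 1) ∧
      ∀ a, N (finRotate n i₀) a i₀ = 0 := by
    by_contra hc
    push Not at hc
    exact hJ (h1 k r n N A hrn hN hA hc)
  obtain ⟨i₀, h4, h5⟩ := h3
  obtain ⟨N', A', hA', hev, i1, c1, hz, hnz⟩ := h2 k r n N A hN hA i₀ h4 h5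
  obtain ⟨R, _, _, _, ψ, ev, hψ, hevψ, hu⟩ := exists_local κ k
  have hm : ∀ i c, (mnr (N' i) c).eval 0 = mnr (N i) c := fun i c => by
    rw [← hev i]
    exact (mnr_map (Polynomial.evalRingHom 0) (N' i) c).symm
  let K := FractionRing R
  let φ : Polynomial k →+* K := (algebraMap R K).comp ψ
  have hφ : Function.Injective φ := (IsFractionRing.injective R K).comp hψ
  have hne : ∀ i c, mnr (N' i) c ≠ 0 → mnr ((N' i).map φ) c ≠ 0 := fun i c h => by
    rw [mnr_map]; exact (map_ne_zero_iff φ hφ).2 h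
  have hne' : ∀ i c, mnr (N i) c ≠ 0 → mnr (N' i) c ≠ 0 := fun i c h h0 => by
    rw [← hm, h0] at h; simp at h
  have hfrac : ∀ i c c', mnr (N i) c' ≠ 0 → ∃ x : R,
      algebraMap R K x = mnr ((N' i).map φ) c / mnr ((N' i).map φ) c' ∧
      ev x = mnr (N i) c / mnr (N i) c' := by
    intro i c c' h
    obtain ⟨u, hu'⟩ := hu (mnr (N' i) c') (by rw [hm]; exact h)
    have e : ψ (mnr (N' i) c) * ↑u⁻¹ * ψ (mnr (N' i) c') = ψ (mnr (N' i) c) := by
      rw [← hu', mul_assoc, Units.inv_mul, mul_one]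
    refine ⟨ψ (mnr (N' i) c) * ↑u⁻¹, ?_, ?_⟩
    · rw [eq_div_iff (hne i c' (hne' i c' h)), mnr_map, mnr_map]
      exact (map_mul (algebraMap R K) _ _).symm.trans (congrArg (algebraMap R K) e)
    · rw [eq_div_iff h, ← hm, ← hm, ← hevψ, ← hevψ, ← map_mul, e]
  choose ii cc cc' hcc using hr
  have hden : ∀ p, mnr (N (ii p)) (cc' p) ≠ 0 := fun p h => by
    have := ht.ne_zero p
    rw [hcc, h, div_zero] at this
    exact this rfl
  choose x hx1 hx2 using fun p => hfrac (ii p) (cc p) (cc' p) (hden p)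
  obtain ⟨c0, hc0⟩ := hN i1
  obtain ⟨y, hy1, hy2⟩ := hfrac i1 c1 c0 hc0
  have hind := indep_option ev x y (by
    have : ev ∘ x = t := funext fun p => by rw [Function.comp_apply, hx2, hcc]
    rw [this]; exact ht) (by
    intro h0
    rw [h0, map_zero] at hy1
    exact div_ne_zero (hne i1 c1 hnz) (hne i1 c0 (hne' i1 c0 hc0)) hy1.symm) (by
    rw [hy2, hz, zero_div])
  refine ⟨K, inferInstance, inferInstance, fun i => (N' i).map φ, fun i => (A' i).map φ,
    IsScalarTower.toAlgHom κ R K ∘ fun o : Option s => o.elim y x, fun i => ?_, fun i => ?_, ?_,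
    hind.map' (IsFractionRing.injective R K), ?_⟩
  · obtain ⟨c, hc⟩ := hN i
    exact ⟨c, hne i c (hne' i c hc)⟩
  · rw [← kill_map φ, ← Matrix.map_mul, hA', Matrix.map_mul]
  · refine Set.ncard_lt_ncard ⟨fun q hq => ?_, fun hsub => ?_⟩ (Set.toFinite _)
    · by_contra hc
      exact hne _ _ (hne' _ _ hc) hq
    · exact hne i1 c1 hnz (hsub (a := (i1, c1)) hz)
  · rintro (_ | p)
    · exact ⟨i1, c1, c0, hy1⟩
    · exact ⟨ii p, cc p, cc' p, hx1 p⟩

theorem partC (h1 : S_chain1) (h2 : S_chain2) {κ : Type} [Field κ] {r m : ℕ} (v : ℕ) :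
    ∀ (k s : Type) [Field k] [Algebra κ k] [Fintype s]
      (N : Fin (r + m) → Matrix (Fin r) (Fin (r + m)) k)
      (A : Fin (r + m) → Matrix (Fin r) (Fin r) k), (van N).ncard < v →
      (∀ i, ∃ c, mnr (N i) c ≠ 0) → (∀ i, N i * kill k i = A i * N (finRotate (r + m) i)) →
      ∀ t : s → k, AlgebraicIndependent κ t →
        (∀ p, ∃ i c c', t p = mnr (N i) c / mnr (N i) c') → Fintype.card s ≤ r * m := by
  induction v with
  | zero => intro k s _ _ _ N A hv; omega
  | succ v ih =>
    intro k s _ _ _ N A hv hN hA t ht hr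
    by_cases hJ : ∃ J : Fin r → Fin (r + m), Function.Injective J ∧ ∀ i, mnr (N i) J ≠ 0
    · obtain ⟨J, hJ, hJ'⟩ := hJ
      exact partA N A hA J hJ hJ' t ht hr
    · obtain ⟨k', _, _, N', A', t', a1, a2, a3, a4, a5⟩ :=
        partB h1 h2 (Nat.le_add_right r m) N A hN hA hJ t ht hr
      have := ih k' (Option s) N' A' (by omega) a1 a2 t' a4 a5
      rw [Fintype.card_option] at this
      omega

end ChainA

theorem chain (h1 : S_chain1) (h2 : S_chain2) : S_chain := by
  intro κ k _ _ _ r m N A hN hA t ht hr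
  by_contra hJ
  obtain ⟨k', _, _, N', A', t', a1, a2, -, a4, a5⟩ :=
    ChainA.partB h1 h2 (Nat.le_add_right r m) N A hN hA hJ t ht hr
  have := ChainA.partC h1 h2 _ k' (Option (Fin r × Fin m)) N' A' (Nat.lt_succ_self _) a1 a2
    t' a4 a5
  simp at this

end Pool.Agent.P.MP_e7d440_ag
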