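import Pool.Agent.P.MP_e7d440_ag.Iface

/-! A cyclic chain of planes without a bad step lies in one chart. -/

namespace Pool.Agent.P.MP_e7d440_ag

open Matrix

namespace ChainOneA

theorem rot_all {n : ℕ} (S : Fin n → Prop) (h : ∀ i, S i → S (finRotate n i)) {i : Fin n}
    (hi : S i) (j : Fin n) : S j := by
  obtain _ | m := n
  · exact i.elim0
  have up : ∀ i : Fin (m + 1), S i → ∀ (t : ℕ) (ht : i.1 + t < m + 1), S ⟨i.1 + t, ht⟩ := by
    intro i hi t
    induction t with
    | zero => intro _; exact hi
    | succ t ih =>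
      intro ht
      have := h _ (ih (by omega))
      rwa [finRotate_of_lt (by omega)] at this
  have h1 : S (Fin.last m) := by
    have := up i hi (m - i.1) (by omega)
    convert this using 1
    ext
    have := i.2
    simp only [Fin.val_last]
    omega
  have h0 := h _ h1
  rw [finRotate_last] at h0
  simpa using up 0 h0 j.1 (by simpa using j.2)

theorem rot_all' {n : ℕ} (S : Fin n → Prop) (h : ∀ i, S (finRotate n i) → S i) {i : Fin n}
    (hi : S i) (j : Fin n) : S j := by
  by_contra hj
  exact rot_all (fun i => ¬ S i) (fun i hi h' => hi (h i h')) hj i hi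

variable {k : Type} [Field k] {r n : ℕ}

theorem vecMul_kill (v : Fin n → k) (i : Fin n) : v ᵥ* kill k i = Function.update v i 0 := by
  funext p
  rw [kill, vecMul_diagonal, Function.update_apply]
  split_ifs <;> simp

theorem kill_mulVec (v : Fin n → k) (i : Fin n) : kill k i *ᵥ v = Function.update v i 0 := by
  funext p
  rw [kill, mulVec_diagonal, Function.update_apply]
  split_ifs <;> simp

open Classical in
/-- The number of nonzero coordinates. -/
noncomputable def wt (v : Fin n → k) : ℕ := (Finset.univ.filter fun p => v p ≠ 0).card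

theorem wt_lt {v : Fin n → k} {i : Fin n} (h : v i ≠ 0) : wt (Function.update v i 0) < wt v := by
  classical
  refine Finset.card_lt_card ⟨fun p hp => ?_, fun hs => ?_⟩
  · simp only [Finset.mem_filter, Finset.mem_univ, true_and, Function.update_apply] at hp ⊢
    split_ifs at hp with e
    · exact absurd rfl hp
    · exact hp
  · have := hs (Finset.mem_filter.2 ⟨Finset.mem_univ i, h⟩)
    simp at this

theorem eq_single {v : Fin n → k} {i : Fin n} (h : Function.update v i 0 = 0) :
    v = v i • (Pi.single i 1 : Fin n → k) := by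
  funext p
  by_cases e : p = i
  · subst e; simp
  · have := congrFun h p
    rw [Function.update_of_ne e] at this
    simp [e, this]

variable {N : Fin n → Matrix (Fin r) (Fin n) k} {A : Fin n → Matrix (Fin r) (Fin r) k}

theorem left_zero (hA : ∀ i, N i * kill k i = A i * N (finRotate n i)) (m : ℕ) :
    ∀ v : Fin n → k, wt v < m → (∀ p, (∃ u, u ᵥ* N p = Pi.single p 1) → v p = 0) →
      ∀ i, (∃ u, u ᵥ* N i = v) → v = 0 := by
  induction m with
  | zero => intro v hv; omega
  | succ m ih =>
    intro v hv hP i hi
    have step : ∀ i, (∃ u, u ᵥ* N i = v) → v i = 0 ∧ ∃ u, u ᵥ* N (finRotate n i) = v := by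
      rintro i ⟨u, hu⟩
      have e : (u ᵥ* A i) ᵥ* N (finRotate n i) = Function.update v i 0 := by
        rw [vecMul_vecMul, ← hA, ← vecMul_vecMul, hu, vecMul_kill]
      have h0 : v i = 0 := by
        by_contra h0
        have h1 := ih _ (by have := wt_lt h0; omega) (fun p hp => by
          rw [Function.update_apply]
          split_ifs
          · rfl
          · exact hP p hp) _ ⟨_, e⟩
        refine h0 (hP i ⟨(v i)⁻¹ • u, ?_⟩)
        rw [smul_vecMul, hu]
        conv_lhs => rw [eq_single h1]
        simp [smul_smul, inv_mul_cancel₀ h0]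
      refine ⟨h0, _, e.trans ?_⟩
      rw [← h0, Function.update_eq_self]
    funext j
    exact (step j (rot_all (fun i => ∃ u, u ᵥ* N i = v) (fun i hi => (step i hi).2) hi j)).1

theorem right_zero (hA : ∀ i, N i * kill k i = A i * N (finRotate n i))
    (hg : ∀ i, (∃ v, v ᵥ* N i = Pi.single i 1) → ∃ a, N (finRotate n i) a i ≠ 0) (m : ℕ) :
    ∀ v : Fin n → k, wt v < m → (∀ p, v p ≠ 0 → ∃ u, u ᵥ* N p = Pi.single p 1) →
      ∀ i, N i *ᵥ v = 0 → v = 0 := by
  induction m with
  | zero => intro v hv; omega
  | succ m ih =>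
    intro v hv hP i hi
    have step : ∀ i, N (finRotate n i) *ᵥ v = 0 → v i = 0 ∧ N i *ᵥ v = 0 := by
      intro i hu
      have e : N i *ᵥ Function.update v i 0 = 0 := by
        rw [← kill_mulVec, mulVec_mulVec, hA, ← mulVec_mulVec, hu, mulVec_zero]
      have h0 : v i = 0 := by
        by_contra h0
        have h1 := ih _ (by have := wt_lt h0; omega) (fun p hp => by
          rw [Function.update_apply] at hp
          split_ifs at hp
          · exact absurd rfl hp
          · exact hP p hp) _ e
        obtain ⟨a, ha⟩ := hg i (hP i h0)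
        rw [eq_single h1, mulVec_smul, mulVec_single_one] at hu
        exact mul_ne_zero h0 ha (congrFun hu a)
      refine ⟨h0, ?_⟩
      rwa [← h0, Function.update_eq_self] at e
    funext j
    exact (step j (rot_all' (fun i => N i *ᵥ v = 0) (fun i hi => (step i hi).2) hi _)).1

end ChainOneA

open ChainOneA in
theorem chainOne : S_chain1 := by
  classical
  intro k _ r n N A hrn hc hA hg
  obtain rfl | hn := Nat.eq_zero_or_pos n
  · obtain rfl : r = 0 := by omega
    exact ⟨id, Function.injective_id, fun i => i.elim0⟩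
  obtain ⟨s, J, hJ, hP⟩ : ∃ (s : ℕ) (J : Fin s → Fin n), Function.Injective J ∧
      ∀ p, (∃ u, u ᵥ* N p = Pi.single p 1) ↔ ∃ a, J a = p := by
    refine ⟨_, (Finset.univ.filter fun p => ∃ u, u ᵥ* N p = Pi.single p 1).orderEmbOfFin rfl,
      RelEmbedding.injective _, fun p => ?_⟩
    have := Set.ext_iff.1 (Finset.range_orderEmbOfFin
      (Finset.univ.filter fun p => ∃ u, u ᵥ* N p = Pi.single p 1) rfl) p
    refine Iff.trans ?_ (this.symm.trans Set.mem_range)
    simp
  have hl : ∀ i u, u ᵥ* (N i).submatrix id J = 0 → u = 0 := by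
    intro i u hu
    have h1 : u ᵥ* N i = 0 := left_zero hA _ _ (Nat.lt_succ_self _) (fun p hp => by
      obtain ⟨a, rfl⟩ := (hP p).1 hp
      exact congrFun hu a) i ⟨u, rfl⟩
    obtain ⟨c, hc⟩ := hc i
    exact eq_zero_of_vecMul_eq_zero hc (funext fun a => congrFun h1 (c a))
  have hr : ∀ i w, (N i).submatrix id J *ᵥ w = 0 → w = 0 := by
    intro i w hw
    have h1 : (fun p => ∑ b, if J b = p then w b else 0) = 0 := by
      refine right_zero hA hg _ _ (Nat.lt_succ_self _) (fun p hp => ?_) i ?_
      · obtain ⟨b, -, hb⟩ := Finset.exists_ne_zero_of_sum_ne_zero hp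
        refine (hP p).2 ⟨b, ?_⟩
        by_contra e
        exact hb (if_neg e)
      · funext a
        rw [← congrFun hw a]
        simp only [mulVec, dotProduct, Finset.mul_sum, submatrix_apply, id]
        rw [Finset.sum_comm]
        refine Finset.sum_congr rfl fun b _ => ?_
        simp
    funext b
    have := congrFun h1 (J b)
    simpa [hJ.eq_iff] using this
  have h1 : r ≤ s := by
    have := LinearMap.finrank_le_finrank_of_injective
      (f := ((N ⟨0, hn⟩).submatrix id J).vecMulLinear)
      ((injective_iff_map_eq_zero _).2 fun u hu => hl _ u hu)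
    simpa using this
  have h2 : s ≤ r := by
    have := LinearMap.finrank_le_finrank_of_injective
      (f := ((N ⟨0, hn⟩).submatrix id J).mulVecLin)
      ((injective_iff_map_eq_zero _).2 fun u hu => hr _ u hu)
    simpa using this
  obtain rfl : r = s := le_antisymm h1 h2
  refine ⟨J, hJ, fun i h0 => ?_⟩
  obtain ⟨u, hu, hu'⟩ := exists_vecMul_eq_zero_iff.2 h0
  exact hu (hl i u hu')

end Pool.Agent.P.MP_e7d440_ag
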