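import Pool.Agent.P.MP_e7d440_ag.Iface

/-! A chain with a bad step deforms and gains a nonzero minor. -/

namespace Pool.Agent.P.MP_e7d440_ag

open Matrix

namespace ChainTwoA

lemma exists_pos {n : ℕ} (c : Fin n) : ∃ (pos : Fin n → ℕ) (L : ℕ), Function.Injective pos ∧
    pos c = L ∧ (∀ i, pos i ≤ L) ∧ pos (finRotate n c) = 0 ∧
    (∀ i, i ≠ c → pos (finRotate n i) = pos i + 1) ∧ ∀ j ≤ L, ∃ i, pos i = j := by
  obtain ⟨m, rfl⟩ : ∃ m, n = m + 1 := ⟨n - 1, by have := c.pos; omega⟩
  refine ⟨fun i => (i - (c + 1)).val, m, ?_, ?_, ?_, ?_, ?_, ?_⟩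
  · intro i j h
    have := Fin.ext h
    exact sub_left_injective this
  · have : c - (c + 1) = -1 := by abel
    simp only [this, Fin.coe_neg_one]
  · intro i
    exact Nat.le_of_lt_succ (Fin.is_lt _)
  · simp [finRotate_apply]
  · intro i hi
    have h1 : finRotate (m + 1) i - (c + 1) = (i - (c + 1)) + 1 := by
      rw [finRotate_apply]; abel
    simp only [h1]
    rw [Fin.val_add_one]
    split_ifs with h
    · exfalso
      apply hi
      have h2 : (i - (c + 1)) + 1 = 0 := by rw [h]; exact Fin.last_add_one m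
      have h3 : i - c = 0 := by rw [← h2]; abel
      exact sub_eq_zero.mp h3
    · rfl
  · intro j hj
    exact ⟨⟨j, by omega⟩ + (c + 1), by simp⟩

variable {k : Type} [Field k] {r n : ℕ}

lemma kill_map (i : Fin n) : kill (Polynomial k) i = (kill k i).map Polynomial.C := by
  ext1 a b
  simp only [kill, Matrix.map_apply, Matrix.diagonal_apply]
  split_ifs <;> simp

lemma vecMul_kill (u : Fin n → k) (i j : Fin n) :
    vecMul u (kill k i) j = if j = i then 0 else u j := by
  simp [kill, vecMul_diagonal]

lemma kill_mulVec (u : Fin n → k) (i j : Fin n) :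
    (kill k i *ᵥ u) j = if j = i then 0 else u j := by
  simp [kill, mulVec_diagonal]

lemma vecMul_kill_of {u : Fin n → k} {i : Fin n} (h : u i = 0) : vecMul u (kill k i) = u := by
  funext j
  rw [vecMul_kill]
  split_ifs with hj
  · rw [hj, h]
  · rfl

lemma kill_mulVec_of {u : Fin n → k} {i : Fin n} (h : u i = 0) : kill k i *ᵥ u = u := by
  funext j
  rw [kill_mulVec]
  split_ifs with hj
  · rw [hj, h]
  · rfl

/-- The conclusion. -/
def Concl (N : Fin n → Matrix (Fin r) (Fin n) k) : Prop :=
  ∃ (N' : Fin n → Matrix (Fin r) (Fin n) (Polynomial k))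
    (A' : Fin n → Matrix (Fin r) (Fin r) (Polynomial k)),
    (∀ i, N' i * kill (Polynomial k) i = A' i * N' (finRotate n i)) ∧
    (∀ i, (N' i).map (Polynomial.eval 0) = N i) ∧
    ∃ i c, mnr (N i) c = 0 ∧ mnr (N' i) c ≠ 0

lemma first_order (N D : Fin n → Matrix (Fin r) (Fin n) k)
    (A B : Fin n → Matrix (Fin r) (Fin r) k)
    (hA : ∀ i, N i * kill k i = A i * N (finRotate n i))
    (hD : ∀ i, D i * kill k i = A i * D (finRotate n i) + B i * N (finRotate n i))
    (hB : ∀ i, B i * D (finRotate n i) = 0) (i : Fin n) (c : Fin r → Fin n)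
    (h0 : mnr (N i) c = 0) (h1 : mnr (N i + D i) c ≠ 0) : Concl N := by
  refine ⟨fun i => (N i).map Polynomial.C + (Polynomial.X : Polynomial k) • (D i).map Polynomial.C,
    fun i => (A i).map Polynomial.C + (Polynomial.X : Polynomial k) • (B i).map Polynomial.C,
    ?_, ?_, i, c, h0, ?_⟩
  · intro i
    simp only [kill_map, Matrix.add_mul, Matrix.mul_add, Matrix.smul_mul, Matrix.mul_smul,
      ← Matrix.map_mul, hA, hD, hB]
    rw [Matrix.map_add _ (map_add _), Matrix.map_zero _ (map_zero _)]
    simp only [smul_add, smul_zero, add_zero]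
    abel
  · intro i
    ext1 a b
    simp
  · intro h
    apply h1
    have h2 := congrArg (Polynomial.evalRingHom (1 : k)) h
    rw [map_zero, mnr, RingHom.map_det] at h2
    rw [mnr, ← h2]
    congr 1
    ext1 a b
    simp

lemma deform (N : Fin n → Matrix (Fin r) (Fin n) k) (A : Fin n → Matrix (Fin r) (Fin r) k)
    (hA : ∀ i, N i * kill k i = A i * N (finRotate n i)) (P : Fin n → Prop)
    (lam u : Fin n → k)
    (h1 : ∀ i, P i → P (finRotate n i) → lam i = 0 ∧ u i = 0)
    (h2 : ∀ i, P i → ¬ P (finRotate n i) →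
      ∃ rho, vecMul rho (N (finRotate n i)) = vecMul u (kill k i))
    (h3 : ∀ i, ¬ P i → P (finRotate n i) → (N i * kill k i) *ᵥ lam = 0)
    (i : Fin n) (hi : P i) (c : Fin r → Fin n)
    (h0 : mnr (N i) c = 0) (hne : mnr (N i + vecMulVec (N i *ᵥ lam) u) c ≠ 0) : Concl N := by
  classical
  choose! rho hrho using h2
  refine first_order N (fun i => if P i then vecMulVec (N i *ᵥ lam) u else 0) A
    (fun i => if P i ∧ ¬ P (finRotate n i) then vecMulVec (N i *ᵥ lam) (rho i) else 0)
    hA ?_ ?_ i c h0 (by simpa [hi] using hne)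
  · intro i
    by_cases ha : P i <;> by_cases hb : P (finRotate n i)
    · obtain ⟨hl, hu⟩ := h1 i ha hb
      simp only [ha, hb, if_true, not_true, and_false, if_false, Matrix.zero_mul, add_zero]
      rw [vecMulVec_mul, mul_vecMulVec, mulVec_mulVec, ← hA, ← mulVec_mulVec, kill_mulVec_of hl,
        vecMul_kill_of hu]
    · simp only [ha, hb, if_true, not_false_iff, and_true, if_false, Matrix.mul_zero, zero_add]
      rw [vecMulVec_mul, vecMulVec_mul, hrho i ha hb]
    · simp only [ha, hb, if_true, false_and, if_false, Matrix.zero_mul, add_zero]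
      rw [mul_vecMulVec, mulVec_mulVec, ← hA, h3 i ha hb]
      simp
    · simp only [ha, hb, if_false, false_and, Matrix.zero_mul, Matrix.mul_zero, add_zero]
  · intro i
    by_cases hb : P (finRotate n i)
    · simp only [hb, not_true, and_false, if_false, Matrix.zero_mul]
    · simp only [hb, if_false, Matrix.mul_zero]

lemma inj_of_mnr {N : Matrix (Fin r) (Fin n) k} {c : Fin r → Fin n} (h : mnr N c ≠ 0)
    {z : Fin r → k} (hz : ∀ a, vecMul z N (c a) = 0) : z = 0 := by
  refine eq_zero_of_vecMul_eq_zero h ?_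
  funext a
  exact hz a

lemma mnr_of_inj (N : Matrix (Fin r) (Fin n) k) (h : ∀ z, vecMul z N = 0 → z = 0) :
    ∃ c, mnr N c ≠ 0 := by
  classical
  have hrank : N.rank = r := by
    have : LinearIndependent k N.row := by
      rw [← Matrix.vecMul_injective_iff]
      intro z z' hz
      have := h (z - z') (by rw [sub_vecMul]; exact sub_eq_zero.mpr hz)
      exact sub_eq_zero.mp this
    rw [this.rank_matrix, Fintype.card_fin]
  obtain ⟨κ, a, ha, hsp, hli⟩ := exists_linearIndependent' k N.col
  have hfin : Finite κ := Finite.of_injective a ha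
  have := Fintype.ofFinite κ
  have hcard : Fintype.card κ = r := by
    rw [← finrank_span_eq_card hli, hsp, ← Matrix.rank_eq_finrank_span_cols, hrank]
  let e : Fin r ≃ κ := (Fintype.equivFinOfCardEq hcard).symm
  refine ⟨fun j => a (e j), ?_⟩
  have hli' : LinearIndependent k (N.submatrix id fun j => a (e j)).col :=
    hli.comp e e.injective
  have hu := Matrix.linearIndependent_cols_iff_isUnit.mp hli'
  exact ((Matrix.isUnit_iff_isUnit_det _).mp hu).ne_zero

/-- Kill the coordinates in `S`. -/
def cut (S : Fin n → Prop) [DecidablePred S] : (Fin n → k) →ₗ[k] (Fin n → k) where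
  toFun x := fun i => if S i then 0 else x i
  map_add' x y := by funext i; by_cases h : S i <;> simp [h]
  map_smul' t x := by funext i; by_cases h : S i <;> simp [h]

lemma cut_apply (S : Fin n → Prop) [DecidablePred S] (x : Fin n → k) (i : Fin n) :
    cut S x i = if S i then 0 else x i := rfl

/-- Separation by a column vector vanishing on `S`. -/
lemma separate (S : Fin n → Prop) [DecidablePred S] (M : Matrix (Fin r) (Fin n) k)
    (w : Fin n → k) (hw : ∀ z, cut S (vecMul z M) ≠ cut S w) :
    ∃ lam : Fin n → k, (∀ i, S i → lam i = 0) ∧ M *ᵥ lam = 0 ∧ w ⬝ᵥ lam ≠ 0 := by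
  classical
  let U : Submodule k (Fin n → k) := LinearMap.range ((cut S).comp (vecMulLinear M))
  have hU : cut S w ∉ U := by
    rintro ⟨z, hz⟩
    exact hw z hz
  obtain ⟨f, hf, hfU⟩ := Submodule.exists_dual_map_eq_bot_of_notMem hU inferInstance
  have key : ∀ x : Fin n → k, x ⬝ᵥ (fun i => f (cut S (Pi.single i 1))) = f (cut S x) := by
    intro x
    conv_rhs => rw [pi_eq_sum_univ' x]
    simp only [map_sum, map_smul, dotProduct, smul_eq_mul]
  refine ⟨fun i => f (cut S (Pi.single i 1)), ?_, ?_, ?_⟩
  · intro i hi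
    have : cut S (Pi.single i (1 : k)) = 0 := by
      funext j
      rw [cut_apply]
      by_cases hj : S j
      · simp [hj]
      · have : j ≠ i := fun h => hj (h ▸ hi)
        simp [this]
    simp [this]
  · funext a
    have h1 : (M *ᵥ fun i => f (cut S (Pi.single i 1))) a = f (cut S (M a)) := key (M a)
    rw [h1]
    have h2 : cut S (M a) ∈ U := ⟨Pi.single a 1, by simp; rfl⟩
    have h3 : f (cut S (M a)) ∈ U.map f := Submodule.mem_map_of_mem h2
    rw [hfU] at h3
    exact h3
  · rw [key]; exact hf

lemma minor_one (N : Matrix (Fin r) (Fin n) k) (c₀ : Fin r → Fin n) (h₀ : mnr N c₀ ≠ 0)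
    (c : Fin n) (hc : ∀ a, N a c = 0) (y : Fin r → k) (hy : y ≠ 0) (u : Fin n → k)
    (hu : u c = 1) : ∃ d, mnr N d = 0 ∧ mnr (N + vecMulVec y u) d ≠ 0 := by
  classical
  have hcr : cramer (N.submatrix id c₀) y ≠ 0 := by
    intro h
    have h1 := mulVec_cramer (N.submatrix id c₀) y
    rw [h, mulVec_zero] at h1
    exact hy ((smul_eq_zero.mp h1.symm).resolve_left h₀)
  obtain ⟨a, ha⟩ := Function.ne_iff.mp hcr
  rw [cramer_apply] at ha
  refine ⟨Function.update c₀ a c, ?_, ?_⟩
  · refine det_eq_zero_of_column_eq_zero a fun i => ?_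
    simp [hc]
  · intro h
    obtain ⟨z, hz0, hz⟩ := exists_vecMul_eq_zero_iff.mpr h
    have hzy : z ⬝ᵥ y = 0 := by
      have := congrFun hz a
      simpa [vecMul, dotProduct, vecMulVec_apply, hc, hu] using this
    refine hz0 (eq_zero_of_vecMul_eq_zero ha ?_)
    funext b
    by_cases hb : b = a
    · subst hb
      simpa [vecMul, dotProduct] using hzy
    · have h1 := congrFun hz b
      simp only [vecMul, dotProduct, submatrix_apply, id, Function.update_of_ne hb,
        Matrix.add_apply, vecMulVec_apply, mul_add, Finset.sum_add_distrib, ← mul_assoc,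
        ← Finset.sum_mul, Pi.zero_apply] at h1
      have h2 : ∑ i, z i * y i = 0 := hzy
      rw [h2, zero_mul, add_zero] at h1
      simpa [vecMul, dotProduct, updateCol_ne hb] using h1

lemma minor_two (N : Matrix (Fin r) (Fin n) k) (c₀ : Fin r → Fin n) (h₀ : mnr N c₀ ≠ 0)
    (c : Fin n) (v₀ : Fin r → k) (hv₀ : vecMul v₀ N = Pi.single c 1) (mu v : Fin n → k)
    (hmu : mu c ≠ 0) (hv : v c = 0) (hU : ∀ z, vecMul z (N * kill k c) ≠ v) :
    ∃ d, mnr N d = 0 ∧ mnr (N + vecMulVec (N *ᵥ mu) v) d ≠ 0 := by
  classical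
  obtain ⟨d, hd⟩ := mnr_of_inj ((N + vecMulVec (N *ᵥ mu) v) * kill k c) (by
    intro z hz
    rw [Matrix.add_mul, vecMul_add, vecMulVec_mul, vecMul_kill_of hv, vecMul_vecMulVec,
      dotProduct_mulVec] at hz
    have h1 : vecMul z N ⬝ᵥ mu = 0 := by
      by_contra h1
      apply hU ((-(vecMul z N ⬝ᵥ mu)⁻¹) • z)
      rw [smul_vecMul, eq_neg_of_add_eq_zero_left hz, neg_smul_neg, smul_smul,
        inv_mul_cancel₀ h1, one_smul]
    rw [h1, zero_smul, add_zero, ← vecMul_vecMul] at hz
    have h2 : ∀ j, j ≠ c → vecMul z N j = 0 := by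
      intro j hj
      have := congrFun hz j
      rwa [vecMul_kill, if_neg hj] at this
    have h3 : vecMul z N c = 0 := by
      rw [dotProduct, Finset.sum_eq_single c (fun j _ hj => by rw [h2 j hj, zero_mul])
        (by simp)] at h1
      exact (mul_eq_zero.mp h1).resolve_right hmu
    refine inj_of_mnr h₀ fun a => ?_
    by_cases h : c₀ a = c
    · rw [h, h3]
    · exact h2 _ h)
  have hdc : ∀ a, d a ≠ c := by
    intro a ha
    refine hd (det_eq_zero_of_column_eq_zero a fun i => ?_)
    simp [ha, kill]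
  refine ⟨d, ?_, ?_⟩
  · by_contra h
    have : v₀ = 0 := inj_of_mnr h fun a => by rw [hv₀]; simp [hdc a]
    rw [this, zero_vecMul] at hv₀
    simpa using congrFun hv₀ c
  · convert hd using 1
    unfold mnr
    congr 1
    ext1 i a
    simp [kill, hdc a]

end ChainTwoA

open ChainTwoA in
theorem chainTwo : S_chain2 := by
  classical
  intro k _ r n N A hN hA c ⟨v₀, hv₀⟩ hc
  change Concl N
  obtain ⟨pos, L, hinj, hL, hle, hz, hs, hsurj⟩ := exists_pos c
  have hex : ∃ j, ∃ i, pos i = j ∧
      ∃ z, cut (fun x => j ≤ pos x ∧ pos x < L) (vecMul z (N i)) = Pi.single c 1 := by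
    refine ⟨L, c, hL, v₀, ?_⟩
    funext x
    rw [cut_apply, if_neg (by omega), hv₀]
  obtain ⟨ia, hia, za, hza⟩ := Nat.find_spec hex
  have hmin := fun j (hj : j < Nat.find hex) => Nat.find_min hex hj
  generalize Nat.find hex = a at hia hza hmin
  have haL : a ≤ L := hia ▸ hle ia
  have huc : vecMul za (N ia) c = 1 := by
    have := congrFun hza c
    rwa [cut_apply, if_neg (by omega), Pi.single_eq_same] at this
  have hcol : ∀ z, vecMul z (N (finRotate n c)) c = 0 := by
    intro z
    simp only [vecMul, dotProduct, hc, mul_zero, Finset.sum_const_zero]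
  have ha1 : 1 ≤ a := by
    by_contra h
    have : ia = finRotate n c := hinj (by omega)
    rw [this, hcol] at huc
    exact zero_ne_one huc
  have hu0 : ∀ x, pos x < a → vecMul za (N ia) x = 0 := by
    intro x hx
    have h1 := congrFun hza x
    have h2 : x ≠ c := by rintro rfl; omega
    rwa [cut_apply, if_neg (by omega), Pi.single_eq_of_ne h2] at h1
  obtain ⟨c₀, hc₀⟩ := hN (finRotate n c)
  obtain ⟨c₁, hc₁⟩ := hN c
  by_cases hb : ∀ w, ∃ z, cut (fun x => pos x < a) (vecMul z (N c * kill k c)) =
      cut (fun x => pos x < a) (vecMul w (N (finRotate n c)))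
  · -- deform the indices of position at least `a`
    obtain ⟨ib, hib⟩ := hsurj (a - 1) (by omega)
    obtain ⟨mu, hmuS, hmuN, hmu⟩ := separate (fun x => a - 1 ≤ pos x ∧ pos x < L) (N ib)
      (Pi.single c 1) (by
        intro z hz'
        refine hmin (a - 1) (by omega) ⟨ib, hib, z, ?_⟩
        rw [hz']
        funext x
        rw [cut_apply]
        split_ifs with hx
        · have : x ≠ c := by rintro rfl; omega
          simp [this]
        · rfl)
    have hns : ∃ w, ∀ z, vecMul z (A c) ≠ w := by
      by_contra h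
      push Not at h
      have h1 : Function.Surjective (vecMulLinear (A c)) := h
      have h2 := LinearMap.injective_iff_surjective.mpr h1
      have h3 : vecMul v₀ (A c) = 0 := by
        refine inj_of_mnr hc₀ fun x => ?_
        rw [vecMul_vecMul, ← hA, ← vecMul_vecMul, hv₀, vecMul_kill]
        split_ifs with hx
        · rfl
        · simp [hx]
      have h4 : v₀ = 0 := h2 (by simpa using h3)
      rw [h4, zero_vecMul] at hv₀
      simpa using congrFun hv₀ c
    obtain ⟨w, hw⟩ := hns
    obtain ⟨z, hz'⟩ := hb w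
    have hv : vecMul w (N (finRotate n c)) - vecMul z (N c * kill k c) =
        vecMul (w - vecMul z (A c)) (N (finRotate n c)) := by
      rw [sub_vecMul, vecMul_vecMul, hA]
    have hv0 : ∀ x, a ≤ pos x → vecMul (w - vecMul z (A c)) (N (finRotate n c)) x = 0 := by
      intro x hx
      have := congrFun hz' x
      rw [cut_apply, cut_apply, if_neg (by omega), if_neg (by omega)] at this
      rw [← hv, Pi.sub_apply, this, sub_self]
    obtain ⟨d, hd0, hd1⟩ := minor_two (N c) c₁ hc₁ c v₀ hv₀ mu
      (vecMul (w - vecMul z (A c)) (N (finRotate n c))) (by simpa using hmu) (hcol _) (by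
        intro z' hz''
        apply hw (z' + z)
        rw [hA, ← vecMul_vecMul] at hz''
        have h1 : vecMul z' (A c) - (w - vecMul z (A c)) = 0 :=
          inj_of_mnr hc₀ fun x => by rw [sub_vecMul, hz'', sub_self]; rfl
        rw [add_vecMul, sub_eq_zero.mp h1, sub_add_cancel])
    refine deform N A hA (fun x => a ≤ pos x) mu _ ?_ ?_ ?_ c (by omega) d hd0 hd1
    · intro i h1 h2
      have hi : i ≠ c := by rintro rfl; omega
      have h3 := hs i hi
      have h4 := hle (finRotate n i)
      exact ⟨hmuS i ⟨by omega, by omega⟩, hv0 i h1⟩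
    · intro i h1 h2
      have hi : i = c := by
        by_contra hi
        have := hs i hi
        omega
      subst hi
      exact ⟨_, (vecMul_kill_of (hcol _)).symm⟩
    · intro i h1 h2
      have hi : i ≠ c := by rintro rfl; omega
      have h3 := hs i hi
      have h4 : i = ib := hinj (by omega)
      subst h4
      rw [← mulVec_mulVec, kill_mulVec_of (hmuS i ⟨by omega, by omega⟩), hmuN]
  · -- deform the indices of position less than `a`
    push Not at hb
    obtain ⟨w, hw⟩ := hb
    obtain ⟨lam, hlS, hlN, hl⟩ := separate (fun x => pos x < a) (N c * kill k c) _ hw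
    have hy : N (finRotate n c) *ᵥ lam ≠ 0 := by
      intro h
      rw [← dotProduct_mulVec, h, dotProduct_zero] at hl
      exact hl rfl
    obtain ⟨d, hd0, hd1⟩ := minor_one _ c₀ hc₀ c hc _ hy _ huc
    refine deform N A hA (fun x => pos x < a) lam _ ?_ ?_ ?_ (finRotate n c) (by omega) d hd0 hd1
    · intro i h1 _
      exact ⟨hlS i h1, hu0 i h1⟩
    · intro i h1 h2
      have hi : i ≠ c := by rintro rfl; omega
      have h3 := hs i hi
      have h4 : finRotate n i = ia := hinj (by omega)
      exact ⟨za, by rw [h4, vecMul_kill_of (hu0 i h1)]⟩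
    · intro i h1 h2
      have hi : i = c := by
        by_contra hi
        have := hs i hi
        omega
      subst hi
      exact hlN

end Pool.Agent.P.MP_e7d440_ag
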