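import Pool.Agent.P.MP_e7d440_ag.Iface

/-! The normalized charts of the local model satisfy the criterion. -/

namespace Pool.Agent.P.MP_e7d440_ag

open MvPolynomial

namespace GrA

section gen
variable {O K ν : Type} [CommRing O] [Field K] [Algebra O K]

/-- The integral closure of the subalgebra generated by `s`. -/
abbrev ncl (O : Type) [CommRing O] [Algebra O K] (s : ν → K) : Subalgebra O K :=
  (integralClosure (Algebra.adjoin O (Set.range s)) K).restrictScalars O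

lemma le_ncl (s : ν → K) : Algebra.adjoin O (Set.range s) ≤ ncl O s := fun γ h =>
  isIntegral_algebraMap (R := Algebra.adjoin O (Set.range s)) (x := ⟨γ, h⟩)

lemma s_mem (s : ν → K) (n : ν) : s n ∈ ncl O s := le_ncl s (Algebra.subset_adjoin ⟨n, rfl⟩)

lemma aeval_mem {σ : Type} {S : Subalgebra O K} {y : σ → K} (h : ∀ p, y p ∈ S)
    (F : MvPolynomial σ O) : aeval y F ∈ S := by
  have h1 : Algebra.adjoin O (Set.range y) ≤ S := Algebra.adjoin_le (Set.range_subset_iff.2 h)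
  rw [Algebra.adjoin_range_eq_range_aeval] at h1
  exact h1 ⟨F, rfl⟩

lemma ft [Finite ν] (s : ν → K) (t : Finset K)
    (h1 : ∀ γ ∈ t, IsIntegral (Algebra.adjoin O (Set.range s)) γ)
    (h2 : ∀ γ : K, IsIntegral (Algebra.adjoin O (Set.range s)) γ →
      γ ∈ Algebra.adjoin O (Set.range s ∪ (t : Set K))) : Algebra.FiniteType O (ncl O s) := by
  have h3 : ncl O s = Algebra.adjoin O (Set.range s ∪ (t : Set K)) := by
    refine le_antisymm (fun γ h => h2 γ h) (Algebra.adjoin_le ?_)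
    rintro γ (⟨n, rfl⟩ | h)
    · exact s_mem s n
    · exact h1 γ h
  rw [← Subalgebra.fg_iff_finiteType, h3]
  exact Subalgebra.fg_def.2 ⟨_, (Set.finite_range s).union t.finite_toSet, rfl⟩

lemma fr (s : ν → K)
    (h : ∀ γ : K, ∃ a ∈ Algebra.adjoin O (Set.range s), ∃ b ∈ Algebra.adjoin O (Set.range s),
      b ≠ 0 ∧ γ * b = a) : IsFractionRing (ncl O s) K := by
  refine IsFractionRing.of_field _ _ fun γ => ?_
  obtain ⟨a, ha, b, hb, h0, e⟩ := h γ
  exact ⟨⟨a, le_ncl s ha⟩, ⟨b, le_ncl s hb⟩, eq_div_of_mul_eq h0 e⟩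

lemma icl (s : ν → K) [IsFractionRing (ncl O s) K] : IsIntegrallyClosed (ncl O s) := by
  refine (isIntegrallyClosed_iff K).2 fun {γ} h => ⟨⟨γ, ?_⟩, rfl⟩
  exact isIntegral_trans (R := Algebra.adjoin O (Set.range s))
    (A := integralClosure (Algebra.adjoin O (Set.range s)) K) γ h

lemma integ (s : ν → K) (c : ncl O s) :
    IsIntegral (Algebra.adjoin O (Set.range fun n => (⟨s n, s_mem s n⟩ : ncl O s))) c := by
  set S' := Algebra.adjoin O (Set.range fun n => (⟨s n, s_mem s n⟩ : ncl O s)) with hS'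
  have h1 : S'.map (ncl O s).val = Algebra.adjoin O (Set.range s) := by
    rw [hS', AlgHom.map_adjoin, ← Set.range_comp]
    rfl
  have h2 : ∀ a : Algebra.adjoin O (Set.range s), Subalgebra.inclusion (le_ncl s) a ∈ S' := by
    intro a
    obtain ⟨a', ha', e⟩ := (h1.ge a.2 : (a : K) ∈ S'.map (ncl O s).val)
    have h3 : Subalgebra.inclusion (le_ncl s) a = a' := Subtype.ext e.symm
    rw [h3]
    exact ha'
  have h4 : IsIntegral S' (algebraMap (ncl O s) K c) :=
    IsIntegral.map_of_comp_eq ((Subalgebra.inclusion (le_ncl s)).codRestrict S' h2).toRingHom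
      (RingHom.id K) (RingHom.ext fun _ => rfl) c.2
  exact (isIntegral_algebraMap_iff Subtype.val_injective).1 h4

end gen

variable {O : Type} [CommRing O] [IsDomain O] {r m : ℕ}

lemma inj : Function.Injective (algebraMap O (FF O r m)) := by
  rw [IsScalarTower.algebraMap_eq O (MvPolynomial (Fin r × Fin m) O) (FF O r m)]
  exact (IsFractionRing.injective (MvPolynomial (Fin r × Fin m) O) _).comp (C_injective _ _)

/-- The generators of the chart. -/
noncomputable def gens (π : O) (I : Finset (Fin (r + m))) (J : Fin (r + m) → Fin r → Fin (r + m))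
    (n : I × (Fin r → Fin (r + m))) : FF O r m :=
  plk π n.1 n.2 / plk π n.1 (J n.1)

lemma nchart_eq (π : O) (I : Finset (Fin (r + m))) (J : Fin (r + m) → Fin r → Fin (r + m)) :
    nchart π I J = ncl O (gens π I J) := by
  have h : {t | ∃ i ∈ I, ∃ c, t = plk π i c / plk π i (J i)} = Set.range (gens π I J) := by
    ext t
    constructor
    · rintro ⟨i, hi, c, rfl⟩
      exact ⟨(⟨i, hi⟩, c), rfl⟩
    · rintro ⟨n, rfl⟩
      exact ⟨n.1, n.1.2, n.2, rfl⟩
  exact congrArg (fun T : Set (FF O r m) =>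
    (integralClosure (Algebra.adjoin O T) (FF O r m)).restrictScalars O) h

lemma plk_ne (hP : S_pl) {π : O} (hπ : π ≠ 0) (i : Fin (r + m)) {c : Fin r → Fin (r + m)}
    (hc : Function.Injective c) : plk π i c ≠ 0 := by
  rw [hP.plk_eq]
  exact mul_ne_zero (pow_ne_zero _ ((map_ne_zero_iff _ inj).2 hπ)) (hP.ne c hc)

lemma xfrac (hP : S_pl) {π : O} (hπ : π ≠ 0) (i : Fin (r + m))
    (e : Fin r ⊕ Fin m ≃ Fin (r + m)) (γ : FF O r m) :
    ∃ F G : MvPolynomial (Fin r × Fin m) O,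
      aeval (xcrd π i e) G ≠ 0 ∧ γ * aeval (xcrd π i e) G = aeval (xcrd π i e) F := by
  refine hP.frac e (xcrd π i e) π
    (fun _ => (Finset.univ.filter fun a => e (Sum.inl a) < i).card)
    (fun p => (Finset.univ.filter fun a =>
      Function.update (fun a => e (Sum.inl a)) p.1 (e (Sum.inr p.2)) a < i).card) hπ
    (fun p => ?_) γ
  have h0 : algebraMap O (FF O r m) π ≠ 0 := (map_ne_zero_iff _ inj).2 hπ
  unfold xcrd crd
  rw [hP.plk_eq, hP.plk_eq, mul_div_mul_comm, ← mul_assoc, mul_div_cancel₀ _ (pow_ne_zero _ h0)]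

end GrA

open GrA

theorem gr (hP : S_pl) (hF : S_fin) (hV : S_val) (hT : S_tr) (hD : S_der) (hJ : S_jac)
    (hL : S_grlog) (ha : S_vera) (hb : S_verb) (hc : S_verc) (hH : S_hor) : S_gr := by
  intro O _ _ _ _ r m π I J hπ ⟨i₀, hi₀⟩ hJi
  have hπ0 : π ≠ 0 := hπ.ne_zero
  obtain ⟨e, he⟩ := hP.equiv (J i₀) (hJi i₀ hi₀)
  obtain ⟨D, hD'⟩ := hD.frac (O := O) (σ := Fin r × Fin m)
  have hS : IsStd D := hD'
  obtain ⟨g, hg0, hg⟩ := hL O r m D hS
  obtain ⟨h1, h2, h3⟩ := hH O r m π I J i₀ e D (lwr D g) hπ0 hi₀ hJi he hS hg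
  rw [nchart_eq] at h2 h3 ⊢
  have hx : ∀ p, xcrd π i₀ e p ∈ Algebra.adjoin O (Set.range (gens π I J)) := fun p =>
    Algebra.subset_adjoin ⟨(⟨i₀, hi₀⟩, Function.update (fun a => e (Sum.inl a)) p.1
      (e (Sum.inr p.2))), by unfold gens xcrd; rw [funext he]⟩
  have hfr : ∀ γ : FF O r m, ∃ a ∈ Algebra.adjoin O (Set.range (gens π I J)),
      ∃ b ∈ Algebra.adjoin O (Set.range (gens π I J)), b ≠ 0 ∧ γ * b = a := fun γ => by
    obtain ⟨F, G, h4, h5⟩ := xfrac hP hπ0 i₀ e γ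
    exact ⟨_, aeval_mem hx F, _, aeval_mem hx G, h4, h5⟩
  obtain ⟨t, ht1, ht2⟩ := hF O (FF O r m) _ (gens π I J) inj hfr
  haveI i1 := ft (gens π I J) t ht1 ht2
  haveI i2 := fr (gens π I J) hfr
  haveI i3 := icl (O := O) (gens π I J)
  haveI i4 : IsNoetherianRing (ncl O (gens π I J)) := Algebra.FiniteType.isNoetherianRing O _
  refine ⟨i1, i2, i3, ?_⟩
  let x : Fin r × Fin m → ncl O (gens π I J) := fun p => ⟨xcrd π i₀ e p, le_ncl _ (hx p)⟩
  have hval : ∀ (y : Fin r × Fin m → ncl O (gens π I J)) (F : MvPolynomial (Fin r × Fin m) O),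
      aeval (fun p => (y p : FF O r m)) F = ((aeval y F : ncl O (gens π I J)) : FF O r m) :=
    fun y F => aeval_algebraMap_apply (FF O r m) y F
  refine ⟨Fin r × Fin m, inferInstance, inferInstance, D, x, g, hg0, h1, fun a => ?_, ?_,
    fun 𝔮 hq hq1 hqπ => ?_⟩
  · obtain ⟨F, G, N, b, hb', h4, h5⟩ := h2 a a.2
    refine ⟨F, G, N, ⟨b, hb'⟩, Subtype.ext ?_, Subtype.ext ?_⟩
    · rw [MulMemClass.coe_mul, ← hval, ← hval]
      exact h4
    · rw [MulMemClass.coe_mul, ← hval]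
      exact h5
  · obtain ⟨N, ρ, hρ, h4⟩ := h3
    exact ⟨N, ⟨ρ, hρ⟩, h4⟩
  · obtain ⟨V, hV1, hV2⟩ := hV.dvr (K := FF O r m) 𝔮 hq hq1
    have hCV : ∀ a : ncl O (gens π I J), (a : FF O r m) ∈ V := fun a =>
      (hV1 _).2 (loc_map (algebraMap (ncl O (gens π I J)) (FF O r m)) hq a)
    have hind : AlgebraicIndependent O x :=
      AlgebraicIndependent.of_comp (ncl O (gens π I J)).val (hJ.indep D (xcrd π i₀ e) inj h1)
    have hinj : Function.Injective (algebraMap O (ncl O (gens π I J))) := fun o o' h =>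
      inj (congrArg Subtype.val h)
    obtain ⟨p, hp⟩ := hT O (ncl O (gens π I J)) _ _ π 𝔮
      (fun n => ⟨gens π I J n, s_mem _ n⟩) x hπ hinj hq hq1 hqπ (integ _) hind
    have hW : Vert π V := by
      refine ⟨fun o => hCV (algebraMap O _ o), (hV2 _).2 hqπ, fun a => gens π I J (p a),
        fun a => ⟨(p a).1, (p a).2, J (p a).1, plk_ne hP hπ0 _ (hJi _ (p a).1.2), fun c => ?_,
          rfl⟩, fun F hF' => hp F ((hV2 _).1 ?_)⟩
      · exact hCV ⟨_, s_mem (gens π I J) ((p a).1, c)⟩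
      · exact (congrArg (· ∈ V.nonunits)
          (hval (fun a => ⟨gens π I J (p a), s_mem _ _⟩) F)).mp hF'
    obtain ⟨J', hJ', hJV⟩ := ha O r m π V hπ hW
    obtain ⟨e', he'⟩ := hP.equiv J' hJ'
    obtain rfl : (fun a => e' (Sum.inl a)) = J' := funext he'
    refine ⟨ycrd π e', fun b => (hV1 _).1 (hJV _ _), fun a => ?_, ?_⟩
    · obtain ⟨F, G, h4, h5, h6⟩ := hb O r m π V e' hπ hW hJV a (hCV a)
      exact ⟨F, G, h4, (hV1 _).1 h5, h6⟩
    · have h4 : (∏ i : Fin (r + m), plk π i (cyc i) / plk π i (fun a => e' (Sum.inl a))) ∈ V :=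
        prod_mem fun i _ => hJV i _
      rcases hc O r m π D e' (lwr D g) hπ0 hS hg with h5 | h5
      · exact ⟨_, (hV1 _).1 h4, h5⟩
      · exact ⟨_, (hV1 _).1 (neg_mem h4), h5⟩

end Pool.Agent.P.MP_e7d440_ag
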