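import Pool.Agent.P.MP_e7d440_ag.Iface

/-! The volume form of the Grassmannian in an arbitrary standard chart. -/

namespace Pool.Agent.P.MP_e7d440_ag

open Matrix MvPolynomial
open scoped Kronecker

namespace GrjacA

variable {O K : Type} [CommRing O] [CommRing K] [Algebra O K]
variable {α β : Type} [Fintype α] [Fintype β] [DecidableEq α] [DecidableEq β]

omit [Fintype α] [DecidableEq α] [DecidableEq β] in
lemma map_mul_der {γ : Type} (D : Derivation O K K) (A : Matrix α β K) (B : Matrix β γ K) :
    (A * B).map D = A.map D * B + A * B.map D := by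
  ext i j
  simp only [Matrix.map_apply, Matrix.mul_apply, Matrix.add_apply, map_sum, Derivation.leibniz,
    smul_eq_mul, ← Finset.sum_add_distrib]
  exact Finset.sum_congr rfl fun _ _ => by ring

omit [Fintype α] in
lemma one_map_der (D : Derivation O K K) : (1 : Matrix α α K).map D = 0 := by
  ext i j
  by_cases h : i = j <;> simp [h]

/-- the complementary matrix -/
def Cm (σ : Equiv.Perm (α ⊕ β)) (Y : Matrix α β K) : Matrix β β K :=
  Matrix.of fun b b' => fromRows (-Y) (1 : Matrix β β K) (σ (Sum.inr b)) b'

lemma det_mul (σ : Equiv.Perm (α ⊕ β)) (X Y B : Matrix α β K) (A : Matrix α α K)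
    (hP : (fromCols (1 : Matrix α α K) X).submatrix id σ.symm = fromCols A B) (h : A * Y = B) :
    A.det * (Cm σ Y).det = ((Equiv.Perm.sign σ : ℤ) : K) := by
  set W : Matrix (α ⊕ β) (α ⊕ β) K := fromBlocks 1 (-Y) 0 1 with hW
  have h1 : fromCols (1 : Matrix α α K) X * W.submatrix σ id = fromCols A 0 := by
    have h2 := Matrix.submatrix_mul_equiv (fromCols A B) W id σ id
    rw [← hP, Matrix.submatrix_submatrix] at h2
    simp only [Function.comp_id, Equiv.symm_comp_self, Matrix.submatrix_id_id] at h2
    rw [h2, hP, hW, fromCols_mul_fromBlocks]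
    simp [h]
  have h3 : fromBlocks (1 : Matrix α α K) X (0 : Matrix β α K) (1 : Matrix β β K) *
      W.submatrix σ id =
      fromBlocks A 0 (Matrix.of fun b a => W (σ (Sum.inr b)) (Sum.inl a)) (Cm σ Y) := by
    rw [← fromRows_fromCols_eq_fromBlocks, fromRows_mul, h1, ← fromRows_fromCols_eq_fromBlocks]
    congr 1
    ext b t
    rw [Matrix.mul_apply, Fintype.sum_sum_type]
    cases t with
    | inl a => simp [Matrix.one_apply]
    | inr b' =>
      simp only [Cm, hW]
      rcases hs : σ (Sum.inr b) with a | c <;> simp [hs, Matrix.one_apply]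
  have h4 := congrArg Matrix.det h3
  rw [Matrix.det_mul, Matrix.det_permute, hW, det_fromBlocks_zero₂₁, det_fromBlocks_zero₂₁,
    det_fromBlocks_zero₁₂] at h4
  simpa using h4.symm

lemma der_mul (σ : Equiv.Perm (α ⊕ β)) (X Y B : Matrix α β K) (A : Matrix α α K)
    (hP : (fromCols (1 : Matrix α α K) X).submatrix id σ.symm = fromCols A B) (h : A * Y = B)
    (D : Derivation O K K) :
    A * Y.map D = X.map D * Cm σ Y := by
  have h1 : fromCols (A.map D) (B.map D) =
      (fromCols (0 : Matrix α α K) (X.map D)).submatrix id σ.symm := by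
    rw [← fromCols_map, ← hP, ← one_map_der D, ← fromCols_map]
    rfl
  have h2 := Matrix.submatrix_mul_equiv (fromCols (A.map D) (B.map D))
    (fromRows (-Y) (1 : Matrix β β K)) id σ id
  rw [fromCols_mul_fromRows, h1, Matrix.submatrix_submatrix] at h2
  simp only [Function.comp_id, Equiv.symm_comp_self, Matrix.submatrix_id_id] at h2
  have h3 : fromCols (0 : Matrix α α K) (X.map D) *
      (fromRows (-Y) (1 : Matrix β β K)).submatrix σ id = X.map D * Cm σ Y := by
    ext a b
    simp [Matrix.mul_apply, Fintype.sum_sum_type, Cm]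
  rw [← h3, h2, ← h, map_mul_der]
  simp

lemma jac (σ : Equiv.Perm (α ⊕ β)) (X Y B : Matrix α β K) (A : Matrix α α K)
    (hP : (fromCols (1 : Matrix α α K) X).submatrix id σ.symm = fromCols A B) (h : A * Y = B)
    (D : α × β → Derivation O K K) (hD : ∀ p a b, D p (X a b) = if p = (a, b) then 1 else 0) :
    (Matrix.of fun q p : α × β => D p (Y q.1 q.2)).det *
      A.det ^ (Fintype.card α + Fintype.card β) =
        ((Equiv.Perm.sign σ : ℤ) : K) ^ Fintype.card α := by
  have h1 : (A ⊗ₖ (1 : Matrix β β K)) * (Matrix.of fun q p : α × β => D p (Y q.1 q.2)) =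
      (1 : Matrix α α K) ⊗ₖ (Cm σ Y)ᵀ := by
    ext ⟨a, b⟩ ⟨a', b'⟩
    have h2 := congrFun (congrFun (der_mul σ X Y B A hP h (D (a', b'))) a) b
    simp only [Matrix.mul_apply, Matrix.map_apply, hD, Prod.mk.injEq] at h2
    simp only [Matrix.mul_apply, Fintype.sum_prod_type, kroneckerMap_apply, Matrix.one_apply,
      Matrix.of_apply, Matrix.transpose_apply, mul_ite, mul_one, mul_zero, ite_mul, zero_mul,
      Finset.sum_ite_eq, Finset.mem_univ, if_true, one_mul]
    rw [h2]
    by_cases ha : a = a'
    · simp [ha]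
    · simp [ha, Ne.symm ha]
  have h3 := congrArg Matrix.det h1
  rw [Matrix.det_mul, det_kronecker, det_kronecker, det_one, det_one, det_transpose, one_pow,
    one_pow, mul_one, one_mul] at h3
  rw [← det_mul σ X Y B A hP h, mul_pow, ← h3, pow_add]
  ring

end GrjacA

theorem grjac (hP : S_pl) : S_grjac := by
  intro O _ _ r m D hD e
  set M := genMat O r m with hM
  set A : Matrix (Fin r) (Fin r) (FF O r m) := M.submatrix id fun a => e (Sum.inl a) with hA
  have hne : A.det ≠ 0 := hP.ne _ (e.injective.comp Sum.inl_injective)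
  have h1 : A * (Matrix.of fun a b => crd M e (a, b)) =
      M.submatrix id fun b => e (Sum.inr b) := by
    ext a b
    have h2 := congrFun (Matrix.mulVec_cramer A fun i => M i (e (Sum.inr b))) a
    simp only [Matrix.mulVec, dotProduct, Pi.smul_apply, smul_eq_mul] at h2
    have h3 : ∀ a', crd M e (a', b) = A.cramer (fun i => M i (e (Sum.inr b))) a' / A.det := by
      intro a'
      rw [Matrix.cramer_apply]
      unfold crd mnr
      congr 2
      ext i j
      by_cases hj : j = a'
      · subst hj; simp
      · simp [hj, hA]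
    simp only [Matrix.mul_apply, Matrix.of_apply, h3, ← mul_div_assoc, ← Finset.sum_div, h2,
      Matrix.submatrix_apply, id]
    exact mul_div_cancel_left₀ _ hne
  have h4 := GrjacA.jac (finSumFinEquiv.trans e.symm)
    (Matrix.of fun a b => algebraMap (MvPolynomial (Fin r × Fin m) O) (FF O r m) (X (a, b)))
    _ _ A ?_ h1 D ?_
  · simp only [Fintype.card_fin, Matrix.of_apply] at h4
    have h5 : wr D (crd M e) * mnr M (fun a => e (Sum.inl a)) ^ (r + m) = _ := h4
    rw [h5]
    rcases Int.units_eq_one_or (Equiv.Perm.sign (finSumFinEquiv.trans e.symm)) with h | h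
    · simp [h]
    · simpa [h] using neg_one_pow_eq_or (FF O r m) r
  · have h6 : ∀ a j, fromCols (1 : Matrix (Fin r) (Fin r) (FF O r m))
        (Matrix.of fun a b => algebraMap (MvPolynomial (Fin r × Fin m) O) (FF O r m) (X (a, b)))
        a (finSumFinEquiv.symm j) = M a j := by
      intro a j
      refine Fin.addCases (fun a' => ?_) (fun b => ?_) j
      · simp [hM, genMat, Matrix.one_apply]
      · simp [hM, genMat]
    ext a t
    rcases t with a' | b
    · simpa [hA] using h6 a (e (Sum.inl a'))
    · simpa using h6 a (e (Sum.inr b))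
  · intro p a b
    rw [Matrix.of_apply, hD, pderiv_X]
    by_cases h : p = (a, b)
    · simp [h]
    · simp [h, Ne.symm h]

end Pool.Agent.P.MP_e7d440_ag
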