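import Pool.Agent.P.MP_e7d440_ag.Iface

/-! The logarithmic volume form of the Grassmannian with poles along the cyclic minors. -/

namespace Pool.Agent.P.MP_e7d440_ag

open MvPolynomial

namespace GrlogA

section general
variable {O K : Type} [CommRing O] [CommRing K] [Algebra O K]

theorem der_prod {ι : Type} [DecidableEq ι] (D : Derivation O K K) (s : Finset ι) (f : ι → K) :
    D (∏ i ∈ s, f i) = ∑ k ∈ s, (∏ i ∈ s.erase k, f i) * D (f k) := by
  induction s using Finset.induction_on with
  | empty => simp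
  | insert a s ha ih =>
    rw [Finset.prod_insert ha, Derivation.leibniz, ih, Finset.sum_insert ha,
      Finset.erase_insert ha, smul_eq_mul, smul_eq_mul, Finset.mul_sum, add_comm]
    congr 1
    refine Finset.sum_congr rfl fun k hk => ?_
    rw [Finset.erase_insert_of_ne (by rintro rfl; exact ha hk),
      Finset.prod_insert (fun h => ha (Finset.mem_of_mem_erase h)), mul_assoc]

theorem der_det {ι : Type} [Fintype ι] [DecidableEq ι] (D : Derivation O K K)
    (N : Matrix ι ι K) : D N.det = ∑ k, (N.updateCol k fun i => D (N i k)).det := by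
  simp only [Matrix.det_apply', map_sum]
  rw [Finset.sum_comm]
  refine Finset.sum_congr rfl fun σ _ => ?_
  rw [Derivation.leibniz, der_prod, ← Finset.mul_sum]
  have h0 : D ((Equiv.Perm.sign σ : ℤ) : K) = 0 := D.map_intCast _
  rw [h0, smul_zero, add_zero, smul_eq_mul]
  congr 1
  refine Finset.sum_congr rfl fun k _ => ?_
  rw [← Finset.mul_prod_erase Finset.univ _ (Finset.mem_univ k), Matrix.updateCol_self, mul_comm]
  congr 1
  refine Finset.prod_congr rfl fun i hi => ?_
  rw [Matrix.updateCol_ne (Finset.ne_of_mem_erase hi)]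

theorem det_tri {ι α : Type} [Fintype ι] [DecidableEq ι] [LinearOrder α] (key : ι → α)
    (hk : Function.Injective key) (W : Matrix ι ι K) (h : ∀ i j, key j < key i → W i j = 0) :
    W.det = ∏ i, W i i := by
  let _ : LinearOrder ι := LinearOrder.lift' key hk
  exact Matrix.det_of_isUpperTriangular (M := W) fun i j hij => h i j hij

theorem mnr_sq {r n : ℕ} (N : Matrix (Fin r) (Fin n) K) {c c' : Fin r → Fin n}
    (hc : Function.Injective c') (h : ∀ k, ∃ k', c k' = c' k) : mnr N c' ^ 2 = mnr N c ^ 2 := by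
  choose s hs using h
  have hi : Function.Injective s := fun a b e => hc (by rw [← hs, ← hs, e])
  let σ : Equiv.Perm (Fin r) := Equiv.ofBijective s (Finite.injective_iff_bijective.1 hi)
  have e : N.submatrix id c' = (N.submatrix id c).submatrix id σ := by
    ext i j
    simp [σ, hs]
  rw [mnr, e, Matrix.det_permute', mul_pow, mnr]
  rcases Int.units_eq_one_or (Equiv.Perm.sign σ) with h1 | h1 <;> simp [h1]

theorem mnr_zero {r n : ℕ} (N : Matrix (Fin r) (Fin n) K) {c : Fin r → Fin n} {k k' : Fin r}
    (h : k ≠ k') (e : c k = c k') : mnr N c = 0 :=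
  Matrix.det_zero_of_column_eq h fun i => by simp [e]

theorem tele (G : ℕ → ℕ → K) (r m : ℕ) (h1 : ∀ b, G r b = 1) (h2 : ∀ a, G a 0 = 1) :
    (∏ a ∈ Finset.range r, ∏ b ∈ Finset.range m, G (a + 1) b) *
      ∏ i ∈ Finset.range (r + m), (if i ≤ m then G 0 i else G (i - m) m) =
      ∏ a ∈ Finset.range r, ∏ b ∈ Finset.range m, G a (b + 1) := by
  have e1 : ∏ a ∈ Finset.range (r + 1), ∏ b ∈ Finset.range (m + 1), G a b =
      ∏ a ∈ Finset.range r, ∏ b ∈ Finset.range m, G a (b + 1) := by
    rw [Finset.prod_range_succ]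
    simp only [h1, Finset.prod_const_one, mul_one]
    refine Finset.prod_congr rfl fun a _ => ?_
    rw [Finset.prod_range_succ', h2, mul_one]
  have e2 : ∏ a ∈ Finset.range (r + 1), ∏ b ∈ Finset.range (m + 1), G a b =
      (∏ a ∈ Finset.range r, ∏ b ∈ Finset.range m, G (a + 1) b) *
        ((∏ b ∈ Finset.range (m + 1), G 0 b) * ∏ a ∈ Finset.range r, G (a + 1) m) := by
    rw [Finset.prod_range_succ']
    simp only [Finset.prod_range_succ (fun b => G (_ + 1) b), Finset.prod_mul_distrib]
    ring
  have e3 : ∏ i ∈ Finset.range (m + 1 + r), (if i ≤ m then G 0 i else G (i - m) m) =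
      (∏ b ∈ Finset.range (m + 1), G 0 b) * ∏ a ∈ Finset.range r, G (a + 1) m := by
    rw [Finset.prod_range_add]
    congr 1
    · refine Finset.prod_congr rfl fun b hb => if_pos ?_
      have := Finset.mem_range.1 hb
      omega
    · refine Finset.prod_congr rfl fun a _ => ?_
      rw [if_neg (by omega), show m + 1 + a - m = a + 1 by omega]
  have e4 : (if r + m ≤ m then G 0 (r + m) else G (r + m - m) m) = 1 := by
    split_ifs with h
    · have : r = 0 := by omega
      subst this
      exact h1 _
    · rw [Nat.add_sub_cancel, h1]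
  rw [show m + 1 + r = r + m + 1 by ring, Finset.prod_range_succ, e4, mul_one] at e3
  rw [e3, ← e2, e1]

end general

variable {r m : ℕ}

/-- The first `a` columns together with an interval shifted by `b`. -/
def cl (m : ℕ) (a b : ℕ) (k : Fin r) : Fin (r + m) :=
  ⟨if (k : ℕ) < a then k else k + min b m, by have := k.2; split_ifs <;> omega⟩

theorem cl_val (a b : ℕ) (k : Fin r) :
    (cl m a b k : ℕ) = if (k : ℕ) < a then (k : ℕ) else k + min b m := rfl

theorem cl_inj (a b : ℕ) : Function.Injective (cl m a b : Fin r → Fin (r + m)) := by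
  intro k k' e
  have := congrArg Fin.val e
  rw [cl_val, cl_val] at this
  apply Fin.ext
  split_ifs at this <;> omega

variable {O : Type} [CommRing O] [IsDomain O]

omit [IsDomain O] in
theorem gen_left (i a : Fin r) : genMat O r m i (Fin.castAdd m a) = if i = a then 1 else 0 := by
  simp [genMat]

omit [IsDomain O] in
theorem mnr_one {c : Fin r → Fin (r + m)} (h : ∀ k, (c k : ℕ) = k) : mnr (genMat O r m) c = 1 := by
  have e : (genMat O r m).submatrix id c = 1 := by
    ext i j
    rw [Matrix.submatrix_apply, show c j = Fin.castAdd m j from Fin.ext (h j), id, gen_left,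
      Matrix.one_apply]
  rw [mnr, e, Matrix.det_one]

variable {D : Fin r × Fin m → Derivation O (FF O r m) (FF O r m)}

theorem der_gen (hD : IsStd D) (p : Fin r × Fin m) (i : Fin r) (j : Fin (r + m)) :
    D p (genMat O r m i j) =
      if j = Fin.natAdd r p.2 then genMat O r m i (Fin.castAdd m p.1) else 0 := by
  induction j using Fin.addCases with
  | left a =>
    have h : Fin.castAdd m a ≠ Fin.natAdd r p.2 := by
      intro e
      have h1 := congrArg Fin.val e
      have h2 := a.2
      simp at h1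
      omega
    rw [if_neg h, gen_left]
    split_ifs <;> simp
  | right b =>
    rw [gen_left]
    have e : genMat O r m i (Fin.natAdd r b) =
        algebraMap (MvPolynomial (Fin r × Fin m) O) (FF O r m) (X (i, b)) := by simp [genMat]
    rw [e, hD, pderiv_X]
    obtain ⟨a, b'⟩ := p
    by_cases h1 : b = b'
    · by_cases h2 : i = a
      · simp [h1, h2]
      · simp [h1, h2]
    · have h3 : Fin.natAdd r b ≠ Fin.natAdd r b' := fun e => h1 (by simpa using e)
      simp [h1, h3]

theorem der_mnr (hD : IsStd D) (p : Fin r × Fin m) (c : Fin r → Fin (r + m)) :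
    D p (mnr (genMat O r m) c) = ∑ k, if c k = Fin.natAdd r p.2 then
      mnr (genMat O r m) (Function.update c k (Fin.castAdd m p.1)) else 0 := by
  rw [mnr, der_det]
  refine Finset.sum_congr rfl fun k _ => ?_
  simp only [Matrix.submatrix_apply, id, der_gen hD]
  split_ifs with h
  · rw [mnr]
    congr 1
    ext i j
    by_cases hj : j = k
    · subst hj; simp
    · simp [Matrix.updateCol_ne hj, Function.update_of_ne hj]
  · exact Matrix.det_eq_zero_of_column_eq_zero k fun i => by simp

theorem der_off (hD : IsStd D) (p q : Fin r × Fin m) (h : p.1 < q.1 ∨ q.2 < p.2) :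
    D p (mnr (genMat O r m) (cl m q.1 (q.2 + 1))) = 0 := by
  rw [der_mnr hD]
  refine Finset.sum_eq_zero fun k _ => ?_
  split_ifs with hk
  · have h1 := congrArg Fin.val hk
    rw [cl_val, Fin.val_natAdd] at h1
    have h2 := k.2
    have h3 := q.2.2
    simp only [Fin.lt_def] at h
    have h4 : (q.1 : ℕ) ≤ k ∧ (k : ℕ) + (q.2 + 1) = r + p.2 := by
      split_ifs at h1 <;> omega
    have h5 : (p.1 : ℕ) < q.1 := by omega
    have h6 : p.1 ≠ k := fun e => by rw [e] at h5; omega
    refine mnr_zero _ h6 ?_
    rw [Function.update_of_ne h6, Function.update_self]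
    apply Fin.ext
    rw [cl_val, if_pos h5, Fin.val_castAdd]
  · rfl

theorem der_diag (hD : IsStd D) (p : Fin r × Fin m) :
    D p (mnr (genMat O r m) (cl m p.1 (p.2 + 1))) ^ 2 =
      mnr (genMat O r m) (cl m (p.1 + 1) p.2) ^ 2 := by
  have h1 := p.1.2
  have h2 := p.2.2
  let k0 : Fin r := ⟨r - 1, by omega⟩
  have hk0 : (k0 : ℕ) = r - 1 := rfl
  rw [der_mnr hD, Finset.sum_eq_single k0]
  · have e : cl m p.1 (p.2 + 1) k0 = Fin.natAdd r p.2 := by
      apply Fin.ext
      rw [cl_val, Fin.val_natAdd, hk0]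
      split_ifs <;> omega
    rw [if_pos e]
    refine (mnr_sq _ (cl_inj _ _) fun k => ?_).symm
    have h3 := k.2
    rcases lt_trichotomy (k : ℕ) p.1 with h | h | h
    · have h4 : k ≠ k0 := fun e => by rw [e, hk0] at h; omega
      refine ⟨k, ?_⟩
      rw [Function.update_of_ne h4]
      apply Fin.ext
      rw [cl_val, cl_val, if_pos h, if_pos (by omega)]
    · refine ⟨k0, ?_⟩
      rw [Function.update_self]
      apply Fin.ext
      rw [cl_val, if_pos (by omega), Fin.val_castAdd, h]
    · have h4 : (⟨k - 1, by omega⟩ : Fin r) ≠ k0 := fun e => by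
        have := congrArg Fin.val e
        simp only [hk0] at this
        omega
      refine ⟨⟨k - 1, by omega⟩, ?_⟩
      rw [Function.update_of_ne h4]
      apply Fin.ext
      rw [cl_val, cl_val]
      simp only
      split_ifs <;> omega
  · intro k _ hk
    refine if_neg fun e => hk (Fin.ext ?_)
    have h3 := congrArg Fin.val e
    have h4 := k.2
    rw [cl_val, Fin.val_natAdd] at h3
    rw [hk0]
    split_ifs at h3 <;> omega
  · intro h
    exact absurd (Finset.mem_univ _) h

omit [IsDomain O] in
theorem cyc_sq (i : Fin (r + m)) : mnr (genMat O r m) (cyc i) ^ 2 =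
    (if (i : ℕ) ≤ m then mnr (genMat O r m) (cl m 0 i)
      else mnr (genMat O r m) (cl m (i - m) m)) ^ 2 := by
  have h1 := i.2
  split_ifs with h
  · refine (mnr_sq _ (cl_inj _ _) fun k => ⟨k, Fin.ext ?_⟩).symm
    have h2 := k.2
    rw [cl_val, if_neg (by omega)]
    show ((i : ℕ) + k) % (r + m) = _
    rw [Nat.mod_eq_of_lt (by omega)]
    omega
  · refine (mnr_sq _ (cl_inj _ _) fun k => ?_).symm
    have h2 := k.2
    by_cases h3 : (k : ℕ) < i - m
    · refine ⟨⟨k + r - (i - m), by omega⟩, Fin.ext ?_⟩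
      rw [cl_val, if_pos h3]
      show ((i : ℕ) + (k + r - (i - m))) % (r + m) = _
      rw [show (i : ℕ) + (k + r - (i - m)) = k + (r + m) by omega, Nat.add_mod_right,
        Nat.mod_eq_of_lt (by omega)]
    · refine ⟨⟨k - (i - m), by omega⟩, Fin.ext ?_⟩
      rw [cl_val, if_neg h3]
      show ((i : ℕ) + (k - (i - m))) % (r + m) = _
      rw [Nat.mod_eq_of_lt (by omega)]
      omega

end GrlogA

open GrlogA

theorem grlog (hP : S_pl) (hJ : S_jac) : S_grlog := by
  intro O _ _ r m D hD
  let G : ℕ → ℕ → FF O r m := fun a b => mnr (genMat O r m) (cl m a b)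
  have hG : ∀ a b, G a b ≠ 0 := fun a b => hP.ne _ (cl_inj a b)
  refine ⟨fun p => G p.1 (p.2 + 1), fun p => hG _ _, ?_⟩
  rw [← mul_self_eq_one_iff, ← sq, hJ.lwr_eq]
  have hpr : ∀ f : ℕ → ℕ → FF O r m, ∏ p : Fin r × Fin m, f p.1 p.2 =
      ∏ a ∈ Finset.range r, ∏ b ∈ Finset.range m, f a b := by
    intro f
    rw [Fintype.prod_prod_type, ← Fin.prod_univ_eq_prod_range
      (fun a => ∏ b ∈ Finset.range m, f a b)]
    exact Finset.prod_congr rfl fun a _ => Fin.prod_univ_eq_prod_range (f a) m
  have hw : wr D (fun p : Fin r × Fin m => G p.1 (p.2 + 1)) ^ 2 =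
      (∏ a ∈ Finset.range r, ∏ b ∈ Finset.range m, G (a + 1) b) ^ 2 := by
    rw [wr, det_tri (fun p : Fin r × Fin m => toLex (p.1, OrderDual.toDual p.2))
      (fun p q e => by simpa [Prod.ext_iff] using e),
      ← hpr fun a b => G (a + 1) b, ← Finset.prod_pow, ← Finset.prod_pow]
    · exact Finset.prod_congr rfl fun p _ => der_diag hD p
    · intro q p h
      refine der_off hD p q ?_
      rcases (Prod.Lex.toLex_lt_toLex).1 h with h | h
      · exact Or.inl h
      · exact Or.inr h.2
  have hc : (∏ i : Fin (r + m), mnr (genMat O r m) (cyc i)) ^ 2 =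
      (∏ i ∈ Finset.range (r + m), (if i ≤ m then G 0 i else G (i - m) m)) ^ 2 := by
    rw [← Fin.prod_univ_eq_prod_range (fun i => if i ≤ m then G 0 i else G (i - m) m),
      ← Finset.prod_pow, ← Finset.prod_pow]
    exact Finset.prod_congr rfl fun i _ => cyc_sq i
  have ht := tele G r m
    (fun b => mnr_one fun k => by rw [cl_val, if_pos k.2])
    (fun a => mnr_one fun k => by rw [cl_val]; split_ifs <;> simp)
  have hB : ∏ a ∈ Finset.range r, ∏ b ∈ Finset.range m, G a (b + 1) ≠ 0 :=
    Finset.prod_ne_zero_iff.2 fun a _ => Finset.prod_ne_zero_iff.2 fun b _ => hG _ _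
  rw [hpr fun a b => G a (b + 1), mul_pow, div_pow, hw, hc, div_mul_eq_mul_div, ← mul_pow, ht,
    div_self (pow_ne_zero 2 hB)]

end Pool.Agent.P.MP_e7d440_ag
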