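import Pool.Agent.P.MP_e7d440_ag.Iface

/-! The generic fibre of the charts. -/

namespace Pool.Agent.P.MP_e7d440_ag

open MvPolynomial

noncomputable section

namespace HorA

/-- Elements integral over a subring of a localization of a polynomial ring lie in it. -/
theorem closed {O K σ : Type} [CommRing O] [IsDomain O] [UniqueFactorizationMonoid O] [Field K]
    [Algebra O K] (x : σ → K) (hx : AlgebraicIndependent O x)
    (hfr : ∀ γ : K, ∃ F G : MvPolynomial σ O, aeval x G ≠ 0 ∧ γ * aeval x G = aeval x F)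
    (S : Subring K) (s : Set K)
    (hs : ∀ t ∈ s, ∃ F G : MvPolynomial σ O, aeval x G ≠ 0 ∧ (aeval x G)⁻¹ ∈ S ∧
      t * aeval x G = aeval x F) (γ : K) (hγ : IsIntegral (Algebra.adjoin O s) γ) :
    ∃ F G : MvPolynomial σ O, aeval x G ≠ 0 ∧ (aeval x G)⁻¹ ∈ S ∧ γ * aeval x G = aeval x F := by
  let := (aeval x : MvPolynomial σ O →ₐ[O] K).toRingHom.toAlgebra
  have he : ∀ F, algebraMap (MvPolynomial σ O) K F = aeval x F := fun _ => rfl
  have : IsScalarTower O (MvPolynomial σ O) K :=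
    IsScalarTower.of_algebraMap_eq fun o => by rw [he, AlgHom.commutes]
  have : FaithfulSMul (MvPolynomial σ O) K := (faithfulSMul_iff_algebraMap_injective _ _).2 hx
  have : IsFractionRing (MvPolynomial σ O) K := IsFractionRing.of_field _ _ fun z => by
    obtain ⟨F, G, h1, h2⟩ := hfr z
    exact ⟨F, G, by rw [he, he, eq_div_iff h1, h2]⟩
  let M : Submonoid (MvPolynomial σ O) :=
    { carrier := {G | aeval x G ≠ 0 ∧ (aeval x G)⁻¹ ∈ S}
      mul_mem' := fun {a b} ha hb => by
        refine ⟨?_, ?_⟩ <;> rw [map_mul]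
        · exact mul_ne_zero ha.1 hb.1
        · rw [mul_inv]; exact S.mul_mem ha.2 hb.2
      one_mem' := by simp }
  have hM : M ≤ nonZeroDivisors _ := fun G hG =>
    mem_nonZeroDivisors_of_ne_zero fun e => hG.1 (by rw [e, map_zero])
  let T := Localization.subalgebra.ofField K M hM
  have hle : Algebra.adjoin O s ≤ T.restrictScalars O := Algebra.adjoin_le fun t ht => by
    obtain ⟨F, G, h1, h2, h3⟩ := hs t ht
    exact ⟨F, G, ⟨h1, h2⟩, by rw [he, he, ← h3, mul_inv_cancel_right₀ h1]⟩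
  have h1 : IsIntegral T γ := hγ.map_of_comp_eq
    ((Algebra.adjoin O s).val.toRingHom.codRestrict T fun t => hle t.2) (RingHom.id K) rfl
  obtain ⟨G, hG⟩ := h1.exists_multiple_integral_of_isLocalization M
  obtain ⟨F, hF⟩ := IsIntegrallyClosed.isIntegral_iff.1 hG
  exact ⟨F, G, G.2.1, G.2.2, by rw [← he F, hF, Submonoid.smul_def, Algebra.smul_def, he, mul_comm]⟩

/-- Inverting `P` in a subring of a field. -/
def away {K : Type} [Field K] (C : Subring K) (P : K) (hP : P ∈ C) : Subring K where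
  carrier := {γ | ∃ N : ℕ, P ^ N * γ ∈ C}
  mul_mem' := by
    rintro a b ⟨n, ha⟩ ⟨k, hb⟩
    exact ⟨n + k, by rw [pow_add, mul_mul_mul_comm]; exact C.mul_mem ha hb⟩
  one_mem' := ⟨0, by simp⟩
  add_mem' := by
    rintro a b ⟨n, ha⟩ ⟨k, hb⟩
    refine ⟨n + k, ?_⟩
    rw [show P ^ (n + k) * (a + b) = P ^ k * (P ^ n * a) + P ^ n * (P ^ k * b) by ring]
    exact C.add_mem (C.mul_mem (C.pow_mem hP _) ha) (C.mul_mem (C.pow_mem hP _) hb)
  zero_mem' := ⟨0, by simp⟩
  neg_mem' := by
    rintro a ⟨n, ha⟩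
    exact ⟨n, by rw [mul_neg]; exact C.neg_mem ha⟩

theorem wr_scale {O K ι : Type} [CommRing O] [Field K] [Algebra O K] [Fintype ι] [DecidableEq ι]
    (D : ι → Derivation O K K) (x y : ι → K) (π : O) (k k' : ι → ℕ) (hπ : algebraMap O K π ≠ 0)
    (h : ∀ p, algebraMap O K π ^ k' p * y p = algebraMap O K π ^ k p * x p) :
    wr D x = (∏ p, algebraMap O K π ^ k' p * (algebraMap O K π)⁻¹ ^ k p) * wr D y := by
  rw [wr, wr, ← Matrix.det_mul_column]
  congr 1
  ext b a
  have e := congrArg (D a) (h b)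
  simp only [← map_pow, ← Algebra.smul_def, Derivation.map_smul] at e
  simp only [Algebra.smul_def, map_pow] at e
  simp only [Matrix.of_apply, inv_pow]
  field_simp
  linear_combination -e

end HorA

open HorA in
theorem hor (hP : S_pl) (hG : S_grjac) (hJ : S_jac) : S_hor := by
  intro O _ _ _ _ r m π I J i₀ e D Θ hπ hi hI he hD hΘ
  have hinj : Function.Injective (algebraMap O (FF O r m)) := by
    rw [IsScalarTower.algebraMap_eq O (MvPolynomial (Fin r × Fin m) O) (FF O r m)]
    exact (IsFractionRing.injective (MvPolynomial (Fin r × Fin m) O) _).comp (C_injective _ _)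
  have hP0 : algebraMap O (FF O r m) π ≠ 0 := (map_ne_zero_iff _ hinj).2 hπ
  have hc : (fun a => e (Sum.inl a)) = J i₀ := funext he
  have hx : ∀ p, algebraMap O (FF O r m) π ^ (Finset.univ.filter fun a => Function.update
      (fun a => e (Sum.inl a)) p.1 (e (Sum.inr p.2)) a < i₀).card * crd (genMat O r m) e p =
      algebraMap O (FF O r m) π ^ (Finset.univ.filter fun a => e (Sum.inl a) < i₀).card *
        xcrd π i₀ e p := fun p => by
    rw [xcrd, crd, hP.plk_eq, hP.plk_eq]
    field_simp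
  have hw := wr_scale D _ _ π _ _ hP0 hx
  have hg := hG O r m D hD e
  have h1 : wr D (xcrd π i₀ e) ≠ 0 := by
    rw [hw]
    refine mul_ne_zero (Finset.prod_ne_zero_iff.2 fun p _ => by simp [hP0]) fun k => ?_
    simp [k] at hg
  let S := away (nchart π I J).toSubring _ ((nchart π I J).algebraMap_mem π)
  have hS : ∀ γ ∈ nchart π I J, γ ∈ S := fun γ h => ⟨0, by simpa using h⟩
  have p1 : algebraMap O (FF O r m) π ∈ S := hS _ (Subalgebra.algebraMap_mem _ _)
  have p2 : (algebraMap O (FF O r m) π)⁻¹ ∈ S := ⟨1, by simp [hP0]⟩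
  have hm : ∀ i ∈ I, ∀ c, mnr (genMat O r m) c / mnr (genMat O r m) (J i) ∈ S := fun i hi c => by
    have k : plk π i c / plk π i (J i) ∈ S := hS _
      (isIntegral_algebraMap (R := chart π I J) (x := ⟨_, Algebra.subset_adjoin ⟨i, hi, c, rfl⟩⟩))
    have k' := S.mul_mem (S.mul_mem k (S.pow_mem p1 (Finset.univ.filter fun a => J i a < i).card))
      (S.pow_mem p2 (Finset.univ.filter fun a => c a < i).card)
    rwa [hP.plk_eq, hP.plk_eq, show ∀ a b u v : FF O r m, ∀ n k : ℕ, u ≠ 0 → v = u⁻¹ →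
      u ^ n * a / (u ^ k * b) * u ^ k * v ^ n = a / b from
        fun a b u v n k h1 h2 => by rw [h2, inv_pow]; field_simp] at k'
    · exact hP0
    · rfl
  have n0 := hP.ne (O := O) _ (hI i₀ hi)
  have gen : ∀ t ∈ {t | ∃ i ∈ I, ∃ c, t = plk π i c / plk π i (J i)},
      ∃ F G : MvPolynomial (Fin r × Fin m) O, aeval (xcrd π i₀ e) G ≠ 0 ∧
        (aeval (xcrd π i₀ e) G)⁻¹ ∈ S ∧ t * aeval (xcrd π i₀ e) G = aeval (xcrd π i₀ e) F := by
    rintro _ ⟨i, hi', c, rfl⟩
    have cr : ∀ c, ∃ F : MvPolynomial (Fin r × Fin m) O,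
        aeval (xcrd π i₀ e) F = plk π i₀ c / plk π i₀ (J i₀) := fun c => by
      obtain ⟨F, hF⟩ := hP.cramer O e c
      refine ⟨F, hc ▸ (hF _ (Matrix.of fun a k => genMat O r m a k *
        (if k < i₀ then algebraMap O (FF O r m) π else 1)) ?_).symm⟩
      change plk π i₀ _ ≠ 0
      rw [hP.plk_eq, hc]
      exact mul_ne_zero (pow_ne_zero _ hP0) n0
    obtain ⟨F, hF⟩ := cr c
    obtain ⟨G, hG⟩ := cr (J i)
    have n1 := hP.ne (O := O) _ (hI i hi')
    have k := hm i hi' (J i₀)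
    rw [hP.plk_eq, hP.plk_eq] at hF hG ⊢
    generalize (Finset.univ.filter fun a => c a < i₀).card = a1 at *
    generalize (Finset.univ.filter fun a => J i₀ a < i₀).card = a2 at *
    generalize (Finset.univ.filter fun a => J i a < i₀).card = a3 at *
    generalize (Finset.univ.filter fun a => c a < i).card = a4 at *
    generalize (Finset.univ.filter fun a => J i a < i).card = a5 at *
    refine ⟨C π ^ (a4 + a3) * F, C π ^ (a5 + a1) * G, ?_, ?_, ?_⟩ <;>
      simp only [map_mul, map_pow, aeval_C, hF, hG]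
    · simp [hP0, n0, n1]
    · have k' := S.mul_mem (S.mul_mem k (S.pow_mem p1 a2)) (S.pow_mem p2 (a5 + a1 + a3))
      refine (congrArg (· ∈ S) ?_).mp k'
      rw [inv_pow]
      field_simp
      ring
    · field_simp
      ring
  refine ⟨h1, fun γ hγ => ?_, ?_⟩
  · obtain ⟨F, G, k1, ⟨N, k2⟩, k3⟩ := closed _ (hJ.indep D _ hinj h1) (hP.frac e _ π _ _ hπ hx) S
      _ gen γ hγ
    exact ⟨F, G, N, _, k2, k3, by field_simp⟩
  · have k : (∏ p, algebraMap O (FF O r m) π ^ _ * (algebraMap O (FF O r m) π)⁻¹ ^ _) *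
        ∏ i, mnr (genMat O r m) (cyc i) / mnr (genMat O r m) (J i₀) ∈ S :=
      S.mul_mem (S.prod_mem (t := Finset.univ) fun (p : Fin r × Fin m) _ => S.mul_mem (S.pow_mem p1
        (Finset.univ.filter fun a => Function.update
          (fun a => e (Sum.inl a)) p.1 (e (Sum.inr p.2)) a < i₀).card)
        (S.pow_mem p2 (Finset.univ.filter fun a => e (Sum.inl a) < i₀).card))
        (S.prod_mem fun i _ => hm i₀ hi (cyc i))
    rw [Finset.prod_div_distrib, Finset.prod_const, Finset.card_univ, Fintype.card_fin] at k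
    obtain ⟨N, k⟩ := k
    rw [hc] at hg
    have n2 := pow_ne_zero (r + m) n0
    have : wr D (crd (genMat O r m) e) = (∏ i, mnr (genMat O r m) (cyc i)) /
        mnr (genMat O r m) (J i₀) ^ (r + m) * Θ ∨ wr D (crd (genMat O r m) e) =
        -((∏ i, mnr (genMat O r m) (cyc i)) / mnr (genMat O r m) (J i₀) ^ (r + m)) * Θ := by
      rw [neg_mul, div_mul_eq_mul_div, ← neg_div, eq_div_iff n2, eq_div_iff n2, mul_comm _ Θ]
      rcases hg with e1 | e1 <;> rcases hΘ with e2 | e2 <;> simp [e1, e2]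
    rcases this with e1 | e1
    · exact ⟨N, _, k, by rw [hw, e1]; ring⟩
    · exact ⟨N, _, neg_mem k, by rw [hw, e1]; ring⟩

end

end Pool.Agent.P.MP_e7d440_ag
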