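import Pool.Agent.P.MP_e7d440_ag.Iface

/-! Elementary facts on Pluecker coordinates. -/

namespace Pool.Agent.P.MP_e7d440_ag

open MvPolynomial

noncomputable section

namespace PlA

lemma mnr_mul {R : Type} [CommRing R] {r n : ℕ} (M : Matrix (Fin r) (Fin r) R)
    (B : Matrix (Fin r) (Fin n) R) (c : Fin r → Fin n) : mnr (M * B) c = M.det * mnr B c := by
  unfold mnr
  rw [← Matrix.det_mul]
  rfl

lemma mnr_update {R : Type} [CommRing R] {r n : ℕ} (B : Matrix (Fin r) (Fin n) R)
    (J : Fin r → Fin n) (h : B.submatrix id J = 1) (a : Fin r) (j : Fin n) :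
    mnr B (Function.update J a j) = B a j := by
  have h1 : B.submatrix id (Function.update J a j) =
      (1 : Matrix (Fin r) (Fin r) R).updateCol a (fun i => B i j) := by
    ext i k
    by_cases hk : k = a
    · subst hk; simp
    · rw [Matrix.updateCol_ne hk, ← h]; simp [Function.update_of_ne hk]
  unfold mnr
  rw [h1, ← Matrix.cramer_apply, Matrix.cramer_one]
  rfl

/-- the matrix (1 | X) over the polynomial ring -/
def genP (O : Type) [CommRing O] (r m : ℕ) :
    Matrix (Fin r) (Fin (r + m)) (MvPolynomial (Fin r × Fin m) O) :=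
  Matrix.of fun a => Fin.addCases (fun a' => if a = a' then 1 else 0) (fun b => X (a, b))

lemma genMat_eq (O : Type) [CommRing O] (r m : ℕ) :
    genMat O r m = (genP O r m).map (algebraMap _ (FF O r m)) := by
  ext a j
  refine Fin.addCases (fun a' => ?_) (fun b => ?_) j
  · by_cases h : a = a' <;> simp [genMat, genP, h]
  · simp [genMat, genP]

lemma mnr_map {R S : Type} [CommRing R] [CommRing S] {r n : ℕ} (f : R →+* S)
    (B : Matrix (Fin r) (Fin n) R) (c : Fin r → Fin n) : mnr (B.map f) c = f (mnr B c) := by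
  unfold mnr
  rw [RingHom.map_det]
  rfl

lemma ne {O : Type} [CommRing O] [IsDomain O] {r m : ℕ} (c : Fin r → Fin (r + m))
    (hc : Function.Injective c) : mnr (genMat O r m) c ≠ 0 := by
  classical
  rw [genMat_eq, mnr_map]
  intro h0
  have h1 : mnr (genP O r m) c = 0 :=
    (IsFractionRing.injective (MvPolynomial (Fin r × Fin m) O) (FF O r m))
      (by rw [h0, map_zero])
  obtain ⟨ρ, hρ⟩ := Equiv.Perm.exists_extending_pair
    (α := {p : Fin r × Fin r // c p.1 = Fin.castAdd m p.2})
    (f := fun p => p.1.1) (g := fun p => p.1.2)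
    (by
      rintro ⟨⟨k, a⟩, h⟩ ⟨⟨k', a'⟩, h'⟩ hk
      dsimp only at hk h h'
      subst hk
      have : a = a' := Fin.castAdd_injective _ _ (h.symm.trans h')
      subst this
      rfl)
    (by
      rintro ⟨⟨k, a⟩, h⟩ ⟨⟨k', a'⟩, h'⟩ hk
      dsimp only at hk h h'
      subst hk
      have : k = k' := hc (h.trans h'.symm)
      subst this
      rfl)
  let Y : Fin r × Fin m → O := fun p => if ∃ k, c k = Fin.natAdd r p.2 ∧ ρ k = p.1 then 1 else 0
  have h2 := congrArg (eval Y) h1
  rw [← mnr_map, map_zero] at h2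
  have h3 : ((genP O r m).map (eval Y)).submatrix id c =
      (1 : Matrix (Fin r) (Fin r) O).submatrix id ρ := by
    ext a k
    simp only [Matrix.submatrix_apply, id, Matrix.map_apply, Matrix.one_apply]
    have key : ∀ j : Fin (r + m), c k = j → eval Y (genP O r m a j) = if a = ρ k then 1 else 0 := by
      intro j
      refine Fin.addCases (fun a' => ?_) (fun b => ?_) j
      · intro hj
        have := hρ ⟨(k, a'), hj⟩
        dsimp only at this
        rw [this]
        by_cases h : a = a' <;> simp [genP, h]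
      · intro hj
        have : (∃ k', c k' = Fin.natAdd r b ∧ ρ k' = a) ↔ a = ρ k := by
          constructor
          · rintro ⟨k', h1, h2⟩
            rw [hc (hj.trans h1.symm), h2]
          · intro h
            exact ⟨k, hj, h.symm⟩
        simp only [genP, Matrix.of_apply, Fin.addCases_right, eval_X, Y, this]
    exact key _ rfl
  unfold mnr at h2
  rw [h3, Matrix.det_permute', Matrix.det_one, mul_one] at h2
  rcases Int.units_eq_one_or (Equiv.Perm.sign ρ) with h | h <;> simp [h] at h2

lemma plk_eq {O : Type} [CommRing O] [IsDomain O] {r m : ℕ} (π : O) (i : Fin (r + m))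
    (c : Fin r → Fin (r + m)) : plk π i c =
      algebraMap O (FF O r m) π ^ (Finset.univ.filter fun a => c a < i).card *
        mnr (genMat O r m) c := by
  unfold plk mnr
  have := Matrix.det_mul_row (fun k => if c k < i then algebraMap O (FF O r m) π else 1)
    ((genMat O r m).submatrix id c)
  rw [Finset.prod_ite, Finset.prod_const, Finset.prod_const_one, mul_one] at this
  rw [← this]
  congr 1
  ext a k
  simp only [Matrix.of_apply, Matrix.submatrix_apply, id]
  rw [mul_comm]

lemma cramer (O : Type) [CommRing O] {r m : ℕ} (e : Fin r ⊕ Fin m ≃ Fin (r + m))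
    (c : Fin r → Fin (r + m)) : ∃ F : MvPolynomial (Fin r × Fin m) O,
      ∀ (K : Type) [Field K] [Algebra O K] (N : Matrix (Fin r) (Fin (r + m)) K),
        mnr N (fun a => e (Sum.inl a)) ≠ 0 →
        mnr N c / mnr N (fun a => e (Sum.inl a)) = aeval (crd N e) F := by
  refine ⟨Matrix.det (Matrix.of fun a k => (e.symm (c k)).elim
    (fun a' => if a = a' then 1 else 0) (fun b => X (a, b))), ?_⟩
  intro K _ _ N hN
  set J : Fin r → Fin (r + m) := fun a => e (Sum.inl a) with hJ
  let M : Matrix (Fin r) (Fin r) K := N.submatrix id J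
  have hM : IsUnit M.det := isUnit_iff_ne_zero.mpr hN
  let B : Matrix (Fin r) (Fin (r + m)) K := M⁻¹ * N
  have hB : N = M * B := by
    rw [← Matrix.mul_assoc, Matrix.mul_nonsing_inv _ hM, Matrix.one_mul]
  have hB1 : B.submatrix id J = 1 := by
    rw [← Matrix.nonsing_inv_mul _ hM]
    rfl
  have hq : ∀ c', mnr N c' / mnr N J = mnr B c' := by
    intro c'
    rw [div_eq_iff hN]
    conv_lhs => rw [hB, mnr_mul]
    rw [mul_comm]
    rfl
  rw [hq, AlgHom.map_det]
  unfold mnr
  congr 1
  ext a k
  simp only [Matrix.submatrix_apply, id, AlgHom.mapMatrix_apply, Matrix.map_apply,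
    Matrix.of_apply]
  obtain ⟨s, hs⟩ := e.surjective (c k)
  rw [← hs, Equiv.symm_apply_apply]
  rcases s with a' | b
  · have := congrFun (congrFun hB1 a) a'
    simp only [Matrix.submatrix_apply, id, Matrix.one_apply, hJ] at this
    rw [this]
    by_cases h : a = a' <;> simp [h]
  · simp only [Sum.elim_inr, aeval_X, crd]
    rw [hq, mnr_update B J hB1]

lemma equiv {r m : ℕ} (c : Fin r → Fin (r + m)) (hc : Function.Injective c) :
    ∃ e : Fin r ⊕ Fin m ≃ Fin (r + m), ∀ a, e (Sum.inl a) = c a := by
  obtain ⟨σ, hσ⟩ := Equiv.Perm.exists_extending_pair (f := fun a : Fin r => Fin.castAdd m a)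
    (g := c) (Fin.castAdd_injective _ _) hc
  exact ⟨finSumFinEquiv.trans σ, fun a => by simpa using hσ a⟩

lemma aeval_mem {O K σ : Type} [CommRing O] [Field K] [Algebra O K] (S : Subfield K)
    (h0 : ∀ o : O, algebraMap O K o ∈ S) (z : σ → K) (hz : ∀ p, z p ∈ S)
    (F : MvPolynomial σ O) : aeval z F ∈ S := by
  induction F using MvPolynomial.induction_on with
  | C o => rw [aeval_C]; exact h0 o
  | add p q hp hq => rw [map_add]; exact S.add_mem hp hq
  | mul_X p i hp => rw [map_mul, aeval_X]; exact S.mul_mem hp (hz i)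

lemma frac {O : Type} [CommRing O] [IsDomain O] {r m : ℕ} (e : Fin r ⊕ Fin m ≃ Fin (r + m))
    (y : Fin r × Fin m → FF O r m) (π : O) (k k' : Fin r × Fin m → ℕ) (hπ : π ≠ 0)
    (hy : ∀ p, algebraMap O (FF O r m) π ^ k' p * crd (genMat O r m) e p =
        algebraMap O (FF O r m) π ^ k p * y p) (γ : FF O r m) :
    ∃ F G : MvPolynomial (Fin r × Fin m) O, aeval y G ≠ 0 ∧ γ * aeval y G = aeval y F := by
  let R : Subring (FF O r m) := (aeval (R := O) y).toRingHom.range
  let S : Subfield (FF O r m) := Subfield.closure (R : Set (FF O r m))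
  have hR : ∀ F : MvPolynomial (Fin r × Fin m) O, aeval y F ∈ S := fun F =>
    Subfield.subset_closure ⟨F, rfl⟩
  have h0 : ∀ o : O, algebraMap O (FF O r m) o ∈ S := fun o => by
    have := hR (C o)
    rwa [aeval_C] at this
  have hyS : ∀ p, y p ∈ S := fun p => by
    have := hR (X p)
    rwa [aeval_X] at this
  have hπ' : algebraMap O (FF O r m) π ≠ 0 := by
    rw [IsScalarTower.algebraMap_apply O (MvPolynomial (Fin r × Fin m) O) (FF O r m)]
    intro h
    have := (IsFractionRing.injective (MvPolynomial (Fin r × Fin m) O) (FF O r m))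
      (h.trans (map_zero _).symm)
    exact hπ (by simpa using this)
  have hcrd : ∀ p, crd (genMat O r m) e p ∈ S := fun p => by
    have : crd (genMat O r m) e p =
        algebraMap O (FF O r m) π ^ k p * y p / algebraMap O (FF O r m) π ^ k' p := by
      rw [eq_div_iff (pow_ne_zero _ hπ'), ← hy p, mul_comm]
    rw [this]
    exact S.div_mem (S.mul_mem (S.pow_mem (h0 π) _) (hyS p)) (S.pow_mem (h0 π) _)
  have hJ : mnr (genMat O r m) (fun a => e (Sum.inl a)) ≠ 0 :=
    ne _ (e.injective.comp Sum.inl_injective)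
  have hq : ∀ c, mnr (genMat O r m) c / mnr (genMat O r m) (fun a => e (Sum.inl a)) ∈ S := by
    intro c
    obtain ⟨F, hF⟩ := cramer O e c
    rw [hF _ _ hJ]
    exact aeval_mem S h0 _ hcrd F
  have h1 : (genMat O r m).submatrix id (fun a => Fin.castAdd m a) = 1 := by
    ext a a'
    simp [genMat, Matrix.one_apply]
  have h2 : mnr (genMat O r m) (fun a => Fin.castAdd m a) = 1 := by
    unfold mnr
    rw [h1, Matrix.det_one]
  have hX : ∀ p, algebraMap (MvPolynomial (Fin r × Fin m) O) (FF O r m) (X p) ∈ S := by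
    rintro ⟨a, b⟩
    have e1 := hq (Function.update (fun a => Fin.castAdd m a) a (Fin.natAdd r b))
    have e2 := hq (fun a => Fin.castAdd m a)
    rw [mnr_update _ _ h1] at e1
    rw [h2] at e2
    have e3 := S.div_mem e1 e2
    rw [div_div_div_cancel_right₀ hJ, div_one] at e3
    simpa [genMat] using e3
  have hP : ∀ F : MvPolynomial (Fin r × Fin m) O,
      algebraMap (MvPolynomial (Fin r × Fin m) O) (FF O r m) F ∈ S := by
    intro F
    induction F using MvPolynomial.induction_on with
    | C o =>
      have := h0 o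
      rwa [IsScalarTower.algebraMap_apply O (MvPolynomial (Fin r × Fin m) O) (FF O r m)] at this
    | add p q hp hq => rw [map_add]; exact S.add_mem hp hq
    | mul_X p i hp => rw [map_mul]; exact S.mul_mem hp (hX i)
  have hγ : γ ∈ S := by
    obtain ⟨a, b, -, rfl⟩ :=
      IsFractionRing.div_surjective (A := MvPolynomial (Fin r × Fin m) O) γ
    exact S.div_mem (hP a) (hP b)
  obtain ⟨u, hu, v, hv, huv⟩ := Subfield.mem_closure_iff.mp hγ
  rw [Subring.closure_eq] at hu hv
  obtain ⟨F, rfl⟩ := hu
  obtain ⟨G, rfl⟩ := hv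
  by_cases hG : aeval y G = 0
  · refine ⟨0, 1, by simp, ?_⟩
    have : γ = 0 := by
      rw [← huv]
      change aeval y F / aeval y G = 0
      rw [hG, div_zero]
    simp [this]
  · refine ⟨F, G, hG, ?_⟩
    rw [← huv]
    change aeval y F / aeval y G * aeval y G = aeval y F
    rw [div_mul_cancel₀ _ hG]

end PlA

theorem pls : S_pl :=
  ⟨PlA.ne, PlA.plk_eq, PlA.cramer, PlA.equiv, PlA.frac⟩

end

end Pool.Agent.P.MP_e7d440_ag
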