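import Pool.Agent.P.MP_e7d440_ag.Iface

/-! A common chart for all lattices. -/

namespace Pool.Agent.P.MP_e7d440_ag

open IsLocalRing MvPolynomial Matrix

namespace VeraA

variable {K : Type} [Field K] {r n : ℕ}

/-- the matrix in the basis of the lattice number `i` -/
def Mi (G : Matrix (Fin r) (Fin n) K) (p : K) (i : Fin n) : Matrix (Fin r) (Fin n) K :=
  Matrix.of fun a k => G a k * (if k < i then p else 1)

lemma rot (G : Matrix (Fin r) (Fin n) K) (p : K) (i : Fin n) :
    ∃ u : K, Mi G p i * (diagonal fun k => if k = i then p else 1) =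
      u • Mi G p (finRotate n i) := by
  cases n with
  | zero => exact i.elim0
  | succ n =>
    by_cases h : i = Fin.last n
    · subst h
      refine ⟨p, ?_⟩
      ext a k
      rw [mul_diagonal, finRotate_last]
      by_cases hk : k = Fin.last n
      · simp [Mi, hk, mul_comm]
      · simp [Mi, hk, Fin.lt_last_iff_ne_last.2 hk, mul_comm]
    · refine ⟨1, ?_⟩
      ext a k
      have e := coe_finRotate_of_ne_last h
      rw [mul_diagonal, one_smul]
      simp only [Mi, of_apply, Fin.lt_def, e, Fin.ext_iff]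
      split_ifs <;> first | omega | simp

lemma mul_sub {R : Type} [CommRing R] (A : Matrix (Fin r) (Fin r) R)
    (M : Matrix (Fin r) (Fin n) R) (c : Fin r → Fin n) :
    (A * M).submatrix id c = A * M.submatrix id c := by
  ext a b
  simp [mul_apply]

lemma mnr_map {R S : Type} [CommRing R] [CommRing S] (f : R →+* S)
    (M : Matrix (Fin r) (Fin n) R) (c : Fin r → Fin n) : mnr (M.map f) c = f (mnr M c) := by
  unfold mnr
  rw [RingHom.map_det]
  rfl

/-- the normalized matrix -/
noncomputable def Nm (M : Matrix (Fin r) (Fin n) K) (c : Fin r → Fin n) :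
    Matrix (Fin r) (Fin n) K := (M.submatrix id c)⁻¹ * M

lemma mnr_Nm (M : Matrix (Fin r) (Fin n) K) (c c' : Fin r → Fin n) :
    mnr (Nm M c) c' = mnr M c' / mnr M c := by
  unfold mnr Nm
  rw [mul_sub, det_mul, det_nonsing_inv, Ring.inverse_eq_inv', div_eq_inv_mul]

lemma sub_Nm {M : Matrix (Fin r) (Fin n) K} {c : Fin r → Fin n} (h : mnr M c ≠ 0) :
    (Nm M c).submatrix id c = 1 := by
  unfold Nm
  rw [mul_sub, nonsing_inv_mul _ (isUnit_iff_ne_zero.2 h)]

lemma mul_Nm {M : Matrix (Fin r) (Fin n) K} {c : Fin r → Fin n} (h : mnr M c ≠ 0) :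
    M.submatrix id c * Nm M c = M := by
  unfold Nm
  rw [← Matrix.mul_assoc, mul_nonsing_inv _ (isUnit_iff_ne_zero.2 h), Matrix.one_mul]

lemma entry_Nm {M : Matrix (Fin r) (Fin n) K} {c : Fin r → Fin n} (h : mnr M c ≠ 0)
    (a : Fin r) (k : Fin n) : Nm M c a k = mnr M (Function.update c a k) / mnr M c := by
  rw [← mnr_Nm]
  have : (Nm M c).submatrix id (Function.update c a k) =
      (1 : Matrix (Fin r) (Fin r) K).updateCol a fun b => Nm M c b k := by
    ext b a'
    rw [← sub_Nm h]
    by_cases e : a' = a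
    · subst e
      simp
    · simp [e]
  unfold mnr
  rw [this, ← cramer_apply, cramer_one]
  rfl

lemma step (G : Matrix (Fin r) (Fin n) K) (p : K) (c : Fin n → Fin r → Fin n)
    (h : ∀ i, mnr (Mi G p i) (c i) ≠ 0) (i : Fin n) :
    Nm (Mi G p i) (c i) * (diagonal fun k => if k = i then p else 1) =
      (Nm (Mi G p i) (c i) * (diagonal fun k => if k = i then p else 1)).submatrix id
        (c (finRotate n i)) * Nm (Mi G p (finRotate n i)) (c (finRotate n i)) := by
  obtain ⟨u, hu⟩ := rot G p i
  have : ∃ A : Matrix (Fin r) (Fin r) K,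
      Nm (Mi G p i) (c i) * (diagonal fun k => if k = i then p else 1) =
        A * Nm (Mi G p (finRotate n i)) (c (finRotate n i)) := by
    refine ⟨u • (((Mi G p i).submatrix id (c i))⁻¹ *
      (Mi G p (finRotate n i)).submatrix id (c (finRotate n i))), ?_⟩
    rw [Matrix.smul_mul, Matrix.mul_assoc, mul_Nm (h _), Nm, Matrix.mul_assoc, hu,
      Matrix.mul_smul]
  obtain ⟨A, hA⟩ := this
  rw [hA, mul_sub, sub_Nm (h _), Matrix.mul_one]

lemma exists_max {ι : Type} [Finite ι] (V : ValuationSubring K) (f : ι → K) (i₀ : ι)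
    (h : f i₀ ≠ 0) : ∃ c, f c ≠ 0 ∧ ∀ c', f c' / f c ∈ V := by
  have : Nonempty ι := ⟨i₀⟩
  obtain ⟨c, hc⟩ := Finite.exists_max fun c => V.valuation (f c)
  have h0 : f c ≠ 0 := fun e => by
    have := hc i₀
    rw [e, map_zero, le_zero_iff, map_eq_zero] at this
    exact h this
  refine ⟨c, h0, fun c' => ?_⟩
  rw [← V.valuation_le_one_iff, map_div₀]
  exact div_le_one_of_le₀ (hc c') zero_le

lemma res_ne (V : ValuationSubring K) (y : V) : residue V y ≠ 0 ↔ (y : K) ≠ 0 ∧ (y : K)⁻¹ ∈ V := by
  rw [Ne, residue_eq_zero_iff, mem_maximalIdeal, mem_nonunits_iff, not_not]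
  constructor
  · rintro ⟨u, rfl⟩
    have e : ((u : V) : K) * ((u⁻¹ : Vˣ) : V) = 1 := by
      rw [← MulMemClass.coe_mul, Units.mul_inv]
      rfl
    refine ⟨left_ne_zero_of_mul_eq_one e, ?_⟩
    rw [inv_eq_of_mul_eq_one_right e]
    exact ((u⁻¹ : Vˣ) : V).2
  · rintro ⟨h1, h2⟩
    exact IsUnit.of_mul_eq_one ⟨_, h2⟩ (Subtype.ext (mul_inv_cancel₀ h1))

end VeraA

open VeraA in
theorem vera (hP : S_pl) (hC : S_chain) : S_vera := by
  intro O _ _ _ r m π V hπ ⟨hO, hn, t, ht, hF⟩
  classical
  set p := algebraMap O (FF O r m) π with hp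
  have hp0 : p ≠ 0 := by
    rw [hp, IsScalarTower.algebraMap_apply O (MvPolynomial (Fin r × Fin m) O) (FF O r m),
      Ne, IsFractionRing.to_map_eq_zero_iff, MvPolynomial.algebraMap_eq, C_eq_zero]
    exact hπ.ne_zero
  have pl : ∀ i c, plk π i c = mnr (Mi (genMat O r m) p i) c := fun _ _ => rfl
  have : ∀ i, ∃ c, plk π i c ≠ 0 ∧ ∀ c', plk π i c' / plk π i c ∈ V := fun i =>
    exists_max V (plk π i) (Fin.castAdd m) (by
      rw [hP.plk_eq]
      exact mul_ne_zero (pow_ne_zero _ hp0) (hP.ne _ (Fin.castAdd_injective _ _)))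
  choose c c0 cV using this
  have nV : ∀ i a k, Nm (Mi (genMat O r m) p i) (c i) a k ∈ V := fun i a k => by
    rw [entry_Nm (M := Mi (genMat O r m) p i) (c0 i)]
    exact cV i _
  set N : Fin (r + m) → Matrix (Fin r) (Fin (r + m)) V := fun i => Matrix.of fun a k => ⟨_, nV i a k⟩
  have eN : ∀ i, (N i).map V.subtype = Nm (Mi (genMat O r m) p i) (c i) := fun _ => rfl
  set pV : V := ⟨p, hO π⟩
  set D : Fin (r + m) → Matrix (Fin (r + m)) (Fin (r + m)) V :=
    fun i => diagonal fun k => if k = i then pV else 1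
  have eD : ∀ i, (D i).map V.subtype = diagonal fun k => if k = i then p else 1 := fun i => by
    simp only [D]
    rw [diagonal_map (map_zero _)]
    congr 1
    ext k
    split_ifs <;> rfl
  have hpm : pV ∈ maximalIdeal V := V.coe_mem_nonunits_iff.1 hn
  have eK : ∀ i, (D i).map (residue V) = kill (ResidueField V) i := fun i => by
    simp only [D, kill]
    rw [diagonal_map (map_zero _)]
    congr 1
    ext k
    split_ifs
    exacts [(residue_eq_zero_iff _).2 hpm, map_one _]
  have st : ∀ i, N i * D i = (N i * D i).submatrix id (c (finRotate _ i)) * N (finRotate _ i) :=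
    fun i => by
      refine Matrix.map_injective (f := V.subtype) Subtype.val_injective ?_
      change (N i * D i).map V.subtype = _
      simp only
      rw [Matrix.map_mul, Matrix.map_mul, ← submatrix_map, Matrix.map_mul, eN, eN, eD]
      exact step _ _ c c0 i
  have mV : ∀ i c', ((mnr (N i) c' : V) : FF O r m) = plk π i c' / plk π i (c i) := fun i c' => by
    rw [pl, pl, ← mnr_Nm, ← eN, mnr_map]
    rfl
  let φ : O →+* V := (algebraMap O (FF O r m)).codRestrict V.toSubring hO
  have : IsLocalHom φ := ⟨fun a ha => by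
    by_contra hc
    have : a ∈ maximalIdeal O := hc
    rw [hπ.maximalIdeal_eq, Ideal.mem_span_singleton] at this
    obtain ⟨b, rfl⟩ := this
    rw [map_mul] at ha
    exact hpm (isUnit_of_mul_isUnit_left ha)⟩
  let _ : Algebra (ResidueField O) (ResidueField V) := (ResidueField.map φ).toAlgebra
  have tV : ∀ q, t q ∈ V := fun q => by
    obtain ⟨i, c1, c2, -, h2, h3⟩ := ht q
    exact h3 ▸ h2 c1
  obtain ⟨J, h1, h2⟩ := hC (ResidueField O) (ResidueField V) r m
    (fun i => (N i).map (residue V))
    (fun i => ((N i * D i).submatrix id (c (finRotate _ i))).map (residue V))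
    (fun i => ⟨c i, by
      rw [mnr_map, res_ne, mV, div_self (c0 i), inv_one]
      exact ⟨one_ne_zero, V.one_mem⟩⟩)
    (fun i => by rw [← eK, ← Matrix.map_mul, ← Matrix.map_mul, ← st])
    (fun q => residue V ⟨t q, tV q⟩) (by
      rw [algebraicIndependent_iff]
      intro F hF0
      obtain ⟨F, rfl⟩ := MvPolynomial.map_surjective (residue O) residue_surjective F
      have e1 : ∀ F : MvPolynomial (Fin r × Fin m) O,
          aeval (fun q => residue V ⟨t q, tV q⟩) (MvPolynomial.map (residue O) F) =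
            residue V (eval₂ φ (fun q => ⟨t q, tV q⟩) F) := fun F => by
        induction F using MvPolynomial.induction_on with
        | C a =>
          rw [map_C, aeval_C, eval₂_C]
          rfl
        | add F G a1 a2 => rw [map_add, map_add, a1, a2, eval₂_add, map_add]
        | mul_X F q a1 => rw [map_mul, map_mul, a1, map_X, aeval_X, eval₂_mul, eval₂_X, map_mul]
      have e2 : ∀ F : MvPolynomial (Fin r × Fin m) O,
          ((eval₂ φ (fun q => (⟨t q, tV q⟩ : V)) F : V) : FF O r m) = aeval t F := fun F => by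
        induction F using MvPolynomial.induction_on with
        | C a =>
          rw [aeval_C, eval₂_C]
          rfl
        | add F G a1 a2 => rw [map_add, eval₂_add, ← a1, ← a2, AddMemClass.coe_add]
        | mul_X F q a1 => rw [map_mul, aeval_X, eval₂_mul, eval₂_X, ← a1, MulMemClass.coe_mul]
      rw [e1, residue_eq_zero_iff, ← V.coe_mem_nonunits_iff, e2] at hF0
      obtain ⟨G, rfl⟩ := hF F hF0
      have : residue O π = 0 := (residue_eq_zero_iff _).2 hπ.not_isUnit
      rw [map_mul, map_C, this, C_0, zero_mul])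
    (fun q => by
      obtain ⟨i, c1, c2, a1, a2, a3⟩ := ht q
      refine ⟨i, c1, c2, ?_⟩
      rw [mnr_map, mnr_map, eq_div_iff, ← map_mul]
      · congr 1
        refine Subtype.ext ?_
        rw [MulMemClass.coe_mul, mV, mV]
        simp only [a3]
        field_simp
      · rw [res_ne, mV, inv_div]
        exact ⟨div_ne_zero a1 (c0 i), a2 _⟩)
  refine ⟨J, h1, fun i c' => ?_⟩
  have h3 := h2 i
  rw [mnr_map, res_ne, mV, inv_div] at h3
  have h4 : plk π i J ≠ 0 := fun e => h3.1 (by rw [e, zero_div])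
  have : plk π i c' / plk π i J = plk π i c' / plk π i (c i) * (plk π i (c i) / plk π i J) := by
    have := c0 i
    field_simp
  rw [this]
  exact V.mul_mem _ _ (cV i c') h3.2

end Pool.Agent.P.MP_e7d440_ag
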