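import Pool.Agent.P.MP_e7d440_ag.Iface

/-! The valuation ring is the Gauss ring of the integral coordinates. -/

namespace Pool.Agent.P.MP_e7d440_ag

open IsLocalRing MvPolynomial

noncomputable section

namespace VerbA

theorem indep_of_frac {κ k ι : Type} [Field κ] [Field k] [Algebra κ k] [Finite ι] (t y : ι → k)
    (ht : AlgebraicIndependent κ t)
    (h : ∀ p, ∃ F G : MvPolynomial ι κ, aeval y G ≠ 0 ∧ aeval y G * t p = aeval y F) :
    AlgebraicIndependent κ y := by
  have hmem : ∀ F : MvPolynomial ι κ,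
      IsAlgebraic (Algebra.adjoin κ (Set.range y)) (aeval y F) := fun F =>
    isAlgebraic_algebraMap (⟨aeval y F, by
      rw [Algebra.adjoin_range_eq_range_aeval]
      exact ⟨F, rfl⟩⟩ : Algebra.adjoin κ (Set.range y))
  have h1 : Set.range t ⊆ (AlgebraicIndependent.matroid κ k).closure (Set.range y) := by
    rintro _ ⟨p, rfl⟩
    obtain ⟨F, G, hG, e⟩ := h p
    rw [AlgebraicIndependent.matroid_closure_eq]
    exact IsAlgebraic.of_mul (mem_nonZeroDivisors_of_ne_zero hG) (hmem G) (e ▸ hmem F)
  have h2 : (AlgebraicIndependent.matroid κ k).Indep (Set.range t) := ht.to_subtype_range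
  have h3 : (Set.univ : Set ι).encard ≤ (AlgebraicIndependent.matroid κ k).eRk (Set.range y) := by
    rw [← Matroid.eRk_closure_eq, ← ht.injective.encard_image, Set.image_univ, ← h2.eRk_eq_encard]
    exact Matroid.eRk_mono _ h1
  have h4 : (Set.range y).encard ≤ (Set.univ : Set ι).encard := by
    rw [← Set.image_univ]
    exact Set.encard_image_le _ _
  have h5 := (AlgebraicIndependent.matroid κ k).eRk_le_encard (Set.range y)
  have h6 : (AlgebraicIndependent.matroid κ k).Indep (Set.range y) :=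
    (Matroid.indep_iff_eRk_eq_encard_of_finite (Set.finite_range y)).2 (h5.antisymm (h4.trans h3))
  have h7 : Function.Injective y := by
    rw [← Set.injOn_univ]
    refine Set.finite_univ.injOn_of_encard_image_eq ?_
    rw [Set.image_univ]
    exact h4.antisymm (h3.trans h5)
  exact (algebraicIndependent_subtype_range h7).1 h6

theorem residue_aeval {O V ι : Type} [CommRing O] [IsLocalRing O] [CommRing V] [IsLocalRing V]
    [Algebra O V] [IsLocalHom (algebraMap O V)] (x : ι → V) (F : MvPolynomial ι O) :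
    residue V (aeval x F) = aeval (fun p => residue V (x p)) (map (residue O) F) := by
  induction F using MvPolynomial.induction_on with
  | C a => simp only [aeval_C, map_C]; rfl
  | add p q hp hq => simp only [map_add, hp, hq]
  | mul_X p i hp => simp only [map_mul, hp, aeval_X, map_X]

theorem gauss {O V ι : Type} [CommRing O] [IsLocalRing O] [CommRing V] [IsLocalRing V]
    [Algebra O V] [IsLocalHom (algebraMap O V)] [Finite ι] (π : O)
    (hπ : ∀ o, o ∈ maximalIdeal O ↔ π ∣ o) (t y : ι → V)
    (ht : ∀ F : MvPolynomial ι O, aeval t F ∈ maximalIdeal V → C π ∣ F)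
    (h : ∀ p, ∃ F G : MvPolynomial ι O, IsUnit (aeval y G) ∧ aeval y G * t p = aeval y F)
    (F : MvPolynomial ι O) (hF : aeval y F ∈ maximalIdeal V) : C π ∣ F := by
  have hd : ∀ F : MvPolynomial ι O, C π ∣ F ↔ map (residue O) F = 0 :=
    C_dvd_iff_map_hom_eq_zero _ _ fun o => (residue_eq_zero_iff o).trans (hπ o)
  have h1 : AlgebraicIndependent (ResidueField O) fun p => residue V (t p) := by
    rw [algebraicIndependent_iff]
    intro P hP
    obtain ⟨P, rfl⟩ := map_surjective (residue O) residue_surjective P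
    rw [← residue_aeval, residue_eq_zero_iff] at hP
    exact (hd P).1 (ht P hP)
  have h2 : AlgebraicIndependent (ResidueField O) fun p => residue V (y p) := by
    refine indep_of_frac _ _ h1 fun p => ?_
    obtain ⟨F, G, hG, e⟩ := h p
    refine ⟨map (residue O) F, map (residue O) G, ?_, ?_⟩
    · rw [← residue_aeval]
      exact (hG.map _).ne_zero
    · rw [← residue_aeval, ← residue_aeval, ← map_mul, e]
  rw [hd]
  refine algebraicIndependent_iff.1 h2 _ ?_
  rwa [← residue_aeval, residue_eq_zero_iff]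

theorem cnt_update {r n : ℕ} (J : Fin r → Fin n) (a : Fin r) (B i : Fin n) :
    (Finset.univ.filter fun a' => Function.update J a B a' < i).card + (if J a < i then 1 else 0) =
      (Finset.univ.filter fun a' => J a' < i).card + (if B < i then 1 else 0) := by
  simp only [Finset.card_filter]
  rw [← Finset.add_sum_erase _ _ (Finset.mem_univ a),
    ← Finset.add_sum_erase _ _ (Finset.mem_univ a), Function.update_self]
  have : ∑ x ∈ Finset.univ.erase a, (if Function.update J a B x < i then 1 else 0) =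
      ∑ x ∈ Finset.univ.erase a, (if J x < i then 1 else 0) :=
    Finset.sum_congr rfl fun x hx => by rw [Function.update_of_ne (Finset.ne_of_mem_erase hx)]
  rw [this]
  ring

variable {O : Type} [CommRing O] [IsDomain O] {r m : ℕ}

omit [IsDomain O] in
theorem alg_ne {π : O} (hπ : π ≠ 0) : algebraMap O (FF O r m) π ≠ 0 := by
  rw [IsScalarTower.algebraMap_apply O (MvPolynomial (Fin r × Fin m) O) (FF O r m)]
  simpa using hπ

theorem ratio (hP : S_pl) {π : O} (hπ : π ≠ 0) (e : Fin r ⊕ Fin m ≃ Fin (r + m))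
    (i : Fin (r + m)) (c : Fin r → Fin (r + m)) : ∃ F : MvPolynomial (Fin r × Fin m) O,
      plk π i c / plk π i (fun a => e (Sum.inl a)) = aeval (ycrd π e) F := by
  have hJ : Function.Injective fun a : Fin r => e (Sum.inl a) :=
    e.injective.comp Sum.inl_injective
  have h0 := alg_ne (r := r) (m := m) hπ
  have h1 := hP.ne (O := O) _ hJ
  let M : Matrix (Fin r) (Fin (r + m)) (FF O r m) := Matrix.of fun a k => genMat O r m a k *
    (if k < i then algebraMap O (FF O r m) π else 1)
  have hM : ∀ c, mnr M c = plk π i c := fun c => rfl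
  have hc : ∀ p, ∃ k : ℕ, crd M e p = algebraMap O (FF O r m) π ^ k * ycrd π e p := by
    rintro ⟨a, b⟩
    have e1 := cnt_update (fun a => e (Sum.inl a)) a (e (Sum.inr b)) i
    have e2 := cnt_update (fun a => e (Sum.inl a)) a (e (Sum.inr b)) (e (Sum.inr b))
    simp only [crd, ycrd, hM, hP.plk_eq]
    generalize (Finset.univ.filter fun a' =>
      Function.update (fun a => e (Sum.inl a)) a (e (Sum.inr b)) a' < i).card = n1 at *
    generalize (Finset.univ.filter fun a' =>
      Function.update (fun a => e (Sum.inl a)) a (e (Sum.inr b)) a' < e (Sum.inr b)).card = n2 at *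
    generalize (Finset.univ.filter fun a' : Fin r => e (Sum.inl a') < i).card = n3 at *
    generalize (Finset.univ.filter fun a' : Fin r => e (Sum.inl a') < e (Sum.inr b)).card = n4 at *
    obtain ⟨k, hk⟩ : ∃ k, n1 + n4 = k + n2 + n3 := by
      refine ⟨n1 + n4 - (n2 + n3), ?_⟩
      split_ifs at e1 e2 <;> omega
    refine ⟨k, ?_⟩
    have := congrArg (fun n => algebraMap O (FF O r m) π ^ n) hk
    simp only [pow_add] at this
    field_simp
    linear_combination (mnr (genMat O r m)
      (Function.update (fun a => e (Sum.inl a)) a (e (Sum.inr b)))) * this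
  choose k hk using hc
  obtain ⟨F, hF⟩ := hP.cramer O e c
  have h2 := hF _ M (by
    rw [hM, hP.plk_eq]
    exact mul_ne_zero (pow_ne_zero _ h0) h1)
  refine ⟨bind₁ (fun p => C π ^ k p * X p) F, ?_⟩
  rw [aeval_bind₁, ← hM, ← hM, h2]
  congr 2
  funext p
  simp [hk]

theorem frac (hP : S_pl) {π : O} (hπ : π ≠ 0) (e : Fin r ⊕ Fin m ≃ Fin (r + m))
    (γ : FF O r m) : ∃ F G : MvPolynomial (Fin r × Fin m) O,
      aeval (ycrd π e) G ≠ 0 ∧ γ * aeval (ycrd π e) G = aeval (ycrd π e) F := by
  have h0 := alg_ne (r := r) (m := m) hπ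
  refine hP.frac e (ycrd π e) π
    (fun p => (Finset.univ.filter fun a : Fin r => e (Sum.inl a) < e (Sum.inr p.2)).card)
    (fun p => (Finset.univ.filter fun a : Fin r =>
      Function.update (fun a => e (Sum.inl a)) p.1 (e (Sum.inr p.2)) a < e (Sum.inr p.2)).card)
    hπ (fun p => ?_) γ
  simp only [crd, ycrd, hP.plk_eq]
  field_simp

end VerbA

open VerbA in
theorem verb (hP : S_pl) : S_verb := by
  intro O _ _ _ r m π V e hπ ⟨hO, hπV, t, ht, hind⟩ hJ γ hγ
  have hπ0 := hπ.ne_zero
  have h0 := alg_ne (r := r) (m := m) hπ0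
  have hJ0 : ∀ i, plk π i (fun a : Fin r => e (Sum.inl a)) ≠ 0 := fun i => by
    rw [hP.plk_eq]
    exact mul_ne_zero (pow_ne_zero _ h0) (hP.ne _ (e.injective.comp Sum.inl_injective))
  have hmax : ∀ o, o ∈ maximalIdeal O ↔ π ∣ o := fun o => by
    rw [hπ.maximalIdeal_eq, Ideal.mem_span_singleton]
  let : Algebra O V := ((algebraMap O (FF O r m)).codRestrict V hO).toAlgebra
  have : IsScalarTower O V (FF O r m) := IsScalarTower.of_algebraMap_eq fun _ => rfl
  have hπm : algebraMap O V π ∈ maximalIdeal V := V.coe_mem_nonunits_iff.1 hπV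
  have : IsLocalHom (algebraMap O V) := ⟨fun o ho => by
    by_contra h
    obtain ⟨o', rfl⟩ := (hmax o).1 h
    rw [map_mul] at ho
    exact hπm (isUnit_of_mul_isUnit_left ho)⟩
  have hyV : ∀ p, ycrd π e p ∈ V := fun p => hJ _ _
  have htV : ∀ p, t p ∈ V := fun p => by
    obtain ⟨i, c, c', -, h2, h3⟩ := ht p
    exact h3 ▸ h2 c
  let y' : Fin r × Fin m → V := fun p => ⟨_, hyV p⟩
  let t' : Fin r × Fin m → V := fun p => ⟨_, htV p⟩
  have hy : ∀ F : MvPolynomial (Fin r × Fin m) O, ((aeval y' F : V) : FF O r m) =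
      aeval (ycrd π e) F := fun F => (aeval_algebraMap_apply (FF O r m) y' F).symm
  have ht' : ∀ F : MvPolynomial (Fin r × Fin m) O, ((aeval t' F : V) : FF O r m) =
      aeval t F := fun F => (aeval_algebraMap_apply (FF O r m) t' F).symm
  have key : ∀ F : MvPolynomial (Fin r × Fin m) O, ¬ C π ∣ F →
      aeval (ycrd π e) F ≠ 0 ∧ (aeval (ycrd π e) F)⁻¹ ∈ V := by
    intro F hF
    have h1 := mt (gauss π hmax t' y' (fun F hF => hind F (by
      rw [← ht']
      exact V.coe_mem_nonunits_iff.2 hF)) (fun p => ?_) F) hF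
    · rw [← V.coe_mem_nonunits_iff, hy, V.mem_nonunits_iff_or, not_or, not_not] at h1
      exact h1
    · obtain ⟨i, c, c', h1, h2, h3⟩ := ht p
      obtain ⟨F1, e1⟩ := ratio hP hπ0 e i c
      obtain ⟨F2, e2⟩ := ratio hP hπ0 e i c'
      have h4 := hJ0 i
      refine ⟨F1, F2, ?_, Subtype.ext ?_⟩
      · refine IsUnit.of_mul_eq_one ⟨_, h2 fun a => e (Sum.inl a)⟩ (Subtype.ext ?_)
        change ((aeval y' F2 : V) : FF O r m) * _ = 1
        rw [hy, ← e2]
        field_simp
      · change ((aeval y' F2 : V) : FF O r m) * t p = _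
        rw [hy, hy, ← e1, ← e2, h3]
        field_simp
  obtain ⟨F, G, hG, hFG⟩ := frac hP hπ0 e γ
  by_cases hF : F = 0
  · refine ⟨0, 1, by simp, by simp, ?_⟩
    rw [hF, map_zero] at hFG
    simp [(mul_eq_zero.1 hFG).resolve_right hG]
  have hG0 : G ≠ 0 := fun h => hG (by rw [h, map_zero])
  have hu : ¬ IsUnit (C π : MvPolynomial (Fin r × Fin m) O) := fun h =>
    hπ.not_isUnit (by simpa using h.map constantCoeff)
  obtain ⟨a, F1, hF1, rfl⟩ := WfDvdMonoid.max_power_factor' hF hu
  obtain ⟨b, G1, hG1, rfl⟩ := WfDvdMonoid.max_power_factor' hG0 hu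
  obtain ⟨f0, f1⟩ := key F1 hF1
  obtain ⟨g0, g1⟩ := key G1 hG1
  simp only [map_mul, map_pow, aeval_C] at hFG
  rcases le_or_gt b a with hab | hab
  · obtain ⟨k, rfl⟩ := Nat.exists_eq_add_of_le hab
    refine ⟨C π ^ k * F1, G1, g0, g1, mul_left_cancel₀ (pow_ne_zero b h0) ?_⟩
    simp only [map_mul, map_pow, aeval_C]
    linear_combination hFG
  · exfalso
    obtain ⟨k, rfl⟩ := Nat.exists_eq_add_of_lt hab
    rcases (V.mem_nonunits_iff_or).1 hπV with h | h
    · exact h0 h
    refine h ?_
    have e1 : (algebraMap O (FF O r m) π)⁻¹ = γ * algebraMap O (FF O r m) π ^ k *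
        aeval (ycrd π e) G1 * (aeval (ycrd π e) F1)⁻¹ := by
      field_simp
      apply mul_left_cancel₀ (pow_ne_zero a h0)
      linear_combination -hFG
    rw [e1, ← hy G1]
    exact mul_mem (mul_mem (mul_mem hγ (pow_mem (hO π) _)) (aeval y' G1).2) f1

end

end Pool.Agent.P.MP_e7d440_ag
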