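import Pool.Agent.P.MP_e7d440_ag.Iface

/-! Comparison of the volume forms of the integral coordinates and of the logarithmic form. -/

namespace Pool.Agent.P.MP_e7d440_ag

open Finset

namespace VercA

theorem card_update {r n : ℕ} (J : Fin r → Fin n) (a : Fin r) (B : Fin n) :
    (univ.filter fun a' => J a' < B).card =
      (if J a < B then 1 else 0) + (univ.filter fun a' => Function.update J a B a' < B).card := by
  rw [card_filter, card_filter, ← add_sum_erase _ _ (mem_univ a), ← add_sum_erase _ _ (mem_univ a),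
    Function.update_self, if_neg (lt_irrefl B), zero_add]
  congr 1
  exact sum_congr rfl fun a' ha' => by rw [Function.update_of_ne (ne_of_mem_erase ha')]

theorem two_mul_pairs {r n : ℕ} (J : Fin r → Fin n) (hJ : Function.Injective J) :
    2 * (∑ a', ∑ a, if J a < J a' then 1 else 0) + r = r * r := by
  have h1 : (∑ a', ∑ a, if J a < J a' then 1 else 0) = ∑ a', ∑ a, if J a' < J a then 1 else 0 :=
    sum_comm
  have h2 : r = ∑ a' : Fin r, ∑ a : Fin r, if a = a' then 1 else 0 := by simp
  have h3 : r * r = ∑ _a' : Fin r, ∑ _a : Fin r, 1 := by simp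
  rw [two_mul, h3]
  nth_rewrite 2 [h1]
  refine (congrArg (_ + ·) h2).trans ?_
  rw [← sum_add_distrib, ← sum_add_distrib]
  refine sum_congr rfl fun a' _ => ?_
  rw [← sum_add_distrib, ← sum_add_distrib]
  refine sum_congr rfl fun a _ => ?_
  rcases lt_trichotomy (J a) (J a') with h | h | h
  · rw [if_pos h, if_neg h.not_gt, if_neg fun h' => h.ne (congrArg J h')]
  · rw [if_neg h.not_lt, if_neg h.not_gt, if_pos (hJ h)]
  · rw [if_neg h.not_gt, if_pos h, if_neg fun h' => h.ne' (congrArg J h')]

theorem cyc_lt {r m : ℕ} (i : Fin (r + m)) (a : Fin r) : cyc i a < i ↔ (i.rev : ℕ) < a := by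
  have h1 := i.2
  have h2 := a.2
  rw [Fin.lt_def, Fin.val_rev]
  change (i + a : ℕ) % (r + m) < i ↔ _
  by_cases h : (i + a : ℕ) < r + m
  · rw [Nat.mod_eq_of_lt h]
    omega
  · rw [Nat.mod_eq_sub_mod (not_lt.1 h), Nat.mod_eq_of_lt (by omega)]
    omega

theorem sum_cyc (r m : ℕ) :
    ∑ i : Fin (r + m), (univ.filter fun a : Fin r => cyc i a < i).card =
      ∑ a' : Fin r, ∑ a : Fin r, if a < a' then 1 else 0 := by
  simp only [card_filter]
  rw [sum_comm]
  refine sum_congr rfl fun a _ => ?_
  simp only [cyc_lt]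
  refine (Equiv.sum_comp Fin.revPerm
    (fun i : Fin (r + m) => if (i : ℕ) < a then 1 else 0)).trans ?_
  have h2 := a.2
  simp only [Fin.lt_def]
  rw [← card_filter, ← card_filter, Fin.card_filter_val_lt, Fin.card_filter_val_lt]
  omega

theorem count {r m : ℕ} (e : Fin r ⊕ Fin m ≃ Fin (r + m)) :
    ∑ i : Fin (r + m), (univ.filter fun a : Fin r => e (Sum.inl a) < i).card =
      (∑ p : Fin r × Fin m, if e (Sum.inl p.1) < e (Sum.inr p.2) then 1 else 0) +
        ∑ i : Fin (r + m), (univ.filter fun a : Fin r => cyc i a < i).card := by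
  have h1 := two_mul_pairs (fun a => e (Sum.inl a)) (e.injective.comp Sum.inl_injective)
  have h2 := two_mul_pairs (fun a : Fin r => a) Function.injective_id
  rw [sum_cyc, ← Equiv.sum_comp e, Fintype.sum_sum_type, Fintype.sum_prod_type_right]
  simp only [card_filter]
  omega

theorem wr_scale {O L ι : Type} [CommRing O] [Field L] [Algebra O L] [Fintype ι] [DecidableEq ι]
    (D : ι → Derivation O L L) (y : ι → L) (π : O) (k : ι → ℕ) :
    wr D (fun p => algebraMap O L π ^ k p * y p) = algebraMap O L π ^ (∑ p, k p) * wr D y := by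
  unfold wr
  rw [← prod_pow_eq_pow_sum, ← Matrix.det_mul_column]
  congr 1
  ext b a
  simp only [Matrix.of_apply]
  rw [← map_pow, ← Algebra.smul_def, ← Algebra.smul_def, Derivation.map_smul]

end VercA

theorem verc (hP : S_pl) (hG : S_grjac) : S_verc := by
  intro O _ _ r m π D e Θ hπ hD hΘ
  have hP0 : algebraMap O (FF O r m) π ≠ 0 := by
    rw [IsScalarTower.algebraMap_apply O (MvPolynomial (Fin r × Fin m) O) (FF O r m),
      map_ne_zero_iff _ (IsFractionRing.injective _ _), MvPolynomial.algebraMap_eq]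
    exact MvPolynomial.C_ne_zero.2 hπ
  have hM : mnr (genMat O r m) (fun a => e (Sum.inl a)) ≠ 0 :=
    hP.ne _ (e.injective.comp Sum.inl_injective)
  have h1 : crd (genMat O r m) e = fun p => algebraMap O (FF O r m) π ^
      (if e (Sum.inl p.1) < e (Sum.inr p.2) then 1 else 0) * ycrd π e p := by
    funext p
    unfold crd ycrd
    rw [hP.plk_eq, hP.plk_eq, VercA.card_update (fun a => e (Sum.inl a)) p.1, pow_add]
    field_simp
  have h2 := hG O r m D hD e
  rw [h1, VercA.wr_scale] at h2
  have h3 : (∏ i : Fin (r + m), plk π i (cyc i) / plk π i (fun a => e (Sum.inl a))) =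
      (∏ i : Fin (r + m), mnr (genMat O r m) (cyc i)) / (algebraMap O (FF O r m) π ^
        (∑ p : Fin r × Fin m, if e (Sum.inl p.1) < e (Sum.inr p.2) then 1 else 0) *
          mnr (genMat O r m) (fun a => e (Sum.inl a)) ^ (r + m)) := by
    simp only [hP.plk_eq]
    rw [prod_div_distrib, prod_mul_distrib, prod_mul_distrib, prod_pow_eq_pow_sum,
      prod_pow_eq_pow_sum, VercA.count e, prod_const, card_univ, Fintype.card_fin, pow_add]
    field_simp
  rw [h3]
  generalize (∑ p : Fin r × Fin m, if e (Sum.inl p.1) < e (Sum.inr p.2) then 1 else 0) = s at h2 ⊢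
  have h4 := mul_ne_zero (pow_ne_zero s hP0) (pow_ne_zero (r + m) hM)
  rw [neg_mul, div_mul_eq_mul_div, ← neg_div, eq_div_iff h4, eq_div_iff h4]
  rcases h2 with h2 | h2 <;> rcases hΘ with hΘ | hΘ
  · exact Or.inl (by linear_combination h2 - hΘ)
  · exact Or.inr (by linear_combination h2 + hΘ)
  · exact Or.inr (by linear_combination h2 + hΘ)
  · exact Or.inl (by linear_combination h2 - hΘ)

end Pool.Agent.P.MP_e7d440_ag
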