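import Pool.Agent.P.MP_e7d440_ag.All
import Pool.Agent.P.MP_e7d440_ag.Chain
import Pool.Agent.P.MP_e7d440_ag.ChainOne
import Pool.Agent.P.MP_e7d440_ag.ChainTwo
import Pool.Agent.P.MP_e7d440_ag.Gr
import Pool.Agent.P.MP_e7d440_ag.Grjac
import Pool.Agent.P.MP_e7d440_ag.Grlog
import Pool.Agent.P.MP_e7d440_ag.Hor
import Pool.Agent.P.MP_e7d440_ag.Pl
import Pool.Agent.P.MP_e7d440_ag.Vera
import Pool.Agent.P.MP_e7d440_ag.Verb
import Pool.Agent.P.MP_e7d440_ag.Verc

/-! The steps on Grassmannians, with all hypotheses discharged. -/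

namespace Pool.Agent.P.MP_e7d440_ag

theorem chain' : S_chain := chain chainOne chainTwo
theorem gr' : S_gr :=
  gr pls fin' vals' tr der jacs (grlog pls jacs) (vera pls chain') (verb pls)
    (verc pls (grjac pls)) (hor pls (grjac pls) jacs)

end Pool.Agent.P.MP_e7d440_ag
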