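import Pool.Agent.P.MP_e7d440_ag.Iface

/-! Sections of the canonical module are multiples of the logarithmic form. -/

namespace Pool.Agent.P.MP_e7d440_ag

open IsLocalRing MvPolynomial

namespace AoneA

variable {Q A K : Type} [CommRing Q] [CommRing A] [Field K] [Algebra A K]

theorem loc_iff {φ : Q →+* K} {ψ : Q →+* A} (hψ : Function.Surjective ψ)
    (h : ∀ g, φ g = algebraMap A K (ψ g)) (𝔮 : Ideal A) (γ : K) :
    loc φ (𝔮.comap ψ) γ ↔ loc (algebraMap A K) 𝔮 γ := by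
  constructor
  · rintro ⟨a, b, hb, e⟩
    exact ⟨ψ a, ψ b, hb, by rw [← h, ← h, e]⟩
  · rintro ⟨a, b, hb, e⟩
    obtain ⟨a, rfl⟩ := hψ a
    obtain ⟨b, rfl⟩ := hψ b
    exact ⟨a, b, hb, by rw [h, h, e]⟩

theorem covers [IsDomain A] [IsNoetherianRing A] {ψ : Q →+* A} (hψ : Function.Surjective ψ)
    {𝔮 : Ideal A} (h : 𝔮.IsPrime) (h1 : 𝔮.height = 1) : Covers (RingHom.ker ψ) (𝔮.comap ψ) := by
  have h0 : 𝔮 ≠ ⊥ := fun e => by
    rw [← Ideal.height_eq_zero_iff_eq_bot, h1] at e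
    exact one_ne_zero e
  refine ⟨lt_of_le_of_ne (Ideal.comap_mono bot_le) fun e =>
    h0 (Ideal.comap_injective_of_surjective ψ hψ e).symm, fun 𝔔 _ h2 h3 => ?_⟩
  have h4 : (𝔔.map ψ).IsPrime := Ideal.map_isPrime_of_surjective hψ h2
  have h5 : (𝔔.map ψ).comap ψ = 𝔔 := by
    rw [Ideal.comap_map_of_surjective ψ hψ]
    exact sup_eq_left.2 h2
  rcases (Ideal.map_le_iff_le_comap.2 h3).eq_or_lt with h6 | h6
  · exact Or.inr (by rw [← h6, h5])
  · have h7 := Ideal.height_add_one_le_of_lt_of_isPrime h6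
    rw [h1] at h7
    have h8 : (𝔔.map ψ).height = 0 := by
      by_contra h9
      have h10 : (1 : ℕ∞) + 1 ≤ 1 := (add_le_add_left (Order.one_le_iff_ne_zero.2 h9) 1).trans h7
      exact absurd h10 (by decide)
    rw [Ideal.height_eq_zero_iff_eq_bot] at h8
    exact Or.inl (by rw [← h5, h8]; rfl)

theorem integral [IsDomain A] [IsIntegrallyClosed A] [IsFractionRing A K] {φ : Q →+* K}
    {ψ : Q →+* A} (hψ : Function.Surjective ψ) (h : ∀ g, φ g = algebraMap A K (ψ g)) (θ : K)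
    (hθ : φ.IsIntegralElem θ) : ∃ g, φ g = θ := by
  obtain ⟨p, hp, e⟩ := hθ
  have h1 : IsIntegral A θ :=
    ⟨p.map ψ, hp.map ψ, by rw [Polynomial.eval₂_map, ← e]; congr 1; exact (RingHom.ext h).symm⟩
  obtain ⟨a, rfl⟩ := IsIntegrallyClosed.isIntegral_iff.1 h1
  obtain ⟨g, rfl⟩ := hψ a
  exact ⟨g, h g⟩

theorem frac [IsDomain A] [IsFractionRing A K] {φ : Q →+* K}
    {ψ : Q →+* A} (hψ : Function.Surjective ψ) (h : ∀ g, φ g = algebraMap A K (ψ g)) (γ : K) :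
    ∃ a b, φ b ≠ 0 ∧ γ * φ b = φ a := by
  obtain ⟨⟨a, b, hb⟩, e⟩ := IsLocalization.surj (nonZeroDivisors A) γ
  obtain ⟨a, rfl⟩ := hψ a
  obtain ⟨b, rfl⟩ := hψ b
  refine ⟨a, b, ?_, by rw [h, h]; exact e⟩
  rw [h]
  exact IsFractionRing.to_map_ne_zero_of_mem_nonZeroDivisors hb

end AoneA

open AoneA in
theorem aone (hL : S_link) (hV : S_val) : S_a1 := by
  intro O Q A K σ κ _ _ _ _ _ _ _ _ _ _ _ _ _ _ _ _ _ _ j ψ z π Θ₀ hψ hφ hz hci hht hgen hjac hπ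
    hhor ⟨N₀, r₀, hr₀⟩ hver s hs
  have hinj := IsFractionRing.injective A K
  have hker : ∀ 𝔮 : Ideal A, RingHom.ker (algebraMap A K) ≤ 𝔮 := fun 𝔮 => by
    rw [(RingHom.injective_iff_ker_eq_bot _).1 hinj]
    exact bot_le
  have hJ : j.J = RingHom.ker ψ.toRingHom := Ideal.ext fun g => by
    rw [RingHom.mem_ker, RingHom.mem_ker]
    exact (congrArg (· = 0) (hφ g)).to_iff.trans (map_eq_zero_iff _ hinj)
  have key : ∀ 𝔮 : Ideal A, 𝔮.IsPrime → 𝔮.height = 1 → ∃ μ : K, μ ≠ 0 ∧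
      loc (algebraMap A K) 𝔮 (j.φ s / j.jac z * μ) ∧
      ∀ y : σ → K, (∀ b, loc (algebraMap A K) 𝔮 (y b)) →
        (∀ a : A, ∃ F G : MvPolynomial σ O, aeval y G ≠ 0 ∧
          loc (algebraMap A K) 𝔮 (aeval y G)⁻¹ ∧ algebraMap A K a * aeval y G = aeval y F) →
        wr j.D y ≠ 0 ∧ loc (algebraMap A K) 𝔮 (wr j.D y * μ)⁻¹ := by
    intro 𝔮 hq h1
    have hl := loc_iff (φ := j.ρ) (ψ := ψ.toRingHom) hψ hφ 𝔮
    obtain ⟨μ, hμ, -, h2, -, -, -, h6⟩ := hL O Q K σ κ j z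
      (integral (φ := j.ρ) (ψ := ψ.toRingHom) hψ hφ) (frac (φ := j.ρ) (ψ := ψ.toRingHom) hψ hφ)
      hz hci hht hgen hjac (𝔮.comap ψ.toRingHom) inferInstance (hJ ▸ covers hψ hq h1)
    refine ⟨μ, hμ, (hl _).1 (h2 s hs), fun y hy hy' => ?_⟩
    rw [← hl]
    refine h6 y (fun b => (hl _).2 (hy b)) fun i => ?_
    obtain ⟨F, G, h7, h8, h9⟩ := hy' (ψ (j.X i))
    exact ⟨F, G, h7, (hl _).2 h8, by rw [hφ, h9]⟩
  have hor : ∀ 𝔮 : Ideal A, 𝔮.IsPrime → 𝔮.height = 1 → algebraMap O A π ∉ 𝔮 →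
      loc (algebraMap A K) 𝔮 (j.φ s / j.jac z) := by
    intro 𝔮 hq h1 h2
    obtain ⟨μ, hμ, h3, h4⟩ := key 𝔮 hq h1
    have h5 := (h4 (fun i => algebraMap A K (ψ (j.X (Sum.inl i)))) (fun b => loc_map _ hq _)
      fun a => by
        obtain ⟨F, G, N, b, e1, e2⟩ := hhor a
        have h6 : aeval (fun i => ψ (j.X (Sum.inl i))) G ∉ 𝔮 := fun h =>
          h2 (hq.mem_of_pow_mem N (e2 ▸ 𝔮.mul_mem_right b h))
        refine ⟨F, G, ?_⟩
        have h7 : ∀ p : MvPolynomial σ O,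
            aeval (fun i => algebraMap A K (ψ (j.X (Sum.inl i)))) p =
              algebraMap A K (aeval (fun i => ψ (j.X (Sum.inl i))) p) :=
          aeval_algebraMap_apply K _
        rw [h7, h7, ← map_mul, e1]
        exact ⟨fun h => h6 (hker 𝔮 h), loc_inv _ (hker 𝔮) h6, rfl⟩).2
    have h6 : wr j.D (fun i => algebraMap A K (ψ (j.X (Sum.inl i)))) = 1 := by
      rw [wr, ← Matrix.det_one (n := σ)]
      congr 1
      ext b a
      rw [Matrix.of_apply, ← hφ, j.DX, Matrix.one_apply]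
      simp only [eq_comm]
    have h7 := h3.mul hq h5
    rwa [h6, one_mul, mul_inv_cancel_right₀ hμ] at h7
  have hΘ : Θ₀ ≠ 0 := fun h => pow_ne_zero N₀ hπ (by rw [hr₀, h, mul_zero])
  have hπ' : algebraMap O K π = algebraMap A K (algebraMap O A π) :=
    IsScalarTower.algebraMap_apply O A K π
  constructor
  · obtain ⟨N, r, e⟩ := hV.hart (1 : A) (j.φ s / j.jac z / Θ₀) fun 𝔮 hq h1 _ => by
      by_cases h2 : algebraMap O A π ∈ 𝔮
      · obtain ⟨y, h3, h4, t, h5, h6⟩ := hver 𝔮 hq h1 h2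
        obtain ⟨μ, hμ, h7, h8⟩ := key 𝔮 hq h1
        obtain ⟨h9, h10⟩ := h8 y h3 h4
        have h11 := (h7.mul hq h10).mul hq h5
        have ht : t ≠ 0 := fun h => h9 (by rw [h6, h, zero_mul])
        have h12 : j.φ s / j.jac z * μ * (wr j.D y * μ)⁻¹ * t = j.φ s / j.jac z / Θ₀ := by
          rw [h6]
          field_simp
        rwa [h12] at h11
      · have h3 : algebraMap O A π ^ N₀ ∉ 𝔮 := fun h => h2 (hq.mem_of_pow_mem _ h)
        have h4 := ((hor 𝔮 hq h1 h2).mul hq (loc_map _ hq r₀)).mul hq (loc_inv _ (hker 𝔮) h3)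
        have h5 : algebraMap A K r₀ ≠ 0 := fun h => pow_ne_zero N₀ hπ (by rw [hr₀, h, zero_mul])
        have h6 : j.φ s / j.jac z * algebraMap A K r₀ *
            (algebraMap A K (algebraMap O A π ^ N₀))⁻¹ = j.φ s / j.jac z / Θ₀ := by
          rw [map_pow, ← hπ', hr₀]
          field_simp
        rwa [h6] at h4
    refine ⟨r, ?_⟩
    rw [← e, map_one, one_pow]
    field_simp
  · obtain ⟨N, r, e⟩ := hV.hart (algebraMap O A π) (j.φ s / j.jac z) hor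
    refine ⟨N, r, ?_⟩
    rw [← e, ← hπ']
    field_simp

end Pool.Agent.P.MP_e7d440_ag
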