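import Pool.Agent.P.MP_e7d440_ag.Iface

/-! Basic lemmas on the Cech differential and on `Mem`. -/

namespace Pool.Agent.P.MP_e7d440_ag

section bd
variable {Γ M : Type} [AddCommGroup M]

@[simp] lemma bd_nil (f : List Γ → M) : bd f [] = 0 := by simp [bd]

lemma bd_cons (f : List Γ → M) (a : Γ) (l : List Γ) :
    bd f (a :: l) = f l - bd (fun l' => f (a :: l')) l := by
  unfold bd
  rw [sub_eq_add_neg, ← Finset.sum_neg_distrib]
  refine (Fin.sum_univ_succ (n := l.length) _).trans ?_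
  congr 1
  · simp
  · refine Finset.sum_congr rfl fun j _ => ?_
    simp [pow_succ]

lemma bd_add (f g : List Γ → M) (l : List Γ) :
    bd (fun l => f l + g l) l = bd f l + bd g l := by
  simp [bd, Finset.sum_add_distrib]

lemma bd_neg (f : List Γ → M) (l : List Γ) : bd (fun l => - f l) l = - bd f l := by
  simp [bd]

lemma bd_sub (f g : List Γ → M) (l : List Γ) :
    bd (fun l => f l - g l) l = bd f l - bd g l := by
  simp [bd, smul_sub, Finset.sum_sub_distrib]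

@[simp] lemma bd_zero (l : List Γ) : bd (fun _ => (0 : M)) l = 0 := by simp [bd]

lemma bd_zsmul (n : ℤ) (f : List Γ → M) (l : List Γ) :
    bd (fun l => n • f l) l = n • bd f l := by
  simp only [bd, Finset.smul_sum]
  exact Finset.sum_congr rfl fun j _ => smul_comm _ _ _

lemma bd_hom {N : Type} [AddCommGroup N] (g : M →+ N) (f : List Γ → M) (l : List Γ) :
    bd (fun l => g (f l)) l = g (bd f l) := by
  simp [bd]

lemma bd_mul {R : Type} [Ring R] (u : R) (f : List Γ → R) (l : List Γ) :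
    bd (fun l => u * f l) l = u * bd f l :=
  bd_hom (AddMonoidHom.mulLeft u) f l

lemma bd_congr {f g : List Γ → M} {l : List Γ}
    (h : ∀ l' : List Γ, l'.Sublist l → l'.length + 1 = l.length → f l' = g l') :
    bd f l = bd g l := by
  refine Finset.sum_congr rfl fun j _ => ?_
  rw [h _ (List.eraseIdx_sublist _ _) (List.length_eraseIdx_add_one j.2)]

lemma bd_map {Γ' : Type} (e : Γ' → Γ) (f : List Γ → M) (l : List Γ') :
    bd (fun l' => f (l'.map e)) l = bd f (l.map e) := by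
  induction l generalizing f with
  | nil => simp
  | cons a l ih =>
    rw [List.map_cons, bd_cons, bd_cons, ← ih]
    rfl

lemma bd_bd (f : List Γ → M) (l : List Γ) : bd (bd f) l = 0 := by
  induction l generalizing f with
  | nil => simp
  | cons a l ih =>
    rw [bd_cons]
    have : (fun l' => bd f (a :: l')) = fun l' => f l' - bd (fun l'' => f (a :: l'')) l' :=
      funext fun l' => bd_cons f a l'
    rw [this, bd_sub, ih]
    simp

/-- a closure principle for `bd` -/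
lemma bd_mem (P : AddSubgroup M) {f : List Γ → M} {l : List Γ}
    (h : ∀ l' : List Γ, l'.Sublist l → l'.length + 1 = l.length → f l' ∈ P) : bd f l ∈ P :=
  P.sum_mem fun j _ => P.zsmul_mem
    (h _ (List.eraseIdx_sublist _ _) (List.length_eraseIdx_add_one j.2)) _

end bd

section Mem
variable {Q F Γ : Type} [CommRing Q] [Field F] [Algebra Q F] {𝔞 𝔞' : Ideal Q} {c c' : Q}
  {u v : F}

lemma Mem.zero : Mem 𝔞 c (0 : F) := ⟨0, 0, 𝔞.zero_mem, by simp⟩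

lemma Mem.of_mem {a : Q} (ha : a ∈ 𝔞) : Mem 𝔞 c (algebraMap Q F a) := ⟨0, a, ha, by simp⟩

lemma Mem.of_zero : Mem 𝔞 (0 : Q) u := ⟨1, 0, 𝔞.zero_mem, by simp⟩

/-- the exponent can be enlarged -/
lemma Mem.exp {N : ℕ} {a : Q} (ha : a ∈ 𝔞) (h : algebraMap Q F c ^ N * u = algebraMap Q F a)
    {N' : ℕ} (hN : N ≤ N') : ∃ a' ∈ 𝔞, algebraMap Q F c ^ N' * u = algebraMap Q F a' := by
  obtain ⟨k, rfl⟩ := Nat.exists_eq_add_of_le hN
  exact ⟨c ^ k * a, 𝔞.mul_mem_left _ ha, by rw [map_mul, map_pow, ← h]; ring⟩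

lemma Mem.add (h : Mem 𝔞 c u) (h' : Mem 𝔞 c v) : Mem 𝔞 c (u + v) := by
  obtain ⟨N, a, ha, e⟩ := h
  obtain ⟨N', a', ha', e'⟩ := h'
  obtain ⟨b, hb, eb⟩ := Mem.exp ha e (Nat.le_add_right N N')
  obtain ⟨b', hb', eb'⟩ := Mem.exp ha' e' (Nat.le_add_left N' N)
  exact ⟨N + N', b + b', 𝔞.add_mem hb hb', by rw [mul_add, eb, eb', map_add]⟩

lemma Mem.neg (h : Mem 𝔞 c u) : Mem 𝔞 c (-u) := by
  obtain ⟨N, a, ha, e⟩ := h
  exact ⟨N, -a, 𝔞.neg_mem ha, by rw [mul_neg, e, map_neg]⟩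

lemma Mem.sub (h : Mem 𝔞 c u) (h' : Mem 𝔞 c v) : Mem 𝔞 c (u - v) := by
  rw [sub_eq_add_neg]; exact h.add h'.neg

lemma Mem.mul (h : Mem 𝔞 c u) (h' : Mem ⊤ c v) : Mem 𝔞 c (u * v) := by
  obtain ⟨N, a, ha, e⟩ := h
  obtain ⟨N', a', -, e'⟩ := h'
  exact ⟨N + N', a * a', 𝔞.mul_mem_right _ ha, by rw [map_mul, ← e, ← e']; ring⟩

lemma Mem.smul (t : Q) (h : Mem 𝔞 c u) : Mem 𝔞 c (algebraMap Q F t * u) := by
  rw [mul_comm]; exact h.mul (Mem.of_mem trivial)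

lemma Mem.mono (hle : 𝔞 ≤ 𝔞') (h : Mem 𝔞 c u) : Mem 𝔞' c u := by
  obtain ⟨N, a, ha, e⟩ := h
  exact ⟨N, a, hle ha, e⟩

lemma Mem.of_dvd_pow {k : ℕ} (hd : c ∣ c' ^ k) (h : Mem 𝔞 c u) : Mem 𝔞 c' u := by
  obtain ⟨N, a, ha, e⟩ := h
  obtain ⟨t, ht⟩ := hd
  refine ⟨k * N, t ^ N * a, 𝔞.mul_mem_left _ ha, ?_⟩
  rw [pow_mul, ← map_pow _ c' k, ht, map_mul, map_mul, map_pow, ← e]; ring

lemma Mem.of_dvd (hd : c ∣ c') (h : Mem 𝔞 c u) : Mem 𝔞 c' u :=
  h.of_dvd_pow (k := 1) (by simpa using hd)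

/-- `Mem 𝔞 c` as an additive subgroup -/
def memSub (F : Type) [Field F] [Algebra Q F] (𝔞 : Ideal Q) (c : Q) : AddSubgroup F where
  carrier := {u | Mem 𝔞 c u}
  zero_mem' := Mem.zero
  add_mem' := Mem.add
  neg_mem' := Mem.neg

lemma Mem.bd {w : Γ → Q} {ξ : List Γ → F} {l : List Γ}
    (h : ∀ l' : List Γ, l'.Sublist l → l'.length + 1 = l.length →
      Mem 𝔞 (c * (l'.map w).prod) (ξ l')) : Mem 𝔞 (c * (l.map w).prod) (bd ξ l) :=
  bd_mem (memSub F 𝔞 (c * (l.map w).prod)) fun l' hs hl =>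
    (h l' hs hl).of_dvd (mul_dvd_mul_left _ (hs.map w).prod_dvd_prod)

lemma Deg.bd {w : Γ → Q} {E : Set Γ} {q : ℕ} {ξ : List Γ → F} (h : Deg w 𝔞 E c q ξ) :
    Deg w 𝔞 E c (q + 1) (bd ξ) := fun l hE hl =>
  Mem.bd fun l' hs hl' => h l' (fun i hi => hE i (hs.subset hi)) (by omega)

lemma Cob.mono {w : Γ → Q} {E : Set Γ} {q : ℕ} {ξ : List Γ → F} (hle : 𝔞 ≤ 𝔞')
    (h : Cob w 𝔞 E c q ξ) : Cob w 𝔞' E c q ξ := by
  obtain ⟨ζ, h1, h2⟩ := h
  exact ⟨ζ, h1, fun l hE hl => (h2 l hE hl).mono hle⟩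

lemma Cob.congr {w : Γ → Q} {E : Set Γ} {q : ℕ} {ξ ξ' : List Γ → F}
    (h : Cob w 𝔞 E c q ξ) (h' : Deg w 𝔞 E c q (fun l => ξ' l - ξ l)) : Cob w 𝔞 E c q ξ' := by
  obtain ⟨ζ, h1, h2⟩ := h
  refine ⟨ζ, h1, fun l hE hl => ?_⟩
  have := (h' l hE hl).add (h2 l hE hl)
  simpa using this

end Mem

end Pool.Agent.P.MP_e7d440_ag
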