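import Pool.Agent.P.MP_e7d440_ag.Bd

/-! The canonical module part of the criterion: abstract form. -/

namespace Pool.Agent.P.MP_e7d440_ag

open IsLocalRing MvPolynomial

namespace CritA

lemma der_sq {O Q : Type} [CommRing O] [CommRing Q] [Algebra O Q] (D : Derivation O Q Q)
    {J : Ideal Q} {g : Q} (hg : g ∈ J ^ 2) : D g ∈ J := by
  rw [pow_two] at hg
  refine Submodule.mul_induction_on hg (fun a ha b hb => ?_) (fun a b ha hb => ?_)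
  · rw [Derivation.leibniz]
    exact J.add_mem (J.mul_mem_right _ ha) (J.mul_mem_right _ hb)
  · rw [map_add]; exact J.add_mem ha hb

lemma sp_elim {Q κ : Type} [CommRing Q] (z : κ → Q) (z' : Q) :
    sp (Sum.elim (fun _ : Unit => z') z) = sp z ⊔ Ideal.span {z'} := by
  unfold sp
  rw [Set.Sum.elim_range, Ideal.span_union, sup_comm]
  simp

end CritA

open CritA in
/-- The two linked complete intersections and the lift of sections of the canonical module. -/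
theorem critA (hB : S_basic) (hC : S_cm) (hH : S_ht) (h1 : S_a1) (h2 : S_a2)
    {O Q A K L σ κ β : Type} [CommRing O] [CommRing Q] [IsRegularRing Q] [IsLocalRing Q]
    [CommRing A] [IsDomain A] [IsNoetherianRing A] [IsIntegrallyClosed A] [Field K] [Field L]
    [Algebra O Q] [Algebra O A] [Algebra O K] [Algebra O L] [Algebra A K] [Algebra K L]
    [IsScalarTower O A K] [IsScalarTower O K L] [IsFractionRing A K]
    [Fintype σ] [Fintype κ] [DecidableEq σ] [DecidableEq κ]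
    (j₁ : Jet O Q L (σ ⊕ Unit) κ) (j₂ : Jet O Q K σ (Unit ⊕ κ)) (ψ : Q →ₐ[O] A) (π : O)
    (h : β → Q) (g : σ → K) (z₀ : κ → Q)
    (hd : ∀ i, j₂.d i = j₁.d ((Equiv.sumAssoc σ Unit κ).symm i))
    (hψ : ∀ q, j₂.φ q = algebraMap A K (ψ q))
    (hker : j₁.J ≤ RingHom.ker ψ.toRingHom)
    (hlift : ∀ a : A, ∃ q, j₁.φ q = algebraMap K L (algebraMap A K a) ∧ ψ q = a)
    (hτ : ψ (j₁.X (Sum.inl (Sum.inr ()))) = 0)
    (hDK : ∀ a γ, j₁.D (Sum.inl a) (algebraMap K L γ) = algebraMap K L (j₂.D a γ))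
    (hDτ : ∀ γ, j₁.D (Sum.inr ()) (algebraMap K L γ) = 0)
    (hN : ∀ θ, j₁.ρ.IsIntegralElem θ → ∃ q, j₁.φ q = θ)
    (hF : ∀ γ : L, ∃ a b, j₁.φ b ≠ 0 ∧ γ * j₁.φ b = j₁.φ a)
    (ht₁ : j₁.J.height ≤ Fintype.card κ) (ht₂ : j₂.J.height ≤ Fintype.card (Unit ⊕ κ))
    (hz₀ : ∀ k, z₀ k ∈ j₁.J)
    (hz₀' : ψ (Matrix.of fun k l => j₁.d (Sum.inr l) (z₀ k)).det ≠ 0)
    (hsq : ∀ 𝔓 : Ideal Q, 𝔓.IsPrime → algebraMap O Q π ∈ 𝔓 →
      ∀ s, s ∉ 𝔓 → s * algebraMap O Q π ∉ 𝔓 ^ 2)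
    (hh : ∀ i, j₁.D (Sum.inr ()) (j₁.φ (h i)) * j₁.φ (j₁.X (Sum.inl (Sum.inr ()))) = j₁.φ (h i))
    (hQ4 : ∀ 𝔓 : Ideal Q, 𝔓.IsPrime → j₁.J ≤ 𝔓 → (∀ i, h i ∈ 𝔓) → RingHom.ker ψ.toRingHom ≤ 𝔓)
    (hπ : algebraMap O K π ≠ 0) (hg : ∀ a, g a ≠ 0)
    (hHOR : ∀ a : A, ∃ (F G : MvPolynomial σ O) (N : ℕ) (b : A),
      a * aeval (fun i => ψ (j₂.X (Sum.inl i))) G = aeval (fun i => ψ (j₂.X (Sum.inl i))) F ∧
      aeval (fun i => ψ (j₂.X (Sum.inl i))) G * b = algebraMap O A π ^ N)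
    (hPOL : ∃ (N : ℕ) (r : A), algebraMap O K π ^ N = algebraMap A K r * lwr j₂.D g)
    (hVER : ∀ 𝔮 : Ideal A, 𝔮.IsPrime → 𝔮.height = 1 → algebraMap O A π ∈ 𝔮 → ∃ y : σ → K,
      (∀ b, loc (algebraMap A K) 𝔮 (y b)) ∧
      (∀ a : A, ∃ F G : MvPolynomial σ O, aeval y G ≠ 0 ∧
        loc (algebraMap A K) 𝔮 (aeval y G)⁻¹ ∧ algebraMap A K a * aeval y G = aeval y F) ∧
      ∃ t, loc (algebraMap A K) 𝔮 t ∧ wr j₂.D y = t * lwr j₂.D g) :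
    ∃ (𝔷 : Ideal Q) (z' : Q) (c : ℕ), CI 𝔷 c ∧ NZD 𝔷 z' ∧
      𝔷 ⊔ Ideal.span {z'} ≤ RingHom.ker ψ.toRingHom ∧
      (RingHom.ker ψ.toRingHom).height = (c + 1 : ℕ) ∧
      ∀ s ∈ col (𝔷 ⊔ Ideal.span {z'}) (RingHom.ker ψ.toRingHom),
        ∃ u ∈ col 𝔷 j₁.J, u - s ∈ 𝔷 ⊔ Ideal.span {z'} := by
  have : IsRegularLocalRing Q := IsRegularLocalRing.of_isRegularRing_of_isLocalRing Q
  have hinj : Function.Injective (algebraMap A K) := IsFractionRing.injective A K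
  have hsurj : Function.Surjective ψ := fun a => (hlift a).imp fun _ h => h.2
  have hJ₂ : j₂.J = RingHom.ker ψ.toRingHom := by
    ext q
    simp only [Jet.J, RingHom.mem_ker]
    change j₂.φ q = 0 ↔ ψ q = 0
    rw [hψ, map_eq_zero_iff _ hinj]
  have hJp : j₁.J.IsPrime := RingHom.ker_isPrime _
  have hbp : (RingHom.ker ψ.toRingHom).IsPrime := RingHom.ker_isPrime _
  have hmem : ∀ q, q ∈ j₁.J ↔ j₁.φ q = 0 := fun q => Iff.rfl
  have hmemψ : ∀ q, q ∈ RingHom.ker ψ.toRingHom ↔ ψ q = 0 := fun q => Iff.rfl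
  have hjac₀ : j₁.jac z₀ ≠ 0 := fun h0 => hz₀' (hker h0)
  obtain ⟨hht, -⟩ := hH.ind j₁ z₀ hz₀ hjac₀ ht₁
  obtain ⟨z, hz, hCI⟩ := hC.ch1 z₀ hJp hht.ge hz₀
  have hzJ : ∀ k, z k ∈ j₁.J := fun k => by
    have := j₁.J.add_mem (Ideal.pow_le_self two_ne_zero (hz k)) (hz₀ k)
    simpa using this
  set Δ : Q := (Matrix.of fun k l => j₁.d (Sum.inr l) (z k)).det with hΔ
  have hψΔ : ψ Δ = ψ (Matrix.of fun k l => j₁.d (Sum.inr l) (z₀ k)).det := by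
    rw [hΔ, AlgHom.map_det, AlgHom.map_det]
    congr 1
    ext k l
    have := hker (der_sq (j₁.d (Sum.inr l)) (hz k))
    rw [hmemψ, map_sub, map_sub, sub_eq_zero] at this
    simpa using this
  have hψΔ0 : ψ Δ ≠ 0 := hψΔ ▸ hz₀'
  have hjac : j₁.jac z = j₁.φ Δ := rfl
  have hjac0 : j₁.jac z ≠ 0 := fun h0 => hψΔ0 (hker h0)
  obtain ⟨-, hGG⟩ := hH.ind j₁ z hzJ hjac0 ht₁
  set Xτ := j₁.X (Sum.inl (Sum.inr ())) with hXτ
  have hτ0 : j₁.φ Xτ ≠ 0 := fun h0 => by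
    have := j₁.DX (Sum.inr ()) (Sum.inr ())
    rw [← hXτ, h0] at this
    simp at this
  obtain ⟨jj, hjj, hNZD⟩ := hC.avoid hCI hJp hht (t := Xτ) hτ0
  have hjjJ : jj ∈ j₁.J := Ideal.pow_le_self two_ne_zero hjj
  set z' := Xτ + jj with hz'
  have hφz' : j₁.φ z' = j₁.φ Xτ := by rw [hz', map_add, (hmem _).1 hjjJ, add_zero]
  set z'' : Unit ⊕ κ → Q := Sum.elim (fun _ => z') z with hz''
  have hsp : sp z'' = sp z ⊔ Ideal.span {z'} := sp_elim z z'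
  have hCI'' : CI (sp z'') (Fintype.card (Unit ⊕ κ)) := by
    rw [hsp, Fintype.card_sum, Fintype.card_unit, add_comm]
    exact hB.ciSucc hCI hNZD
  have hz''J : ∀ k, z'' k ∈ j₂.J := by
    rw [hJ₂]
    rintro (k | k)
    · rw [hmemψ]
      change ψ (Xτ + jj) = 0
      rw [map_add, hτ, (hmemψ _).1 (hker hjjJ), add_zero]
    · exact hker (hzJ k)
  have hjac₂ : j₂.jac z'' = algebraMap A K (ψ Δ) := by
    rw [← hψ, hΔ, Jet.jac, AlgHom.map_det, AlgHom.map_det]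
    have : j₂.φ.mapMatrix (Matrix.of fun k l => j₂.d (Sum.inr l) (z'' k)) =
        Matrix.fromBlocks 1 0 (Matrix.of fun k (_ : Unit) => j₂.φ (j₂.d (Sum.inr (Sum.inl ())) (z k)))
          (j₂.φ.mapMatrix (Matrix.of fun k l => j₁.d (Sum.inr l) (z k))) := by
      have e0 : ∀ i, j₂.φ (j₁.d i jj) = 0 := fun i => by
        rw [hψ, (hmemψ _).1 (hker (der_sq _ hjj)), map_zero]
      ext (k | k) (l | l)
      · simp [hz'', hd, hz', hXτ, e0, j₁.dX]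
      · simp [hz'', hd, hz', hXτ, e0, j₁.dX]
      · simp [hz'']
      · simp [hz'', hd]
    rw [this, Matrix.det_fromBlocks_zero₁₂]
    simp
  have hjac₂0 : j₂.jac z'' ≠ 0 := by
    rw [hjac₂]; exact (map_ne_zero_iff _ hinj).2 hψΔ0
  obtain ⟨hht₂, hGG₂⟩ := hH.ind j₂ z'' hz''J hjac₂0 ht₂
  refine ⟨sp z, z', Fintype.card κ, hCI, hNZD, ?_, ?_, fun s hs => ?_⟩
  · rw [← hsp, ← hJ₂]
    exact Ideal.span_le.2 (Set.range_subset_iff.2 hz''J)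
  · rw [← hJ₂, hht₂, Fintype.card_sum, Fintype.card_unit, add_comm]
  rw [← hsp, ← hJ₂] at hs
  obtain ⟨⟨r₁, hr₁⟩, N, r₂, hr₂⟩ := h1 O Q A K σ (Unit ⊕ κ) j₂ ψ z'' π (lwr j₂.D g) hsurj hψ
    hz''J hCI'' hht₂ hGG₂ hjac₂0 hπ hHOR hPOL hVER s hs
  obtain ⟨q₁, hq₁, -⟩ := hlift r₁
  obtain ⟨q₂, hq₂, -⟩ := hlift r₂
  set Θ : L := algebraMap K L (j₂.φ s / j₂.jac z'') with hΘ
  set γ : σ ⊕ Unit → L := Sum.elim (fun a => algebraMap K L (g a)) fun _ => j₁.φ Xτ with hγ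
  have hlwr : lwr j₁.D γ * j₁.φ Xτ = algebraMap K L (lwr j₂.D g) := by
    have : (Matrix.of fun b a => j₁.D a (γ b) / γ b) = Matrix.fromBlocks
        ((algebraMap K L).mapMatrix (Matrix.of fun b a => j₂.D a (g b) / g b)) 0 0
        (Matrix.of fun _ _ => (j₁.φ Xτ)⁻¹) := by
      ext (b | b) (a | a)
      · simp [hγ, hDK]
      · simp [hγ, hDτ]
      · simp [hγ, hXτ, j₁.DX]
      · simp [hγ, hXτ, j₁.DX]
    rw [lwr, this, Matrix.det_fromBlocks_zero₁₂, ← RingHom.map_det, lwr]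
    simp [hτ0]
  have key := h2 O Q L σ κ β j₁ z π (RingHom.ker ψ.toRingHom) h hN hF hzJ hCI hht hGG hjac0 hsq
    hh hQ4 Θ γ q₁ q₂ N (by
      rintro (b | b)
      · simpa [hγ] using hg b
      · simpa [hγ] using hτ0) (by
      rw [mul_assoc, hlwr, hq₁, ← map_mul, hΘ, hr₁, mul_div_cancel_right₀ _ hjac₂0]) (by
      rw [hq₂, hΘ, IsScalarTower.algebraMap_apply O K L, ← map_pow, ← map_mul,
        ← mul_div_assoc, hr₂, mul_div_cancel_right₀ _ hjac₂0])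
  obtain ⟨u, hu, hφu⟩ := key Xτ hτ
  have hφu' : j₁.φ u = Θ * j₁.φ Δ := by
    apply mul_right_cancel₀ hτ0
    rw [hφu, hjac]; ring
  have hub : u ∈ col (sp z'') j₂.J := by
    rw [mem_col, hJ₂]
    intro a ha
    obtain ⟨w, hw, hφw⟩ := key a ha
    have hin : u * a - z' * w ∈ sp z := by
      refine hC.inj hCI hJp hht hGG _ ?_ ?_
      · rw [hmem, map_sub, map_mul, map_mul, hφz', hφu', mul_comm (j₁.φ Xτ), hφw, hjac]; ring
      · exact Ideal.sub_mem _ (Ideal.mul_mem_right _ _ hu) (Ideal.mul_mem_left _ _ hw)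
    have : u * a = (u * a - z' * w) + z' * w := by ring
    rw [this, hsp]
    exact Ideal.add_mem _ (Ideal.mem_sup_left hin)
      (Ideal.mem_sup_right (Ideal.mul_mem_right _ _ (Ideal.mem_span_singleton_self _)))
  refine ⟨u, hu, ?_⟩
  rw [← hsp]
  refine hC.inj hCI'' (hJ₂ ▸ hbp) hht₂ hGG₂ _ ?_ (Ideal.sub_mem _ hub hs)
  obtain ⟨Δ', hΔ', hΔ''⟩ := hlift (ψ Δ)
  obtain ⟨s', hs', hs''⟩ := hlift (ψ s)
  have h0 : u * Δ' - Δ * s' ∈ j₁.J := by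
    rw [hmem, map_sub, map_mul, map_mul, hφu', hΔ', hs', hΘ, ← hjac₂, ← hψ, map_div₀]
    have : algebraMap K L (j₂.jac z'') ≠ 0 := by simpa using hjac₂0
    field_simp
    ring
  have h3 := (hmemψ _).1 (hker h0)
  rw [map_sub, map_mul, map_mul, hΔ'', hs'', sub_eq_zero, mul_comm] at h3
  rw [hJ₂, hmemψ, map_sub, mul_left_cancel₀ hψΔ0 h3, sub_self]

end Pool.Agent.P.MP_e7d440_ag
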