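import Mathlib

/-! Definitions used in the statement on pseudo-rationality of local models for `GL_n`. -/

namespace Pool.Agent.P.MP_e7d440_ag

open CategoryTheory AlgebraicGeometry

/-- The Cech differential on cochains indexed by finite lists of indices:
the value of `bd f` on i_0, ..., i_p is the sum over j of (-1)^j f (i_0, ..., omit i_j, ..., i_p). -/
def bd {Γ M : Type} [AddCommGroup M] (f : List Γ → M) (l : List Γ) : M :=
  ∑ j : Fin l.length, (-1 : ℤ) ^ (j : ℕ) • f (l.eraseIdx j)

/-- The total differential of a double Cech complex. -/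
def tot {α β M : Type} [AddCommGroup M] (ξ : List α → List β → M) (σ : List α) (τ : List β) : M :=
  bd (fun σ' => ξ σ' τ) σ + (-1 : ℤ) ^ σ.length • bd (ξ σ) τ

/-- The pull-back of functions along `f : W ⟶ Spec A`. -/
noncomputable def pull {A : Type} [CommRing A] {W : Scheme.{0}}
    (f : W ⟶ Spec (CommRingCat.of A)) : A →+* Γ(W, ⊤) :=
  f.appTop.hom.comp (Scheme.ΓSpecIso (CommRingCat.of A)).inv.hom

/-- The ring map from `A` to the function field of the integral scheme `W` over `A`. -/
noncomputable def toFF {A : Type} [CommRing A] {W : Scheme.{0}} [IsIntegral W]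
    (f : W ⟶ Spec (CommRingCat.of A)) : A →+* W.functionField :=
  (W.presheaf.germ ⊤ (genericPoint W) trivial).hom.comp (pull f)

/-- `f` is birational: it identifies the function field of `W` with the fraction field of `A`. -/
def Birational {A : Type} [CommRing A] {W : Scheme.{0}} [IsIntegral W]
    (f : W ⟶ Spec (CommRingCat.of A)) : Prop :=
  @IsFractionRing A _ W.functionField _ (toFF f).toAlgebra

/-- The rational function `γ` is a section of the structure sheaf over the nonempty open `V`. -/
def IsSec (W : Scheme.{0}) [IsIntegral W] (V : W.Opens) (γ : W.functionField) : Prop :=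
  ∃ (_ : Nonempty V) (s : Γ(W, V)), (W.germToFunctionField V).hom s = γ

/-- The open set `D(x_j, j in σ) ∩ (intersection of the U_i, i in τ)` of `W`. -/
noncomputable def piece {A α β : Type} [CommRing A] {W : Scheme.{0}}
    (f : W ⟶ Spec (CommRingCat.of A)) (x : α → A) (U : β → W.Opens) (σ : List α) (τ : List β) :
    W.Opens :=
  (σ.map fun j => W.basicOpen (pull f (x j))).foldr (· ⊓ ·) ⊤ ⊓ (τ.map U).foldr (· ⊓ ·) ⊤

/-- `η` lies in the localization `A[1 / prod of the x_j, j in σ]`, seen inside the field `F`. -/
def InLoc {A F α : Type} [CommRing A] [Field F] (φ : A →+* F) (x : α → A) (σ : List α) (η : F) :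
    Prop :=
  ∃ (N : ℕ) (a : A), φ (σ.map x).prod ^ N * η = φ a

/-- The Lipman-Teissier injectivity condition for the local ring `A` of dimension `d`: for every
proper birational `f : W ⟶ Spec A` with `W` integral, the map
`H^d_m(A) → H^d_Z(W, O_W)`, `Z` the closed fibre, is injective. The source is computed by the
Cech complex of a system of parameters `x`, the target by the total complex of the double Cech
complex of `x` and of a finite affine open cover `U` of `W`. A `d`-cocycle `η` of the first
complex whose image is the total differential of a cochain `ξ` is a coboundary. -/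
def LTInj (A : Type) [CommRing A] [IsLocalRing A] : Prop :=
  ∀ (d : ℕ) (x : Fin d → A), ringKrullDim A = d →
    (Ideal.span (Set.range x)).radical = IsLocalRing.maximalIdeal A →
  ∀ (W : Scheme.{0}) [IsIntegral W] (f : W ⟶ Spec (CommRingCat.of A)), IsProper f →
    Birational f →
  ∀ (β : Type) [Finite β] (U : β → W.Opens), (∀ i, IsAffineOpen (U i)) →
    (∀ i, Nonempty (U i)) → iSup U = ⊤ →
  ∀ (η : List (Fin d) → W.functionField) (ξ : List (Fin d) → List β → W.functionField),
    (∀ σ, σ.length = d → InLoc (toFF f) x σ (η σ)) →
    (∀ σ, σ.length = d + 1 → bd η σ = 0) →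
    (∀ σ, ξ σ [] = 0) →
    (∀ σ τ, τ ≠ [] → σ.length + τ.length = d → IsSec W (piece f x U σ τ) (ξ σ τ)) →
    (∀ σ τ, τ ≠ [] → σ.length + τ.length = d + 1 →
      tot ξ σ τ = if τ.length = 1 then η σ else 0) →
    ∃ ζ : List (Fin d) → W.functionField,
      (∀ σ, σ.length + 1 = d → InLoc (toFF f) x σ (ζ σ)) ∧ ∀ σ, σ.length = d → bd ζ σ = η σ

/-- The function field of the Grassmannian of `r`-planes in a space of dimension `r + m`. -/
abbrev FF (O : Type) [CommRing O] (r m : ℕ) : Type :=
  FractionRing (MvPolynomial (Fin r × Fin m) O)

/-- The matrix (1 | X) whose rows span the generic `r`-plane. -/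
noncomputable def genMat (O : Type) [CommRing O] (r m : ℕ) :
    Matrix (Fin r) (Fin (r + m)) (FF O r m) :=
  Matrix.of fun a => Fin.addCases (fun a' => if a = a' then 1 else 0)
    (fun b => algebraMap (MvPolynomial (Fin r × Fin m) O) (FF O r m) (MvPolynomial.X (a, b)))

/-- The Pluecker coordinate with columns `c` of the generic plane, in the basis
`π⁻¹ e_0, ..., π⁻¹ e_(i-1), e_i, ..., e_(n-1)` of the standard lattice number `i`. -/
noncomputable def plk {O : Type} [CommRing O] {r m : ℕ} (π : O) (i : Fin (r + m))
    (c : Fin r → Fin (r + m)) : FF O r m :=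
  (Matrix.of fun a k => genMat O r m a (c k) *
    (if c k < i then algebraMap O (FF O r m) π else 1)).det

/-- The coordinate ring of the flat closure of the generic fibre in the affine chart
`prod over i in I of {Pluecker coordinate J i is invertible}` of the product of the Grassmannians
of the lattices number `i`, `i` in `I`. -/
noncomputable def chart {O : Type} [CommRing O] [IsDomain O] {r m : ℕ} (π : O)
    (I : Finset (Fin (r + m))) (J : Fin (r + m) → Fin r → Fin (r + m)) :
    Subalgebra O (FF O r m) :=
  Algebra.adjoin O {t | ∃ i ∈ I, ∃ c, t = plk π i c / plk π i (J i)}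

/-- The normalization of `chart`. -/
noncomputable def nchart {O : Type} [CommRing O] [IsDomain O] {r m : ℕ} (π : O)
    (I : Finset (Fin (r + m))) (J : Fin (r + m) → Fin r → Fin (r + m)) :
    Subalgebra O (FF O r m) :=
  (integralClosure (chart π I J) (FF O r m)).restrictScalars O

end Pool.Agent.P.MP_e7d440_ag
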