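import Pool.Agent.P.MP_e7d440_ag.Iface

/-! The final step: from the criterion to the local rings of the normalized charts. -/

namespace Pool.Agent.P.MP_e7d440_ag

/-- The local rings of a normal finite type algebra satisfying the criterion. -/
theorem final_of (hL : S_locy) (hC : S_crit) (hS : S_scheme) {O C K : Type} [CommRing O]
    [IsDomain O] [IsDiscreteValuationRing O] [CharZero O] [CommRing C] [IsDomain C] [Field K]
    [Algebra O C] [Algebra O K] [Algebra C K] [IsScalarTower O C K] [Algebra.FiniteType O C]
    [IsFractionRing C K] [IsIntegrallyClosed C] (π : O) (hπ : Irreducible π)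
    (hinj : Function.Injective (algebraMap O K)) (h : LogCY O π C K) (𝔭 : Ideal C) [𝔭.IsPrime] :
    IsNoetherianRing (Localization.AtPrime 𝔭) ∧ IsDomain (Localization.AtPrime 𝔭) ∧
      IsIntegrallyClosed (Localization.AtPrime 𝔭) ∧ LTInj (Localization.AtPrime 𝔭) := by
  have : IsNoetherianRing C := Algebra.FiniteType.isNoetherianRing O C
  have hle : 𝔭.primeCompl ≤ nonZeroDivisors C := 𝔭.primeCompl_le_nonZeroDivisors
  letI : Algebra (Localization.AtPrime 𝔭) K :=
    IsLocalization.localizationAlgebraOfSubmonoidLe (Localization.AtPrime 𝔭) K 𝔭.primeCompl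
      (nonZeroDivisors C) hle
  have : IsScalarTower C (Localization.AtPrime 𝔭) K :=
    IsLocalization.localization_isScalarTower_of_submonoid_le (Localization.AtPrime 𝔭) K
      𝔭.primeCompl (nonZeroDivisors C) hle
  have : IsScalarTower O (Localization.AtPrime 𝔭) K := IsScalarTower.of_algebraMap_eq fun o => by
    rw [IsScalarTower.algebraMap_apply O C (Localization.AtPrime 𝔭),
      ← IsScalarTower.algebraMap_apply C (Localization.AtPrime 𝔭) K,
      ← IsScalarTower.algebraMap_apply]
  have : IsFractionRing (Localization.AtPrime 𝔭) K :=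
    IsFractionRing.isFractionRing_of_isDomain_of_isLocalization 𝔭.primeCompl _ K
  have : IsIntegrallyClosed (Localization.AtPrime 𝔭) :=
    isIntegrallyClosed_of_isLocalization _ 𝔭.primeCompl hle
  have : Algebra.EssFiniteType O (Localization.AtPrime 𝔭) :=
    Algebra.EssFiniteType.comp O C (Localization.AtPrime 𝔭)
  exact ⟨inferInstance, inferInstance, inferInstance,
    hS _ K (hC O _ K π hπ hinj (hL O C K π 𝔭 h))⟩

end Pool.Agent.P.MP_e7d440_ag
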