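import Pool.Agent.P.MP_e7d440_ag.Defs

/-! Internal definitions and the exact statements of the independent steps. -/

namespace Pool.Agent.P.MP_e7d440_ag

open IsLocalRing MvPolynomial

noncomputable section

/-! ## Regular sequences and ideals -/

section RS
variable {Q : Type} [CommRing Q]

/-- `r` is a non-zero-divisor modulo `𝔞`. -/
def NZD (𝔞 : Ideal Q) (r : Q) : Prop := ∀ g, r * g ∈ 𝔞 → g ∈ 𝔞

/-- weakly regular sequence modulo `𝔞`. -/
def RegSeq : Ideal Q → List Q → Prop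
  | _, [] => True
  | 𝔞, r :: l => NZD 𝔞 r ∧ RegSeq (𝔞 ⊔ Ideal.span {r}) l

/-- `𝔞` is generated by a weakly regular sequence of length `c`. -/
def CI (𝔞 : Ideal Q) (c : ℕ) : Prop :=
  ∃ l : List Q, l.length = c ∧ RegSeq ⊥ l ∧ Ideal.ofList l = 𝔞

/-- `𝔓` is an associated prime of `Q / 𝔞`. -/
def Ass (𝔞 𝔓 : Ideal Q) : Prop := 𝔓.IsPrime ∧ ∃ g, ∀ r, r ∈ 𝔓 ↔ r * g ∈ 𝔞

/-- the colon ideal. -/
def col (𝔞 J : Ideal Q) : Ideal Q := 𝔞.colon (J : Set Q)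

lemma mem_col {𝔞 J : Ideal Q} {u : Q} : u ∈ col 𝔞 J ↔ ∀ g ∈ J, u * g ∈ 𝔞 := by
  simp [col, Submodule.mem_colon]

/-- `𝔷` generates `J` at the generic point of `J`. -/
def GenGen (𝔷 J : Ideal Q) : Prop := ∀ g ∈ J, ∃ s, s ∉ J ∧ s * g ∈ 𝔷

/-- no prime strictly between `J` and `𝔓`. -/
def Covers (J 𝔓 : Ideal Q) : Prop :=
  J < 𝔓 ∧ ∀ 𝔔 : Ideal Q, 𝔔.IsPrime → J ≤ 𝔔 → 𝔔 ≤ 𝔓 → 𝔔 = J ∨ 𝔔 = 𝔓

/-- the socle of `Q / 𝔞` is cyclic. -/
def Soc1 [IsLocalRing Q] (𝔞 : Ideal Q) : Prop :=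
  ∃ u, (∀ t ∈ maximalIdeal Q, t * u ∈ 𝔞) ∧
    ∀ g, (∀ t ∈ maximalIdeal Q, t * g ∈ 𝔞) → g ∈ 𝔞 ⊔ Ideal.span {u}

/-- a family that is a regular sequence in some order. -/
def RegFam {ν : Type} (g : ν → Q) : Prop :=
  ∃ l : List ν, l.Nodup ∧ (∀ i, i ∈ l) ∧ RegSeq ⊥ (l.map g)

/-- the ideal spanned by a family. -/
abbrev sp {ν : Type} (z : ν → Q) : Ideal Q := Ideal.span (Set.range z)

/-- `γ` lies in the localization of the image of `φ` at `𝔓`. -/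
def loc {L : Type} [Field L] (φ : Q →+* L) (𝔓 : Ideal Q) (γ : L) : Prop :=
  ∃ a b, b ∉ 𝔓 ∧ γ * φ b = φ a

lemma loc_map {L : Type} [Field L] (φ : Q →+* L) {𝔓 : Ideal Q} (h : 𝔓.IsPrime) (a : Q) :
    loc φ 𝔓 (φ a) := ⟨a, 1, fun h1 => h.ne_top ((Ideal.eq_top_iff_one _).2 h1), by simp⟩

lemma loc.mul {L : Type} [Field L] {φ : Q →+* L} {𝔓 : Ideal Q} (h : 𝔓.IsPrime) {γ γ' : L}
    (h1 : loc φ 𝔓 γ) (h2 : loc φ 𝔓 γ') : loc φ 𝔓 (γ * γ') := by
  obtain ⟨a, b, hb, e⟩ := h1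
  obtain ⟨a', b', hb', e'⟩ := h2
  refine ⟨a * a', b * b', fun hm => (h.mem_or_mem hm).elim hb hb', ?_⟩
  rw [map_mul, map_mul, ← e, ← e']; ring

lemma loc.add {L : Type} [Field L] {φ : Q →+* L} {𝔓 : Ideal Q} (h : 𝔓.IsPrime) {γ γ' : L}
    (h1 : loc φ 𝔓 γ) (h2 : loc φ 𝔓 γ') : loc φ 𝔓 (γ + γ') := by
  obtain ⟨a, b, hb, e⟩ := h1
  obtain ⟨a', b', hb', e'⟩ := h2
  refine ⟨a * b' + a' * b, b * b', fun hm => (h.mem_or_mem hm).elim hb hb', ?_⟩
  rw [map_add, map_mul, map_mul, map_mul, ← e, ← e']; ring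

lemma loc_inv {L : Type} [Field L] (φ : Q →+* L) {𝔓 : Ideal Q} (hk : RingHom.ker φ ≤ 𝔓) {b : Q}
    (hb : b ∉ 𝔓) : loc φ 𝔓 (φ b)⁻¹ :=
  ⟨1, b, hb, by rw [map_one]; exact inv_mul_cancel₀ fun h0 => hb (hk h0)⟩

end RS

/-- Basic facts on associated primes and regular sequences in a Noetherian ring. -/
structure S_basic : Prop where
  assFin : ∀ {Q : Type} [CommRing Q] [IsNoetherianRing Q] (𝔞 : Ideal Q), {𝔓 | Ass 𝔞 𝔓}.Finite
  assLe : ∀ {Q : Type} [CommRing Q] {𝔞 𝔓 : Ideal Q}, Ass 𝔞 𝔓 → 𝔞 ≤ 𝔓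
  assMem : ∀ {Q : Type} [CommRing Q] [IsNoetherianRing Q] {𝔞 : Ideal Q} {g : Q}, g ∉ 𝔞 →
    ∃ 𝔓, Ass 𝔞 𝔓 ∧ ∀ s, s * g ∈ 𝔞 → s ∈ 𝔓
  nzdIff : ∀ {Q : Type} [CommRing Q] [IsNoetherianRing Q] {𝔞 : Ideal Q} {r : Q},
    NZD 𝔞 r ↔ ∀ 𝔓, Ass 𝔞 𝔓 → r ∉ 𝔓
  davis : ∀ {Q : Type} [CommRing Q] [IsNoetherianRing Q] (𝔞 𝔟 : Ideal Q) (g : Q),
    (∀ 𝔓, Ass 𝔞 𝔓 → g ∈ 𝔓 → ¬ 𝔟 ≤ 𝔓) → ∃ b ∈ 𝔟, NZD 𝔞 (g + b)
  avoid2 : ∀ {Q : Type} [CommRing Q] [IsNoetherianRing Q] (𝔞 𝔞' 𝔟 : Ideal Q),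
    (∀ 𝔓, Ass 𝔞 𝔓 → ¬ 𝔟 ≤ 𝔓) → (∀ 𝔓, Ass 𝔞' 𝔓 → ¬ 𝔟 ≤ 𝔓) → ∃ b ∈ 𝔟, NZD 𝔞 b ∧ NZD 𝔞' b
  minAss : ∀ {Q : Type} [CommRing Q] [IsNoetherianRing Q] {𝔞 𝔓 : Ideal Q},
    𝔓 ∈ 𝔞.minimalPrimes → Ass 𝔞 𝔓
  regAppend : ∀ {Q : Type} [CommRing Q] (𝔞 : Ideal Q) (l l' : List Q),
    RegSeq 𝔞 (l ++ l') ↔ RegSeq 𝔞 l ∧ RegSeq (𝔞 ⊔ Ideal.ofList l) l'
  ciAppend : ∀ {Q : Type} [CommRing Q] {𝔞 : Ideal Q} {c : ℕ} {l : List Q},
    CI 𝔞 c → RegSeq 𝔞 l → CI (𝔞 ⊔ Ideal.ofList l) (c + l.length)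
  ciSucc : ∀ {Q : Type} [CommRing Q] {𝔞 : Ideal Q} {c : ℕ} {r : Q},
    CI 𝔞 c → NZD 𝔞 r → CI (𝔞 ⊔ Ideal.span {r}) (c + 1)
  ciHt : ∀ {Q : Type} [CommRing Q] [IsNoetherianRing Q] {𝔞 𝔓 : Ideal Q} {c : ℕ},
    CI 𝔞 c → 𝔓.IsPrime → 𝔞 ≤ 𝔓 → (c : ℕ∞) ≤ 𝔓.height
  ciLoc : ∀ {Q R : Type} [CommRing Q] [CommRing R] [Algebra Q R] (M : Submonoid Q)
    [IsLocalization M R] {𝔞 : Ideal Q} {c : ℕ}, CI 𝔞 c → CI (𝔞.map (algebraMap Q R)) c
  ofFn : ∀ {Q : Type} [CommRing Q] {d : ℕ} (y : Fin d → Q), Ideal.ofList (List.ofFn y) = sp y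

/-- Regular local rings are domains and regular parameters form regular sequences. -/
def S_reg : Prop := ∀ (R : Type) [CommRing R] [IsRegularLocalRing R],
  IsDomain R ∧ ∀ l : List R, Ideal.ofList l = maximalIdeal R →
    (l.length : WithBot ℕ∞) = ringKrullDim R →
      RegSeq ⊥ l ∧ ∀ k, (Ideal.ofList (l.take k)).IsPrime

/-- Depth lemmas in a Noetherian local ring. -/
structure S_dep : Prop where
  perm : ∀ {R : Type} [CommRing R] [IsLocalRing R] [IsNoetherianRing R] {𝔞 : Ideal R}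
    {l l' : List R}, l.Perm l' → (∀ t ∈ l, t ∈ maximalIdeal R) → RegSeq 𝔞 l → RegSeq 𝔞 l'
  pow : ∀ {R : Type} [CommRing R] [IsLocalRing R] [IsNoetherianRing R] {𝔞 : Ideal R}
    {l : List R} (k : ℕ), (∀ t ∈ l, t ∈ maximalIdeal R) → RegSeq 𝔞 l →
      RegSeq 𝔞 (l.map fun t => t ^ (k + 1))
  colon : ∀ {R : Type} [CommRing R] [IsLocalRing R] [IsNoetherianRing R] {𝔞 : Ideal R}
    {l : List R} (k : ℕ) (w : R), (∀ t ∈ l, t ∈ maximalIdeal R) → RegSeq 𝔞 l →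
      l.prod ^ k * w ∈ 𝔞 ⊔ Ideal.ofList (l.map fun t => t ^ (k + 1)) → w ∈ 𝔞 ⊔ Ideal.ofList l
  drop : ∀ {R : Type} [CommRing R] [IsLocalRing R] [IsNoetherianRing R] {𝔞 : Ideal R}
    {l : List R} {r : R} {e : ℕ}, (∀ t ∈ l, t ∈ maximalIdeal R) → RegSeq 𝔞 l →
      l.length = e + 1 → r ∈ maximalIdeal R → NZD 𝔞 r →
      ∃ l' : List R, l'.length = e ∧ (∀ t ∈ l', t ∈ maximalIdeal R) ∧
        RegSeq (𝔞 ⊔ Ideal.span {r}) l'
  leDim : ∀ {R : Type} [CommRing R] [IsLocalRing R] [IsNoetherianRing R] {𝔞 𝔓 : Ideal R}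
    {l : List R}, (∀ t ∈ l, t ∈ maximalIdeal R) → RegSeq 𝔞 l → Ass 𝔞 𝔓 →
      (l.length : WithBot ℕ∞) ≤ ringKrullDim (R ⧸ 𝔓)

/-- The cyclicity of the socle does not depend on the regular sequence. -/
def S_socx : Prop := ∀ (R : Type) [CommRing R] [IsLocalRing R] [IsNoetherianRing R]
  (𝔞 : Ideal R) (l l' : List R), (∀ t ∈ l, t ∈ maximalIdeal R) →
    (∀ t ∈ l', t ∈ maximalIdeal R) → RegSeq 𝔞 l → RegSeq 𝔞 l' → l.length = l'.length →
    Soc1 (𝔞 ⊔ Ideal.ofList l) → Soc1 (𝔞 ⊔ Ideal.ofList l')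

/-- Unmixedness and its consequences in a regular local ring. -/
structure S_cm : Prop where
  unmix : ∀ {R : Type} [CommRing R] [IsRegularLocalRing R] {𝔞 𝔓 : Ideal R} {c : ℕ},
    CI 𝔞 c → Ass 𝔞 𝔓 →
      𝔓.height = c ∧ (c : WithBot ℕ∞) + ringKrullDim (R ⧸ 𝔓) = ringKrullDim R
  avoid : ∀ {R : Type} [CommRing R] [IsRegularLocalRing R] {𝔷 J : Ideal R} {c : ℕ} {t : R},
    CI 𝔷 c → J.IsPrime → J.height = c → t ∉ J → ∃ j ∈ J ^ 2, NZD 𝔷 (t + j)
  ch1 : ∀ {R κ : Type} [CommRing R] [IsRegularLocalRing R] [Fintype κ] {J : Ideal R}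
    (z₀ : κ → R), J.IsPrime → (Fintype.card κ : ℕ∞) ≤ J.height → (∀ k, z₀ k ∈ J) →
      ∃ z : κ → R, (∀ k, z k - z₀ k ∈ J ^ 2) ∧ CI (sp z) (Fintype.card κ)
  ch2 : ∀ {R : Type} [CommRing R] [IsRegularLocalRing R] {𝔞 𝔟 : Ideal R} {c d : ℕ}
    (x : Fin d → R), CI 𝔞 c → 𝔟.IsPrime → 𝔞 ≤ 𝔟 → 𝔟.height = c →
      ringKrullDim (R ⧸ 𝔟) = d → (𝔟 ⊔ sp x).radical = maximalIdeal R →
      ∃ y : Fin d → R, (∀ i, y i - x i ∈ 𝔟) ∧ RegSeq 𝔞 (List.ofFn y) ∧
        (𝔞 ⊔ sp y).radical = maximalIdeal R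
  inj : ∀ {R : Type} [CommRing R] [IsRegularLocalRing R] {𝔷 J : Ideal R} {c : ℕ},
    CI 𝔷 c → J.IsPrime → J.height = c → GenGen 𝔷 J → ∀ w ∈ J, w ∈ col 𝔷 J → w ∈ 𝔷
  s2 : ∀ {R L : Type} [CommRing R] [IsRegularLocalRing R] [Field L] (φ : R →+* L)
    {𝔷 : Ideal R} {c : ℕ}, CI 𝔷 c → (RingHom.ker φ).height = c → 𝔷 ≤ RingHom.ker φ →
      GenGen 𝔷 (RingHom.ker φ) → (∀ γ : L, ∃ a b, φ b ≠ 0 ∧ γ * φ b = φ a) → ∀ θ : L,
      (∀ 𝔓 : Ideal R, 𝔓.IsPrime → RingHom.ker φ ≤ 𝔓 → 𝔓.height = c + 1 →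
        ∃ s, s ∉ 𝔓 ∧ ∃ w ∈ col 𝔷 (RingHom.ker φ), φ s * θ = φ w) →
      ∃ w ∈ col 𝔷 (RingHom.ker φ), φ w = θ

/-- Double annihilator in an Artinian local quotient with cyclic socle. -/
def S_dann : Prop := ∀ (R : Type) [CommRing R] [IsLocalRing R] [IsNoetherianRing R]
  (𝔠 𝔟 : Ideal R), 𝔠.radical = maximalIdeal R → Soc1 𝔠 → 𝔠 ≤ 𝔟 → col 𝔠 (col 𝔠 𝔟) ≤ 𝔟

/-- Duality for the top local cohomology. -/
def S_dual : Prop := ∀ (R : Type) [CommRing R] [IsRegularLocalRing R] (𝔞 𝔟 : Ideal R) (c d : ℕ)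
  (y : Fin d → R), CI 𝔞 c → RegSeq 𝔞 (List.ofFn y) → (𝔞 ⊔ sp y).radical = maximalIdeal R →
    𝔞 ≤ 𝔟 → ∀ (a : R) (T : ℕ),
    (∀ s ∈ col 𝔞 𝔟, ∃ k : ℕ, (∏ i, y i) ^ k * (s * a) ∈ 𝔞 ⊔ sp fun i => y i ^ (T + k)) →
    ∃ k : ℕ, (∏ i, y i) ^ k * a ∈ 𝔟 ⊔ sp fun i => y i ^ (T + k)

/-- Wiebe's theorem (the half that is needed). -/
def S_wiebe : Prop := ∀ (R ν : Type) [CommRing R] [IsLocalRing R] [IsNoetherianRing R]
  [Fintype ν] [DecidableEq ν] (g : ν → R) (M : Matrix ν ν R), (∀ i, g i ∈ maximalIdeal R) →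
    RegFam g → (∀ i, g i ∈ (sp (M.mulVec g)).radical) → M.det ∉ sp (M.mulVec g)

/-- Structure of a regular local ring with a discrete valuation ring as quotient. -/
def S_ls : Prop := ∀ (R κ : Type) [CommRing R] [IsRegularLocalRing R] [Fintype κ] (J : Ideal R)
  [J.IsPrime], IsDiscreteValuationRing (R ⧸ J) → J.height = Fintype.card κ →
    ∃ (f : κ → R) (ϖ : R), sp f = J ∧ J ⊔ Ideal.span {ϖ} = maximalIdeal R ∧ ϖ ∉ J ∧
      ringKrullDim R = (Fintype.card κ + 1 : ℕ)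

/-- Local linkage. -/
def S_linkl : Prop := ∀ (R κ : Type) [CommRing R] [IsRegularLocalRing R] [Fintype κ]
  [DecidableEq κ] (f : κ → R) (ϖ : R) (M : Matrix κ κ R), (sp f).IsPrime →
    (sp f).height = Fintype.card κ → sp f ⊔ Ideal.span {ϖ} = maximalIdeal R → ϖ ∉ sp f →
    ringKrullDim R = (Fintype.card κ + 1 : ℕ) → CI (sp (M.mulVec f)) (Fintype.card κ) →
    GenGen (sp (M.mulVec f)) (sp f) →
      M.det ∈ col (sp (M.mulVec f)) (sp f) ∧ M.det ∉ sp f ∧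
        ∀ w ∈ col (sp (M.mulVec f)) (sp f), ∃ v, w - v * M.det ∈ sp f

/-! ## Derivations and Jacobians -/

/-- The Jacobian determinant of `γ` with respect to the derivations `D`. -/
def wr {O L ι : Type} [CommRing O] [Field L] [Algebra O L] [Fintype ι] [DecidableEq ι]
    (D : ι → Derivation O L L) (γ : ι → L) : L :=
  (Matrix.of fun b a => D a (γ b)).det

/-- The logarithmic Jacobian determinant. -/
def lwr {O L ι : Type} [CommRing O] [Field L] [Algebra O L] [Fintype ι] [DecidableEq ι]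
    (D : ι → Derivation O L L) (γ : ι → L) : L :=
  (Matrix.of fun b a => D a (γ b) / γ b).det

/-- A ring with coordinates mapping to a field, with the chain rule. -/
structure Jet (O Q L ι κ : Type) [CommRing O] [CommRing Q] [Field L] [Algebra O Q] [Algebra O L]
    [Fintype ι] [Fintype κ] [DecidableEq ι] [DecidableEq κ] where
  φ : Q →ₐ[O] L
  X : ι ⊕ κ → Q
  d : ι ⊕ κ → Derivation O Q Q
  D : ι → Derivation O L L
  dX : ∀ i j, d i (X j) = if i = j then 1 else 0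
  DX : ∀ a b, D a (φ (X (Sum.inl b))) = if a = b then 1 else 0
  chain : ∀ a g, D a (φ g) = ∑ i, φ (d i g) * D a (φ (X i))

namespace Jet
variable {O Q L ι κ : Type} [CommRing O] [CommRing Q] [Field L] [Algebra O Q] [Algebra O L]
  [Fintype ι] [Fintype κ] [DecidableEq ι] [DecidableEq κ]

/-- the underlying ring map -/
abbrev ρ (j : Jet O Q L ι κ) : Q →+* L := j.φ.toRingHom

/-- the kernel -/
abbrev J (j : Jet O Q L ι κ) : Ideal Q := RingHom.ker j.ρ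

/-- the Jacobian of relations -/
def jac (j : Jet O Q L ι κ) (z : κ → Q) : L :=
  j.φ (Matrix.of fun k l => j.d (Sum.inr l) (z k)).det

end Jet

/-- Jacobian identities. -/
structure S_jac : Prop where
  block : ∀ {O Q L ι κ : Type} [CommRing O] [CommRing Q] [Field L] [Algebra O Q] [Algebra O L]
    [Fintype ι] [Fintype κ] [DecidableEq ι] [DecidableEq κ] (j : Jet O Q L ι κ)
    (g : ι → Q) (f : κ → Q), (∀ k, j.φ (f k) = 0) →
      j.φ (Matrix.of fun p q => j.d q (Sum.elim g f p)).det =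
        wr j.D (fun b => j.φ (g b)) * j.jac f
  mul : ∀ {O Q L ι κ : Type} [CommRing O] [CommRing Q] [Field L] [Algebra O Q] [Algebra O L]
    [Fintype ι] [Fintype κ] [DecidableEq ι] [DecidableEq κ] (j : Jet O Q L ι κ)
    (f : κ → Q) (M : Matrix κ κ Q), (∀ k, j.φ (f k) = 0) →
      j.jac (M.mulVec f) = j.φ M.det * j.jac f
  unit : ∀ {O Q L ι κ : Type} [CommRing O] [CommRing Q] [IsLocalRing Q] [Field L] [Algebra O Q]
    [Algebra O L] [Fintype ι] [Fintype κ] [DecidableEq ι] [DecidableEq κ] (j : Jet O Q L ι κ)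
    (f : κ → Q) (y : ι → Q), sp f = j.J →
      (∀ i, ∃ F G : MvPolynomial ι O, IsUnit (aeval y G) ∧
        j.φ (j.X i * aeval y G - aeval y F) = 0) →
      ∃ v, IsUnit v ∧ j.φ v = wr j.D (fun b => j.φ (y b)) * j.jac f
  lwr_eq : ∀ {O L ι : Type} [CommRing O] [Field L] [Algebra O L] [Fintype ι] [DecidableEq ι]
    (D : ι → Derivation O L L) (γ : ι → L), lwr D γ = wr D γ / ∏ b, γ b
  norm : ∀ {O L ι : Type} [CommRing O] [Field L] [Algebra O L] [Fintype ι] [DecidableEq ι]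
    (D : ι → Derivation O L L) (x : ι → L), wr D x ≠ 0 →
      ∃ D' : ι → Derivation O L L, (∀ a b, D' a (x b) = if a = b then 1 else 0) ∧
        ∀ γ, wr D' γ * wr D x = wr D γ
  indep : ∀ {O L ι : Type} [CommRing O] [IsDomain O] [CharZero O] [Field L] [Algebra O L]
    [Fintype ι] [DecidableEq ι] (D : ι → Derivation O L L) (x : ι → L),
      Function.Injective (algebraMap O L) → wr D x ≠ 0 → AlgebraicIndependent O x

/-- Logarithmic forms along a discrete valuation. -/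
structure S_log : Prop where
  vert : ∀ {O Q L ι κ : Type} [CommRing O] [CommRing Q] [IsLocalRing Q] [IsNoetherianRing Q]
    [Field L] [Algebra O Q] [Algebra O L] [Fintype ι] [Fintype κ] [DecidableEq ι]
    [DecidableEq κ] (j : Jet O Q L ι κ) (f : κ → Q) (ϖ : Q) (π : O), sp f = j.J →
      j.J ⊔ Ideal.span {ϖ} = maximalIdeal Q → ϖ ∉ j.J →
      (∀ γ : L, ∃ a b, j.φ b ≠ 0 ∧ γ * j.φ b = j.φ a) →
      algebraMap O Q π ∈ maximalIdeal Q → algebraMap O Q π ∉ maximalIdeal Q ^ 2 →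
      ∀ γ : ι → L, (∀ b, γ b ≠ 0) → ∃ u, j.φ u = lwr j.D γ * j.jac f
  pole : ∀ {O Q L ι κ : Type} [CommRing O] [CommRing Q] [IsLocalRing Q] [IsNoetherianRing Q]
    [Field L] [Algebra O Q] [Algebra O L] [Fintype ι] [Fintype κ] [DecidableEq ι]
    [DecidableEq κ] (j : Jet O Q L ι κ) (f : κ → Q) (ϖ : Q), sp f = j.J →
      j.J ⊔ Ideal.span {ϖ} = maximalIdeal Q → ϖ ∉ j.J →
      ∀ (g : ι → Q) (b₀ : ι), j.φ (g b₀) ≠ 0 →
        ∃ u, j.φ u * j.φ (g b₀) = j.φ ϖ * wr j.D (fun b => j.φ (g b)) * j.jac f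

/-- Extension of derivations. -/
structure S_der : Prop where
  ext : ∀ {O R R' : Type} [CommRing O] [CommRing R] [CommRing R'] [Algebra O R] [Algebra O R']
    [Algebra R R'] [IsScalarTower O R R'] (M : Submonoid R) [IsLocalization M R']
    (D : Derivation O R R),
      ∃ D' : Derivation O R' R', ∀ r, D' (algebraMap R R' r) = algebraMap R R' (D r)
  jloc : ∀ {O Q L ι κ : Type} [CommRing O] [CommRing Q] [Field L] [Algebra O Q] [Algebra O L]
    [Fintype ι] [Fintype κ] [DecidableEq ι] [DecidableEq κ] (j : Jet O Q L ι κ)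
    (𝔓 : Ideal Q) [𝔓.IsPrime], j.J ≤ 𝔓 →
      ∃ j' : Jet O (Localization.AtPrime 𝔓) L ι κ, j'.D = j.D ∧
        (∀ g, j'.φ (algebraMap Q _ g) = j.φ g) ∧ (∀ i, j'.X i = algebraMap Q _ (j.X i)) ∧
        ∀ i g, j'.d i (algebraMap Q _ g) = algebraMap Q _ (j.d i g)
  jet0 : ∀ {O ν : Type} [CommRing O] [Fintype ν] (𝔫 : Ideal (MvPolynomial ν O)) [𝔫.IsPrime],
    ∃ d : ν → Derivation O (Localization.AtPrime 𝔫) (Localization.AtPrime 𝔫),
      (∀ i p, d i (algebraMap (MvPolynomial ν O) _ p) = algebraMap _ _ (pderiv i p)) ∧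
      ∀ (F : Type) [Field F] [Algebra O F] (χ : Localization.AtPrime 𝔫 →ₐ[O] F)
        (D : Derivation O F F) (g : Localization.AtPrime 𝔫),
        D (χ g) = ∑ i, χ (d i g) * D (χ (algebraMap (MvPolynomial ν O) _ (X i)))
  lext : ∀ {O K : Type} [CommRing O] [Field K] [Algebra O K],
    (∀ D : Derivation O K K,
      ∃ D' : Derivation O (FractionRing (Polynomial K)) (FractionRing (Polynomial K)),
        (∀ γ, D' (algebraMap (Polynomial K) _ (Polynomial.C γ)) =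
          algebraMap (Polynomial K) _ (Polynomial.C (D γ))) ∧
        D' (algebraMap (Polynomial K) _ Polynomial.X) = 0) ∧
    ∃ D' : Derivation O (FractionRing (Polynomial K)) (FractionRing (Polynomial K)),
      (∀ γ, D' (algebraMap (Polynomial K) _ (Polynomial.C γ)) = 0) ∧
      D' (algebraMap (Polynomial K) _ Polynomial.X) = 1
  frac : ∀ {O σ : Type} [CommRing O] [IsDomain O],
    ∃ D : σ → Derivation O (FractionRing (MvPolynomial σ O)) (FractionRing (MvPolynomial σ O)),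
      ∀ p F, D p (algebraMap (MvPolynomial σ O) _ F) = algebraMap _ _ (pderiv p F)

/-- Heights of the kernel and generic generation. -/
structure S_ht : Prop where
  ind : ∀ {O Q L ι κ : Type} [CommRing O] [CommRing Q] [IsRegularRing Q] [Field L] [Algebra O Q]
    [Algebra O L] [Fintype ι] [Fintype κ] [DecidableEq ι] [DecidableEq κ] (j : Jet O Q L ι κ)
    (z : κ → Q), (∀ k, z k ∈ j.J) → j.jac z ≠ 0 → j.J.height ≤ Fintype.card κ →
      j.J.height = Fintype.card κ ∧ GenGen (sp z) j.J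
  gen : ∀ {O ν ι κ F : Type} [CommRing O] [IsNoetherianRing O] [Fintype ν] [Fintype ι]
    [Fintype κ] [Field F] [Algebra O F] (e : ι ⊕ κ ≃ ν) (𝔫 : Ideal (MvPolynomial ν O))
    [𝔫.IsPrime] (χ : Localization.AtPrime 𝔫 →ₐ[O] F) (v : ν → F),
      (∀ i, χ (algebraMap (MvPolynomial ν O) _ (X i)) = v i) →
      AlgebraicIndependent O (fun a => v (e (Sum.inl a))) →
      (∀ k, ∃ p q : MvPolynomial ι O, aeval (fun a => v (e (Sum.inl a))) q ≠ 0 ∧
        v (e (Sum.inr k)) * aeval (fun a => v (e (Sum.inl a))) q =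
          aeval (fun a => v (e (Sum.inl a))) p) →
      (RingHom.ker χ.toRingHom).height ≤ Fintype.card κ

/-- Localizations of polynomial rings over a discrete valuation ring. -/
structure S_poly : Prop where
  regLoc : ∀ {P : Type} [CommRing P] [IsRegularRing P] (𝔫 : Ideal P) [𝔫.IsPrime],
    IsRegularRing (Localization.AtPrime 𝔫)
  notSq : ∀ {O ν : Type} [CommRing O] [IsDomain O] [IsDiscreteValuationRing O] [Fintype ν]
    (π : O), Irreducible π → ∀ (𝔫 : Ideal (MvPolynomial ν O)) [𝔫.IsPrime]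
      (𝔓 : Ideal (Localization.AtPrime 𝔫)), 𝔓.IsPrime →
      algebraMap O (Localization.AtPrime 𝔫) π ∈ 𝔓 →
      ∀ s, s ∉ 𝔓 → s * algebraMap O (Localization.AtPrime 𝔫) π ∉ 𝔓 ^ 2

/-- Normal Noetherian domains and valuation rings. -/
structure S_val : Prop where
  hart : ∀ {A K : Type} [CommRing A] [IsDomain A] [IsNoetherianRing A] [IsIntegrallyClosed A]
    [Field K] [Algebra A K] [IsFractionRing A K] (t : A) (γ : K),
      (∀ 𝔮 : Ideal A, 𝔮.IsPrime → 𝔮.height = 1 → t ∉ 𝔮 → loc (algebraMap A K) 𝔮 γ) →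
      ∃ (N : ℕ) (a : A), algebraMap A K t ^ N * γ = algebraMap A K a
  dvr : ∀ {A K : Type} [CommRing A] [IsDomain A] [IsNoetherianRing A] [IsIntegrallyClosed A]
    [Field K] [Algebra A K] [IsFractionRing A K] (𝔮 : Ideal A), 𝔮.IsPrime → 𝔮.height = 1 →
      ∃ V : ValuationSubring K, (∀ γ, γ ∈ V ↔ loc (algebraMap A K) 𝔮 γ) ∧
        ∀ a, algebraMap A K a ∈ V.nonunits ↔ a ∈ 𝔮
  center : ∀ {Q L : Type} [CommRing Q] [Field L] (φ : Q →+* L) (𝔓 : Ideal Q), 𝔓.IsPrime →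
    RingHom.ker φ ≤ 𝔓 →
      ∃ V : ValuationSubring L, (∀ g, φ g ∈ V) ∧ ∀ g, φ g ∈ V.nonunits ↔ g ∈ 𝔓
  mem : ∀ {Q L : Type} [CommRing Q] [Field L] (φ : Q →+* L),
    (∀ θ, φ.IsIntegralElem θ → ∃ g, φ g = θ) → ∀ (w : Q) (γ : L), φ w ≠ 0 →
      (∀ V : ValuationSubring L, (∀ g, φ g ∈ V) → (φ w)⁻¹ ∈ V → γ ∈ V) →
      ∃ (N : ℕ) (g : Q), φ w ^ N * γ = φ g
  locN : ∀ {P Q L : Type} [CommRing P] [CommRing Q] [Field L] [Algebra P Q] (M : Submonoid P)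
    [IsLocalization M Q] (φ : Q →+* L),
      (∀ θ, (φ.comp (algebraMap P Q)).IsIntegralElem θ → ∃ p, φ (algebraMap P Q p) = θ) →
      ∀ θ, φ.IsIntegralElem θ → ∃ g, φ g = θ
  quot : ∀ {R L : Type} [CommRing R] [IsLocalRing R] [IsNoetherianRing R] [Field L]
    (φ : R →+* L) [(RingHom.ker φ).IsPrime], (∀ θ, φ.IsIntegralElem θ → ∃ g, φ g = θ) →
      Covers (RingHom.ker φ) (maximalIdeal R) → IsDiscreteValuationRing (R ⧸ RingHom.ker φ)

/-- The canonical module along a prime covering the kernel. -/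
def S_link : Prop := ∀ (O Q L ι κ : Type) [CommRing O] [CommRing Q] [IsRegularRing Q] [Field L]
  [Algebra O Q] [Algebra O L] [Fintype ι] [Fintype κ] [DecidableEq ι] [DecidableEq κ]
  (j : Jet O Q L ι κ) (z : κ → Q), (∀ θ, j.ρ.IsIntegralElem θ → ∃ g, j.φ g = θ) →
    (∀ γ : L, ∃ a b, j.φ b ≠ 0 ∧ γ * j.φ b = j.φ a) → (∀ k, z k ∈ j.J) →
    CI (sp z) (Fintype.card κ) → j.J.height = Fintype.card κ → GenGen (sp z) j.J →
    j.jac z ≠ 0 → ∀ 𝔓 : Ideal Q, 𝔓.IsPrime → Covers j.J 𝔓 →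
    ∃ μ : L, μ ≠ 0 ∧
      (∀ θ, loc j.ρ 𝔓 (θ * μ) →
        ∃ s, s ∉ 𝔓 ∧ ∃ w ∈ col (sp z) j.J, j.φ s * (θ * j.jac z) = j.φ w) ∧
      (∀ w ∈ col (sp z) j.J, loc j.ρ 𝔓 (j.φ w / j.jac z * μ)) ∧
      (∀ g : ι → Q, loc j.ρ 𝔓 (wr j.D (fun b => j.φ (g b)) * μ)) ∧
      (∀ π : O, algebraMap O Q π ∈ 𝔓 → (∀ s, s ∉ 𝔓 → s * algebraMap O Q π ∉ 𝔓 ^ 2) →
        ∀ γ : ι → L, (∀ b, γ b ≠ 0) → loc j.ρ 𝔓 (lwr j.D γ * μ)) ∧
      (∀ (g : ι → Q) (b₀ : ι) (a : Q), a ∈ 𝔓 → j.φ (g b₀) ≠ 0 →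
        loc j.ρ 𝔓 (j.φ a * wr j.D (fun b => j.φ (g b)) / j.φ (g b₀) * μ)) ∧
      (∀ y : ι → L, (∀ b, loc j.ρ 𝔓 (y b)) →
        (∀ i, ∃ F G : MvPolynomial ι O, aeval y G ≠ 0 ∧ loc j.ρ 𝔓 (aeval y G)⁻¹ ∧
          j.φ (j.X i) * aeval y G = aeval y F) →
        wr j.D y ≠ 0 ∧ loc j.ρ 𝔓 (wr j.D y * μ)⁻¹)

/-- Sections of the canonical module of `A` are multiples of the logarithmic form. -/
def S_a1 : Prop := ∀ (O Q A K σ κ : Type) [CommRing O] [CommRing Q] [IsRegularRing Q]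
  [CommRing A] [IsDomain A] [IsNoetherianRing A] [IsIntegrallyClosed A] [Field K] [Algebra O Q]
  [Algebra O A] [Algebra O K] [Algebra A K] [IsScalarTower O A K] [IsFractionRing A K]
  [Fintype σ] [Fintype κ] [DecidableEq σ] [DecidableEq κ] (j : Jet O Q K σ κ)
  (ψ : Q →ₐ[O] A) (z : κ → Q) (π : O) (Θ₀ : K), Function.Surjective ψ →
    (∀ g, j.φ g = algebraMap A K (ψ g)) → (∀ k, z k ∈ j.J) → CI (sp z) (Fintype.card κ) →
    j.J.height = Fintype.card κ → GenGen (sp z) j.J → j.jac z ≠ 0 →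
    algebraMap O K π ≠ 0 →
    (∀ a : A, ∃ (F G : MvPolynomial σ O) (N : ℕ) (b : A),
      a * aeval (fun i => ψ (j.X (Sum.inl i))) G = aeval (fun i => ψ (j.X (Sum.inl i))) F ∧
      aeval (fun i => ψ (j.X (Sum.inl i))) G * b = algebraMap O A π ^ N) →
    (∃ (N : ℕ) (r : A), algebraMap O K π ^ N = algebraMap A K r * Θ₀) →
    (∀ 𝔮 : Ideal A, 𝔮.IsPrime → 𝔮.height = 1 → algebraMap O A π ∈ 𝔮 → ∃ y : σ → K,
      (∀ b, loc (algebraMap A K) 𝔮 (y b)) ∧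
      (∀ a : A, ∃ F G : MvPolynomial σ O, aeval y G ≠ 0 ∧
        loc (algebraMap A K) 𝔮 (aeval y G)⁻¹ ∧ algebraMap A K a * aeval y G = aeval y F) ∧
      ∃ t, loc (algebraMap A K) 𝔮 t ∧ wr j.D y = t * Θ₀) →
    ∀ s ∈ col (sp z) j.J, (∃ r : A, j.φ s = algebraMap A K r * Θ₀ * j.jac z) ∧
      ∃ (N : ℕ) (r : A), algebraMap O K π ^ N * j.φ s = algebraMap A K r * j.jac z

/-- The lift of such a section to the canonical module of the Rees algebra. -/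
def S_a2 : Prop := ∀ (O Q L σ κ β : Type) [CommRing O] [CommRing Q] [IsRegularRing Q]
  [IsLocalRing Q] [Field L] [Algebra O Q] [Algebra O L] [Fintype σ] [Fintype κ] [DecidableEq σ]
  [DecidableEq κ] (j : Jet O Q L (σ ⊕ Unit) κ) (z : κ → Q) (π : O) (𝔟 : Ideal Q) (h : β → Q),
    (∀ θ, j.ρ.IsIntegralElem θ → ∃ g, j.φ g = θ) →
    (∀ γ : L, ∃ a b, j.φ b ≠ 0 ∧ γ * j.φ b = j.φ a) → (∀ k, z k ∈ j.J) →
    CI (sp z) (Fintype.card κ) → j.J.height = Fintype.card κ → GenGen (sp z) j.J →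
    j.jac z ≠ 0 →
    (∀ 𝔓 : Ideal Q, 𝔓.IsPrime → algebraMap O Q π ∈ 𝔓 →
      ∀ s, s ∉ 𝔓 → s * algebraMap O Q π ∉ 𝔓 ^ 2) →
    (∀ i, j.D (Sum.inr ()) (j.φ (h i)) * j.φ (j.X (Sum.inl (Sum.inr ()))) = j.φ (h i)) →
    (∀ 𝔓 : Ideal Q, 𝔓.IsPrime → j.J ≤ 𝔓 → (∀ i, h i ∈ 𝔓) → 𝔟 ≤ 𝔓) →
    ∀ (Θ : L) (γ : σ ⊕ Unit → L) (r₁ r₂ : Q) (N : ℕ), (∀ b, γ b ≠ 0) →
      Θ = j.φ r₁ * lwr j.D γ * j.φ (j.X (Sum.inl (Sum.inr ()))) →
      algebraMap O L π ^ N * Θ = j.φ r₂ →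
      ∀ a ∈ 𝔟, ∃ w ∈ col (sp z) j.J,
        j.φ w * j.φ (j.X (Sum.inl (Sum.inr ()))) = j.φ a * Θ * j.jac z

/-! ## Cech complexes -/

section Cech
variable {Q F Γ : Type} [CommRing Q] [Field F] [Algebra Q F]

/-- `u` lies in the localization of `𝔞` at `c`. -/
def Mem (𝔞 : Ideal Q) (c : Q) (u : F) : Prop :=
  ∃ N : ℕ, ∃ a ∈ 𝔞, algebraMap Q F c ^ N * u = algebraMap Q F a

/-- On lists of length `q` with entries in `E`, `ξ` has values in the localizations of `𝔞`. -/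
def Deg (w : Γ → Q) (𝔞 : Ideal Q) (E : Set Γ) (c : Q) (q : ℕ) (ξ : List Γ → F) : Prop :=
  ∀ l : List Γ, (∀ i ∈ l, i ∈ E) → l.length = q → Mem 𝔞 (c * (l.map w).prod) (ξ l)

/-- a `q`-cocycle of the Cech complex of `Q / 𝔞` localized at `c`. -/
def Coc (w : Γ → Q) (𝔞 : Ideal Q) (E : Set Γ) (c : Q) (q : ℕ) (ξ : List Γ → F) : Prop :=
  Deg w ⊤ E c q ξ ∧ Deg w 𝔞 E c (q + 1) (bd ξ)

/-- a `q`-coboundary of the Cech complex of `Q / 𝔞` localized at `c`. -/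
def Cob (w : Γ → Q) (𝔞 : Ideal Q) (E : Set Γ) (c : Q) (q : ℕ) (ξ : List Γ → F) : Prop :=
  ∃ ζ : List Γ → F,
    (∀ l : List Γ, (∀ i ∈ l, i ∈ E) → l.length + 1 = q → Mem ⊤ (c * (l.map w).prod) (ζ l)) ∧
    Deg w 𝔞 E c q (fun l => ξ l - bd ζ l)

end Cech

/-- Cohomology classes are killed by powers of elements of the radical; vanishing below the
depth. -/
structure S_vanish : Prop where
  kill : ∀ {Q F Γ : Type} [CommRing Q] [Field F] [Algebra Q F] [Finite Γ]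
    (w : Γ → Q) (𝔞 : Ideal Q) (E : Set Γ) (c : Q) (q : ℕ) (ξ : List Γ → F) (t : Q),
      t ∈ (𝔞 ⊔ Ideal.span (w '' E)).radical → Coc w 𝔞 E c q ξ →
      ∃ N : ℕ, Cob w 𝔞 E c q (fun l => algebraMap Q F t ^ N * ξ l)
  vanish : ∀ {Q F Γ : Type} [CommRing Q] [Field F] [Algebra Q F] [Finite Γ],
    Function.Injective (algebraMap Q F) → ∀ (w : Γ → Q) (𝔞 : Ideal Q) (E : Set Γ) (c : Q) (q : ℕ)
      (ξ : List Γ → F) (r : List Q), RegSeq 𝔞 r →
      (∀ t ∈ r, t ∈ (𝔞 ⊔ Ideal.span (w '' E)).radical) → q < r.length →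
      Coc w 𝔞 E c q ξ → Cob w 𝔞 E c q ξ

/-- Adding one index to the family. -/
def S_step : Prop := ∀ (Q F Γ : Type) [CommRing Q] [Field F] [Algebra Q F]
  (w : Γ → Q) (𝔞 : Ideal Q) (E : Set Γ) (a : Γ) (c : Q) (q : ℕ) (ξ ζ : List Γ → F), a ∉ E →
    Coc w 𝔞 (insert a E) c (q + 1) ξ → Deg w ⊤ E c q ζ →
    (∀ l : List Γ, (¬ ∀ i ∈ l, i ∈ E) → ζ l = 0) →
    Deg w 𝔞 E c (q + 1) (fun l => ξ l - bd ζ l) →
      Coc w 𝔞 E (c * w a) q (fun l => ξ (a :: l) - bd ζ (a :: l)) ∧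
      (Cob w 𝔞 E (c * w a) q (fun l => ξ (a :: l) - bd ζ (a :: l)) →
        Cob w 𝔞 (insert a E) c (q + 1) ξ)

/-- Change of family. -/
def S_change : Prop := ∀ (Q F Γ : Type) [CommRing Q] [Field F] [Algebra Q F] [Finite Γ]
  (w : Γ → Q) (𝔞 : Ideal Q) (E E' : Set Γ) (c : Q) (q : ℕ) (ξ : List Γ → F), E ⊆ E' →
    (∀ i ∈ E', w i ∈ (𝔞 ⊔ Ideal.span (w '' E)).radical) →
    Coc w 𝔞 E' c q ξ → Cob w 𝔞 E c q ξ → Cob w 𝔞 E' c q ξ

/-- The top degree. -/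
structure S_top : Prop where
  top1 : ∀ {Q F : Type} [CommRing Q] [Field F] [Algebra Q F],
    Function.Injective (algebraMap Q F) → ∀ {d : ℕ} (y : Fin d → Q) (𝔞 : Ideal Q)
      (ξ : List (Fin d) → F) (T : ℕ) (a : Q), Cob y 𝔞 Set.univ 1 d ξ →
      algebraMap Q F (∏ i, y i) ^ T * ξ (List.finRange d) = algebraMap Q F a →
      ∃ k : ℕ, (∏ i, y i) ^ k * a ∈ 𝔞 ⊔ sp fun i => y i ^ (T + k)
  top2 : ∀ {Q F : Type} [CommRing Q] [Field F] [Algebra Q F],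
    Function.Injective (algebraMap Q F) → ∀ {d : ℕ} (y : Fin d → Q) (𝔞 : Ideal Q)
      (ξ : List (Fin d) → F) (T k : ℕ) (a : Q), (∀ i, y i ≠ 0) → Coc y 𝔞 Set.univ 1 d ξ →
      algebraMap Q F (∏ i, y i) ^ T * ξ (List.finRange d) = algebraMap Q F a →
      (∏ i, y i) ^ k * a ∈ 𝔞 ⊔ sp (fun i => y i ^ (T + k)) → Cob y 𝔞 Set.univ 1 d ξ

/-- The algebraic form of the injectivity statement for one family `B`. -/
def ValInjAt (A K : Type) [CommRing A] [IsLocalRing A] [Field K] [Algebra A K] (β : Type)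
    (B : β → Finset K) : Prop :=
  ∀ (d : ℕ) (x : Fin d → A), ringKrullDim A = d →
    (Ideal.span (Set.range x)).radical = maximalIdeal A →
  ∀ (η : List (Fin d) → K) (ξ : List (Fin d) → List β → K),
    (∀ σ, σ.length = d → InLoc (algebraMap A K) x σ (η σ)) →
    (∀ σ, σ.length = d + 1 → bd η σ = 0) →
    (∀ σ, ξ σ [] = 0) →
    (∀ σ τ, τ ≠ [] → σ.length + τ.length = d → ∀ V : ValuationSubring K,
      (∀ a, algebraMap A K a ∈ V) → (∀ i ∈ σ, (algebraMap A K (x i))⁻¹ ∈ V) →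
      (∀ i ∈ τ, ∀ b ∈ B i, b ∈ V) → ξ σ τ ∈ V) →
    (∀ σ τ, τ ≠ [] → σ.length + τ.length = d + 1 →
      tot ξ σ τ = if τ.length = 1 then η σ else 0) →
    ∃ ζ : List (Fin d) → K,
      (∀ σ, σ.length + 1 = d → InLoc (algebraMap A K) x σ (ζ σ)) ∧
        ∀ σ, σ.length = d → bd ζ σ = η σ

/-- The algebraic form of the injectivity statement. -/
def ValInj (A K : Type) [CommRing A] [IsLocalRing A] [Field K] [Algebra A K] : Prop :=
  ∀ (β : Type) [Finite β] (B : β → Finset K),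
    (∀ V : ValuationSubring K, (∀ a, algebraMap A K a ∈ V) → ∃ i, ∀ b ∈ B i, b ∈ V) →
    ValInjAt A K β B

/-- From the double complex to a single cocycle with values in the Rees algebra. -/
def S_core1 : Prop := ∀ (Q A K L β β' : Type) [CommRing Q] [CommRing A] [Field K] [Field L]
  [Algebra A K] [Algebra K L] (φ : Q →+* L) (B : β → Finset K) (h : β' → Q) (idx : β' → β)
  (d : ℕ) (x : Fin d → A) (x' : Fin d → Q),
    (∀ a : A, ∃ g, φ g = algebraMap K L (algebraMap A K a)) →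
    (∀ i, φ (x' i) = algebraMap K L (algebraMap A K (x i))) →
    (∀ θ, φ.IsIntegralElem θ → ∃ g, φ g = θ) →
    (∀ (V : ValuationSubring L) (i : β'), (∀ g, φ g ∈ V) → φ (h i) ≠ 0 → (φ (h i))⁻¹ ∈ V →
      ∀ b ∈ B (idx i), algebraMap K L b ∈ V) →
    ∀ (η : List (Fin d) → K) (ξ : List (Fin d) → List β → K),
    (∀ σ, σ.length = d → InLoc (algebraMap A K) x σ (η σ)) →
    (∀ σ, σ.length = d + 1 → bd η σ = 0) →
    (∀ σ, ξ σ [] = 0) →
    (∀ σ τ, τ ≠ [] → σ.length + τ.length = d → ∀ V : ValuationSubring K,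
      (∀ a, algebraMap A K a ∈ V) → (∀ i ∈ σ, (algebraMap A K (x i))⁻¹ ∈ V) →
      (∀ i ∈ τ, ∀ b ∈ B i, b ∈ V) → ξ σ τ ∈ V) →
    (∀ σ τ, τ ≠ [] → σ.length + τ.length = d + 1 →
      tot ξ σ τ = if τ.length = 1 then η σ else 0) →
    ∃ Ξ : List (Fin d ⊕ β') → L,
      (∀ l : List (Fin d ⊕ β'), l.length = d → φ (l.map (Sum.elim x' h)).prod ≠ 0 →
        ∃ (N : ℕ) (g : Q), φ (l.map (Sum.elim x' h)).prod ^ N * Ξ l = φ g) ∧
      (∀ l : List (Fin d ⊕ β'), l.length = d + 1 → bd Ξ l = 0) ∧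
      ∀ σ : List (Fin d), σ.length = d → Ξ (σ.map Sum.inl) = algebraMap K L (η σ)

/-- The Cech and duality argument. -/
def S_core2 : Prop := ∀ (Q A K L β' : Type) [CommRing Q] [IsRegularLocalRing Q] [CommRing A]
  [IsDomain A] [IsLocalRing A] [Field K] [Field L] [Algebra A K] [Algebra K L] [Finite β']
  (φ : Q →+* L) (ψ : Q →+* A) (𝔷 : Ideal Q) (z' : Q) (c : ℕ) (h : β' → Q) (d : ℕ)
  (x : Fin d → A) (x' : Fin d → Q), Function.Injective (algebraMap A K) →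
    Function.Surjective ψ → RingHom.ker φ ≤ RingHom.ker ψ →
    (∀ a : A, ∃ g, φ g = algebraMap K L (algebraMap A K a) ∧ ψ g = a) →
    (∀ i, φ (x' i) = algebraMap K L (algebraMap A K (x i)) ∧ ψ (x' i) = x i) →
    CI 𝔷 c → NZD 𝔷 z' → 𝔷 ⊔ Ideal.span {z'} ≤ RingHom.ker ψ →
    (RingHom.ker ψ).height = (c + 1 : ℕ) →
    (∀ s ∈ col (𝔷 ⊔ Ideal.span {z'}) (RingHom.ker ψ),
      ∃ u ∈ col 𝔷 (RingHom.ker φ), u - s ∈ 𝔷 ⊔ Ideal.span {z'}) →
    (∀ i, ψ (h i) = 0) →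
    (∀ 𝔓 : Ideal Q, 𝔓.IsPrime → RingHom.ker φ ≤ 𝔓 → (∀ i, h i ∈ 𝔓) → RingHom.ker ψ ≤ 𝔓) →
    ringKrullDim A = d → (sp x).radical = maximalIdeal A →
    ∀ (η : List (Fin d) → K) (Ξ : List (Fin d ⊕ β') → L),
      (∀ σ, σ.length = d → InLoc (algebraMap A K) x σ (η σ)) →
      (∀ σ, σ.length = d + 1 → bd η σ = 0) →
      (∀ l : List (Fin d ⊕ β'), l.length = d → φ (l.map (Sum.elim x' h)).prod ≠ 0 →
        ∃ (N : ℕ) (g : Q), φ (l.map (Sum.elim x' h)).prod ^ N * Ξ l = φ g) →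
      (∀ l : List (Fin d ⊕ β'), l.length = d + 1 → bd Ξ l = 0) →
      (∀ σ : List (Fin d), σ.length = d → Ξ (σ.map Sum.inl) = algebraMap K L (η σ)) →
      ∃ ζ : List (Fin d) → K,
        (∀ σ, σ.length + 1 = d → InLoc (algebraMap A K) x σ (ζ σ)) ∧
          ∀ σ, σ.length = d → bd ζ σ = η σ

/-! ## Finiteness of normalization, Rees algebra, schemes -/

/-- A conductor element when the residue field is infinite. -/
def S_fina : Prop := ∀ (O L ν : Type) [CommRing O] [IsDomain O] [IsDiscreteValuationRing O]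
  [CharZero O] [Infinite (ResidueField O)] [Field L] [Algebra O L] [Finite ν] (s : ν → L),
    Function.Injective (algebraMap O L) →
    (∀ γ : L, ∃ a ∈ Algebra.adjoin O (Set.range s), ∃ b ∈ Algebra.adjoin O (Set.range s),
      b ≠ 0 ∧ γ * b = a) →
    ∃ c ∈ Algebra.adjoin O (Set.range s), c ≠ 0 ∧
      ∀ γ : L, IsIntegral (Algebra.adjoin O (Set.range s)) γ →
        c * γ ∈ Algebra.adjoin O (Set.range s)

/-- Finiteness of normalization. -/
def S_fin : Prop := ∀ (O L ν : Type) [CommRing O] [IsDomain O] [IsDiscreteValuationRing O]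
  [CharZero O] [Field L] [Algebra O L] [Finite ν] (s : ν → L),
    Function.Injective (algebraMap O L) →
    (∀ γ : L, ∃ a ∈ Algebra.adjoin O (Set.range s), ∃ b ∈ Algebra.adjoin O (Set.range s),
      b ≠ 0 ∧ γ * b = a) →
    ∃ t : Finset L, (∀ γ ∈ t, IsIntegral (Algebra.adjoin O (Set.range s)) γ) ∧
      ∀ γ : L, IsIntegral (Algebra.adjoin O (Set.range s)) γ →
        γ ∈ Algebra.adjoin O (Set.range s ∪ (t : Set L))

/-- The values of the variables in the presentation of the Rees algebra. -/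
def reesV {A K σ κ : Type} [CommRing A] [Field K] [Algebra A K] (x : σ → A)
    (s : κ → Polynomial K) : (σ ⊕ Unit) ⊕ κ → Polynomial K :=
  Sum.elim (Sum.elim (fun a => Polynomial.C (algebraMap A K (x a))) fun _ => Polynomial.X) s

/-- The normalized Rees algebra. -/
def S_rees : Prop := ∀ (O A K σ β : Type) [CommRing O] [IsDomain O] [IsDiscreteValuationRing O]
  [CharZero O] [CommRing A] [IsDomain A] [IsIntegrallyClosed A] [Field K] [Algebra O A]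
  [Algebra O K] [Algebra A K] [IsScalarTower O A K] [IsFractionRing A K]
  [Algebra.EssFiniteType O A] [Fintype σ] [Finite β] (x : σ → A) (B : β → Finset K),
    Function.Injective (algebraMap O K) →
    (∀ γ : K, ∃ F G : MvPolynomial σ O, aeval (fun a => algebraMap A K (x a)) G ≠ 0 ∧
      γ * aeval (fun a => algebraMap A K (x a)) G = aeval (fun a => algebraMap A K (x a)) F) →
    (∀ V : ValuationSubring K, (∀ a, algebraMap A K a ∈ V) → ∃ i, ∀ b ∈ B i, b ∈ V) →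
    ∃ (κ : Type) (_ : Fintype κ) (s : κ → Polynomial K) (β' : Type) (_ : Finite β')
      (idx : β' → β) (H : β' → MvPolynomial ((σ ⊕ Unit) ⊕ κ) O) (γ : β' → K),
      (∀ k, ∃ a : A, (s k).coeff 0 = algebraMap A K a) ∧
      (∀ a : A, ∃ (p q : MvPolynomial ((σ ⊕ Unit) ⊕ κ) O) (b c : A), IsUnit c ∧ a * c = b ∧
        aeval (reesV x s) p = Polynomial.C (algebraMap A K b) ∧
        aeval (reesV x s) q = Polynomial.C (algebraMap A K c)) ∧
      (∀ θ : FractionRing (Polynomial K),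
        ((algebraMap (Polynomial K) (FractionRing (Polynomial K))).comp
          (aeval (reesV x s) : MvPolynomial ((σ ⊕ Unit) ⊕ κ) O →ₐ[O] Polynomial K).toRingHom
            ).IsIntegralElem θ →
        ∃ p : MvPolynomial ((σ ⊕ Unit) ⊕ κ) O,
          algebraMap (Polynomial K) (FractionRing (Polynomial K)) (aeval (reesV x s) p) = θ) ∧
      (∀ i, aeval (reesV x s) (H i) = Polynomial.C (γ i) * Polynomial.X) ∧
      (∀ V : ValuationSubring K, (∀ a, algebraMap A K a ∈ V) → ∃ i, γ i ≠ 0 ∧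
        ∀ (p : MvPolynomial ((σ ⊕ Unit) ⊕ κ) O) (n : ℕ),
          (aeval (reesV x s) p).coeff n / γ i ^ n ∈ V) ∧
      ∀ i, ∀ b ∈ B (idx i), ∃ p : MvPolynomial ((σ ⊕ Unit) ⊕ κ) O,
        aeval (reesV x s) p = Polynomial.C (b * γ i) * Polynomial.X

/-- From valuations to schemes. -/
def S_scheme : Prop := ∀ (A K : Type) [CommRing A] [IsDomain A] [IsLocalRing A] [Field K]
  [Algebra A K] [IsFractionRing A K], ValInj A K → LTInj A

/-- The logarithmic Calabi-Yau condition. -/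
def LogCY (O : Type) [CommRing O] (π : O) (A K : Type) [CommRing A] [Field K] [Algebra O A]
    [Algebra O K] [Algebra A K] : Prop :=
  ∃ (σ : Type) (_ : Fintype σ) (_ : DecidableEq σ) (D : σ → Derivation O K K) (x : σ → A)
    (g : σ → K), (∀ a, g a ≠ 0) ∧ wr D (fun a => algebraMap A K (x a)) ≠ 0 ∧
    (∀ a : A, ∃ (F G : MvPolynomial σ O) (N : ℕ) (b : A),
      a * aeval x G = aeval x F ∧ aeval x G * b = algebraMap O A π ^ N) ∧
    (∃ (N : ℕ) (r : A), algebraMap O K π ^ N * wr D (fun a => algebraMap A K (x a)) =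
      algebraMap A K r * lwr D g) ∧
    ∀ 𝔮 : Ideal A, 𝔮.IsPrime → 𝔮.height = 1 → algebraMap O A π ∈ 𝔮 → ∃ y : σ → K,
      (∀ b, loc (algebraMap A K) 𝔮 (y b)) ∧
      (∀ a : A, ∃ F G : MvPolynomial σ O, aeval y G ≠ 0 ∧
        loc (algebraMap A K) 𝔮 (aeval y G)⁻¹ ∧ algebraMap A K a * aeval y G = aeval y F) ∧
      ∃ t, loc (algebraMap A K) 𝔮 t ∧ wr D y = t * lwr D g

/-- The condition passes to localizations. -/
def S_locy : Prop := ∀ (O C K : Type) [CommRing O] [CommRing C] [IsDomain C] [Field K]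
  [Algebra O C] [Algebra O K] [Algebra C K] [IsScalarTower O C K] (π : O) (𝔭 : Ideal C)
  [𝔭.IsPrime] [Algebra (Localization.AtPrime 𝔭) K]
  [IsScalarTower C (Localization.AtPrime 𝔭) K],
    LogCY O π C K → LogCY O π (Localization.AtPrime 𝔭) K

/-- The criterion. -/
def S_crit : Prop := ∀ (O A K : Type) [CommRing O] [IsDomain O] [IsDiscreteValuationRing O]
  [CharZero O] [CommRing A] [IsDomain A] [IsLocalRing A] [IsIntegrallyClosed A] [Field K]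
  [Algebra O A] [Algebra O K] [Algebra A K] [IsScalarTower O A K] [IsFractionRing A K]
  [Algebra.EssFiniteType O A] (π : O), Irreducible π → Function.Injective (algebraMap O K) →
    LogCY O π A K → ValInj A K

/-- Residual transcendence degree at a vertical prime of height one. -/
def S_tr : Prop := ∀ (O C σ ν : Type) [CommRing O] [IsDomain O] [IsDiscreteValuationRing O]
  [CommRing C] [IsDomain C] [Algebra O C] [Algebra.FiniteType O C] [Finite σ] [Finite ν]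
  (π : O) (𝔮 : Ideal C) (s : ν → C) (x : σ → C), Irreducible π →
    Function.Injective (algebraMap O C) → 𝔮.IsPrime → 𝔮.height = 1 → algebraMap O C π ∈ 𝔮 →
    (∀ c : C, IsIntegral (Algebra.adjoin O (Set.range s)) c) → AlgebraicIndependent O x →
    ∃ p : σ → ν, ∀ F : MvPolynomial σ O, aeval (fun a => s (p a)) F ∈ 𝔮 → MvPolynomial.C π ∣ F

/-! ## Grassmannians -/

/-- maximal minor with columns `c` -/
def mnr {R : Type} [CommRing R] {r n : ℕ} (N : Matrix (Fin r) (Fin n) R) (c : Fin r → Fin n) :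
    R := (N.submatrix id c).det

/-- the affine coordinates of the row space of `N` in the chart given by `e` -/
def crd {K : Type} [Field K] {r m : ℕ} (N : Matrix (Fin r) (Fin (r + m)) K)
    (e : Fin r ⊕ Fin m ≃ Fin (r + m)) (p : Fin r × Fin m) : K :=
  mnr N (Function.update (fun a => e (Sum.inl a)) p.1 (e (Sum.inr p.2))) /
    mnr N (fun a => e (Sum.inl a))

/-- the cyclic interval starting at `i` -/
def cyc {r n : ℕ} (i : Fin n) (a : Fin r) : Fin n := ⟨(i + a) % n, Nat.mod_lt _ i.pos⟩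

/-- the matrix killing the coordinate `i` -/
def kill (R : Type) [CommRing R] {n : ℕ} (i : Fin n) : Matrix (Fin n) (Fin n) R :=
  Matrix.diagonal fun k => if k = i then 0 else 1

/-- `D` is the family of standard derivations of the function field. -/
def IsStd {O : Type} [CommRing O] [IsDomain O] {r m : ℕ}
    (D : Fin r × Fin m → Derivation O (FF O r m) (FF O r m)) : Prop :=
  ∀ p F, D p (algebraMap (MvPolynomial (Fin r × Fin m) O) _ F) = algebraMap _ _ (pderiv p F)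

/-- Elementary facts on Pluecker coordinates. -/
structure S_pl : Prop where
  ne : ∀ {O : Type} [CommRing O] [IsDomain O] {r m : ℕ} (c : Fin r → Fin (r + m)),
    Function.Injective c → mnr (genMat O r m) c ≠ 0
  plk_eq : ∀ {O : Type} [CommRing O] [IsDomain O] {r m : ℕ} (π : O) (i : Fin (r + m))
    (c : Fin r → Fin (r + m)), plk π i c =
      algebraMap O (FF O r m) π ^ (Finset.univ.filter fun a => c a < i).card *
        mnr (genMat O r m) c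
  cramer : ∀ (O : Type) [CommRing O] {r m : ℕ} (e : Fin r ⊕ Fin m ≃ Fin (r + m))
    (c : Fin r → Fin (r + m)), ∃ F : MvPolynomial (Fin r × Fin m) O,
      ∀ (K : Type) [Field K] [Algebra O K] (N : Matrix (Fin r) (Fin (r + m)) K),
        mnr N (fun a => e (Sum.inl a)) ≠ 0 →
        mnr N c / mnr N (fun a => e (Sum.inl a)) = aeval (crd N e) F
  equiv : ∀ {r m : ℕ} (c : Fin r → Fin (r + m)), Function.Injective c →
    ∃ e : Fin r ⊕ Fin m ≃ Fin (r + m), ∀ a, e (Sum.inl a) = c a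
  frac : ∀ {O : Type} [CommRing O] [IsDomain O] {r m : ℕ} (e : Fin r ⊕ Fin m ≃ Fin (r + m))
    (y : Fin r × Fin m → FF O r m) (π : O) (k k' : Fin r × Fin m → ℕ), π ≠ 0 →
      (∀ p, algebraMap O (FF O r m) π ^ k' p * crd (genMat O r m) e p =
        algebraMap O (FF O r m) π ^ k p * y p) →
      ∀ γ : FF O r m, ∃ F G : MvPolynomial (Fin r × Fin m) O,
        aeval y G ≠ 0 ∧ γ * aeval y G = aeval y F

/-- The volume form in the chart `e`. -/
def S_grjac : Prop := ∀ (O : Type) [CommRing O] [IsDomain O] (r m : ℕ)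
  (D : Fin r × Fin m → Derivation O (FF O r m) (FF O r m)), IsStd D →
    ∀ e : Fin r ⊕ Fin m ≃ Fin (r + m),
      wr D (crd (genMat O r m) e) * mnr (genMat O r m) (fun a => e (Sum.inl a)) ^ (r + m) = 1 ∨
      wr D (crd (genMat O r m) e) * mnr (genMat O r m) (fun a => e (Sum.inl a)) ^ (r + m) = -1

/-- The logarithmic volume form with poles along the cyclic minors. -/
def S_grlog : Prop := ∀ (O : Type) [CommRing O] [IsDomain O] (r m : ℕ)
  (D : Fin r × Fin m → Derivation O (FF O r m) (FF O r m)), IsStd D →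
    ∃ g : Fin r × Fin m → FF O r m, (∀ p, g p ≠ 0) ∧
      (lwr D g * ∏ i : Fin (r + m), mnr (genMat O r m) (cyc i) = 1 ∨
        lwr D g * ∏ i : Fin (r + m), mnr (genMat O r m) (cyc i) = -1)

/-- A cyclic chain of `r`-planes without a bad step lies in one chart. -/
def S_chain1 : Prop := ∀ (k : Type) [Field k] (r n : ℕ)
  (N : Fin n → Matrix (Fin r) (Fin n) k) (A : Fin n → Matrix (Fin r) (Fin r) k), r ≤ n →
    (∀ i, ∃ c, mnr (N i) c ≠ 0) → (∀ i, N i * kill k i = A i * N (finRotate n i)) →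
    (∀ i, (∃ v, Matrix.vecMul v (N i) = Pi.single i 1) → ∃ a, N (finRotate n i) a i ≠ 0) →
    ∃ J : Fin r → Fin n, Function.Injective J ∧ ∀ i, mnr (N i) J ≠ 0

/-- A chain with a bad step deforms and gains a nonzero minor. -/
def S_chain2 : Prop := ∀ (k : Type) [Field k] (r n : ℕ)
  (N : Fin n → Matrix (Fin r) (Fin n) k) (A : Fin n → Matrix (Fin r) (Fin r) k),
    (∀ i, ∃ c, mnr (N i) c ≠ 0) → (∀ i, N i * kill k i = A i * N (finRotate n i)) →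
    ∀ i₀, (∃ v, Matrix.vecMul v (N i₀) = Pi.single i₀ 1) → (∀ a, N (finRotate n i₀) a i₀ = 0) →
    ∃ (N' : Fin n → Matrix (Fin r) (Fin n) (Polynomial k))
      (A' : Fin n → Matrix (Fin r) (Fin r) (Polynomial k)),
      (∀ i, N' i * kill (Polynomial k) i = A' i * N' (finRotate n i)) ∧
      (∀ i, (N' i).map (Polynomial.eval 0) = N i) ∧
      ∃ i c, mnr (N i) c = 0 ∧ mnr (N' i) c ≠ 0

/-- A chain with `r * m` algebraically independent Pluecker ratios lies in one chart. -/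
def S_chain : Prop := ∀ (κ k : Type) [Field κ] [Field k] [Algebra κ k] (r m : ℕ)
  (N : Fin (r + m) → Matrix (Fin r) (Fin (r + m)) k)
  (A : Fin (r + m) → Matrix (Fin r) (Fin r) k),
    (∀ i, ∃ c, mnr (N i) c ≠ 0) → (∀ i, N i * kill k i = A i * N (finRotate (r + m) i)) →
    ∀ t : Fin r × Fin m → k, AlgebraicIndependent κ t →
      (∀ p, ∃ i c c', t p = mnr (N i) c / mnr (N i) c') →
      ∃ J : Fin r → Fin (r + m), Function.Injective J ∧ ∀ i, mnr (N i) J ≠ 0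

/-- The data of a valuation ring with many residually independent Pluecker ratios. -/
def Vert {O : Type} [CommRing O] [IsDomain O] {r m : ℕ} (π : O)
    (V : ValuationSubring (FF O r m)) : Prop :=
  (∀ o, algebraMap O (FF O r m) o ∈ V) ∧ algebraMap O (FF O r m) π ∈ V.nonunits ∧
    ∃ t : Fin r × Fin m → FF O r m,
      (∀ p, ∃ i c c', plk π i c' ≠ 0 ∧ (∀ c'', plk π i c'' / plk π i c' ∈ V) ∧
        t p = plk π i c / plk π i c') ∧
      ∀ F : MvPolynomial (Fin r × Fin m) O, aeval t F ∈ V.nonunits → MvPolynomial.C π ∣ F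

/-- A common chart for all lattices. -/
def S_vera : Prop := ∀ (O : Type) [CommRing O] [IsDomain O] [IsDiscreteValuationRing O]
  (r m : ℕ) (π : O) (V : ValuationSubring (FF O r m)), Irreducible π → Vert π V →
    ∃ J : Fin r → Fin (r + m), Function.Injective J ∧ ∀ i c, plk π i c / plk π i J ∈ V

/-- the integral coordinates in the common chart -/
def ycrd {O : Type} [CommRing O] [IsDomain O] {r m : ℕ} (π : O)
    (e : Fin r ⊕ Fin m ≃ Fin (r + m)) (p : Fin r × Fin m) : FF O r m :=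
  plk π (e (Sum.inr p.2))
      (Function.update (fun a => e (Sum.inl a)) p.1 (e (Sum.inr p.2))) /
    plk π (e (Sum.inr p.2)) (fun a => e (Sum.inl a))

/-- The valuation ring is the Gauss ring of the integral coordinates. -/
def S_verb : Prop := ∀ (O : Type) [CommRing O] [IsDomain O] [IsDiscreteValuationRing O]
  (r m : ℕ) (π : O) (V : ValuationSubring (FF O r m)) (e : Fin r ⊕ Fin m ≃ Fin (r + m)),
    Irreducible π → Vert π V → (∀ i c, plk π i c / plk π i (fun a => e (Sum.inl a)) ∈ V) →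
    ∀ γ ∈ V, ∃ F G : MvPolynomial (Fin r × Fin m) O, aeval (ycrd π e) G ≠ 0 ∧
      (aeval (ycrd π e) G)⁻¹ ∈ V ∧ γ * aeval (ycrd π e) G = aeval (ycrd π e) F

/-- Comparison of the volume forms of the integral coordinates and of the logarithmic form. -/
def S_verc : Prop := ∀ (O : Type) [CommRing O] [IsDomain O] (r m : ℕ) (π : O)
  (D : Fin r × Fin m → Derivation O (FF O r m) (FF O r m)) (e : Fin r ⊕ Fin m ≃ Fin (r + m))
  (Θ : FF O r m), π ≠ 0 → IsStd D →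
    (Θ * ∏ i : Fin (r + m), mnr (genMat O r m) (cyc i) = 1 ∨
      Θ * ∏ i : Fin (r + m), mnr (genMat O r m) (cyc i) = -1) →
    (wr D (ycrd π e) =
        (∏ i : Fin (r + m), plk π i (cyc i) / plk π i (fun a => e (Sum.inl a))) * Θ ∨
      wr D (ycrd π e) =
        -(∏ i : Fin (r + m), plk π i (cyc i) / plk π i (fun a => e (Sum.inl a))) * Θ)

/-- the coordinates of the chart of the lattice number `i` -/
def xcrd {O : Type} [CommRing O] [IsDomain O] {r m : ℕ} (π : O) (i : Fin (r + m))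
    (e : Fin r ⊕ Fin m ≃ Fin (r + m)) (p : Fin r × Fin m) : FF O r m :=
  plk π i (Function.update (fun a => e (Sum.inl a)) p.1 (e (Sum.inr p.2))) /
    plk π i (fun a => e (Sum.inl a))

/-- The generic fibre. -/
def S_hor : Prop := ∀ (O : Type) [CommRing O] [IsDomain O] [IsDiscreteValuationRing O]
  [CharZero O] (r m : ℕ) (π : O) (I : Finset (Fin (r + m)))
  (J : Fin (r + m) → Fin r → Fin (r + m)) (i₀ : Fin (r + m))
  (e : Fin r ⊕ Fin m ≃ Fin (r + m))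
  (D : Fin r × Fin m → Derivation O (FF O r m) (FF O r m)) (Θ : FF O r m), π ≠ 0 → i₀ ∈ I →
    (∀ i ∈ I, Function.Injective (J i)) → (∀ a, e (Sum.inl a) = J i₀ a) → IsStd D →
    (Θ * ∏ i : Fin (r + m), mnr (genMat O r m) (cyc i) = 1 ∨
      Θ * ∏ i : Fin (r + m), mnr (genMat O r m) (cyc i) = -1) →
    wr D (xcrd π i₀ e) ≠ 0 ∧
    (∀ γ ∈ nchart π I J, ∃ (F G : MvPolynomial (Fin r × Fin m) O) (N : ℕ),
      ∃ b ∈ nchart π I J, γ * aeval (xcrd π i₀ e) G = aeval (xcrd π i₀ e) F ∧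
        aeval (xcrd π i₀ e) G * b = algebraMap O (FF O r m) π ^ N) ∧
    ∃ N : ℕ, ∃ ρ ∈ nchart π I J, algebraMap O (FF O r m) π ^ N * wr D (xcrd π i₀ e) = ρ * Θ

/-- The charts of the local model satisfy the criterion. -/
def S_gr : Prop := ∀ (O : Type) [CommRing O] [IsDomain O] [IsDiscreteValuationRing O]
  [CharZero O] (r m : ℕ) (π : O) (I : Finset (Fin (r + m)))
  (J : Fin (r + m) → Fin r → Fin (r + m)), Irreducible π → I.Nonempty →
    (∀ i ∈ I, Function.Injective (J i)) →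
    Algebra.FiniteType O (nchart π I J) ∧ IsFractionRing (nchart π I J) (FF O r m) ∧
      IsIntegrallyClosed (nchart π I J) ∧ LogCY O π (nchart π I J) (FF O r m)

end

end Pool.Agent.P.MP_e7d440_ag
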