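import Pool.Agent.P.MP_e7d440_ag.Bd

/-! The Cech complex in the top degree. -/

namespace Pool.Agent.P.MP_e7d440_ag

namespace TopA

section alt
variable {Γ : Type} [DecidableEq Γ] (a : Γ)

/-- the alternating extension operator -/
def ext (th : List Γ → ℤ) : List Γ → ℤ
  | [] => 0
  | b :: l => if b = a then (if a ∈ l then 0 else th l) else - ext (fun l' => th (b :: l')) l

lemma ext_sub (f g : List Γ → ℤ) (l : List Γ) :
    ext a (fun l => f l - g l) l = ext a f l - ext a g l := by
  induction l generalizing f g with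
  | nil => simp [ext]
  | cons b l ih =>
    simp only [ext]
    split_ifs
    · simp
    · rfl
    · rw [ih]; ring

lemma ext_zero (th : List Γ → ℤ) (l : List Γ)
    (h : ∀ l', a ∉ l' → (a :: l').Perm l → th l' = 0) : ext a th l = 0 := by
  induction l generalizing th with
  | nil => rfl
  | cons b l ih =>
    simp only [ext]
    split_ifs with h1 h2
    · rfl
    · exact h l h2 (h1 ▸ List.Perm.refl _)
    · rw [ih, neg_zero]
      intro l' h3 h4
      refine h (b :: l') ?_ ((List.Perm.swap b a l').trans (h4.cons b))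
      simp [h3, Ne.symm h1]

lemma bd_cut (th : List Γ → ℤ) (l : List Γ) :
    bd (fun l' => if a ∈ l' then 0 else th l') l =
      ext a th l + if a ∈ l then 0 else bd th l := by
  induction l generalizing th with
  | nil => simp [ext]
  | cons b l ih =>
    rw [bd_cons]
    by_cases h : b = a
    · subst h
      simp [ext]
    · have h' : a ≠ b := Ne.symm h
      simp only [List.mem_cons, h', false_or, ext, if_neg h]
      rw [ih, bd_cons]
      split_ifs <;> ring

lemma bd_ext (th : List Γ → ℤ) (l : List Γ) : bd (ext a th) l = - ext a (bd th) l := by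
  induction l generalizing th with
  | nil => simp [ext]
  | cons b l ih =>
    rw [bd_cons]
    by_cases h : b = a
    · subst h
      simp only [ext, if_true]
      rw [bd_cut]
      ring
    · simp only [ext, if_neg h]
      rw [bd_neg, ih]
      have : (fun l' => bd th (b :: l')) = fun l' => th l' - bd (fun l'' => th (b :: l'')) l' :=
        funext fun l' => bd_cons th b l'
      rw [this, ext_sub]
      ring

end alt

lemma exists_sign {Γ : Type} (l0 : List Γ) (hn : l0.Nodup) :
    ∃ s : List Γ → ℤ, (∀ l, ¬ l.Perm l0 → s l = 0) ∧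
      (∀ l : List Γ, (∀ i ∈ l, i ∈ l0) → l.length = l0.length + 1 → bd s l = 0) ∧ s l0 = 1 := by
  classical
  induction l0 with
  | nil =>
    refine ⟨fun l => if l = [] then 1 else 0, fun l h => if_neg (by simpa using h),
      fun l h hl => ?_, by simp⟩
    cases l with
    | nil => simp at hl
    | cons b l => exact absurd (h b (by simp)) (by simp)
  | cons a l0 ih =>
    obtain ⟨ha, hn'⟩ := List.nodup_cons.1 hn
    obtain ⟨s, h1, h2, h3⟩ := ih hn'
    refine ⟨ext a s, fun l h => ext_zero a s l fun l' _ hp => h1 l' fun hp' =>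
      h (hp.symm.trans (hp'.cons a)), fun l h hl => ?_, by simp [ext, ha, h3]⟩
    rw [bd_ext, ext_zero, neg_zero]
    intro l' ha' hp
    refine h2 l' (fun i hi => ?_) ?_
    · rcases List.mem_cons.1 (h i (hp.subset (List.mem_cons_of_mem a hi))) with rfl | h4
      · exact absurd hi ha'
      · exact h4
    · have := hp.length_eq
      simp only [List.length_cons] at this hl
      omega

lemma bd_smul_const {Γ M : Type} [AddCommGroup M] (s : List Γ → ℤ) (v : M) (l : List Γ) :
    bd (fun l => s l • v) l = bd s l • v :=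
  bd_hom (zmultiplesHom M v) s l

variable {Q F Γ : Type} [CommRing Q] [Field F] [Algebra Q F] {w : Γ → Q} {𝔞 : Ideal Q}

lemma deg_restrict {E E' : Set Γ} (h : E ⊆ E') {c : Q} {q : ℕ} {ξ : List Γ → F}
    (hξ : Deg w 𝔞 E' c q ξ) : Deg w 𝔞 E c q ξ := fun l hl => hξ l fun i hi => h (hl i hi)

lemma coc_restrict {E E' : Set Γ} (h : E ⊆ E') {c : Q} {q : ℕ} {ξ : List Γ → F}
    (hξ : Coc w 𝔞 E' c q ξ) : Coc w 𝔞 E c q ξ := ⟨deg_restrict h hξ.1, deg_restrict h hξ.2⟩

/-- extension by zero, then one step -/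
lemma step' (hS : S_step) {E : Set Γ} {a : Γ} {c : Q} {q : ℕ} {ξ ζ : List Γ → F} (ha : a ∉ E)
    (h1 : Coc w 𝔞 (insert a E) c (q + 1) ξ) (h2 : Deg w ⊤ E c q ζ)
    (h3 : Deg w 𝔞 E c (q + 1) (fun l => ξ l - bd ζ l)) :
    ∃ η : List Γ → F, (∀ l, (∀ i ∈ l, i ∈ E) → η l = ξ (a :: l) - ζ l) ∧
      Coc w 𝔞 E (c * w a) q η ∧
      (Cob w 𝔞 E (c * w a) q η → Cob w 𝔞 (insert a E) c (q + 1) ξ) := by
  classical
  let ζ' : List Γ → F := fun l => if ∀ i ∈ l, i ∈ E then ζ l else 0
  have e1 : ∀ l, (∀ i ∈ l, i ∈ E) → ζ' l = ζ l := fun l h => if_pos h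
  have e2 : ∀ l, (¬ ∀ i ∈ l, i ∈ E) → ζ' l = 0 := fun l h => if_neg h
  refine ⟨fun l => ξ (a :: l) - bd ζ' (a :: l), fun l hl => ?_,
    hS Q F Γ w 𝔞 E a c q ξ ζ' ha h1 (fun l hl hq => ?_) e2 fun l hl hq => ?_⟩
  · have : (fun l' => ζ' (a :: l')) = fun _ => 0 :=
      funext fun l' => e2 _ fun h => ha (h a (by simp))
    simp only [bd_cons, this, bd_zero, sub_zero, e1 l hl]
  · rw [e1 l hl]; exact h2 l hl hq
  · have : bd ζ' l = bd ζ l := bd_congr fun l' hs _ => e1 l' fun i hi => hl i (hs.subset hi)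
    simp only [this]
    exact h3 l hl hq

lemma set_cons (a : Γ) (l0 : List Γ) : {i | i ∈ a :: l0} = insert a {i | i ∈ l0} := by
  ext i; simp

lemma above (hS : S_step) (l0 : List Γ) (hn : l0.Nodup) (c : Q) (q : ℕ) (ξ : List Γ → F)
    (hq : l0.length < q) (h : Coc w 𝔞 {i | i ∈ l0} c q ξ) : Cob w 𝔞 {i | i ∈ l0} c q ξ := by
  induction l0 generalizing c q ξ with
  | nil =>
    refine ⟨fun _ => 0, fun _ _ _ => Mem.zero, fun l hl hl' => ?_⟩
    cases l with
    | nil => simp at hl' hq; omega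
    | cons b l => exact absurd (hl b (by simp)) (by simp)
  | cons a l0 ih =>
    obtain ⟨ha, hn'⟩ := List.nodup_cons.1 hn
    rw [List.length_cons] at hq
    obtain ⟨q, rfl⟩ : ∃ q', q = q' + 1 := ⟨q - 1, by omega⟩
    rw [set_cons] at h ⊢
    obtain ⟨ζ, h1, h2⟩ := ih hn' c (q + 1) ξ (by omega) (coc_restrict (Set.subset_insert _ _) h)
    obtain ⟨η, -, h3, h4⟩ := step' hS (a := a) ha h (fun l hl hl' => h1 l hl (by omega)) h2
    exact h4 (ih hn' _ q η (by omega) h3)

lemma top (hS : S_step) (l0 : List Γ) (hn : l0.Nodup) (c : Q) (ξ : List Γ → F)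
    (h : Coc w 𝔞 {i | i ∈ l0} c l0.length ξ) (h0 : Mem 𝔞 (c * (l0.map w).prod) (ξ l0)) :
    Cob w 𝔞 {i | i ∈ l0} c l0.length ξ := by
  induction l0 generalizing c ξ with
  | nil =>
    refine ⟨fun _ => 0, fun _ _ _ => Mem.zero, fun l _ hl' => ?_⟩
    obtain rfl := List.length_eq_zero_iff.1 hl'
    simpa using h0
  | cons a l0 ih =>
    obtain ⟨ha, hn'⟩ := List.nodup_cons.1 hn
    rw [set_cons, List.length_cons] at h ⊢
    obtain ⟨ζ, h1, h2⟩ := above hS l0 hn' c _ ξ (Nat.lt_succ_self _)
      (coc_restrict (Set.subset_insert _ _) h)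
    obtain ⟨s, s1, s2, s3⟩ := exists_sign l0 hn'
    obtain ⟨η, h5, h3, h4⟩ := step' hS (a := a) (ζ := fun l => ζ l - s l • ζ l0) ha h
      (fun l hl hl' => (h1 l hl (by omega)).sub (by
        by_cases hp : l.Perm l0
        · rw [(hp.map w).prod_eq]
          exact (memSub F ⊤ _).zsmul_mem (h1 l0 (fun _ hi => hi) rfl) _
        · rw [s1 l hp, zero_smul]; exact Mem.zero))
      (fun l hl hl' => by
        simp only [bd_sub, bd_smul_const, s2 l hl hl', zero_smul, sub_zero]
        exact h2 l hl hl')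
    refine h4 (ih hn' _ η h3 ?_)
    rw [h5 l0 fun _ hi => hi, s3, one_smul, sub_self, sub_zero, mul_assoc]
    simpa using h0

lemma bd_sum {ι M : Type} [AddCommGroup M] (S : Finset ι) (f : ι → List Γ → M) (l : List Γ) :
    bd (fun l => ∑ j ∈ S, f j l) l = ∑ j ∈ S, bd (f j) l := by
  simp only [bd, Finset.smul_sum]
  exact Finset.sum_comm

/-- elements that are eventually multiplied into the ideal -/
def evSub (F : Type) [Field F] [Algebra Q F] (Y : Q) (J : ℕ → Ideal Q) : AddSubgroup F where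
  carrier := {u | ∀ᶠ k in Filter.atTop, ∃ b ∈ J k, algebraMap Q F Y ^ k * u = algebraMap Q F b}
  zero_mem' := Filter.Eventually.of_forall fun k => ⟨0, (J k).zero_mem, by simp⟩
  add_mem' := fun {u v} hu hv => by
    filter_upwards [hu, hv] with k ⟨b, hb, e⟩ ⟨b', hb', e'⟩
    exact ⟨b + b', (J k).add_mem hb hb', by rw [mul_add, e, e', map_add]⟩
  neg_mem' := fun {u} hu => by
    filter_upwards [hu] with k ⟨b, hb, e⟩
    exact ⟨-b, (J k).neg_mem hb, by rw [mul_neg, e, map_neg]⟩

end TopA

open TopA in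
theorem tops (hS : S_step) : S_top := by
  constructor
  · intro Q F _ _ _ hinj d y 𝔞 ξ T a ⟨ζ, h1, h2⟩ ha
    set Y := ∏ i, y i with hY
    have hY' : Y = ((List.finRange d).map y).prod := Fin.prod_univ_def y
    have h3 : ξ (List.finRange d) ∈ evSub F Y fun k => 𝔞 ⊔ sp fun i => y i ^ k := by
      rw [← sub_add_cancel (ξ _) (bd ζ (List.finRange d))]
      refine add_mem ?_ (bd_mem _ fun l hs hl => ?_)
      · obtain ⟨N, b, hb, e⟩ := h2 (List.finRange d) (fun _ _ => trivial) (by simp)
        rw [one_mul, ← hY'] at e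
        filter_upwards [Filter.eventually_ge_atTop N] with k hk
        obtain ⟨b', hb', e'⟩ := Mem.exp hb e hk
        exact ⟨b', Ideal.mem_sup_left hb', e'⟩
      · obtain ⟨N, b, hb, e⟩ := h1 l (fun _ _ => trivial) (by simpa using hl)
        obtain ⟨r, hr⟩ := hs.exists_perm_append
        have h4 : r.length = 1 := by
          have := hr.length_eq
          rw [List.length_append] at this
          omega
        obtain ⟨i, rfl⟩ := List.length_eq_one_iff.1 h4
        have h5 : Y = y i * (1 * (l.map y).prod) := by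
          rw [hY', (hr.map y).prod_eq]; simp [mul_comm]
        filter_upwards [Filter.eventually_ge_atTop N] with k hk
        obtain ⟨b', -, e'⟩ := Mem.exp hb e hk
        refine ⟨y i ^ k * b', Ideal.mem_sup_right (Ideal.mul_mem_right _ _
          (Ideal.subset_span ⟨i, rfl⟩)), ?_⟩
        rw [h5, map_mul, mul_pow, mul_assoc, e', map_mul, map_pow]
    obtain ⟨N, hN⟩ := Filter.eventually_atTop.1 h3
    obtain ⟨b, hb, e⟩ := hN (T + N) (by omega)
    refine ⟨N, ?_⟩
    have : Y ^ N * a = b := hinj (by rw [map_mul, map_pow, ← ha, ← e]; ring)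
    rw [this]; exact hb
  · intro Q F _ _ _ hinj d y 𝔞 ξ T k a hy hξ ha hm
    classical
    set Y := ∏ i, y i with hY
    set l0 := List.finRange d with hl0
    have hlen : l0.length = d := List.length_finRange
    have hY' : Y = (l0.map y).prod := Fin.prod_univ_def y
    have hE : {i | i ∈ l0} = Set.univ := Set.eq_univ_of_forall fun i => List.mem_finRange i
    obtain ⟨α, hα, β, hβ, e⟩ := Submodule.mem_sup.1 hm
    obtain ⟨b, rfl⟩ := Ideal.mem_span_range_iff_exists_fun.1 hβ
    obtain ⟨s, s1, s2, s3⟩ := exists_sign l0 (List.nodup_finRange d)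
    let Z : Fin d → Q := fun j => ((l0.erase j).map y).prod
    have hZ : ∀ j, Y = y j * Z j := fun j => by
      rw [hY', ((List.perm_cons_erase (List.mem_finRange j)).map y).prod_eq]; rfl
    have hY0 : algebraMap Q F Y ≠ 0 := by
      rw [hY, map_prod]
      exact Finset.prod_ne_zero_iff.2 fun i _ => (map_ne_zero_iff _ hinj).2 (hy i)
    have hZ0 : ∀ j, algebraMap Q F (Z j) ≠ 0 := fun j h => hY0 (by rw [hZ j, map_mul, h, mul_zero])
    let u : Fin d → F := fun j => algebraMap Q F (b j) / algebraMap Q F (Z j) ^ (T + k)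
    have hu : ∀ j, algebraMap Q F (Z j) ^ (T + k) * u j = algebraMap Q F (b j) := fun j =>
      mul_div_cancel₀ _ (pow_ne_zero _ (hZ0 j))
    let ζ0 : List (Fin d) → F := fun l => ∑ j, s (j :: l) • u j
    have z1 : ∀ l : List (Fin d), Mem ⊤ (1 * (l.map y).prod) (ζ0 l) := fun l => by
      refine (memSub F ⊤ _).sum_mem fun j _ => ?_
      by_cases hp : (j :: l).Perm l0
      · have h1 : l.Perm (l0.erase j) :=
          (hp.trans (List.perm_cons_erase (List.mem_finRange j))).cons_inv
        rw [(h1.map y).prod_eq, one_mul]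
        exact (memSub F ⊤ _).zsmul_mem ⟨T + k, b j, trivial, hu j⟩ _
      · rw [s1 _ hp, zero_smul]; exact zero_mem _
    have z2 : bd ζ0 l0 = ∑ j, u j := by
      refine (bd_sum _ _ _).trans (Finset.sum_congr rfl fun j _ => ?_)
      have h1 := bd_cons s j l0
      rw [s2 _ (fun i _ => List.mem_finRange i) rfl, s3] at h1
      have h2 : bd (fun l' => s (j :: l')) l0 = 1 := by omega
      rw [bd_smul_const (fun l => s (j :: l)), h2, one_smul]
    have z3 : Coc y 𝔞 Set.univ 1 d fun l => ξ l - bd ζ0 l := by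
      refine ⟨fun l hl hl' => (hξ.1 l hl hl').sub (Mem.bd fun l' _ _ => z1 l'), fun l hl hl' => ?_⟩
      rw [bd_sub, bd_bd, sub_zero]
      exact hξ.2 l hl hl'
    have z4 : Mem 𝔞 (1 * (l0.map y).prod) (ξ l0 - bd ζ0 l0) := by
      refine ⟨T + k, α, hα, ?_⟩
      have h1 : ∀ j, algebraMap Q F Y ^ (T + k) * u j = algebraMap Q F (b j * y j ^ (T + k)) :=
        fun j => by rw [hZ j, map_mul, mul_pow, mul_assoc, hu, map_mul, map_pow, mul_comm]
      rw [one_mul, ← hY', z2, mul_sub, Finset.mul_sum, Finset.sum_congr rfl fun j _ => h1 j,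
        ← map_sum, eq_sub_of_add_eq e, map_sub, map_mul, map_pow, ← ha]
      ring
    have z5 := top hS l0 (List.nodup_finRange d) 1 (fun l => ξ l - bd ζ0 l)
      (by rw [hE, hlen]; exact z3) z4
    rw [hE, hlen] at z5
    obtain ⟨ζ1, h1, h2⟩ := z5
    refine ⟨fun l => ζ1 l + ζ0 l, fun l hl hl' => (h1 l hl hl').add (z1 l), fun l hl hl' => ?_⟩
    have h3 := h2 l hl hl'
    simp only [bd_add]
    rwa [show ξ l - (bd ζ1 l + bd ζ0 l) = ξ l - bd ζ0 l - bd ζ1 l by ring]

end Pool.Agent.P.MP_e7d440_ag
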